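import Pool.Agent.H77.OW.Approx1

/-!
# Task Approx (Part IIa) : primitive recursive approximation of a K-trivial set   (about 300 lines)

See MP_e7a618_plan.md (team-store), Part IIa, for the proof.  `count_bound` (module Approx1) is the counting theorem.
Note `encode ([] : List Bool) = 0`, so the condition for j = 0 is trivial.
-/

namespace OWR

open MeasureTheory Encodable Filter Topology

/-! ### Auxiliary facts for `exists_approx` -/

/-- the list of all strings of length `n` -/
private noncomputable def apAll (n : ℕ) : List (List Bool) :=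
  Nat.rec [[]] (fun _ L => L.flatMap fun σ => [σ ++ [false], σ ++ [true]]) n

private theorem mem_apAll (n : ℕ) (σ : List Bool) : σ ∈ apAll n ↔ σ.length = n := by
  induction n generalizing σ with
  | zero =>
    change σ ∈ [[]] ↔ _
    simp
  | succ n ih =>
    change σ ∈ (apAll n).flatMap (fun σ => [σ ++ [false], σ ++ [true]]) ↔ _
    rw [List.mem_flatMap]
    constructor
    · rintro ⟨τ, h1, h2⟩
      rw [ih] at h1
      simp only [List.mem_cons, List.not_mem_nil, or_false] at h2
      rcases h2 with rfl | rfl <;> simp [h1]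
    · intro h
      have hne : σ ≠ [] := by
        rintro rfl
        simp at h
      refine ⟨σ.dropLast, (ih _).2 (by simp [h]), ?_⟩
      have h1 : σ.dropLast ++ [σ.getLast hne] = σ := List.dropLast_append_getLast hne
      cases h2 : σ.getLast hne
      · rw [h2] at h1
        simp [h1]
      · rw [h2] at h1
        simp [h1]

/-- all strings of length at most `n`, ordered by decreasing length -/
private noncomputable def apCand (n : ℕ) : List (List Bool) :=
  Nat.rec (apAll 0) (fun k L => apAll (k + 1) ++ L) n

private theorem mem_apCand (n : ℕ) (σ : List Bool) : σ ∈ apCand n ↔ σ.length ≤ n := by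
  induction n with
  | zero =>
    change σ ∈ apAll 0 ↔ _
    rw [mem_apAll]
    omega
  | succ n ih =>
    change σ ∈ apAll (n + 1) ++ apCand n ↔ _
    rw [List.mem_append, mem_apAll, ih]
    omega

/-- the first element of the filtered list of candidates has maximal length -/
private theorem apCand_head (P : List Bool → Bool) (n : ℕ) (σ : List Bool)
    (h : ((apCand n).filter P).head? = some σ) :
    P σ = true ∧ σ.length ≤ n ∧ ∀ τ : List Bool, τ.length ≤ n → P τ = true → τ.length ≤ σ.length := by
  have hmem : σ ∈ (apCand n).filter P := List.mem_of_head? h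
  rw [List.mem_filter, mem_apCand] at hmem
  refine ⟨hmem.2, hmem.1, ?_⟩
  induction n with
  | zero =>
    intro τ hτ _
    omega
  | succ n ih =>
    intro τ hτ hPτ
    change ((apAll (n + 1) ++ apCand n).filter P).head? = some σ at h
    rw [List.filter_append, List.head?_append] at h
    cases h1 : ((apAll (n + 1)).filter P).head? with
    | some ρ =>
      rw [h1] at h
      simp only [Option.some_or, Option.some.injEq] at h
      subst h
      have h2 := List.mem_of_head? h1
      rw [List.mem_filter, mem_apAll] at h2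
      omega
    | none =>
      rw [h1] at h
      simp only [Option.none_or] at h
      have h3 : τ.length ≤ n := by
        by_contra h4
        have h5 : τ ∈ (apAll (n + 1)).filter P := by
          rw [List.mem_filter, mem_apAll]
          exact ⟨by omega, hPτ⟩
        rw [List.head?_eq_none_iff] at h1
        rw [h1] at h5
        exact List.not_mem_nil h5
      have h6 : σ ∈ (apCand n).filter P := List.mem_of_head? h
      rw [List.mem_filter, mem_apCand] at h6
      exact ih h ⟨h6.1, h6.2⟩ τ h3 hPτ

private theorem prim_apAll : Primrec apAll := by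
  have h : Primrec₂ fun (_ : ℕ) (L : List (List Bool)) =>
      L.flatMap fun σ => [σ ++ [false], σ ++ [true]] := by
    refine Primrec.list_flatMap Primrec.snd ?_
    refine Primrec.list_cons.comp (Primrec.list_concat.comp Primrec.snd (Primrec.const false)) ?_
    exact Primrec.list_cons.comp (Primrec.list_concat.comp Primrec.snd (Primrec.const true))
      (Primrec.const [])
  exact Primrec.nat_rec₁ [[]] h

private theorem prim_apCand : Primrec apCand := by
  have h : Primrec₂ fun (k : ℕ) (L : List (List Bool)) => apAll (k + 1) ++ L :=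
    Primrec.list_append.comp (prim_apAll.comp (Primrec.succ.comp Primrec.fst)) Primrec.snd
  exact Primrec.nat_rec₁ (apAll 0) h

/-- condition at level `j` of the stage `s` tree -/
private def apOk (S : KSys) (b s : ℕ) (σ : List Bool) (j : ℕ) : Prop :=
  (∃ r ∈ List.range s, S.le s j r = true) ∧
    ∀ r ∈ List.range s, S.le s j r = true → S.le s (encode (σ.take j)) (r + b) = true

/-- the stage `s` tree -/
private def apT (S : KSys) (b s : ℕ) (σ : List Bool) : Prop :=
  ∀ j ∈ List.range (σ.length + 1), apOk S b s σ j

/-- the limit tree -/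
private def apTi (S : KSys) (b : ℕ) (σ : List Bool) : Prop :=
  ∀ j ≤ σ.length, ∀ r, (∃ s, S.le s j r = true) →
    ∃ s, S.le s (encode (σ.take j)) (r + b) = true

private theorem prim_apT (S : KSys) (b : ℕ) :
    PrimrecRel fun (σ : List Bool) (s : ℕ) => apT S b s σ := by
  have h1 : PrimrecRel fun (r : ℕ) (y : ℕ × ℕ × List Bool) => S.le y.1 y.2.1 r = true := by
    have h : Primrec fun q : ℕ × (ℕ × ℕ × List Bool) => (q.2.1, q.2.2.1, q.1) :=
      (Primrec.fst.comp Primrec.snd).pair
        ((Primrec.fst.comp (Primrec.snd.comp Primrec.snd)).pair Primrec.fst)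
    exact Primrec.eq.comp (S.prim.comp h) (Primrec.const true)
  have h2 : PrimrecRel fun (r : ℕ) (y : ℕ × ℕ × List Bool) =>
      S.le y.1 (encode (y.2.2.take y.2.1)) (r + b) = true := by
    have h : Primrec fun q : ℕ × (ℕ × ℕ × List Bool) =>
        (q.2.1, encode (q.2.2.2.take q.2.2.1), q.1 + b) := by
      refine (Primrec.fst.comp Primrec.snd).pair (Primrec.pair ?_ ?_)
      · exact Primrec.encode.comp (Primrec.list_take.comp
          (Primrec.fst.comp (Primrec.snd.comp Primrec.snd))
          (Primrec.snd.comp (Primrec.snd.comp Primrec.snd)))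
      · exact Primrec.nat_add.comp Primrec.fst (Primrec.const b)
    exact Primrec.eq.comp (S.prim.comp h) (Primrec.const true)
  have h3 : PrimrecRel fun (r : ℕ) (y : ℕ × ℕ × List Bool) => S.le y.1 y.2.1 r = true →
      S.le y.1 (encode (y.2.2.take y.2.1)) (r + b) = true := by
    refine (PrimrecPred.or (PrimrecPred.not h1) h2).of_eq ?_
    intro y
    exact imp_iff_not_or.symm
  have h4 : PrimrecRel fun (j : ℕ) (z : ℕ × List Bool) => apOk S b z.1 z.2 j := by
    have hl : Primrec fun q : ℕ × (ℕ × List Bool) => List.range q.2.1 :=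
      Primrec.list_range.comp (Primrec.fst.comp Primrec.snd)
    have hy : Primrec fun q : ℕ × (ℕ × List Bool) => (q.2.1, q.1, q.2.2) :=
      (Primrec.fst.comp Primrec.snd).pair (Primrec.fst.pair (Primrec.snd.comp Primrec.snd))
    exact PrimrecPred.and (h1.exists_mem_list.comp hl hy) (h3.forall_mem_list.comp hl hy)
  have hl : Primrec fun q : List Bool × ℕ => List.range (q.1.length + 1) :=
    Primrec.list_range.comp (Primrec.succ.comp (Primrec.list_length.comp Primrec.fst))
  exact h4.forall_mem_list.comp hl (Primrec.snd.pair Primrec.fst)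

private theorem prim_apP (S : KSys) (b n0 : ℕ) (ρ0 : List Bool) :
    PrimrecRel fun (σ : List Bool) (s : ℕ) => σ.take n0 = ρ0 ∧ apT S b s σ := by
  refine PrimrecPred.and ?_ (prim_apT S b)
  exact Primrec.eq.comp (Primrec.list_take.comp (Primrec.const n0) Primrec.fst)
    (Primrec.const ρ0)

open Classical in
/-- the approximation -/
private noncomputable def apAs (S : KSys) (b n0 : ℕ) (ρ0 : List Bool) (s : ℕ) : List Bool :=
  (((apCand s).filter fun σ => decide (σ.take n0 = ρ0 ∧ apT S b s σ)).head?).getD []

private theorem prim_apAs (S : KSys) (b n0 : ℕ) (ρ0 : List Bool) :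
    Primrec (apAs S b n0 ρ0) := by
  classical
  have h := (prim_apP S b n0 ρ0).listFilter.comp prim_apCand Primrec.id
  exact (Primrec.option_getD.comp (Primrec.list_head?.comp h) (Primrec.const [])).of_eq
    fun s => by simp [apAs]

private theorem apAs_spec (S : KSys) (b n0 : ℕ) (ρ0 : List Bool) (s : ℕ) :
    (apAs S b n0 ρ0 s = [] ∧ ∀ τ : List Bool, τ.length ≤ s → ¬ (τ.take n0 = ρ0 ∧ apT S b s τ)) ∨
      (((apAs S b n0 ρ0 s).take n0 = ρ0 ∧ apT S b s (apAs S b n0 ρ0 s)) ∧
        (apAs S b n0 ρ0 s).length ≤ s ∧
        ∀ τ : List Bool, τ.length ≤ s → (τ.take n0 = ρ0 ∧ apT S b s τ) →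
          τ.length ≤ (apAs S b n0 ρ0 s).length) := by
  classical
  unfold apAs
  cases h : ((apCand s).filter fun σ => decide (σ.take n0 = ρ0 ∧ apT S b s σ)).head? with
  | none =>
    left
    refine ⟨rfl, fun τ hτ hP => ?_⟩
    rw [List.head?_eq_none_iff] at h
    have h5 : τ ∈ (apCand s).filter fun σ => decide (σ.take n0 = ρ0 ∧ apT S b s σ) := by
      rw [List.mem_filter, mem_apCand]
      exact ⟨hτ, decide_eq_true hP⟩
    rw [h] at h5
    exact List.not_mem_nil h5
  | some σ =>
    right
    obtain ⟨h1, h2, h3⟩ := apCand_head _ _ _ h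
    exact ⟨of_decide_eq_true h1, h2, fun τ h4 h5 => h3 τ h4 (decide_eq_true h5)⟩

private theorem apT_take {S : KSys} {b s : ℕ} {σ : List Bool} (h : apT S b s σ) (L : ℕ) :
    apT S b s (σ.take L) := by
  intro j hj
  rw [List.mem_range, List.length_take] at hj
  have h1 := h j (by rw [List.mem_range]; omega)
  unfold apOk at h1 ⊢
  rw [List.take_take, min_eq_left (by omega)]
  exact h1

private theorem apTi_take {S : KSys} {b : ℕ} {σ : List Bool} (h : apTi S b σ) (L : ℕ) :
    apTi S b (σ.take L) := by
  intro j hj
  rw [List.length_take] at hj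
  rw [List.take_take, min_eq_left (by omega)]
  exact h j (by omega)

/-- every number has some complexity -/
private theorem ap_finite (S : KSys) (x : ℕ) : ∃ r s, S.le s x r = true := by
  obtain ⟨C, hC⟩ := S.univ (fun r x => r = x + 1) (by
    refine re_of_primrec ?_
    exact Primrec.eq.comp Primrec.fst (Primrec.succ.comp Primrec.snd)) (by
    intro F hF
    have h1 : ∑ p ∈ F, (2 : ℝ)⁻¹ ^ p.1 = ∑ x ∈ F.image Prod.snd, (2 : ℝ)⁻¹ ^ (x + 1) := by
      rw [Finset.sum_image]
      · exact Finset.sum_congr rfl fun p hp => by rw [hF p hp]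
      · intro p hp q hq h
        exact Prod.ext (by rw [hF p hp, hF q hq, h]) h
    rw [h1]
    have h2 : F.image Prod.snd ⊆ Finset.range ((F.image Prod.snd).sup id + 1) := by
      intro x hx
      rw [Finset.mem_range]
      have := Finset.le_sup (f := id) hx
      simp only [id] at this
      omega
    refine (Finset.sum_le_sum_of_subset_of_nonneg h2 fun x _ _ => by positivity).trans ?_
    generalize (F.image Prod.snd).sup id + 1 = N
    have h3 : ∑ x ∈ Finset.range N, (2 : ℝ)⁻¹ ^ (x + 1) = 1 - (2 : ℝ)⁻¹ ^ N := by
      induction N with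
      | zero => simp
      | succ N ih =>
        rw [Finset.sum_range_succ, ih, pow_succ]
        ring
    rw [h3]
    have : (0 : ℝ) ≤ (2 : ℝ)⁻¹ ^ N := by positivity
    linarith)
  exact ⟨x + 1 + C, hC (x + 1) x rfl⟩

private theorem apTi_eventually {S : KSys} {b : ℕ} {σ : List Bool} (h : apTi S b σ) :
    ∀ᶠ s in atTop, apT S b s σ := by
  classical
  have key : ∀ j ∈ Finset.range (σ.length + 1), ∀ᶠ s in atTop, apOk S b s σ j := by
    intro j hj
    rw [Finset.mem_range] at hj
    have hex : ∃ r, ∃ s, S.le s j r = true := ap_finite S j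
    obtain ⟨s1, hs1⟩ := Nat.find_spec hex
    have hmin : ∀ r s, S.le s j r = true → Nat.find hex ≤ r := fun r s hr =>
      Nat.find_min' hex ⟨s, hr⟩
    generalize Nat.find hex = r0 at hs1 hmin
    obtain ⟨s2, hs2⟩ := h j (by omega) r0 ⟨s1, hs1⟩
    filter_upwards [eventually_ge_atTop (max (max s1 s2) (r0 + 1))] with s hs
    have e1 : s1 ≤ s := (le_max_left _ _).trans ((le_max_left _ _).trans hs)
    have e2 : s2 ≤ s := (le_max_right _ _).trans ((le_max_left _ _).trans hs)
    have e3 : r0 + 1 ≤ s := (le_max_right _ _).trans hs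
    refine ⟨⟨r0, List.mem_range.2 (by omega), S.mono_s e1 hs1⟩, fun r _ hr => ?_⟩
    exact S.mono_r (Nat.add_le_add_right (hmin r s hr) b) (S.mono_s e2 hs2)
  rw [← Filter.eventually_all_finset] at key
  filter_upwards [key] with s hs
  intro j hj
  exact hs j (Finset.mem_range.2 (List.mem_range.1 hj))

private theorem not_apTi_eventually {S : KSys} {b : ℕ} {σ : List Bool} (h : ¬ apTi S b σ) :
    ∀ᶠ s in atTop, ¬ apT S b s σ := by
  unfold apTi at h
  push Not at h
  obtain ⟨j, hj, r, ⟨s1, hs1⟩, h2⟩ := h
  filter_upwards [eventually_ge_atTop (max s1 (r + 1))] with s hs hT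
  have e1 : s1 ≤ s := (le_max_left _ _).trans hs
  have e3 : r + 1 ≤ s := (le_max_right _ _).trans hs
  have h3 := (hT j (List.mem_range.2 (by omega))).2 r (List.mem_range.2 (by omega))
    (S.mono_s e1 hs1)
  exact h2 s h3

/-- `τ` leaves `A` at level `m` -/
private def apDev (A : ℕ → Bool) (m : ℕ) (τ : List Bool) : Prop :=
  τ.take m = pre A m ∧ τ.take (m + 1) ≠ pre A (m + 1)

private theorem apDev_unique {A : ℕ → Bool} {m m' : ℕ} {τ : List Bool} (h : apDev A m τ)
    (h' : apDev A m' τ) : m = m' := by
  rcases lt_trichotomy m m' with h1 | h1 | h1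
  · exfalso
    apply h.2
    have h2 := congrArg (List.take (m + 1)) h'.1
    rwa [List.take_take, min_eq_left (by omega), pre_take_of_le A (by omega)] at h2
  · exact h1
  · exfalso
    apply h'.2
    have h2 := congrArg (List.take (m' + 1)) h.1
    rwa [List.take_take, min_eq_left (by omega), pre_take_of_le A (by omega)] at h2

private theorem apDev_take {A : ℕ → Bool} {m L : ℕ} {τ : List Bool} (h : apDev A m τ)
    (hL : m + 1 ≤ L) : apDev A m (τ.take L) := by
  unfold apDev
  rw [List.take_take, List.take_take, min_eq_left (by omega), min_eq_left hL]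
  exact h

/-- only finitely many levels have deviations which are alive for ever -/
private theorem exists_apDev_bound (S : KSys) (A : ℕ → Bool) (b : ℕ) :
    ∃ n0, ∀ m, n0 ≤ m → ∃ L, ∀ τ : List Bool, L ≤ τ.length → apTi S b τ → ¬ apDev A m τ := by
  classical
  obtain ⟨M, hM⟩ := count_bound S b
  by_contra hcon
  push Not at hcon
  -- infinitely many bad levels
  have hinf : {m : ℕ | ∀ L, ∃ τ : List Bool, L ≤ τ.length ∧ apTi S b τ ∧ apDev A m τ}.Infinite := by
    refine Set.infinite_of_not_bddAbove ?_
    rintro ⟨N, hN⟩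
    obtain ⟨m, hm, h⟩ := hcon (N + 1)
    have := hN h
    omega
  obtain ⟨D, hD, hcard⟩ := hinf.exists_subset_card_eq (M + 1)
  have hL : ∀ m ∈ D, m + 1 ≤ D.sup id + 1 := by
    intro m hm
    have := Finset.le_sup (f := id) hm
    simp only [id] at this
    omega
  have hch : ∀ m ∈ D, ∃ τ : List Bool, τ.length = D.sup id + 1 ∧ apTi S b τ ∧ apDev A m τ := by
    intro m hm
    obtain ⟨τ, h1, h2, h3⟩ := hD hm (D.sup id + 1)
    exact ⟨τ.take (D.sup id + 1), by rw [List.length_take]; omega, apTi_take h2 _,
      apDev_take h3 (hL m hm)⟩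
  choose! τ h1 h2 h3 using hch
  have h4 : (D.image τ).card = M + 1 := by
    rw [Finset.card_image_of_injOn, hcard]
    intro m hm m' hm' h
    have h5 := h3 m hm
    have h6 := h3 m' hm'
    rw [h] at h5
    exact apDev_unique h5 h6
  have h5 := hM (D.sup id + 1) (D.image τ) (by
    intro ρ hρ
    rw [Finset.mem_image] at hρ
    obtain ⟨m, hm, rfl⟩ := hρ
    refine ⟨h1 m hm, fun r hr => ?_⟩
    have h6 := h2 m hm (D.sup id + 1) (h1 m hm).ge r hr
    rwa [List.take_of_length_le (h1 m hm).le] at h6)
  omega

/-- sub-task Approx2 -/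
theorem exists_approx (S : KSys) (A : ℕ → Bool) (b : ℕ)
    (hb : ∀ n r, (∃ s, S.le s n r = true) → ∃ s, S.le s (encode (pre A n)) (r + b) = true) :
    ∃ As : ℕ → List Bool, Primrec As ∧ (∀ s, (As s).length ≤ s) ∧
      (∀ s j r, j ≤ (As s).length → S.le s j r = true →
          S.le s (encode ((As s).take j)) (r + b) = true) ∧
      (∀ n, ∃ s0, ∀ s, s0 ≤ s → (As s).take n = pre A n) := by
  classical
  obtain ⟨n0, hn0⟩ := exists_apDev_bound S A b
  have hA : ∀ L, apTi S b (pre A L) := by
    intro L j hj r hr
    rw [pre_length] at hj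
    rw [pre_take_of_le A hj]
    exact hb j r hr
  refine ⟨apAs S b n0 (pre A n0), prim_apAs _ _ _ _, ?_, ?_, ?_⟩
  · intro s
    rcases apAs_spec S b n0 (pre A n0) s with h | h
    · rw [h.1]
      simp
    · exact h.2.1
  · intro s j r hj hr
    rcases apAs_spec S b n0 (pre A n0) s with h | h
    · rw [h.1] at hj ⊢
      have hj0 : j = 0 := by simpa using hj
      subst hj0
      exact S.mono_r (Nat.le_add_right r b) hr
    · obtain ⟨⟨r0, hr0, hr0'⟩, h2⟩ := h.1.2 j (List.mem_range.2 (by omega))
      by_cases hrs : r < s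
      · exact h2 r (List.mem_range.2 hrs) hr
      · rw [List.mem_range] at hr0
        exact S.mono_r (by omega) (h2 r0 (List.mem_range.2 hr0) hr0')
  · intro n
    choose! Lf hLf using hn0
    set n' := max n n0 with hn'
    set L := max n' ((Finset.range n').sup Lf) with hLdef
    have hLf' : ∀ m, n0 ≤ m → m < n' → Lf m ≤ L := fun m _ h2 =>
      (Finset.le_sup (f := Lf) (Finset.mem_range.2 h2)).trans (le_max_right _ _)
    -- the only path of the limit tree
    have hpath : ∀ τ : List Bool, L ≤ τ.length → apTi S b τ → τ.take n0 = pre A n0 →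
        τ.take n' = pre A n' := by
      intro τ hτL hτ hτ0
      have key : ∀ k, n0 ≤ k → k ≤ n' → τ.take k = pre A k := by
        intro k hk
        induction k, hk using Nat.le_induction with
        | base => exact fun _ => hτ0
        | succ k hk ih =>
          intro hk'
          by_contra hne
          exact hLf k hk τ ((hLf' k hk (by omega)).trans hτL) hτ ⟨ih (by omega), hne⟩
      exact key n' (le_max_right _ _) le_rfl
    have hev1 := apTi_eventually (hA L)
    have hev2 : ∀ᶠ s in atTop, ∀ τ ∈ (apAll L).toFinset, ¬ apTi S b τ → ¬ apT S b s τ := by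
      rw [Filter.eventually_all_finset]
      intro τ _
      by_cases h : apTi S b τ
      · exact Filter.Eventually.of_forall fun s h' => absurd h h'
      · filter_upwards [not_apTi_eventually h] with s hs _
        exact hs
    obtain ⟨s0, hs0⟩ := Filter.eventually_atTop.1 (hev1.and (hev2.and (eventually_ge_atTop L)))
    refine ⟨s0, fun s hs => ?_⟩
    obtain ⟨e1, e2, e3⟩ := hs0 s hs
    have hn0L : n0 ≤ L := (le_max_right n n0).trans (le_max_left _ _)
    have hPA : (pre A L).take n0 = pre A n0 ∧ apT S b s (pre A L) :=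
      ⟨pre_take_of_le A hn0L, e1⟩
    rcases apAs_spec S b n0 (pre A n0) s with h | h
    · exact absurd hPA (h.2 (pre A L) (by rw [pre_length]; exact e3))
    · have h1 := h.2.2 (pre A L) (by rw [pre_length]; exact e3) hPA
      rw [pre_length] at h1
      generalize apAs S b n0 (pre A n0) s = σ at h h1
      have h2 : apTi S b (σ.take L) := by
        by_contra h3
        refine e2 (σ.take L) ?_ h3 (apT_take h.1.2 L)
        rw [List.mem_toFinset, mem_apAll, List.length_take]
        omega
      have h4 := hpath (σ.take L) (by rw [List.length_take]; omega) h2 (by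
        rw [List.take_take, min_eq_left hn0L]
        exact h.1.1)
      rw [List.take_take, min_eq_left (le_max_left _ _)] at h4
      have h5 := congrArg (List.take n) h4
      rwa [List.take_take, min_eq_left (le_max_left n n0), pre_take_of_le A (le_max_left n n0)]
        at h5

end OWR
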