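import Pool.Agent.H77.OW.Part0a

/-!
# The Kraft–Chaitin theorem and the staged complexity of an optimal machine
-/

namespace OWR

open MeasureTheory Encodable Filter Topology

namespace KC

/-- Value of a binary string. -/
def val (σ : List Bool) : ℕ := σ.foldl (fun n b => 2 * n + b.toNat) 0

theorem foldl_val (σ : List Bool) : ∀ n : ℕ,
    σ.foldl (fun n b => 2 * n + b.toNat) n = n * 2 ^ σ.length + val σ := by
  induction σ with
  | nil => intro n; simp [val]
  | cons b σ ih =>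
    intro n
    have h1 := ih (2 * n + b.toNat)
    have h2 := ih (2 * 0 + b.toNat)
    simp only [val, List.foldl_cons, List.length_cons] at h1 h2 ⊢
    rw [h1, h2]
    ring

theorem val_append (σ τ : List Bool) : val (σ ++ τ) = val σ * 2 ^ τ.length + val τ := by
  have := foldl_val τ (val σ)
  rw [← this]
  simp [val, List.foldl_append]

theorem val_lt (σ : List Bool) : val σ < 2 ^ σ.length := by
  induction σ with
  | nil => simp [val]
  | cons b σ ih =>
    have h := val_append [b] σ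
    simp only [List.singleton_append] at h
    rw [h, List.length_cons, pow_succ]
    have hb : val [b] ≤ 1 := by cases b <;> simp [val]
    nlinarith [Nat.two_pow_pos σ.length]

theorem exists_val (n : ℕ) : ∀ k, k < 2 ^ n → ∃ σ : List Bool, σ.length = n ∧ val σ = k := by
  induction n with
  | zero =>
    intro k hk
    refine ⟨[], rfl, ?_⟩
    simp only [pow_zero, Nat.lt_one_iff] at hk
    simp [val, hk]
  | succ n ih =>
    intro k hk
    obtain ⟨σ, h1, h2⟩ := ih (k / 2) (by rw [pow_succ] at hk; omega)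
    refine ⟨σ ++ [decide (k % 2 = 1)], by simp [h1], ?_⟩
    rw [val_append, h2]
    have hv : val [decide (k % 2 = 1)] = k % 2 := by
      rcases Nat.mod_two_eq_zero_or_one k with h | h <;> simp [val, h]
    rw [hv]
    simp only [List.length_singleton, pow_one]
    omega

theorem prim_val : Primrec val := by
  have h1 : Primrec₂ fun (_ : List Bool) (p : ℕ × Bool) => 2 * p.1 + p.2.toNat :=
    Primrec.nat_add.comp (Primrec.nat_mul.comp (Primrec.const 2) (Primrec.fst.comp Primrec.snd))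
      ((Primrec.dom_bool Bool.toNat).comp (Primrec.snd.comp Primrec.snd))
  exact Primrec.list_foldl Primrec.id (Primrec.const 0) h1

theorem prim_pow : Primrec₂ ((· ^ ·) : ℕ → ℕ → ℕ) :=
  Primrec₂.unpaired'.1 Nat.Primrec.pow

variable (f : ℕ × ℕ → ℕ → Bool)

/-- The requested length of the stage `i`. -/
def rr (i : ℕ) : ℕ := i.unpair.1.unpair.1

/-- The requested object of the stage `i`. -/
def xx (i : ℕ) : ℕ := i.unpair.1.unpair.2

/-- The stage `i` brings a new request. -/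
def nw (i : ℕ) : Bool :=
  f (i.unpair.1.unpair) i.unpair.2 &&
    (decide (i.unpair.2 = 0) || !f (i.unpair.1.unpair) (i.unpair.2 - 1))

/-- The left end of the stage `i`, multiplied by `2 ^ i`. -/
def aa (i : ℕ) : ℕ :=
  Nat.rec 0 (fun j a => 2 * (a + bif nw f j then 2 ^ (j - rr j) else 0)) i

/-- The code of the stage `i`. -/
def kk (i : ℕ) : ℕ := (aa f i * 2 ^ (rr i + 1) + (2 ^ i - 1)) / 2 ^ i

/-- The string `σ` is the code of the stage `i`. -/
def gg (σ : List Bool) (i : ℕ) : Bool :=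
  nw f i && (decide (σ.length = rr i + 1) && decide (val σ = kk f i))

theorem rr_le (i : ℕ) : rr i ≤ i :=
  (Nat.unpair_left_le _).trans (Nat.unpair_left_le _)

theorem prim_rr : Primrec rr :=
  Primrec.fst.comp (Primrec.unpair.comp (Primrec.fst.comp Primrec.unpair))

theorem prim_xx : Primrec xx :=
  Primrec.snd.comp (Primrec.unpair.comp (Primrec.fst.comp Primrec.unpair))

variable {f}

theorem prim_nw (hf : Primrec₂ f) : Primrec (nw f) := by
  have h1 : Primrec fun i : ℕ => i.unpair.1.unpair :=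
    Primrec.unpair.comp (Primrec.fst.comp Primrec.unpair)
  have h2 : Primrec fun i : ℕ => i.unpair.2 := Primrec.snd.comp Primrec.unpair
  exact Primrec.and.comp (hf.comp h1 h2)
    (Primrec.or.comp (Primrec.eq.decide.comp h2 (Primrec.const 0))
      (Primrec.not.comp (hf.comp h1 (Primrec.nat_sub.comp h2 (Primrec.const 1)))))

theorem prim_aa (hf : Primrec₂ f) : Primrec (aa f) := by
  refine Primrec.nat_rec₁ 0 ?_
  have h1 : Primrec fun p : ℕ × ℕ => nw f p.1 := (prim_nw hf).comp Primrec.fst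
  have h2 : Primrec fun p : ℕ × ℕ => 2 ^ (p.1 - rr p.1) :=
    prim_pow.comp (Primrec.const 2) (Primrec.nat_sub.comp Primrec.fst (prim_rr.comp Primrec.fst))
  exact Primrec.nat_mul.comp (Primrec.const 2) (Primrec.nat_add.comp Primrec.snd
    (Primrec.cond h1 h2 (Primrec.const 0)))

theorem prim_kk (hf : Primrec₂ f) : Primrec (kk f) := by
  have h1 : Primrec fun i : ℕ => 2 ^ (rr i + 1) :=
    prim_pow.comp (Primrec.const 2) (Primrec.succ.comp prim_rr)
  have h2 : Primrec fun i : ℕ => 2 ^ i := prim_pow.comp (Primrec.const 2) Primrec.id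
  exact Primrec.nat_div.comp (Primrec.nat_add.comp (Primrec.nat_mul.comp (prim_aa hf) h1)
    (Primrec.nat_sub.comp h2 (Primrec.const 1))) h2

theorem prim_gg (hf : Primrec₂ f) : Primrec₂ (gg f) := by
  have h1 : Primrec fun p : List Bool × ℕ => nw f p.2 := (prim_nw hf).comp Primrec.snd
  have h2 : Primrec fun p : List Bool × ℕ => decide (p.1.length = rr p.2 + 1) :=
    Primrec.eq.decide.comp (Primrec.list_length.comp Primrec.fst)
      (Primrec.succ.comp (prim_rr.comp Primrec.snd))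
  have h3 : Primrec fun p : List Bool × ℕ => decide (val p.1 = kk f p.2) :=
    Primrec.eq.decide.comp (prim_val.comp Primrec.fst) ((prim_kk hf).comp Primrec.snd)
  exact Primrec.and.comp h1 (Primrec.and.comp h2 h3)

variable (f)

/-- The left end of the stage `i`. -/
noncomputable def ll (i : ℕ) : ℝ :=
  ∑ j ∈ Finset.range i, if nw f j = true then (2 : ℝ)⁻¹ ^ rr j else 0

theorem aa_eq (i : ℕ) : (aa f i : ℝ) = ll f i * 2 ^ i := by
  induction i with
  | zero => simp [aa, ll]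
  | succ i ih =>
    have h1 : aa f (i + 1) = 2 * (aa f i + bif nw f i then 2 ^ (i - rr i) else 0) := rfl
    have h2 : ll f (i + 1) = ll f i + if nw f i = true then (2 : ℝ)⁻¹ ^ rr i else 0 := by
      unfold ll
      rw [Finset.sum_range_succ]
    have h3 : (2 : ℝ) ^ (i - rr i) = 2⁻¹ ^ rr i * 2 ^ i := by
      have h4 : (2 : ℝ) ^ i = 2 ^ (i - rr i) * 2 ^ rr i := by
        rw [← pow_add, Nat.sub_add_cancel (rr_le i)]
      rw [h4, inv_pow]
      field_simp
    rw [h1, h2]
    cases hn : nw f i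
    · simp only [cond_false, add_zero, Nat.cast_mul, Nat.cast_ofNat, ih, Bool.false_eq_true,
        if_false]
      ring
    · simp only [cond_true, Nat.cast_mul, Nat.cast_ofNat, Nat.cast_add, Nat.cast_pow, ih, if_true,
        h3]
      ring

theorem kk_ge (i : ℕ) : ll f i * 2 ^ (rr i + 1) ≤ kk f i := by
  have hpos : 0 < 2 ^ i := Nat.two_pow_pos i
  have h1 : aa f i * 2 ^ (rr i + 1) ≤ kk f i * 2 ^ i := by
    have h := Nat.lt_div_mul_add hpos (a := aa f i * 2 ^ (rr i + 1) + (2 ^ i - 1))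
    unfold kk
    omega
  have h2 : (aa f i : ℝ) * 2 ^ (rr i + 1) ≤ kk f i * 2 ^ i := by exact_mod_cast h1
  rw [aa_eq] at h2
  have h3 : (0 : ℝ) < 2 ^ i := by positivity
  refine le_of_mul_le_mul_right ?_ h3
  calc ll f i * 2 ^ (rr i + 1) * 2 ^ i = ll f i * 2 ^ i * 2 ^ (rr i + 1) := by ring
    _ ≤ _ := h2

theorem kk_lt (i : ℕ) : (kk f i : ℝ) < ll f i * 2 ^ (rr i + 1) + 1 := by
  have hpos : 0 < 2 ^ i := Nat.two_pow_pos i
  have h1 : kk f i * 2 ^ i < aa f i * 2 ^ (rr i + 1) + 2 ^ i := by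
    have h := Nat.div_mul_le_self (aa f i * 2 ^ (rr i + 1) + (2 ^ i - 1)) (2 ^ i)
    unfold kk
    omega
  have h2 : (kk f i : ℝ) * 2 ^ i < aa f i * 2 ^ (rr i + 1) + 2 ^ i := by exact_mod_cast h1
  rw [aa_eq] at h2
  have h3 : (0 : ℝ) < 2 ^ i := by positivity
  refine lt_of_mul_lt_mul_right ?_ h3.le
  calc (kk f i : ℝ) * 2 ^ i < ll f i * 2 ^ i * 2 ^ (rr i + 1) + 2 ^ i := h2
    _ = _ := by ring

theorem ll_add_le {i j : ℕ} (hij : i < j) (hi : nw f i = true) :
    ll f i + 2⁻¹ ^ rr i ≤ ll f j := by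
  have h1 : ll f (i + 1) = ll f i + 2⁻¹ ^ rr i := by
    unfold ll
    rw [Finset.sum_range_succ, if_pos hi]
  rw [← h1]
  unfold ll
  refine Finset.sum_le_sum_of_subset_of_nonneg (Finset.range_mono hij) fun k _ _ => ?_
  split_ifs
  · positivity
  · exact le_rfl

variable {f}

/-- Two stages whose codes are comparable are equal. -/
theorem stage_unique {σ τ : List Bool} {i j : ℕ} (h : σ <+: τ) (hi : gg f σ i = true)
    (hj : gg f τ j = true) : i = j := by
  simp only [gg, Bool.and_eq_true, decide_eq_true_eq] at hi hj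
  obtain ⟨ni, li, vi⟩ := hi
  obtain ⟨nj, lj, vj⟩ := hj
  obtain ⟨ρ, rfl⟩ := h
  -- the point `t = kk j / 2 ^ (rr j + 1)`
  set a : ℝ := 2 ^ (rr i + 1) with ha
  set b : ℝ := 2 ^ (rr j + 1) with hb
  have ha0 : 0 < a := by positivity
  have hb0 : 0 < b := by positivity
  have hlen : rr j + 1 = rr i + 1 + ρ.length := by
    rw [← lj, List.length_append, li]
  have hbρ : b = a * 2 ^ ρ.length := by rw [hb, hlen, pow_add]
  have hρ := val_lt ρ
  have hvj : kk f j = kk f i * 2 ^ ρ.length + val ρ := by rw [← vj, val_append, vi]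
  have h1 : (kk f i : ℝ) * 2 ^ ρ.length ≤ kk f j := by
    rw [hvj]
    push_cast
    nlinarith [Nat.cast_nonneg (α := ℝ) (val ρ)]
  have h2 : (kk f j : ℝ) < (kk f i + 1) * 2 ^ ρ.length := by
    have h3 : (val ρ : ℝ) < 2 ^ ρ.length := by exact_mod_cast hρ
    rw [hvj]
    push_cast
    linarith
  have hia : (2 : ℝ)⁻¹ ^ rr i = 2 / a := by
    rw [ha, inv_pow, pow_succ]
    field_simp
  have hjb : (2 : ℝ)⁻¹ ^ rr j = 2 / b := by
    rw [hb, inv_pow, pow_succ]
    field_simp
  have ei1 := kk_ge f i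
  have ei2 := kk_lt f i
  have ej1 := kk_ge f j
  have ej2 := kk_lt f j
  rw [← ha] at ei1 ei2
  rw [← hb] at ej1 ej2
  set w : ℝ := 2 ^ ρ.length with hw
  have hw0 : 0 < w := by positivity
  rcases lt_trichotomy i j with hij | hij | hij
  · exfalso
    have h4 := ll_add_le f hij ni
    rw [hia] at h4
    -- `ll i + 2 / a ≤ ll j ≤ kk j / b < (kk i + 1) / a < ll i + 2 / a`
    have h5 : (ll f i + 2 / a) * a = ll f i * a + 2 := by field_simp
    have h6 : (ll f i + 2 / a) * a ≤ ll f j * a := mul_le_mul_of_nonneg_right h4 ha0.le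
    have h7 : ll f j * b = ll f j * a * w := by rw [hbρ]; ring
    rw [h5] at h6
    have h8 : (ll f i * a + 2) * w ≤ ll f j * a * w := mul_le_mul_of_nonneg_right h6 hw0.le
    have h9 : ((kk f i : ℝ) + 1) * w ≤ (ll f i * a + 2) * w :=
      mul_le_mul_of_nonneg_right (by linarith) hw0.le
    linarith
  · exact hij
  · exfalso
    have h4 := ll_add_le f hij nj
    rw [hjb] at h4
    -- `ll j + 2 / b ≤ ll i ≤ kk i / a ≤ kk j / b < ll j + 1 / b`
    have h5 : (ll f j + 2 / b) * b = ll f j * b + 2 := by field_simp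
    have h6 : (ll f j + 2 / b) * b ≤ ll f i * b := mul_le_mul_of_nonneg_right h4 hb0.le
    have h7 : ll f i * b = ll f i * a * w := by rw [hbρ]; ring
    rw [h5] at h6
    have h8 : ll f i * a * w ≤ (kk f i : ℝ) * w := mul_le_mul_of_nonneg_right ei1 hw0.le
    linarith

theorem nw_spec {P : ℕ → ℕ → Prop} (hP : ∀ a : ℕ × ℕ, P a.1 a.2 ↔ ∃ s, f a s = true) {i : ℕ}
    (h : nw f i = true) : P (rr i) (xx i) := by
  simp only [nw, Bool.and_eq_true] at h
  exact (hP (i.unpair.1.unpair)).2 ⟨_, h.1⟩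

theorem nw_inj (hm : ∀ a s t, s ≤ t → f a s = true → f a t = true) {i j : ℕ}
    (hi : nw f i = true) (hj : nw f j = true) (h1 : rr i = rr j) (h2 : xx i = xx j) : i = j := by
  have h3 : i.unpair.1.unpair = j.unpair.1.unpair := Prod.ext h1 h2
  simp only [nw, Bool.and_eq_true, Bool.or_eq_true, decide_eq_true_eq, Bool.not_eq_true']
    at hi hj
  have key : ∀ i j : ℕ, i.unpair.1.unpair = j.unpair.1.unpair →
      (f i.unpair.1.unpair i.unpair.2 = true ∧
        (i.unpair.2 = 0 ∨ f i.unpair.1.unpair (i.unpair.2 - 1) = false)) →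
      (f j.unpair.1.unpair j.unpair.2 = true ∧
        (j.unpair.2 = 0 ∨ f j.unpair.1.unpair (j.unpair.2 - 1) = false)) →
      ¬ i.unpair.2 < j.unpair.2 := by
    intro i j h hi hj hlt
    rcases hj.2 with h4 | h4
    · omega
    · have h5 := hm j.unpair.1.unpair i.unpair.2 (j.unpair.2 - 1) (by omega) (h ▸ hi.1)
      rw [h5] at h4
      exact absurd h4 (by decide)
  have h4 : i.unpair.2 = j.unpair.2 := by
    have h5 := key i j h3 hi hj
    have h6 := key j i h3.symm hj hi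
    omega
  have h5 : i.unpair.1 = j.unpair.1 := by
    rw [← Nat.pair_unpair i.unpair.1, ← Nat.pair_unpair j.unpair.1, h3]
  rw [← Nat.pair_unpair i, ← Nat.pair_unpair j, h5, h4]

theorem exists_nw {r x : ℕ} (h : ∃ s, f (r, x) s = true) :
    ∃ i, nw f i = true ∧ rr i = r ∧ xx i = x := by
  classical
  refine ⟨Nat.pair (Nat.pair r x) (Nat.find h), ?_, by simp [rr], by simp [xx]⟩
  simp only [nw, Nat.unpair_pair, Bool.and_eq_true, Bool.or_eq_true, decide_eq_true_eq,
    Bool.not_eq_true']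
  refine ⟨Nat.find_spec h, ?_⟩
  by_cases h0 : Nat.find h = 0
  · exact Or.inl h0
  · right
    have := Nat.find_min h (m := Nat.find h - 1) (by omega)
    simpa using this

theorem kk_lt_pow {P : ℕ → ℕ → Prop} (hP : ∀ a : ℕ × ℕ, P a.1 a.2 ↔ ∃ s, f a s = true)
    (hm : ∀ a s t, s ≤ t → f a s = true → f a t = true)
    (hs : ∀ F : Finset (ℕ × ℕ), (∀ p ∈ F, P p.1 p.2) → ∑ p ∈ F, (2 : ℝ)⁻¹ ^ p.1 ≤ 1)
    {i : ℕ} (hi : nw f i = true) : kk f i < 2 ^ (rr i + 1) := by
  have h1 : ll f (i + 1) ≤ 1 := by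
    unfold ll
    rw [← Finset.sum_filter]
    have h2 := hs (((Finset.range (i + 1)).filter fun j => nw f j = true).image
      fun j => (rr j, xx j)) (by
        intro p hp
        simp only [Finset.mem_image, Finset.mem_filter] at hp
        obtain ⟨j, ⟨-, hj⟩, rfl⟩ := hp
        exact nw_spec hP hj)
    rw [Finset.sum_image] at h2
    · exact h2
    · intro a ha b hb hab
      simp only [Finset.coe_filter, Set.mem_ofPred_eq] at ha hb
      simp only [Prod.mk.injEq] at hab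
      exact nw_inj hm ha.2 hb.2 hab.1 hab.2
  have h2 := ll_add_le f (Nat.lt_succ_self i) hi
  have h3 := kk_lt f i
  have h4 : (2 : ℝ)⁻¹ ^ rr i * 2 ^ (rr i + 1) = 2 := by
    rw [inv_pow, pow_succ]
    field_simp
  have h5 : (ll f i + 2⁻¹ ^ rr i) * 2 ^ (rr i + 1) ≤ 1 * 2 ^ (rr i + 1) :=
    mul_le_mul_of_nonneg_right (h2.trans h1) (by positivity)
  have h6 : (kk f i : ℝ) < 2 ^ (rr i + 1) := by
    rw [add_mul, h4, one_mul] at h5
    linarith
  exact_mod_cast h6

end KC

/-- Part0b -/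
theorem kc (P : ℕ → ℕ → Prop) (hP : REPred (fun p : ℕ × ℕ => P p.1 p.2))
    (hs : ∀ F : Finset (ℕ × ℕ), (∀ p ∈ F, P p.1 p.2) → ∑ p ∈ F, (2 : ℝ)⁻¹ ^ p.1 ≤ 1) :
    ∃ M, PFMachine M ∧ ∀ r x, P r x → cplx M x ≤ ((r + 1 : ℕ) : ℕ∞) := by
  obtain ⟨f, hf, hm, hfP⟩ := exists_stage hP
  have hg := KC.prim_gg hf
  have hrf : Partrec (fun σ : List Bool => Nat.rfind ((KC.gg f σ : ℕ → Bool) : ℕ →. Bool)) :=
    Partrec.rfind (hg.to_comp.partrec)
  have hmem : ∀ σ i, KC.gg f σ i = true →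
      i ∈ Nat.rfind ((KC.gg f σ : ℕ → Bool) : ℕ →. Bool) := by
    intro σ i hi
    have hdom : (Nat.rfind ((KC.gg f σ : ℕ → Bool) : ℕ →. Bool)).Dom :=
      Nat.rfind_dom.2 ⟨i, by simp [hi], fun _ => trivial⟩
    obtain ⟨j, hj⟩ := Part.dom_iff_mem.1 hdom
    have h1 : KC.gg f σ j = true := by
      have := Nat.rfind_spec hj
      simpa using this
    rw [KC.stage_unique (List.prefix_refl σ) hi h1]
    exact hj
  refine ⟨fun σ => (Nat.rfind ((KC.gg f σ : ℕ → Bool) : ℕ →. Bool)).map KC.xx, ⟨?_, ?_⟩, ?_⟩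
  · exact hrf.map (KC.prim_xx.to_comp.comp Computable.snd).to₂
  · intro σ τ h1 h2 hστ
    have h3 : (Nat.rfind ((KC.gg f σ : ℕ → Bool) : ℕ →. Bool)).Dom := h1
    have h4 : (Nat.rfind ((KC.gg f τ : ℕ → Bool) : ℕ →. Bool)).Dom := h2
    obtain ⟨i, hi⟩ := Part.dom_iff_mem.1 h3
    obtain ⟨j, hj⟩ := Part.dom_iff_mem.1 h4
    have hi' : KC.gg f σ i = true := by simpa using Nat.rfind_spec hi
    have hj' : KC.gg f τ j = true := by simpa using Nat.rfind_spec hj
    have hij := KC.stage_unique hστ hi' hj'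
    subst hij
    simp only [KC.gg, Bool.and_eq_true, decide_eq_true_eq] at hi' hj'
    exact hστ.eq_of_length (hi'.2.1.trans hj'.2.1.symm)
  · intro r x hrx
    obtain ⟨i, h1, h2, h3⟩ := KC.exists_nw ((hfP (r, x)).1 hrx)
    obtain ⟨σ, h4, h5⟩ := KC.exists_val _ _ (KC.kk_lt_pow hfP hm hs h1)
    rw [cplx_le_iff]
    refine ⟨σ, ?_, by rw [h4, h2]⟩
    have h6 : KC.gg f σ i = true := by
      simp only [KC.gg, Bool.and_eq_true, decide_eq_true_eq]
      exact ⟨h1, h4, h5⟩
    exact Part.mem_map_iff _ |>.2 ⟨i, hmem σ i h6, h3⟩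

theorem ksys_of_optimal (U : List Bool →. ℕ) (hU : Optimal U) :
    ∃ S : KSys, ∀ x r, (∃ s, S.le s x r = true) ↔ cplx U x ≤ (r : ℕ∞) := by
  obtain ⟨le, h1, h2, h3, h4⟩ := staged U hU.pfm.partrec
  refine ⟨⟨le, h1, h2, h3, ?_, ?_⟩, h4⟩
  · intro F r h
    exact kraft_machine U hU.pfm F r fun x hx => (h4 x (r x)).1 (h x hx)
  · intro P hP hs
    obtain ⟨M, hM, hMP⟩ := kc P hP hs
    obtain ⟨c, hc⟩ := hU.opt M hM
    refine ⟨1 + c, fun r x hrx => (h4 x _).2 ?_⟩
    refine (hc x).trans ?_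
    refine (add_le_add (hMP r x hrx) le_rfl).trans (le_of_eq ?_)
    push_cast
    ring

end OWR
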