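import Pool.Agent.H77.OW.GoldWeight

/-!
# The golden run argument   (module GoldFinal)
-/

namespace OWR.Gold.Final

open Encodable

/-! ## Local lemmas on one update -/

/-- instances after step 2 of an update -/
def I2 (b e : ℕ) (B : List Bool) (st : State) : List (Path × Bool) :=
  insts2 (Q0 b e) (toks1 B st.2.2) (insts1 B st.2.1)

theorem upd_clock (U : Req → Bool) (b e : ℕ) (B : List Bool) (st : State) :
    (upd U b e B st).1 = st.1 + 1 := rfl

theorem upd_insts (U : Req → Bool) (b e : ℕ) (B : List Bool) (st : State) :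
    (upd U b e B st).2.1 = (create U (NN b e) (Q0 b e) B st.1 (insts3 (I2 b e B st))
      (toks3 (I2 b e B st) (toks1 B st.2.2))).1 := rfl

theorem upd_toks (U : Req → Bool) (b e : ℕ) (B : List Bool) (st : State) :
    (upd U b e B st).2.2 = (create U (NN b e) (Q0 b e) B st.1 (insts3 (I2 b e B st))
      (toks3 (I2 b e B st) (toks1 B st.2.2))).2 := rfl

theorem create_insts_sub (U : Req → Bool) (N q0 : ℕ) (B : List Bool) (a : ℕ)
    (I : List (Path × Bool)) (T : List Tok) {p : Path × Bool} (h : p ∈ I) :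
    p ∈ (create U N q0 B a I T).1 := by
  unfold create
  split
  · exact h
  · split_ifs
    · exact h
    · exact List.mem_cons_of_mem _ h
    · exact h
    · exact h

theorem create_insts_cases (U : Req → Bool) (N q0 : ℕ) (B : List Bool) (a : ℕ)
    (I : List (Path × Bool)) (T : List Tok) {p : Path × Bool}
    (h : p ∈ (create U N q0 B a I T).1) : p ∈ I ∨ ∃ x ∈ p.1, x.2 = a := by
  unfold create at h
  split at h
  · exact Or.inl h
  · split_ifs at h
    · exact Or.inl h
    · rcases List.mem_cons.1 h with rfl | h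
      · exact Or.inr ⟨_, List.mem_cons_self, rfl⟩
      · exact Or.inl h
    · exact Or.inl h
    · exact Or.inl h

/-- tokens after creation : the old ones, and possibly one new token in front -/
theorem create_toks_cases (U : Req → Bool) (N q0 : ℕ) (B : List Bool) (a : ℕ)
    (I : List (Path × Bool)) (T : List Tok) :
    (create U N q0 B a I T).2 = T ∨ ∃ t, (create U N q0 B a I T).2 = t :: T := by
  unfold create
  split
  · exact Or.inl rfl
  · split_ifs
    · exact Or.inr ⟨_, rfl⟩
    · exact Or.inl rfl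
    · exact Or.inl rfl
    · exact Or.inl rfl

/-- the weight of the tokens whose holder satisfies `Q` -/
noncomputable def wsum (Q : Path → Bool) (T : List Tok) : ℝ :=
  (T.map fun t => if Q t.2.2 = true then (2 : ℝ)⁻¹ ^ t.2.1 else 0).sum

theorem wsum_nil (Q : Path → Bool) : wsum Q [] = 0 := rfl

theorem wsum_cons (Q : Path → Bool) (t : Tok) (T : List Tok) :
    wsum Q (t :: T) = (if Q t.2.2 = true then (2 : ℝ)⁻¹ ^ t.2.1 else 0) + wsum Q T := by
  simp [wsum]

theorem held_nil (π : Path) : held [] π = 0 := rfl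

theorem held_cons (t : Tok) (T : List Tok) (π : Path) :
    held (t :: T) π = (if t.2.2 = π then (2 : ℝ)⁻¹ ^ t.2.1 else 0) + held T π := by
  simp [held]

theorem wt_nonneg (w : ℕ) : (0 : ℝ) ≤ (2 : ℝ)⁻¹ ^ w := by positivity

theorem held_nonneg (T : List Tok) (π : Path) : 0 ≤ held T π := by
  induction T with
  | nil => simp [held_nil]
  | cons t T ih =>
    rw [held_cons]
    have := wt_nonneg t.2.1
    split_ifs <;> linarith

theorem wsum_nonneg (Q : Path → Bool) (T : List Tok) : 0 ≤ wsum Q T := by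
  induction T with
  | nil => simp [wsum_nil]
  | cons t T ih =>
    rw [wsum_cons]
    have := wt_nonneg t.2.1
    split_ifs <;> linarith

theorem held_cons_ge (t : Tok) (T : List Tok) (π : Path) : held T π ≤ held (t :: T) π := by
  rw [held_cons]
  have := wt_nonneg t.2.1
  split_ifs <;> linarith

theorem held_le_wsum (Q : Path → Bool) (T : List Tok) (π : Path) (h : Q π = true) :
    held T π ≤ wsum Q T := by
  induction T with
  | nil => simp [held_nil, wsum_nil]
  | cons t T ih =>
    rw [held_cons, wsum_cons]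
    by_cases h1 : t.2.2 = π
    · have h2 : Q t.2.2 = true := by rw [h1]; exact h
      rw [if_pos h1, if_pos h2]
      linarith
    · rw [if_neg h1]
      have := wt_nonneg t.2.1
      split_ifs <;> linarith

theorem toks1_cons (B : List Bool) (t : Tok) (T : List Tok) :
    toks1 B (t :: T) = (upTok B t).toList ++ toks1 B T := by
  unfold toks1
  cases h : upTok B t with
  | none => simp [h]
  | some t' => simp [h]

/-- tokens that move to `π` (or stay there) are held by `π` after the first two steps -/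
theorem wsum_le_held (J : List (Path × Bool)) (B : List Bool) (π : Path)
    (hd : dead J π = false) (Q : Path → Bool) (T : List Tok)
    (hQ : ∀ t ∈ T, Q t.2.2 = true → upTok B t = some (t.1, t.2.1, π)) :
    wsum Q T ≤ held (toks3 J (toks1 B T)) π := by
  induction T with
  | nil => simp [wsum_nil, toks1, toks3, held_nil]
  | cons t T ih =>
    have ih' := ih fun t' ht' => hQ t' (List.mem_cons_of_mem _ ht')
    rw [wsum_cons, toks1_cons]
    by_cases h : Q t.2.2 = true
    · have h1 := hQ t List.mem_cons_self h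
      rw [h1, if_pos h]
      have h2 : toks3 J ((some (t.1, t.2.1, π)).toList ++ toks1 B T)
          = (t.1, t.2.1, π) :: toks3 J (toks1 B T) := by
        simp [toks3, hd]
      rw [h2, held_cons]
      simp only [if_true]
      linarith
    · rw [if_neg h, zero_add]
      refine ih'.trans ?_
      cases h1 : upTok B t with
      | none => simp
      | some t' =>
        have h2 : toks3 J ((some t').toList ++ toks1 B T)
          = if dead J t'.2.2 = false then t' :: toks3 J (toks1 B T) else toks3 J (toks1 B T) := by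
          by_cases h3 : dead J t'.2.2 = false
          · simp [toks3, h3]
          · simp only [Bool.not_eq_false] at h3
            simp [toks3, h3]
        rw [h2]
        split_ifs
        · exact held_cons_ge _ _ _
        · exact le_rfl

theorem wsum_le_held_upd (U : Req → Bool) (b e : ℕ) (B : List Bool) (st : State) (π : Path)
    (hd : dead (I2 b e B st) π = false) (Q : Path → Bool)
    (hQ : ∀ t ∈ st.2.2, Q t.2.2 = true → upTok B t = some (t.1, t.2.1, π)) :
    wsum Q st.2.2 ≤ held (upd U b e B st).2.2 π := by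
  refine (wsum_le_held (I2 b e B st) B π hd Q st.2.2 hQ).trans ?_
  rw [upd_toks]
  rcases create_toks_cases U (NN b e) (Q0 b e) B st.1 (insts3 (I2 b e B st))
      (toks3 (I2 b e B st) (toks1 B st.2.2)) with h | ⟨t, h⟩
  · rw [h]
  · rw [h]; exact held_cons_ge _ _ _

/-! ## Instances after an update -/

theorem mem_I2 {b e : ℕ} {B : List Bool} {st : State} {c : Path} {d : Bool} :
    (c, d) ∈ I2 b e B st ↔ ∃ d0, (c, d0) ∈ st.2.1 ∧ valid B c = true ∧
      d = (d0 || reached (Q0 b e) (toks1 B st.2.2) c) := by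
  unfold I2 insts2 insts1
  simp only [List.mem_map, List.mem_filter, Prod.mk.injEq, Prod.exists]
  constructor
  · rintro ⟨c', d0, ⟨h1, h2⟩, rfl, rfl⟩
    exact ⟨d0, h1, h2, rfl⟩
  · rintro ⟨d0, h1, h2, rfl⟩
    exact ⟨c, d0, ⟨h1, h2⟩, rfl, rfl⟩

theorem mem_insts3 {J : List (Path × Bool)} {p : Path × Bool} :
    p ∈ insts3 J ↔ p ∈ J ∧ dead J p.1 = false := by
  unfold insts3
  simp [List.mem_filter]

theorem I3_sub_upd (U : Req → Bool) {b e : ℕ} {B : List Bool} {st : State} {p : Path × Bool}
    (h : p ∈ insts3 (I2 b e B st)) : p ∈ (upd U b e B st).2.1 := by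
  rw [upd_insts]
  exact create_insts_sub _ _ _ _ _ _ _ h

theorem I3_of_mem_upd {U : Req → Bool} {b e : ℕ} {B : List Bool} {st : State} {p : Path × Bool}
    (h : p ∈ (upd U b e B st).2.1) (hb : ∀ x ∈ p.1, x.2 < st.1) :
    p ∈ insts3 (I2 b e B st) := by
  rw [upd_insts] at h
  rcases create_insts_cases _ _ _ _ _ _ _ h with h | ⟨x, hx, hxa⟩
  · exact h
  · have := hb x hx
    omega

/-- paths are distinct -/
theorem inst_unique {U : Req → Bool} {b e : ℕ} {B0 : List Bool} {st : State}
    (hI : Inv U b e B0 st) {c : Path} {d d' : Bool} (h : (c, d) ∈ st.2.1)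
    (h' : (c, d') ∈ st.2.1) : d = d' := by
  have := List.inj_on_of_nodup_map hI.nodup h h' rfl
  exact (Prod.mk.inj this).2

theorem I2_unique {U : Req → Bool} {b e : ℕ} {B0 B : List Bool} {st : State}
    (hI : Inv U b e B0 st) {c : Path} {d d' : Bool} (h : (c, d) ∈ I2 b e B st)
    (h' : (c, d') ∈ I2 b e B st) : d = d' := by
  obtain ⟨d0, h1, -, rfl⟩ := mem_I2.1 h
  obtain ⟨d1, h2, -, rfl⟩ := mem_I2.1 h'
  rw [inst_unique hI h1 h2]

/-- if `π` is alive and not done before and after the update -/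
theorem stay {U : Req → Bool} {b e : ℕ} {B0 B : List Bool} {st : State}
    (hI : Inv U b e B0 st) {π : Path} (h : (π, false) ∈ st.2.1)
    (h' : (π, false) ∈ (upd U b e B st).2.1) :
    (π, false) ∈ insts3 (I2 b e B st) ∧ valid B π = true ∧ dead (I2 b e B st) π = false ∧
      (π, true) ∉ I2 b e B st := by
  have h1 : (π, false) ∈ insts3 (I2 b e B st) := I3_of_mem_upd h' (hI.birth _ h)
  obtain ⟨h2, h3⟩ := mem_insts3.1 h1
  obtain ⟨d0, -, h4, -⟩ := mem_I2.1 h2
  refine ⟨h1, h4, h3, ?_⟩
  intro h5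
  have := I2_unique (B := B) hI h2 h5
  simp at this

theorem above_cons {p : Path} {x : Option Req × ℕ} {π : Path}
    (h : above p (x :: π) = true) : p = π ∨ above p π = true := by
  unfold above at h ⊢
  simp only [Bool.and_eq_true, decide_eq_true_eq, List.length_cons] at h ⊢
  obtain ⟨h1, h2⟩ := h
  have h3 : π.length + 1 - p.length = (π.length - p.length) + 1 := by omega
  rw [h3, List.drop_succ_cons] at h2
  by_cases h4 : p.length = π.length
  · left
    rw [h4, Nat.sub_self, List.drop_zero] at h2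
    exact h2.symm
  · right
    exact ⟨by omega, h2⟩

theorem dead_child {J : List (Path × Bool)} {x : Option Req × ℕ} {π : Path}
    (h : dead J π = false) (h' : (π, true) ∉ J) : dead J (x :: π) = false := by
  unfold dead at h ⊢
  rw [List.any_eq_false] at h ⊢
  intro p hp h1
  simp only [Bool.and_eq_true] at h1
  rcases above_cons h1.2 with h2 | h2
  · apply h'
    rw [← h2, ← h1.1]
    exact hp
  · apply h p hp
    simp [h1.1, h2]

/-- a child of `π` that is valid stays alive -/
theorem child_stays {U : Req → Bool} {b e : ℕ} {B0 B : List Bool} {st : State}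
    (hI : Inv U b e B0 st) {π : Path} (h : (π, false) ∈ st.2.1)
    (h' : (π, false) ∈ (upd U b e B st).2.1) {x : Option Req × ℕ} {d : Bool}
    (hc : (x :: π, d) ∈ st.2.1) (hv : okE B x.1 = true) :
    ∃ d', (x :: π, d') ∈ (upd U b e B st).2.1 := by
  obtain ⟨h1, h2, h3, h4⟩ := stay hI h h'
  have h5 : valid B (x :: π) = true := by
    unfold valid at h2 ⊢
    simp [hv, h2]
  refine ⟨_, I3_sub_upd U (mem_insts3.2 ⟨mem_I2.2 ⟨d, hc, h5, rfl⟩, ?_⟩)⟩
  exact dead_child h3 h4

theorem done_stays {U : Req → Bool} {b e : ℕ} {B0 B : List Bool} {st : State}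
    (hI : Inv U b e B0 st) {c : Path} {d : Bool} (h : (c, true) ∈ st.2.1)
    (h' : (c, d) ∈ (upd U b e B st).2.1) : d = true := by
  have h1 : (c, d) ∈ insts3 (I2 b e B st) :=
    I3_of_mem_upd h' (fun x hx => hI.birth (c, true) h x hx)
  obtain ⟨d0, h2, -, h3⟩ := mem_I2.1 (mem_insts3.1 h1).1
  have := inst_unique hI h h2
  rw [h3, ← this]; simp

theorem upTok_valid {B : List Bool} {t : Tok} {π : Path} (ht : t.2.2 = π)
    (hv : valid B π = true) : upTok B t = some (t.1, t.2.1, π) := by
  unfold upTok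
  rw [ht, if_pos hv, ← ht]

theorem upTok_tail {B : List Bool} {t : Tok} {x : Option Req × ℕ} {π : Path}
    (ht : t.2.2 = x :: π) (hv : valid B π = true) (hx : okE B x.1 = false) :
    upTok B t = some (t.1, t.2.1, π) := by
  unfold upTok
  have h1 : valid B (x :: π) = false := by
    unfold valid; simp [hx]
  rw [ht, h1]
  simp [hv]


/-! ## The process -/

section Process

variable {le : ℕ → ℕ → ℕ → Bool} {As : ℕ → List Bool} {U : Req → Bool} {b e : ℕ}

theorem state_succ (s : ℕ) :
    state le As U b e (s + 1) = step le As U b e s (state le As U b e s) := rfl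

theorem state_act {s : ℕ} (h : active le As e s (state le As U b e s) = true) :
    state le As U b e (s + 1) = upd U b e (As s) (state le As U b e s) := by
  rw [state_succ, step, if_pos h]

theorem state_inact {s : ℕ} (h : active le As e s (state le As U b e s) = false) :
    state le As U b e (s + 1) = state le As U b e s := by
  rw [state_succ, step, h]
  simp

theorem act_len {s : ℕ} (h : active le As e s (state le As U b e s) = true) :
    (state le As U b e s).1 ≤ (As s).length := by
  unfold active at h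
  simp only [Bool.and_eq_true, decide_eq_true_eq] at h
  exact h.1

theorem clock_step (s : ℕ) : (state le As U b e s).1 ≤ (state le As U b e (s + 1)).1 := by
  cases h : active le As e s (state le As U b e s) with
  | true => rw [state_act h, upd_clock]; omega
  | false => rw [state_inact h]

theorem clock_mono : Monotone fun s => (state le As U b e s).1 :=
  monotone_nat_of_le_succ clock_step

/-- infinitely many active stages -/
def InfAct (le : ℕ → ℕ → ℕ → Bool) (As : ℕ → List Bool) (U : Req → Bool) (b e : ℕ) : Prop :=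
  ∀ s0, ∃ s, s0 ≤ s ∧ active le As e s (state le As U b e s) = true

theorem clock_unbounded (hact : InfAct le As U b e) (m : ℕ) :
    ∃ s, m ≤ (state le As U b e s).1 := by
  induction m with
  | zero => exact ⟨0, Nat.zero_le _⟩
  | succ m ih =>
    obtain ⟨s0, h0⟩ := ih
    obtain ⟨s, hs, ha⟩ := hact s0
    refine ⟨s + 1, ?_⟩
    have h1 : (state le As U b e s0).1 ≤ (state le As U b e s).1 := clock_mono hs
    rw [state_act ha, upd_clock]
    omega

theorem serve (hact : InfAct le As U b e) (i s0 K : ℕ) :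
    ∃ s, s0 ≤ s ∧ active le As e s (state le As U b e s) = true ∧
      (state le As U b e s).1.unpair.1 = i ∧ K ≤ (state le As U b e s).1 := by
  classical
  set a := Nat.pair i (max K (state le As U b e s0).1) with ha
  have ha1 : max K (state le As U b e s0).1 ≤ a := Nat.right_le_pair _ _
  have hex : ∃ s, a < (state le As U b e s).1 := by
    obtain ⟨s, hs⟩ := clock_unbounded hact (a + 1)
    exact ⟨s, hs⟩
  have h1 := Nat.find_spec hex
  have h2 : ∀ {m}, m < Nat.find hex → ¬ a < (state le As U b e m).1 := fun h => Nat.find_min hex h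
  generalize hn : Nat.find hex = n at h1 h2
  cases n with
  | zero => simp [state] at h1
  | succ s =>
    have h3 := h2 (Nat.lt_succ_self s)
    have hs0 : s0 ≤ s := by
      by_contra hlt
      have h4 : s + 1 ≤ s0 := by omega
      have h5 : (state le As U b e (s + 1)).1 ≤ (state le As U b e s0).1 := clock_mono h4
      have := le_trans (le_max_right K _) ha1
      omega
    cases h : active le As e s (state le As U b e s) with
    | false =>
      rw [state_inact h] at h1
      exact absurd h1 h3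
    | true =>
      rw [state_act h, upd_clock] at h1
      have h6 : (state le As U b e s).1 = a := by omega
      refine ⟨s, hs0, h, ?_, ?_⟩
      · rw [h6, ha, Nat.unpair_pair]
      · rw [h6]; exact le_trans (le_max_left _ _) ha1

/-- `π` is alive and not done at all stages from `s0` on -/
def PermND (le : ℕ → ℕ → ℕ → Bool) (As : ℕ → List Bool) (U : Req → Bool) (b e : ℕ)
    (s0 : ℕ) (π : Path) : Prop :=
  ∀ s, s0 ≤ s → (π, false) ∈ (state le As U b e s).2.1

/-- local facts for a permanent instance at an active stage -/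
theorem perm_stay {s0 : ℕ} {π : Path} (hp : PermND le As U b e s0 π) {s : ℕ} (hs : s0 ≤ s)
    (ha : active le As e s (state le As U b e s) = true) :
    (π, false) ∈ insts3 (I2 b e (As s) (state le As U b e s)) ∧ valid (As s) π = true ∧
      dead (I2 b e (As s) (state le As U b e s)) π = false ∧
      (π, true) ∉ I2 b e (As s) (state le As U b e s) := by
  obtain ⟨B0, hI⟩ := inv_state le As U b e s
  have h' := hp (s + 1) (by omega)
  rw [state_act ha] at h'
  exact stay hI (hp s hs) h'

/-- the predicate: held by `π`, or pending for `π` -/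
def Qp (π : Path) (x : Path) : Bool :=
  decide (x = π) || (decide (x.tail = π) && decide (x.head?.map Prod.fst = some none))

theorem Qp_self (π : Path) : Qp π π = true := by simp [Qp]

theorem Qp_up {π : Path} {B : List Bool} (hv : valid B π = true) {t : Tok}
    (h : Qp π t.2.2 = true) : upTok B t = some (t.1, t.2.1, π) := by
  unfold Qp at h
  simp only [Bool.or_eq_true, Bool.and_eq_true, decide_eq_true_eq] at h
  rcases h with h | ⟨h1, h2⟩
  · exact upTok_valid h hv
  · cases h3 : t.2.2 with
    | nil => rw [h3] at h2; simp at h2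
    | cons x π' =>
      rw [h3] at h1 h2
      simp only [List.tail_cons] at h1
      simp only [List.head?_cons, Option.map_some, Option.some.injEq] at h2
      subst h1
      exact upTok_tail h3 hv (by rw [h2]; rfl)

theorem act_weight {s0 : ℕ} {π : Path} (hp : PermND le As U b e s0 π) {s : ℕ} (hs : s0 ≤ s)
    (ha : active le As e s (state le As U b e s) = true) :
    wsum (Qp π) (state le As U b e s).2.2 ≤ held (state le As U b e (s + 1)).2.2 π := by
  obtain ⟨h1, h2, h3, h4⟩ := perm_stay hp hs ha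
  rw [state_act ha]
  exact wsum_le_held_upd U b e (As s) _ π h3 (Qp π) fun t _ h => Qp_up h2 h

theorem weight_mono {s0 : ℕ} {π : Path} (hp : PermND le As U b e s0 π) {s t : ℕ} (hs : s0 ≤ s)
    (ht : s ≤ t) :
    wsum (Qp π) (state le As U b e s).2.2 ≤ wsum (Qp π) (state le As U b e t).2.2 := by
  induction t, ht using Nat.le_induction with
  | base => exact le_rfl
  | succ t ht ih =>
    refine ih.trans ?_
    cases h : active le As e t (state le As U b e t) with
    | false => rw [state_inact h]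
    | true =>
      exact (act_weight hp (hs.trans ht) h).trans (held_le_wsum _ _ _ (Qp_self π))

/-- service of an instance of level 1 -/
theorem serve_one {s0 : ℕ} {π : Path} (hp : PermND le As U b e s0 π)
    (hlen : π.length + 1 = NN b e) {s : ℕ} (hs : s0 ≤ s)
    (ha : active le As e s (state le As U b e s) = true) (u : Req)
    (hd : (state le As U b e s).1.unpair.1 = encode (π, u)) :
    wsum (Qp π) (state le As U b e s).2.2 + (2 : ℝ)⁻¹ ^ qq (Q0 b e) π ≤
      wsum (Qp π) (state le As U b e (s + 1)).2.2 := by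
  obtain ⟨h1, h2, h3, h4⟩ := perm_stay hp hs ha
  have h5 := wsum_le_held (I2 b e (As s) (state le As U b e s)) (As s) π h3 (Qp π)
    (state le As U b e s).2.2 (fun t _ h => Qp_up h2 h)
  rw [state_act ha, upd_toks]
  have h6 : (create U (NN b e) (Q0 b e) (As s) (state le As U b e s).1
      (insts3 (I2 b e (As s) (state le As U b e s)))
      (toks3 (I2 b e (As s) (state le As U b e s))
        (toks1 (As s) (state le As U b e s).2.2))).2 =
      ((state le As U b e s).1, qq (Q0 b e) π, (none, (state le As U b e s).1) :: π) ::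
        (toks3 (I2 b e (As s) (state le As U b e s))
        (toks1 (As s) (state le As U b e s).2.2)) := by
    unfold create
    rw [hd, encodek]
    simp only []
    rw [if_pos h1, if_pos hlen]
  rw [h6, wsum_cons]
  have h7 : Qp π ((none, (state le As U b e s).1) :: π) = true := by simp [Qp]
  rw [if_pos h7]
  have h8 := held_le_wsum (Qp π) (toks3 (I2 b e (As s) (state le As U b e s))
        (toks1 (As s) (state le As U b e s).2.2)) π (Qp_self π)
  linarith

theorem no_level_one (hact : InfAct le As U b e)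
    (hh : ∀ s, ∀ p ∈ (state le As U b e s).2.1,
      held (state le As U b e s).2.2 p.1 ≤
        (2 : ℝ)⁻¹ ^ gg (Q0 b e) p.1 + (NN b e : ℝ) * (2 : ℝ)⁻¹ ^ qq (Q0 b e) p.1)
    {s0 : ℕ} {π : Path} (hp : PermND le As U b e s0 π) (hlen : π.length + 1 = NN b e) :
    False := by
  have key : ∀ k : ℕ, ∃ s, s0 ≤ s ∧
      (k : ℝ) * (2 : ℝ)⁻¹ ^ qq (Q0 b e) π ≤ wsum (Qp π) (state le As U b e s).2.2 := by
    intro k
    induction k with
    | zero => exact ⟨s0, le_rfl, by simpa using wsum_nonneg _ _⟩
    | succ k ih =>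
      obtain ⟨s, hs, h1⟩ := ih
      obtain ⟨s', hs', ha, hc, -⟩ := serve hact (encode (π, (default : Req))) s 0
      refine ⟨s' + 1, by omega, ?_⟩
      have h2 := serve_one hp hlen (hs.trans hs') ha default hc
      have h3 := weight_mono hp hs hs'
      push_cast
      linarith
  obtain ⟨k, hk⟩ := exists_nat_gt (((2 : ℝ)⁻¹ ^ gg (Q0 b e) π +
    (NN b e : ℝ) * (2 : ℝ)⁻¹ ^ qq (Q0 b e) π) * 2 ^ qq (Q0 b e) π)
  obtain ⟨s, hs, h1⟩ := key k
  obtain ⟨s', hs', ha⟩ := hact s
  have h2 := act_weight hp (hs.trans hs') ha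
  have h3 := weight_mono hp hs hs'
  have h4 := hh (s' + 1) (π, false) (hp (s' + 1) (by omega))
  simp only [] at h4
  have hpos : (0 : ℝ) < 2 ^ qq (Q0 b e) π := by positivity
  have h5 : (k : ℝ) ≤ ((2 : ℝ)⁻¹ ^ gg (Q0 b e) π +
    (NN b e : ℝ) * (2 : ℝ)⁻¹ ^ qq (Q0 b e) π) * 2 ^ qq (Q0 b e) π := by
    have h6 : (k : ℝ) * (2 : ℝ)⁻¹ ^ qq (Q0 b e) π * 2 ^ qq (Q0 b e) π = k := by
      rw [mul_assoc, ← mul_pow]; norm_num
    rw [← h6]
    exact mul_le_mul_of_nonneg_right (by linarith) hpos.le
  linarith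

theorem exists_golden (hact : InfAct le As U b e)
    (hh : ∀ s, ∀ p ∈ (state le As U b e s).2.1,
      held (state le As U b e s).2.2 p.1 ≤
        (2 : ℝ)⁻¹ ^ gg (Q0 b e) p.1 + (NN b e : ℝ) * (2 : ℝ)⁻¹ ^ qq (Q0 b e) p.1)
    (hroot : ∀ s, ([], true) ∉ (state le As U b e s).2.1) :
    ∃ (π : Path) (s0 : ℕ), π.length + 1 < NN b e ∧ PermND le As U b e s0 π ∧
      ∀ x s1, ¬ PermND le As U b e s1 (x :: π) := by
  by_contra hcon
  push Not at hcon
  have key : ∀ n, ∃ (π : Path) (s0 : ℕ), π.length = n ∧ PermND le As U b e s0 π := by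
    intro n
    induction n with
    | zero =>
      refine ⟨[], 0, rfl, ?_⟩
      intro s _
      obtain ⟨B0, hI⟩ := inv_state le As U b e s
      obtain ⟨d, hd⟩ := hI.root
      cases d with
      | false => exact hd
      | true => exact absurd hd (hroot s)
    | succ n ih =>
      obtain ⟨π, s0, h1, h2⟩ := ih
      obtain ⟨B0, hI⟩ := inv_state le As U b e s0
      have h3 := hI.len _ (h2 s0 le_rfl)
      simp only [] at h3
      by_cases h4 : π.length + 1 < NN b e
      · obtain ⟨x, s1, h5⟩ := hcon π s0 h4 h2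
        exact ⟨x :: π, s1, by simp [h1], h5⟩
      · exact (no_level_one hact hh h2 (by omega)).elim
  obtain ⟨π, s0, h1, h2⟩ := key (NN b e)
  obtain ⟨B0, hI⟩ := inv_state le As U b e s0
  have h3 := hI.len _ (h2 s0 le_rfl)
  simp only [] at h3
  omega

/-- the child of `π` for a valid request, once there, is permanent -/
theorem child_perm {s0 : ℕ} {π : Path} (hp : PermND le As U b e s0 π) {x : Option Req × ℕ}
    {s1 : ℕ} (hs : s0 ≤ s1) (hok : ∀ s, s1 ≤ s → okE (As s) x.1 = true)
    (hc : ∃ d, (x :: π, d) ∈ (state le As U b e s1).2.1) :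
    ∀ s, s1 ≤ s → ∃ d, (x :: π, d) ∈ (state le As U b e s).2.1 := by
  intro s hs'
  induction s, hs' using Nat.le_induction with
  | base => exact hc
  | succ s hs' ih =>
    cases h : active le As e s (state le As U b e s) with
    | false => rw [state_inact h]; exact ih
    | true =>
      obtain ⟨d, hd⟩ := ih
      obtain ⟨B0, hI⟩ := inv_state le As U b e s
      have h' := hp (s + 1) (by omega)
      rw [state_act h] at h' ⊢
      exact child_stays hI (hp s (by omega)) h' hd (hok s hs')

theorem exists_child {s0 : ℕ} {π : Path} (hp : PermND le As U b e s0 π)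
    (hlen : π.length + 1 < NN b e) {s : ℕ} (hs : s0 ≤ s)
    (ha : active le As e s (state le As U b e s) = true) {u : Req} (hu : U u = true)
    (hok : okE (As s) (some u) = true) (hl : u.1.length ≤ (state le As U b e s).1)
    (hd : (state le As U b e s).1.unpair.1 = encode (π, u)) :
    ∃ a d, ((some u, a) :: π, d) ∈ (state le As U b e (s + 1)).2.1 := by
  obtain ⟨h1, h2, h3, h4⟩ := perm_stay hp hs ha
  cases hch : hasChild (insts3 (I2 b e (As s) (state le As U b e s))) π u with
  | true =>
    unfold hasChild at hch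
    rw [List.any_eq_true] at hch
    obtain ⟨p, hp1, hp2⟩ := hch
    simp only [Bool.and_eq_true, decide_eq_true_eq] at hp2
    obtain ⟨hp2, hp3⟩ := hp2
    obtain ⟨c, d⟩ := p
    cases c with
    | nil => simp at hp3
    | cons y c =>
      simp only [List.tail_cons] at hp2
      simp only [List.head?_cons, Option.map_some, Option.some.injEq] at hp3
      obtain ⟨o, a⟩ := y
      simp only [] at hp3
      subst hp2 hp3
      refine ⟨a, d, ?_⟩
      rw [state_act ha]
      exact I3_sub_upd U hp1
  | false =>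
    refine ⟨(state le As U b e s).1, false, ?_⟩
    rw [state_act ha, upd_insts]
    unfold create
    rw [hd, encodek]
    simp only []
    rw [if_pos h1, if_neg (by omega), if_pos ⟨hlen, hu, hok, hl, hch⟩]
    exact List.mem_cons_self

theorem okE_of_take {B : List Bool} {u : Req} (h : B.take u.1.length = u.1) :
    okE B (some u) = true := by
  simp [okE, h]

theorem take_of_okE {B : List Bool} {u : Req} (h : okE B (some u) = true) :
    B.take u.1.length = u.1 := by
  simpa [okE] using h

/-- true requests are in `L` -/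
theorem true_in_L (hact : InfAct le As U b e) {A : ℕ → Bool}
    (h4 : ∀ n, ∃ s0, ∀ s, s0 ≤ s → (As s).take n = pre A n)
    {s0 : ℕ} {π : Path} (hp : PermND le As U b e s0 π) (hlen : π.length + 1 < NN b e)
    (hgold : ∀ x s1, ¬ PermND le As U b e s1 (x :: π))
    {u : Req} (hu : U u = true) (hA : pre A u.1.length = u.1) :
    ∃ s a, s0 ≤ s ∧ ((some u, a) :: π, true) ∈ (state le As U b e s).2.1 := by
  obtain ⟨s1, hs1⟩ := h4 u.1.length
  have hok : ∀ s, s1 ≤ s → okE (As s) (some u) = true := fun s hs =>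
    okE_of_take ((hs1 s hs).trans hA)
  obtain ⟨s, hs, ha, hd, hl⟩ := serve hact (encode (π, u)) (max s0 s1) u.1.length
  have hs2 : s0 ≤ s := (le_max_left _ _).trans hs
  have hs3 : s1 ≤ s := (le_max_right _ _).trans hs
  obtain ⟨a, d, hc⟩ := exists_child hp hlen hs2 ha hu (hok s hs3) hl hd
  have hperm := child_perm hp (x := (some u, a)) (s1 := s + 1) (by omega)
    (fun t ht => hok t (by omega)) ⟨d, hc⟩
  by_contra hcon
  push Not at hcon
  apply hgold (some u, a) (s + 1)
  intro t ht
  obtain ⟨d', hd'⟩ := hperm t ht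
  cases d' with
  | false => exact hd'
  | true => exact absurd hd' (hcon t a (by omega))

/-- decomposition of weights over disjoint holders -/
theorem held_add_sum_le {ι : Type*} (T : List Tok) (π : Path) (N : Finset ι) (c : ι → Path)
    (hinj : ∀ p ∈ N, ∀ p' ∈ N, c p = c p' → p = p') (hne : ∀ p ∈ N, c p ≠ π)
    (Q : Path → Bool) (hQ1 : Q π = true) (hQ2 : ∀ p ∈ N, Q (c p) = true) :
    held T π + ∑ p ∈ N, held T (c p) ≤ wsum Q T := by
  classical
  induction T with
  | nil => simp [held_nil, wsum_nil]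
  | cons t T ih =>
    have h0 : ∑ p ∈ N, held (t :: T) (c p) =
        ∑ p ∈ N, (if t.2.2 = c p then (2 : ℝ)⁻¹ ^ t.2.1 else 0) + ∑ p ∈ N, held T (c p) := by
      rw [← Finset.sum_add_distrib]
      exact Finset.sum_congr rfl fun p _ => held_cons t T (c p)
    rw [h0, held_cons, wsum_cons]
    have h1 : (if t.2.2 = π then (2 : ℝ)⁻¹ ^ t.2.1 else 0) +
        ∑ p ∈ N, (if t.2.2 = c p then (2 : ℝ)⁻¹ ^ t.2.1 else 0) ≤
        (if Q t.2.2 = true then (2 : ℝ)⁻¹ ^ t.2.1 else 0) := by
      by_cases h2 : t.2.2 = π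
      · have h3 : ∑ p ∈ N, (if t.2.2 = c p then (2 : ℝ)⁻¹ ^ t.2.1 else 0) = 0 := by
          apply Finset.sum_eq_zero
          intro p hp
          rw [if_neg]
          intro h4
          exact hne p hp (h4.symm.trans h2)
        rw [h3, if_pos h2, if_pos (by rw [h2]; exact hQ1), add_zero]
      · rw [if_neg h2, zero_add]
        by_cases h3 : ∃ p ∈ N, t.2.2 = c p
        · obtain ⟨p0, hp0, h4⟩ := h3
          rw [Finset.sum_eq_single p0, if_pos h4, if_pos (by rw [h4]; exact hQ2 p0 hp0)]
          · intro p hp hpne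
            rw [if_neg]
            intro h5
            exact hpne (hinj p hp p0 hp0 (h5.symm.trans h4))
          · intro h5; exact absurd hp0 h5
        · push Not at h3
          have h6 : ∑ p ∈ N, (if t.2.2 = c p then (2 : ℝ)⁻¹ ^ t.2.1 else 0) = 0 :=
            Finset.sum_eq_zero fun p hp => if_neg (h3 p hp)
          rw [h6]
          have := wt_nonneg t.2.1
          split_ifs <;> linarith
    linarith

/-- the sum of weights of `L` -/
theorem L_sum (hU : ∀ (X : ℕ → Bool) (F : Finset Req),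
      (∀ u ∈ F, U u = true ∧ u.1 = pre X u.1.length) → ∑ u ∈ F, (2 : ℝ)⁻¹ ^ u.2.1 ≤ 1)
    (hh : ∀ s, ∀ p ∈ (state le As U b e s).2.1,
      held (state le As U b e s).2.2 p.1 ≤
        (2 : ℝ)⁻¹ ^ gg (Q0 b e) p.1 + (NN b e : ℝ) * (2 : ℝ)⁻¹ ^ qq (Q0 b e) p.1)
    {s0 : ℕ} {π : Path} (hp : PermND le As U b e s0 π) (F : Finset (ℕ × ℕ))
    (hF : ∀ p ∈ F, ∃ s ρ a, s0 ≤ s ∧
      ((some (ρ, p.1, p.2), a) :: π, true) ∈ (state le As U b e s).2.1) :
    ∑ p ∈ F, (2 : ℝ)⁻¹ ^ p.1 ≤ 1 + 2 ^ qq (Q0 b e) π * ((2 : ℝ)⁻¹ ^ gg (Q0 b e) π +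
      (NN b e : ℝ) * (2 : ℝ)⁻¹ ^ qq (Q0 b e) π) := by
  classical
  choose! sF ρ a hF using hF
  set c : ℕ × ℕ → Path := fun p => (some (ρ p, p.1, p.2), a p) :: π with hc
  have hcinj : ∀ p p', c p = c p' → p = p' := by
    intro p p' h
    simp only [hc, List.cons.injEq, Prod.mk.injEq, Option.some.injEq, and_true] at h
    exact Prod.ext h.1.2.1 h.1.2.2
  have hcne : ∀ p, c p ≠ π := by
    intro p h
    have := congrArg List.length h
    simp [hc] at this
  set R : ℕ → Finset (ℕ × ℕ) := fun t => F.filter fun p => ∃ s, s0 ≤ s ∧ s < t ∧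
    (c p, true) ∈ (state le As U b e s).2.1 ∧
    ∀ d, (c p, d) ∉ (state le As U b e (s + 1)).2.1 with hR
  have hRsum : ∀ t, s0 ≤ t → ∑ p ∈ R t, (2 : ℝ)⁻¹ ^ (qq (Q0 b e) π + p.1) ≤
      held (state le As U b e t).2.2 π := by
    intro t ht
    induction t, ht using Nat.le_induction with
    | base =>
      have : R s0 = ∅ := by
        rw [hR]
        apply Finset.filter_eq_empty_iff.2
        rintro p - ⟨s, h1, h2, -⟩
        omega
      rw [this, Finset.sum_empty]
      exact held_nonneg _ _
    | succ t ht ih =>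
      set N : Finset (ℕ × ℕ) := F.filter fun p =>
        (c p, true) ∈ (state le As U b e t).2.1 ∧
        ∀ d, (c p, d) ∉ (state le As U b e (t + 1)).2.1 with hN
      have hsub : R (t + 1) ⊆ R t ∪ N := by
        intro p hp'
        simp only [hR, Finset.mem_filter] at hp'
        obtain ⟨h1, s, h2, h3, h4, h5⟩ := hp'
        rw [Finset.mem_union]
        by_cases h6 : s < t
        · left
          simp only [hR, Finset.mem_filter]
          exact ⟨h1, s, h2, h6, h4, h5⟩
        · right
          have h7 : s = t := by omega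
          subst h7
          simp only [hN, Finset.mem_filter]
          exact ⟨h1, h4, h5⟩
      have h1 : ∑ p ∈ R (t + 1), (2 : ℝ)⁻¹ ^ (qq (Q0 b e) π + p.1) ≤
          ∑ p ∈ R t, (2 : ℝ)⁻¹ ^ (qq (Q0 b e) π + p.1) +
          ∑ p ∈ N, (2 : ℝ)⁻¹ ^ (qq (Q0 b e) π + p.1) := by
        refine (Finset.sum_le_sum_of_subset_of_nonneg hsub fun _ _ _ => by positivity).trans ?_
        rw [← Finset.sum_union_inter]
        have : 0 ≤ ∑ p ∈ R t ∩ N, (2 : ℝ)⁻¹ ^ (qq (Q0 b e) π + p.1) :=
          Finset.sum_nonneg fun _ _ => by positivity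
        linarith
      have h2 : ∑ p ∈ N, (2 : ℝ)⁻¹ ^ (qq (Q0 b e) π + p.1) ≤
          ∑ p ∈ N, held (state le As U b e t).2.2 (c p) := by
        apply Finset.sum_le_sum
        intro p hp'
        simp only [hN, Finset.mem_filter] at hp'
        exact done_held le As U b e t (c p, true) hp'.2.1 rfl
      cases h : active le As e t (state le As U b e t) with
      | false =>
        have h3 : N = ∅ := by
          rw [hN]
          apply Finset.filter_eq_empty_iff.2
          rintro p - ⟨h4, h5⟩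
          rw [state_inact h] at h5
          exact h5 _ h4
        rw [h3, Finset.sum_empty] at h1
        rw [state_inact h]
        linarith
      | true =>
        obtain ⟨g1, g2, g3, g4⟩ := perm_stay hp ht h
        obtain ⟨B0, hI⟩ := inv_state le As U b e t
        have h' := hp (t + 1) (by omega)
        rw [state_act h] at h'
        set Q : Path → Bool := fun x => decide (x = π) || decide (∃ p ∈ N, x = c p) with hQ
        have hQc : ∀ p ∈ N, Q (c p) = true := by
          intro p hp'
          have h7 : ∃ p' ∈ N, c p = c p' := ⟨p, hp', rfl⟩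
          show (decide (c p = π) || decide (∃ p' ∈ N, c p = c p')) = true
          rw [decide_eq_true h7, Bool.or_true]
        have h3 := held_add_sum_le (state le As U b e t).2.2 π N c
          (fun p _ p' _ h => hcinj p p' h) (fun p _ => hcne p) Q (by simp [hQ]) hQc
        have h4 : wsum Q (state le As U b e t).2.2 ≤
            held (upd U b e (As t) (state le As U b e t)).2.2 π := by
          apply wsum_le_held_upd _ _ _ _ _ _ g3
          intro tk _ hq
          simp only [hQ, Bool.or_eq_true, decide_eq_true_eq] at hq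
          rcases hq with hq | ⟨p, hp', hq⟩
          · exact upTok_valid hq g2
          · simp only [hN, Finset.mem_filter] at hp'
            cases hok : okE (As t) (some (ρ p, p.1, p.2)) with
            | true =>
              exfalso
              obtain ⟨d', hd'⟩ := child_stays hI (hp t ht) h' (x := (some (ρ p, p.1, p.2), a p))
                hp'.2.1 hok
              apply hp'.2.2 d'
              rw [state_act h]
              exact hd'
            | false => exact upTok_tail hq g2 hok
        rw [state_act h]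
        linarith
  -- the final stage
  set S : ℕ := max s0 (F.sup sF) with hS
  have hS0 : s0 ≤ S := le_max_left _ _
  have hS1 : ∀ p ∈ F, sF p ≤ S := fun p hp' =>
    (Finset.le_sup (f := sF) hp').trans (le_max_right _ _)
  set Al : Finset (ℕ × ℕ) := F.filter fun p => (c p, true) ∈ (state le As U b e S).2.1 with hAl
  have hcov : F ⊆ R S ∪ Al := by
    intro p hp'
    rw [Finset.mem_union]
    by_cases h1 : p ∈ R S
    · exact Or.inl h1
    · right
      obtain ⟨h2, h3⟩ := hF p hp'
      have key : ∀ t, sF p ≤ t → t ≤ S → (c p, true) ∈ (state le As U b e t).2.1 := by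
        intro t ht
        induction t, ht using Nat.le_induction with
        | base => intro _; exact h3
        | succ t ht ih =>
          intro ht'
          have h4 := ih (by omega)
          cases h : active le As e t (state le As U b e t) with
          | false => rw [state_inact h]; exact h4
          | true =>
            have h5 : ∃ d, (c p, d) ∈ (state le As U b e (t + 1)).2.1 := by
              by_contra h6
              push Not at h6
              apply h1
              simp only [hR, Finset.mem_filter]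
              exact ⟨hp', t, h2.trans ht, by omega, h4, h6⟩
            obtain ⟨d, hd⟩ := h5
            obtain ⟨B0, hI⟩ := inv_state le As U b e t
            have h7 : d = true := by
              rw [state_act h] at hd
              exact done_stays hI h4 hd
            rw [h7] at hd
            exact hd
      simp only [hAl, Finset.mem_filter]
      exact ⟨hp', key S (hS1 p hp') le_rfl⟩
  have hAlsum : ∑ p ∈ Al, (2 : ℝ)⁻¹ ^ p.1 ≤ 1 := by
    obtain ⟨B, hI⟩ := inv_state le As U b e S
    have h1 := hU (ext B) (Al.image fun p => (ρ p, p.1, p.2)) (by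
      intro u hu
      rw [Finset.mem_image] at hu
      obtain ⟨p, hp', rfl⟩ := hu
      simp only [hAl, Finset.mem_filter] at hp'
      obtain ⟨u, hu1, hu2, -⟩ := hI.reqs _ hp'.2 (some (ρ p, p.1, p.2), a p)
        (List.mem_cons_self)
      simp only [Option.some.injEq] at hu1
      rw [← hu1] at hu2
      refine ⟨hu2, ?_⟩
      have hv := hI.val _ hp'.2
      unfold valid at hv
      simp only [hc, List.foldr_cons, Bool.and_eq_true] at hv
      have h2 := take_of_okE hv.1
      simp only [] at h2 ⊢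
      have h3 : (ρ p).length ≤ B.length := by
        have := congrArg List.length h2
        rw [List.length_take] at this
        omega
      rw [pre_ext_take B h3, h2])
    rw [Finset.sum_image] at h1
    · exact h1
    · intro p _ p' _ h
      simp only [Prod.mk.injEq] at h
      exact Prod.ext h.2.1 h.2.2
  have hRS := hRsum S hS0
  have hheld := hh S (π, false) (hp S hS0)
  simp only [] at hheld
  have h1 : ∑ p ∈ R S, (2 : ℝ)⁻¹ ^ p.1 ≤ 2 ^ qq (Q0 b e) π * ((2 : ℝ)⁻¹ ^ gg (Q0 b e) π +
      (NN b e : ℝ) * (2 : ℝ)⁻¹ ^ qq (Q0 b e) π) := by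
    have h2 : ∑ p ∈ R S, (2 : ℝ)⁻¹ ^ p.1 = 2 ^ qq (Q0 b e) π *
        ∑ p ∈ R S, (2 : ℝ)⁻¹ ^ (qq (Q0 b e) π + p.1) := by
      rw [Finset.mul_sum]
      apply Finset.sum_congr rfl
      intro p _
      rw [pow_add, ← mul_assoc, ← mul_pow]
      norm_num
    rw [h2]
    exact mul_le_mul_of_nonneg_left (hRS.trans hheld) (by positivity)
  have h2 : ∑ p ∈ F, (2 : ℝ)⁻¹ ^ p.1 ≤ ∑ p ∈ R S, (2 : ℝ)⁻¹ ^ p.1 + ∑ p ∈ Al, (2 : ℝ)⁻¹ ^ p.1 := by
    refine (Finset.sum_le_sum_of_subset_of_nonneg hcov fun _ _ _ => by positivity).trans ?_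
    rw [← Finset.sum_union_inter]
    have : 0 ≤ ∑ p ∈ R S ∩ Al, (2 : ℝ)⁻¹ ^ p.1 := Finset.sum_nonneg fun _ _ => by positivity
    linarith
  linarith

end Process

/-! ## The assembly -/

theorem mem_prim {α : Type*} [Primcodable α] :
    PrimrecRel (fun (L : List α) (a : α) => a ∈ L) := by
  have h : PrimrecRel fun (L : List α) (b : α) => ∃ a ∈ L, a = b :=
    PrimrecRel.exists_mem_list (R := fun x a : α => x = a) Primrec.eq
  exact h.of_eq fun L a => by simp

theorem exists_uniform {α : Type*} (T : List α) (P : α → ℕ → Prop)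
    (h : ∀ t ∈ T, ∃ s0, ∀ s, s0 ≤ s → P t s) : ∃ M, ∀ s, M ≤ s → ∀ t ∈ T, P t s := by
  induction T with
  | nil => exact ⟨0, fun _ _ t ht => by simp at ht⟩
  | cons t T ih =>
    obtain ⟨M, hM⟩ := ih fun t' ht' => h t' (List.mem_cons_of_mem _ ht')
    obtain ⟨s0, hs0⟩ := h t List.mem_cons_self
    refine ⟨max M s0, fun s hs t' ht' => ?_⟩
    rcases List.mem_cons.1 ht' with rfl | ht'
    · exact hs0 s ((le_max_right _ _).trans hs)
    · exact hM s ((le_max_left _ _).trans hs) t' ht'

theorem issued_re (S : KSys) {As : ℕ → List Bool} {U : Req → Bool} (b : ℕ) (h1 : Primrec As)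
    (hU : Primrec U) :
    REPred (fun p : ℕ × ℕ => ∃ e w, p.1 = e + 1 + w ∧ Issued S.le As U b e p.2 w) := by
  have hst : Primrec₂ (state S.le As U b) := state_prim S.prim h1 hU b
  have hL : Primrec fun z : (ℕ × ℕ) × (ℕ × ℕ × ℕ × Path) =>
      (state S.le As U b z.2.1 z.2.2.2.1).2.2 :=
    Primrec.snd.comp (Primrec.snd.comp (hst.comp (Primrec.fst.comp Primrec.snd)
      (Primrec.fst.comp (Primrec.snd.comp (Primrec.snd.comp Primrec.snd)))))
  have ht : Primrec fun z : (ℕ × ℕ) × (ℕ × ℕ × ℕ × Path) =>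
      ((z.1.2, z.2.2.1, z.2.2.2.2) : Tok) :=
    Primrec.pair (Primrec.snd.comp Primrec.fst) (Primrec.pair
      (Primrec.fst.comp (Primrec.snd.comp Primrec.snd))
      (Primrec.snd.comp (Primrec.snd.comp (Primrec.snd.comp Primrec.snd))))
  have hR1 : PrimrecPred fun z : (ℕ × ℕ) × (ℕ × ℕ × ℕ × Path) =>
      ((z.1.2, z.2.2.1, z.2.2.2.2) : Tok) ∈ (state S.le As U b z.2.1 z.2.2.2.1).2.2 :=
    PrimrecRel.comp mem_prim hL ht
  have hR2 : PrimrecPred fun z : (ℕ × ℕ) × (ℕ × ℕ × ℕ × Path) =>
      z.1.1 = z.2.1 + 1 + z.2.2.1 :=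
    PrimrecRel.comp Primrec.eq (Primrec.fst.comp Primrec.fst)
      (Primrec.nat_add.comp (Primrec.succ.comp (Primrec.fst.comp Primrec.snd))
        (Primrec.fst.comp (Primrec.snd.comp Primrec.snd)))
  have hR : PrimrecRel (fun (p : ℕ × ℕ) (q : ℕ × ℕ × ℕ × Path) => p.1 = q.1 + 1 + q.2.1 ∧
      ((p.2, q.2.1, q.2.2.2) : Tok) ∈ (state S.le As U b q.1 q.2.2.1).2.2) :=
    PrimrecPred.and hR2 hR1
  refine (re_of_prim hR).of_eq ?_
  intro p
  constructor
  · rintro ⟨⟨e, w, s, π⟩, h2, h3⟩
    exact ⟨e, w, h2, s, π, h3⟩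
  · rintro ⟨e, w, h2, s, π, h3⟩
    exact ⟨⟨e, w, s, π⟩, h2, h3⟩

theorem geom_le (F : Finset ℕ) : ∑ e ∈ F, (2 : ℝ)⁻¹ ^ (e + 1) ≤ 1 := by
  have h1 : ∀ n : ℕ, ∑ e ∈ Finset.range n, (2 : ℝ)⁻¹ ^ (e + 1) = 1 - (2 : ℝ)⁻¹ ^ n := by
    intro n
    induction n with
    | zero => simp
    | succ n ih => rw [Finset.sum_range_succ, ih, pow_succ]; ring
  have h2 : F ⊆ Finset.range (F.sup id + 1) := by
    intro x hx
    rw [Finset.mem_range]
    exact Nat.lt_succ_of_le (Finset.le_sup (f := id) hx)
  refine (Finset.sum_le_sum_of_subset_of_nonneg h2 fun _ _ _ => by positivity).trans ?_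
  rw [h1]
  have : (0 : ℝ) ≤ (2 : ℝ)⁻¹ ^ (F.sup id + 1) := by positivity
  linarith

theorem issued_total (le : ℕ → ℕ → ℕ → Bool) (As : ℕ → List Bool) (U : Req → Bool) (b : ℕ)
    (hU : ∀ (X : ℕ → Bool) (F : Finset Req),
      (∀ u ∈ F, U u = true ∧ u.1 = pre X u.1.length) → ∑ u ∈ F, (2 : ℝ)⁻¹ ^ u.2.1 ≤ 1)
    (F : Finset (ℕ × ℕ)) (hF : ∀ p ∈ F, ∃ e w, p.1 = e + 1 + w ∧ Issued le As U b e p.2 w) :
    ∑ p ∈ F, (2 : ℝ)⁻¹ ^ p.1 ≤ 1 := by
  classical
  choose! ee ww hF using hF
  rw [← Finset.sum_fiberwise_of_maps_to (s := F) (t := F.image ee) (g := ee)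
    (fun p hp => Finset.mem_image_of_mem _ hp)]
  refine le_trans (Finset.sum_le_sum (g := fun e => (2 : ℝ)⁻¹ ^ (e + 1)) ?_) (geom_le _)
  intro e _
  have h1 : ∑ p ∈ F.filter (fun p => ee p = e), (2 : ℝ)⁻¹ ^ p.1 =
      (2 : ℝ)⁻¹ ^ (e + 1) * ∑ p ∈ F.filter (fun p => ee p = e), (2 : ℝ)⁻¹ ^ ww p := by
    rw [Finset.mul_sum]
    apply Finset.sum_congr rfl
    intro p hp
    rw [Finset.mem_filter] at hp
    rw [← pow_add, (hF p hp.1).1, hp.2]
  rw [h1]
  have h2 : ∑ p ∈ F.filter (fun p => ee p = e), (2 : ℝ)⁻¹ ^ ww p ≤ 1 := by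
    have h3 := issued_sum le As U b e hU
      ((F.filter (fun p => ee p = e)).image fun p => (p.2, ww p)) (by
        intro q hq
        rw [Finset.mem_image] at hq
        obtain ⟨p, hp, rfl⟩ := hq
        rw [Finset.mem_filter] at hp
        have := (hF p hp.1).2
        rw [hp.2] at this
        exact this)
    rw [Finset.sum_image] at h3
    · exact h3
    · intro p hp p' hp' h
      rw [Finset.mem_coe, Finset.mem_filter] at hp hp'
      simp only [Prod.mk.injEq] at h
      apply Prod.ext
      · rw [(hF p hp.1).1, (hF p' hp'.1).1, hp.2, hp'.2, h.2]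
      · exact h.1
  have h4 : (0 : ℝ) ≤ (2 : ℝ)⁻¹ ^ (e + 1) := by positivity
  nlinarith

theorem infAct (S : KSys) {A : ℕ → Bool} {As : ℕ → List Bool} {U : Req → Bool} {b C : ℕ}
    (h4 : ∀ n, ∃ s0, ∀ s, s0 ≤ s → (As s).take n = pre A n)
    (hC : ∀ r x, (∃ e w, r = e + 1 + w ∧ Issued S.le As U b e x w) →
      ∃ s, S.le s x (r + C) = true) : InfAct S.le As U b (C + 1) := by
  intro s0
  by_contra hcon
  push Not at hcon
  have hconst : ∀ s, s0 ≤ s → state S.le As U b (C + 1) s = state S.le As U b (C + 1) s0 := by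
    intro s hs
    induction s, hs using Nat.le_induction with
    | base => rfl
    | succ s hs ih =>
      rw [← ih]
      exact state_inact (by simpa using hcon s hs)
  obtain ⟨M, hM⟩ := exists_uniform (state S.le As U b (C + 1) s0).2.2
    (fun t s => S.le s t.1 (t.2.1 + 2 * (C + 1)) = true) (by
      intro t ht
      obtain ⟨s1, hs1⟩ := hC (C + 1 + 1 + t.2.1) t.1 ⟨C + 1, t.2.1, rfl, s0, t.2.2, ht⟩
      refine ⟨s1, fun s hs => ?_⟩
      have h5 : C + 1 + 1 + t.2.1 + C = t.2.1 + 2 * (C + 1) := by ring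
      rw [h5] at hs1
      exact S.mono_s hs hs1)
  obtain ⟨s1, hs1⟩ := h4 (state S.le As U b (C + 1) s0).1
  set s := max s0 (max M s1) with hs
  have hs0 : s0 ≤ s := le_max_left _ _
  have hsM : M ≤ s := (le_max_left _ _).trans (le_max_right _ _)
  have hs1' : s1 ≤ s := (le_max_right _ _).trans (le_max_right _ _)
  apply hcon s hs0
  rw [hconst s hs0]
  unfold active
  rw [Bool.and_eq_true, decide_eq_true_eq, List.all_eq_true]
  refine ⟨?_, fun t ht => hM s hsM t ht⟩
  have h6 := congrArg List.length (hs1 s hs1')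
  rw [List.length_take, pre_length] at h6
  omega

theorem L_re (S : KSys) {As : ℕ → List Bool} {U : Req → Bool} (b e c s0 : ℕ) (π : Path)
    (h1 : Primrec As) (hU : Primrec U) :
    REPred (fun p : ℕ × ℕ => ∃ r s ρ a, p.1 = r + c ∧ s0 ≤ s ∧
      (((some (ρ, r, p.2), a) :: π, true) : Path × Bool) ∈ (state S.le As U b e s).2.1) := by
  have hst : Primrec₂ (state S.le As U b) := state_prim S.prim h1 hU b
  -- q = (r, s, ρ, a)
  have hL : Primrec fun z : (ℕ × ℕ) × (ℕ × ℕ × List Bool × ℕ) =>
      (state S.le As U b e z.2.2.1).2.1 :=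
    Primrec.fst.comp (Primrec.snd.comp (hst.comp (Primrec.const e)
      (Primrec.fst.comp (Primrec.snd.comp Primrec.snd))))
  have hu : Primrec fun z : (ℕ × ℕ) × (ℕ × ℕ × List Bool × ℕ) =>
      ((z.2.2.2.1, z.2.1, z.1.2) : Req) :=
    Primrec.pair (Primrec.fst.comp (Primrec.snd.comp (Primrec.snd.comp Primrec.snd)))
      (Primrec.pair (Primrec.fst.comp Primrec.snd) (Primrec.snd.comp Primrec.fst))
  have hx : Primrec fun z : (ℕ × ℕ) × (ℕ × ℕ × List Bool × ℕ) =>
      ((some (z.2.2.2.1, z.2.1, z.1.2), z.2.2.2.2) : Option Req × ℕ) :=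
    Primrec.pair (Primrec.option_some.comp hu)
      (Primrec.snd.comp (Primrec.snd.comp (Primrec.snd.comp Primrec.snd)))
  have ht : Primrec fun z : (ℕ × ℕ) × (ℕ × ℕ × List Bool × ℕ) =>
      (((some (z.2.2.2.1, z.2.1, z.1.2), z.2.2.2.2) :: π, true) : Path × Bool) :=
    Primrec.pair (Primrec.list_cons.comp hx (Primrec.const π)) (Primrec.const true)
  have hR1 : PrimrecPred fun z : (ℕ × ℕ) × (ℕ × ℕ × List Bool × ℕ) =>
      (((some (z.2.2.2.1, z.2.1, z.1.2), z.2.2.2.2) :: π, true) : Path × Bool) ∈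
        (state S.le As U b e z.2.2.1).2.1 :=
    PrimrecRel.comp mem_prim hL ht
  have hR2 : PrimrecPred fun z : (ℕ × ℕ) × (ℕ × ℕ × List Bool × ℕ) => z.1.1 = z.2.1 + c :=
    PrimrecRel.comp Primrec.eq (Primrec.fst.comp Primrec.fst)
      (Primrec.nat_add.comp (Primrec.fst.comp Primrec.snd) (Primrec.const c))
  have hR3 : PrimrecPred fun z : (ℕ × ℕ) × (ℕ × ℕ × List Bool × ℕ) => s0 ≤ z.2.2.1 :=
    PrimrecRel.comp Primrec.nat_le (Primrec.const s0)
      (Primrec.fst.comp (Primrec.snd.comp Primrec.snd))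
  have hR : PrimrecRel (fun (p : ℕ × ℕ) (q : ℕ × ℕ × List Bool × ℕ) =>
      p.1 = q.1 + c ∧ s0 ≤ q.2.1 ∧
      (((some (q.2.2.1, q.1, p.2), q.2.2.2) :: π, true) : Path × Bool) ∈
        (state S.le As U b e q.2.1).2.1) :=
    PrimrecPred.and hR2 (PrimrecPred.and hR3 hR1)
  refine (re_of_prim hR).of_eq ?_
  intro p
  constructor
  · rintro ⟨⟨r, s, ρ, a⟩, h2, h3, h4⟩
    exact ⟨r, s, ρ, a, h2, h3, h4⟩
  · rintro ⟨r, s, ρ, a, h2, h3, h4⟩
    exact ⟨⟨r, s, ρ, a⟩, h2, h3, h4⟩

theorem lk_of_approx_aux (S : KSys) (A : ℕ → Bool) (b : ℕ) (As : ℕ → List Bool) (h1 : Primrec As)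
    (h3 : ∀ s j r, j ≤ (As s).length → S.le s j r = true →
          S.le s (encode ((As s).take j)) (r + b) = true)
    (h4 : ∀ n, ∃ s0, ∀ s, s0 ≤ s → (As s).take n = pre A n) : LK S A := by
  classical
  intro W hW hs
  obtain ⟨U, hUp, hU1, hU2, hU3⟩ := discipline A W hW hs
  obtain ⟨C, hC⟩ := S.univ (fun r x => ∃ e w, r = e + 1 + w ∧ Issued S.le As U b e x w)
    (issued_re S b h1 hUp) (issued_total S.le As U b hU2)
  have hact : InfAct S.le As U b (C + 1) := infAct S h4 hC
  have hh := fun s => held_le S.le As U b (C + 1) s hU2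
  have hroot := root_not_done S As U b (C + 1) h3
  obtain ⟨π, s0, hlen, hp, hgold⟩ := exists_golden hact hh hroot
  set K : ℝ := 1 + 2 ^ qq (Q0 b (C + 1)) π * ((2 : ℝ)⁻¹ ^ gg (Q0 b (C + 1)) π +
      (NN b (C + 1) : ℝ) * (2 : ℝ)⁻¹ ^ qq (Q0 b (C + 1)) π) with hK
  obtain ⟨c, hc⟩ : ∃ c : ℕ, K ≤ 2 ^ c := by
    obtain ⟨c, hc⟩ := pow_unbounded_of_one_lt K (by norm_num : (1 : ℝ) < 2)
    exact ⟨c, hc.le⟩
  obtain ⟨C', hC'⟩ := S.univ (fun r' x => ∃ r s ρ a, r' = r + c ∧ s0 ≤ s ∧
      (((some (ρ, r, x), a) :: π, true) : Path × Bool) ∈ (state S.le As U b (C + 1) s).2.1)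
    (L_re S b (C + 1) c s0 π h1 hUp) (by
    intro F hF
    have h5 : ∀ p ∈ F, c ≤ p.1 ∧ ∃ s ρ a, s0 ≤ s ∧
        (((some (ρ, p.1 - c, p.2), a) :: π, true) : Path × Bool) ∈
          (state S.le As U b (C + 1) s).2.1 := by
      intro p hp'
      obtain ⟨r, s, ρ, a, h6, h7, h8⟩ := hF p hp'
      -- (h6, h8 are already in the right form)
      refine ⟨by omega, s, ρ, a, h7, ?_⟩
      have h9 : p.1 - c = r := by omega
      rw [h9]
      exact h8
    have h6 := L_sum hU2 hh hp (F.image fun p => (p.1 - c, p.2)) (by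
      intro q hq
      rw [Finset.mem_image] at hq
      obtain ⟨p, hp', rfl⟩ := hq
      exact (h5 p hp').2)
    rw [Finset.sum_image] at h6
    · have h7 : ∑ p ∈ F, (2 : ℝ)⁻¹ ^ p.1 = (2 : ℝ)⁻¹ ^ c * ∑ p ∈ F, (2 : ℝ)⁻¹ ^ (p.1 - c) := by
        rw [Finset.mul_sum]
        apply Finset.sum_congr rfl
        intro p hp'
        rw [← pow_add]
        congr 1
        have := (h5 p hp').1
        omega
      rw [h7]
      have h8 : ∑ p ∈ F, (2 : ℝ)⁻¹ ^ (p.1 - c) ≤ 2 ^ c := h6.trans hc
      calc (2 : ℝ)⁻¹ ^ c * ∑ p ∈ F, (2 : ℝ)⁻¹ ^ (p.1 - c) ≤ (2 : ℝ)⁻¹ ^ c * 2 ^ c :=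
            mul_le_mul_of_nonneg_left h8 (by positivity)
        _ = 1 := by rw [← mul_pow]; norm_num
    · intro p hp' p' hp'' h
      have h8 := (h5 p hp').1
      have h9 := (h5 p' hp'').1
      simp only [Prod.mk.injEq] at h
      apply Prod.ext
      · omega
      · exact h.2)
  refine ⟨c + C', ?_⟩
  intro k r x hk
  obtain ⟨k', hk'⟩ := hU3 k r x hk
  obtain ⟨s, a, h5, h6⟩ := true_in_L hact h4 hp hlen hgold hk' (by simp [pre_length])
  obtain ⟨s', hs'⟩ := hC' (r + c) x ⟨r, s, _, a, rfl, h5, h6⟩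
  exact ⟨s', by rw [← add_assoc]; exact hs'⟩

end OWR.Gold.Final

namespace OWR.Gold

open Encodable

theorem lk_of_approx (S : KSys) (A : ℕ → Bool) (b : ℕ) (As : ℕ → List Bool) (h1 : Primrec As)
    (h2 : ∀ s, (As s).length ≤ s)
    (h3 : ∀ s j r, j ≤ (As s).length → S.le s j r = true →
          S.le s (encode ((As s).take j)) (r + b) = true)
    (h4 : ∀ n, ∃ s0, ∀ s, s0 ≤ s → (As s).take n = pre A n) : LK S A :=
  have _ := h2
  Final.lk_of_approx_aux S A b As h1 h3 h4

end OWR.Gold
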