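import Pool.Agent.H77.OW.Basic

/-!
# Task RecIn : the use principle for Mathlib's oracle computability

`chi A` is the characteristic function of A.  A function recursive in A (possibly undefined somewhere) has a graph given by an r.e. set of
axioms (ρ, x, y) on the initial segments ρ of A.
-/

namespace OWR

open Encodable

/-- the characteristic function of A as an oracle -/
def chi (A : ℕ → Bool) : ℕ →. ℕ := fun n => Part.some (if A n then 1 else 0)

/-- The graph of `f` is given by a monotone r.e. set of axioms on the initial segments of `A`. -/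
private def RGood (A : ℕ → Bool) (f : ℕ → Part ℕ) : Prop :=
  ∃ Φ : List Bool → ℕ → ℕ → Prop, REPred (fun p : List Bool × ℕ × ℕ => Φ p.1 p.2.1 p.2.2) ∧
      (∀ ρ ρ' x y, ρ <+: ρ' → Φ ρ x y → Φ ρ' x y) ∧
      ∀ x y, y ∈ f x ↔ ∃ k, Φ (pre A k) x y

private theorem rgood_total (A : ℕ → Bool) {f : ℕ → Part ℕ} {g : ℕ → ℕ} (hg : Primrec g)
    (hf : ∀ x, f x = Part.some (g x)) : RGood A f := by
  refine ⟨fun _ x y => y = g x, ?_, fun _ _ _ _ _ h => h, fun x y => ?_⟩
  · refine re_of_primrec ?_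
    exact Primrec.eq.comp (Primrec.snd.comp Primrec.snd)
      (hg.comp (Primrec.fst.comp Primrec.snd))
  · rw [hf, Part.mem_some_iff]
    exact ⟨fun h => ⟨0, h⟩, fun ⟨_, h⟩ => h⟩

private theorem getElem?_of_isPrefix {ρ ρ' : List Bool} (h : ρ <+: ρ') {n : ℕ} {c : Bool}
    (hn : ρ[n]? = some c) : ρ'[n]? = some c := by
  obtain ⟨t, rfl⟩ := h
  obtain ⟨hlt, he⟩ := List.getElem?_eq_some_iff.1 hn
  rw [List.getElem?_append_left hlt]
  exact hn

private theorem pre_getElem? (A : ℕ → Bool) {n k : ℕ} {c : Bool} :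
    (pre A k)[n]? = some c ↔ n < k ∧ c = A n := by
  rw [List.getElem?_eq_some_iff]
  constructor
  · rintro ⟨h, he⟩
    rw [pre_length] at h
    refine ⟨h, ?_⟩
    rw [← he]
    simp [pre]
  · rintro ⟨h, rfl⟩
    refine ⟨by rw [pre_length]; exact h, ?_⟩
    simp [pre]

private theorem rgood_oracle (A : ℕ → Bool) : RGood A (chi A) := by
  refine ⟨fun ρ x y => (ρ[x]? = some true ∧ y = 1) ∨ (ρ[x]? = some false ∧ y = 0), ?_, ?_, ?_⟩
  · have hget : Primrec fun p : List Bool × ℕ × ℕ => p.1[p.2.1]? :=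
      Primrec.list_getElem?.comp Primrec.fst (Primrec.fst.comp Primrec.snd)
    have hy : Primrec fun p : List Bool × ℕ × ℕ => p.2.2 := Primrec.snd.comp Primrec.snd
    refine re_or (re_and (re_of_primrec ?_) (re_of_primrec ?_))
      (re_and (re_of_primrec ?_) (re_of_primrec ?_))
    · exact Primrec.eq.comp hget (Primrec.const _)
    · exact Primrec.eq.comp hy (Primrec.const _)
    · exact Primrec.eq.comp hget (Primrec.const _)
    · exact Primrec.eq.comp hy (Primrec.const _)
  · rintro ρ ρ' x y hp (⟨h1, h2⟩ | ⟨h1, h2⟩)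
    · exact Or.inl ⟨getElem?_of_isPrefix hp h1, h2⟩
    · exact Or.inr ⟨getElem?_of_isPrefix hp h1, h2⟩
  · intro x y
    simp only [pre_getElem?]
    unfold chi
    rw [Part.mem_some_iff]
    constructor
    · intro h
      refine ⟨x + 1, ?_⟩
      cases hA : A x with
      | true => rw [hA] at h; exact Or.inl ⟨⟨Nat.lt_succ_self x, rfl⟩, by simpa using h⟩
      | false => rw [hA] at h; exact Or.inr ⟨⟨Nat.lt_succ_self x, rfl⟩, by simpa using h⟩
    · rintro ⟨k, (⟨⟨-, h1⟩, h2⟩ | ⟨⟨-, h1⟩, h2⟩)⟩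
      · rw [h2, ← h1]; rfl
      · rw [h2, ← h1]; rfl

/-- Merging two uses. -/
private theorem merge {A : ℕ → Bool} {P Q : List Bool → Prop}
    (hP : ∀ ρ ρ', ρ <+: ρ' → P ρ → P ρ') (hQ : ∀ ρ ρ', ρ <+: ρ' → Q ρ → Q ρ') :
    (∃ k, P (pre A k) ∧ Q (pre A k)) ↔ (∃ k, P (pre A k)) ∧ ∃ k, Q (pre A k) := by
  constructor
  · rintro ⟨k, h1, h2⟩
    exact ⟨⟨k, h1⟩, ⟨k, h2⟩⟩
  · rintro ⟨⟨k, h1⟩, ⟨l, h2⟩⟩
    exact ⟨max k l, hP _ _ (pre_isPre A (le_max_left _ _)) h1,
      hQ _ _ (pre_isPre A (le_max_right _ _)) h2⟩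

/-- Merging finitely many uses. -/
private theorem merge_range {A : ℕ → Bool} {P : ℕ → List Bool → Prop} (n : ℕ)
    (hP : ∀ i ρ ρ', ρ <+: ρ' → P i ρ → P i ρ') :
    (∃ k, ∀ i ∈ List.range n, P i (pre A k)) ↔ ∀ i < n, ∃ k, P i (pre A k) := by
  constructor
  · rintro ⟨k, h⟩ i hi
    exact ⟨k, h i (List.mem_range.2 hi)⟩
  · intro h
    induction n with
    | zero => exact ⟨0, fun i hi => by simp at hi⟩
    | succ n ih =>
      obtain ⟨k, hk⟩ := ih fun i hi => h i (Nat.lt_succ_of_lt hi)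
      obtain ⟨l, hl⟩ := h n (Nat.lt_succ_self n)
      refine ⟨max k l, fun i hi => ?_⟩
      rcases Nat.lt_succ_iff_lt_or_eq.1 (List.mem_range.1 hi) with h1 | rfl
      · exact hP _ _ _ (pre_isPre A (le_max_left _ _)) (hk i (List.mem_range.2 h1))
      · exact hP _ _ _ (pre_isPre A (le_max_right _ _)) hl

private theorem rgood_pair (A : ℕ → Bool) {f h : ℕ → Part ℕ} (hf : RGood A f) (hh : RGood A h) :
    RGood A fun n => (Nat.pair <$> f n <*> h n : Part ℕ) := by
  obtain ⟨Φ, rΦ, mΦ, eΦ⟩ := hf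
  obtain ⟨Ψ, rΨ, mΨ, eΨ⟩ := hh
  refine ⟨fun ρ x y => Φ ρ x y.unpair.1 ∧ Ψ ρ x y.unpair.2, ?_, ?_, ?_⟩
  · have h1 : Computable fun p : List Bool × ℕ × ℕ => (p.1, p.2.1, p.2.2.unpair.1) :=
      (Primrec.fst.pair ((Primrec.fst.comp Primrec.snd).pair
        (Primrec.fst.comp (Primrec.unpair.comp (Primrec.snd.comp Primrec.snd))))).to_comp
    have h2 : Computable fun p : List Bool × ℕ × ℕ => (p.1, p.2.1, p.2.2.unpair.2) :=
      (Primrec.fst.pair ((Primrec.fst.comp Primrec.snd).pair
        (Primrec.snd.comp (Primrec.unpair.comp (Primrec.snd.comp Primrec.snd))))).to_comp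
    exact re_and (re_comp rΦ h1) (re_comp rΨ h2)
  · rintro ρ ρ' x y hp ⟨h1, h2⟩
    exact ⟨mΦ _ _ _ _ hp h1, mΨ _ _ _ _ hp h2⟩
  · intro x y
    rw [merge (fun ρ ρ' hp => mΦ ρ ρ' x _ hp) (fun ρ ρ' hp => mΨ ρ ρ' x _ hp), ← eΦ, ← eΨ]
    simp only [seq_eq_bind_map, Part.bind_eq_bind, Part.map_eq_map, Part.bind_map,
      Part.mem_bind_iff, Part.mem_map_iff]
    constructor
    · rintro ⟨a, ha, b, hb, rfl⟩
      simpa using ⟨ha, hb⟩
    · rintro ⟨h1, h2⟩
      exact ⟨_, h1, _, h2, Nat.pair_unpair y⟩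

private theorem rgood_comp (A : ℕ → Bool) {f h : ℕ → Part ℕ} (hf : RGood A f) (hh : RGood A h) :
    RGood A fun n => (h n).bind f := by
  obtain ⟨Φ, rΦ, mΦ, eΦ⟩ := hf
  obtain ⟨Ψ, rΨ, mΨ, eΨ⟩ := hh
  refine ⟨fun ρ x y => ∃ z, Ψ ρ x z ∧ Φ ρ z y, ?_, ?_, ?_⟩
  · refine re_exists ?_
    have h1 : Computable fun q : (List Bool × ℕ × ℕ) × ℕ => (q.1.1, q.1.2.1, q.2) :=
      ((Primrec.fst.comp Primrec.fst).pair (((Primrec.fst.comp Primrec.snd).comp Primrec.fst).pair
        Primrec.snd)).to_comp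
    have h2 : Computable fun q : (List Bool × ℕ × ℕ) × ℕ => (q.1.1, q.2, q.1.2.2) :=
      ((Primrec.fst.comp Primrec.fst).pair (Primrec.snd.pair
        ((Primrec.snd.comp Primrec.snd).comp Primrec.fst))).to_comp
    exact re_and (re_comp rΨ h1) (re_comp rΦ h2)
  · rintro ρ ρ' x y hp ⟨z, h1, h2⟩
    exact ⟨z, mΨ _ _ _ _ hp h1, mΦ _ _ _ _ hp h2⟩
  · intro x y
    rw [Part.mem_bind_iff]
    refine Iff.trans (exists_congr fun z => ?_) exists_comm
    rw [merge (P := fun ρ => Ψ ρ x z) (Q := fun ρ => Φ ρ z y)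
      (fun ρ ρ' hp => mΨ ρ ρ' x _ hp) (fun ρ ρ' hp => mΦ ρ ρ' z _ hp), ← eΦ, ← eΨ]

private theorem rgood_prec (A : ℕ → Bool) {f h : ℕ → Part ℕ} (hf : RGood A f) (hh : RGood A h) :
    RGood A fun p => Nat.rec (motive := fun _ => Part ℕ) (f p.unpair.1)
      (fun y IH => IH.bind fun i => h (Nat.pair p.unpair.1 (Nat.pair y i))) p.unpair.2 := by
  obtain ⟨Φ, rΦ, mΦ, eΦ⟩ := hf
  obtain ⟨Ψ, rΨ, mΨ, eΨ⟩ := hh
  refine ⟨fun ρ p y => ∃ l : List ℕ, (Φ ρ p.unpair.1 (l.getD 0 0) ∧ ∀ i ∈ List.range p.unpair.2,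
    Ψ ρ (Nat.pair p.unpair.1 (Nat.pair i (l.getD i 0))) (l.getD (i + 1) 0)) ∧
      y = l.getD p.unpair.2 0, ?_, ?_, ?_⟩
  · refine re_exists ?_
    have hρ : Primrec fun q : (List Bool × ℕ × ℕ) × List ℕ => q.1.1 :=
      Primrec.fst.comp Primrec.fst
    have ha : Primrec fun q : (List Bool × ℕ × ℕ) × List ℕ => q.1.2.1.unpair.1 :=
      Primrec.fst.comp (Primrec.unpair.comp (Primrec.fst.comp (Primrec.snd.comp Primrec.fst)))
    have hn : Primrec fun q : (List Bool × ℕ × ℕ) × List ℕ => q.1.2.1.unpair.2 :=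
      Primrec.snd.comp (Primrec.unpair.comp (Primrec.fst.comp (Primrec.snd.comp Primrec.fst)))
    have hy : Primrec fun q : (List Bool × ℕ × ℕ) × List ℕ => q.1.2.2 :=
      Primrec.snd.comp (Primrec.snd.comp Primrec.fst)
    have hl : Primrec fun q : (List Bool × ℕ × ℕ) × List ℕ => q.2 := Primrec.snd
    refine re_and (re_and ?_ ?_) ?_
    · have h1 : Primrec fun q : (List Bool × ℕ × ℕ) × List ℕ =>
          (q.1.1, q.1.2.1.unpair.1, q.2.getD 0 0) :=
        hρ.pair (ha.pair ((Primrec.list_getD 0).comp hl (Primrec.const 0)))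
      have h9 := re_comp rΦ h1.to_comp; exact h9
    · have hr : Primrec fun q : (List Bool × ℕ × ℕ) × List ℕ => List.range q.1.2.1.unpair.2 :=
        Primrec.list_range.comp hn
      refine re_forall_mem (β := ℕ) (p := fun (q : (List Bool × ℕ × ℕ) × List ℕ) i =>
        Ψ q.1.1 (Nat.pair q.1.2.1.unpair.1 (Nat.pair i (q.2.getD i 0))) (q.2.getD (i + 1) 0)) ?_ hr
      have h1 : Primrec fun r : ((List Bool × ℕ × ℕ) × List ℕ) × ℕ => r.1.2.getD r.2 0 :=
        (Primrec.list_getD 0).comp (hl.comp Primrec.fst) Primrec.snd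
      have h2 : Primrec fun r : ((List Bool × ℕ × ℕ) × List ℕ) × ℕ => r.1.2.getD (r.2 + 1) 0 :=
        (Primrec.list_getD 0).comp (hl.comp Primrec.fst) (Primrec.succ.comp Primrec.snd)
      have h3 : Primrec fun r : ((List Bool × ℕ × ℕ) × List ℕ) × ℕ =>
          (r.1.1.1, Nat.pair r.1.1.2.1.unpair.1 (Nat.pair r.2 (r.1.2.getD r.2 0)),
            r.1.2.getD (r.2 + 1) 0) :=
        (hρ.comp Primrec.fst).pair ((Primrec₂.natPair.comp (ha.comp Primrec.fst)
          (Primrec₂.natPair.comp Primrec.snd h1)).pair h2)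
      have h9 := re_comp rΨ h3.to_comp; exact h9
    · exact re_of_primrec (Primrec.eq.comp hy ((Primrec.list_getD 0).comp hl hn))
  · rintro ρ ρ' x y hp ⟨l, ⟨h1, h2⟩, h3⟩
    exact ⟨l, ⟨mΦ _ _ _ _ hp h1, fun i hi => mΨ _ _ _ _ hp (h2 i hi)⟩, h3⟩
  · intro x y
    set a := x.unpair.1 with ha
    set n := x.unpair.2 with hn
    obtain ⟨R, hR⟩ : ∃ R : ℕ → Part ℕ, R = fun n => Nat.rec (motive := fun _ => Part ℕ) (f a)
      (fun y IH => IH.bind fun i => h (Nat.pair a (Nat.pair y i))) n := ⟨_, rfl⟩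
    have hR0 : R 0 = f a := by subst hR; rfl
    have hRs : ∀ m, R (m + 1) = (R m).bind fun i => h (Nat.pair a (Nat.pair m i)) := by
      intro m; subst hR; rfl
    have hgoal : (Nat.rec (motive := fun _ => Part ℕ) (f a)
      (fun y IH => IH.bind fun i => h (Nat.pair a (Nat.pair y i))) n) = R n := by rw [hR]
    change y ∈ (Nat.rec (motive := fun _ => Part ℕ) (f a)
      (fun y IH => IH.bind fun i => h (Nat.pair a (Nat.pair y i))) n) ↔ _
    rw [hgoal]
    refine Iff.trans ?_ exists_comm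
    constructor
    · intro hy
      -- the intermediate values
      have hdom : ∀ m, (R (m + 1)).Dom → (R m).Dom := by
        intro m hm
        obtain ⟨z, hz⟩ := Part.dom_iff_mem.1 hm
        rw [hRs, Part.mem_bind_iff] at hz
        obtain ⟨w, hw, -⟩ := hz
        exact Part.dom_iff_mem.2 ⟨w, hw⟩
      have hdom2 : ∀ j, j ≤ n → (R (n - j)).Dom := by
        intro j
        induction j with
        | zero => intro _; exact Part.dom_iff_mem.2 ⟨y, hy⟩
        | succ j ih =>
          intro hj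
          refine hdom _ ?_
          have : n - (j + 1) + 1 = n - j := by omega
          rw [this]
          exact ih (by omega)
      have hdom3 : ∀ i, i ≤ n → ∃ z, z ∈ R i := by
        intro i hi
        have := hdom2 (n - i) (by omega)
        rw [show n - (n - i) = i by omega] at this
        exact Part.dom_iff_mem.1 this
      choose! g hg using hdom3
      have hl : ∀ i ≤ n, ((List.range (n + 1)).map g).getD i 0 = g i := by
        intro i hi
        rw [List.getD_eq_getElem?_getD, List.getElem?_map, List.getElem?_range (by omega)]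
        rfl
      refine ⟨(List.range (n + 1)).map g, ?_⟩
      have hstep : ∀ i < n, ∃ k, Ψ (pre A k) (Nat.pair a (Nat.pair i (g i))) (g (i + 1)) := by
        intro i hi
        rw [← eΨ]
        have h1 := hg (i + 1) (by omega)
        rw [hRs, Part.mem_bind_iff] at h1
        obtain ⟨w, hw, hw'⟩ := h1
        have : w = g i := Part.mem_unique hw (hg i (by omega))
        rw [this] at hw'
        exact hw'
      have h0 : ∃ k, Φ (pre A k) a (g 0) := by
        rw [← eΦ, ← hR0]
        exact hg 0 (by omega)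
      have hall := (merge_range (A := A)
        (P := fun i ρ => Ψ ρ (Nat.pair a (Nat.pair i (g i))) (g (i + 1))) n
        (fun i ρ ρ' hp hh => mΨ _ _ _ _ hp hh)).2 hstep
      obtain ⟨k, hk1, hk2⟩ := (merge (A := A) (P := fun ρ => Φ ρ a (g 0))
        (Q := fun ρ => ∀ i ∈ List.range n, Ψ ρ (Nat.pair a (Nat.pair i (g i))) (g (i + 1)))
        (fun ρ ρ' hp hh => mΦ _ _ _ _ hp hh)
        (fun ρ ρ' hp hh i hi => mΨ _ _ _ _ hp (hh i hi))).2 ⟨h0, hall⟩
      refine ⟨k, ⟨?_, fun i hi => ?_⟩, ?_⟩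
      · rw [hl 0 (by omega)]
        exact hk1
      · have hi' := List.mem_range.1 hi
        rw [hl i (by omega), hl (i + 1) (by omega)]
        exact hk2 i hi
      · rw [hl n le_rfl]
        exact Part.mem_unique hy (hg n le_rfl)
    · rintro ⟨l, k, ⟨h1, h2⟩, h3⟩
      have hind : ∀ i ≤ n, l.getD i 0 ∈ R i := by
        intro i
        induction i with
        | zero => intro _; rw [hR0, eΦ]; exact ⟨k, h1⟩
        | succ i ih =>
          intro hi
          rw [hRs, Part.mem_bind_iff]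
          refine ⟨_, ih (by omega), ?_⟩
          rw [eΨ]
          exact ⟨k, h2 i (List.mem_range.2 (by omega))⟩
      rw [h3]
      exact hind n le_rfl

private theorem rgood_rfind (A : ℕ → Bool) {f : ℕ → Part ℕ} (hf : RGood A f) :
    RGood A fun a => Nat.rfind (fun n => (f (Nat.pair a n)).map fun m => decide (m = 0) :
      ℕ →. Bool) := by
  obtain ⟨Φ, rΦ, mΦ, eΦ⟩ := hf
  refine ⟨fun ρ x y => Φ ρ (Nat.pair x y) 0 ∧ ∀ i ∈ List.range y, ∃ m, m ≠ 0 ∧
    Φ ρ (Nat.pair x i) m, ?_, ?_, ?_⟩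
  · refine re_and ?_ ?_
    · have h1 : Primrec fun p : List Bool × ℕ × ℕ => (p.1, Nat.pair p.2.1 p.2.2, 0) :=
        Primrec.fst.pair ((Primrec₂.natPair.comp
          (Primrec.fst.comp Primrec.snd) (Primrec.snd.comp Primrec.snd)).pair (Primrec.const 0))
      have h9 := re_comp rΦ h1.to_comp; exact h9
    · have hr : Primrec fun q : List Bool × ℕ × ℕ => List.range q.2.2 :=
        Primrec.list_range.comp (Primrec.snd.comp Primrec.snd)
      refine re_forall_mem (β := ℕ) (p := fun (q : List Bool × ℕ × ℕ) i => ∃ m, m ≠ 0 ∧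
        Φ q.1 (Nat.pair q.2.1 i) m) ?_ hr
      refine re_exists ?_
      refine re_and (re_of_primrec ?_) ?_
      · exact (Primrec.eq.comp Primrec.snd (Primrec.const 0)).not
      · have h1 : Primrec fun r : ((List Bool × ℕ × ℕ) × ℕ) × ℕ =>
            (r.1.1.1, Nat.pair r.1.1.2.1 r.1.2, r.2) :=
          (Primrec.fst.comp (Primrec.fst.comp Primrec.fst)).pair
            ((Primrec₂.natPair.comp (Primrec.fst.comp (Primrec.snd.comp (Primrec.fst.comp
              Primrec.fst))) (Primrec.snd.comp Primrec.fst)).pair Primrec.snd)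
        have h9 := re_comp rΦ h1.to_comp; exact h9
  · rintro ρ ρ' x y hp ⟨h1, h2⟩
    refine ⟨mΦ _ _ _ _ hp h1, fun i hi => ?_⟩
    obtain ⟨m, hm, hm'⟩ := h2 i hi
    exact ⟨m, hm, mΦ _ _ _ _ hp hm'⟩
  · intro x y
    rw [merge (A := A) (P := fun ρ => Φ ρ (Nat.pair x y) 0)
      (Q := fun ρ => ∀ i ∈ List.range y, ∃ m, m ≠ 0 ∧ Φ ρ (Nat.pair x i) m)
      (fun ρ ρ' hp hh => mΦ _ _ _ _ hp hh)
      (fun ρ ρ' hp hh i hi => (hh i hi).imp fun m hm => ⟨hm.1, mΦ _ _ _ _ hp hm.2⟩),
      merge_range (A := A) (P := fun i ρ => ∃ m, m ≠ 0 ∧ Φ ρ (Nat.pair x i) m) y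
      (fun i ρ ρ' hp hh => hh.imp fun m hm => ⟨hm.1, mΦ _ _ _ _ hp hm.2⟩), ← eΦ]
    refine Iff.trans Nat.mem_rfind (and_congr ?_ ?_)
    · rw [Part.mem_map_iff]
      constructor
      · rintro ⟨m, hm, hm'⟩
        have : m = 0 := by simpa using hm'
        rw [← this]
        exact hm
      · intro h
        exact ⟨0, h, by simp⟩
    · constructor
      · intro h i hi
        have h1 := h hi
        rw [Part.mem_map_iff] at h1
        obtain ⟨m, hm, hm'⟩ := h1
        obtain ⟨k, hk⟩ := (eΦ _ _).1 hm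
        exact ⟨k, m, by simpa using hm', hk⟩
      · intro h i hi
        obtain ⟨k, m, hm, hk⟩ := h i hi
        rw [Part.mem_map_iff]
        exact ⟨m, (eΦ _ _).2 ⟨k, hk⟩, by simpa using hm⟩

theorem recIn_nat (A : ℕ → Bool) {f : ℕ →. ℕ} (h : Nat.RecursiveIn {chi A} f) :
    ∃ Φ : List Bool → ℕ → ℕ → Prop, REPred (fun p : List Bool × ℕ × ℕ => Φ p.1 p.2.1 p.2.2) ∧
      (∀ ρ ρ' x y, ρ <+: ρ' → Φ ρ x y → Φ ρ' x y) ∧
      ∀ x y, y ∈ f x ↔ ∃ k, Φ (pre A k) x y := by
  change RGood A f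
  induction h with
  | zero => exact rgood_total A (g := fun _ => 0) (Primrec.const 0) fun x => rfl
  | succ => exact rgood_total A (g := Nat.succ) Primrec.succ fun x => rfl
  | left =>
    exact rgood_total A (g := fun n => (Nat.unpair n).1)
      (Primrec.fst.comp Primrec.unpair) fun x => Part.coe_some _
  | right =>
    exact rgood_total A (g := fun n => (Nat.unpair n).2)
      (Primrec.snd.comp Primrec.unpair) fun x => Part.coe_some _
  | oracle g hg => rw [Set.mem_singleton_iff.1 hg]; exact rgood_oracle A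
  | pair _ _ ihf ihh => exact rgood_pair A ihf ihh
  | comp _ _ ihf ihh => exact rgood_comp A ihf ihh
  | prec _ _ ihf ihh => exact rgood_prec A ihf ihh
  | rfind _ ihf => exact rgood_rfind A ihf

theorem recIn {α σ : Type*} [Primcodable α] [Primcodable σ] (A : ℕ → Bool) {f : α →. σ}
    (h : RecursiveIn {chi A} f) :
    ∃ Φ : List Bool → α → σ → Prop, REPred (fun p : List Bool × α × σ => Φ p.1 p.2.1 p.2.2) ∧
      ∀ x y, y ∈ f x ↔ ∃ k, Φ (pre A k) x y := by
  obtain ⟨Φ, rΦ, -, eΦ⟩ := recIn_nat A h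
  refine ⟨fun ρ x y => Φ ρ (encode x) (encode y), ?_, fun x y => ?_⟩
  · exact re_comp rΦ ((Primrec.fst.pair ((Primrec.encode.comp (Primrec.fst.comp Primrec.snd)).pair
      (Primrec.encode.comp (Primrec.snd.comp Primrec.snd)))).to_comp)
  · rw [← eΦ]
    simp only [encodek, Part.coe_some, Part.bind_some, Part.mem_map_iff, encode_inj,
      exists_eq_right]

/-- The function `k ↦ A ↾ k` is recursive in `A`. -/
private theorem rec_pre (A : ℕ → Bool) :
    Nat.RecursiveIn {chi A} fun k => Part.some (encode (pre A k)) := by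
  -- the step function
  have hst : Primrec fun q : ℕ =>
      encode (((decode (α := List Bool) q.unpair.1.unpair.2.unpair.2).getD []) ++
        [decide (q.unpair.2 = 1)]) := by
    have h1 : Primrec fun q : ℕ => decode (α := List Bool) q.unpair.1.unpair.2.unpair.2 :=
      Primrec.decode.comp (Primrec.snd.comp (Primrec.unpair.comp (Primrec.snd.comp
        (Primrec.unpair.comp (Primrec.fst.comp Primrec.unpair)))))
    have h2 : Primrec fun q : ℕ => (decode (α := List Bool) q.unpair.1.unpair.2.unpair.2).getD [] :=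
      Primrec.option_getD.comp h1 (Primrec.const [])
    have h3 : Primrec fun q : ℕ => decide (q.unpair.2 = 1) :=
      (Primrec.eq.comp (Primrec.snd.comp Primrec.unpair) (Primrec.const 1)).decide
    have h4 : Primrec fun q : ℕ => [decide (q.unpair.2 = 1)] :=
      Primrec.list_cons.comp h3 (Primrec.const [])
    exact Primrec.encode.comp (Primrec.list_append.comp h2 h4)
  have hst' := (Primrec.nat_iff.1 hst).recursiveIn (O := {chi A})
  -- the oracle at the counter
  have hor : Nat.RecursiveIn {chi A} fun q : ℕ => Part.some (if A q.unpair.2.unpair.1 then 1 else 0) := by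
    have h1 : Nat.RecursiveIn {chi A} (fun q : ℕ => (q.unpair.2.unpair.1 : Part ℕ)) :=
      (Primrec.nat_iff.1 (Primrec.fst.comp (Primrec.unpair.comp
        (Primrec.snd.comp Primrec.unpair)))).recursiveIn
    have h2 := Nat.RecursiveIn.comp (Nat.RecursiveIn.oracle (chi A) (Set.mem_singleton (chi A))) h1
    refine h2.of_eq fun n => ?_
    change Part.bind _ _ = _
    rw [Part.coe_some]
    exact Part.bind_some _ _
  have hid : Nat.RecursiveIn {chi A} fun q : ℕ => (q : Part ℕ) :=
    (Primrec.nat_iff.1 Primrec.id).recursiveIn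
  have hstep := Nat.RecursiveIn.comp hst' (Nat.RecursiveIn.pair hid hor)
  have hz : Nat.RecursiveIn {chi A} fun _ : ℕ => Part.some (encode ([] : List Bool)) := by
    have := (Primrec.nat_iff.1 (Primrec.const (encode ([] : List Bool)))).recursiveIn
      (O := {chi A})
    refine this.of_eq fun n => ?_
    rw [Part.coe_some]
  have hprec := Nat.RecursiveIn.prec hz hstep
  have hk : Nat.RecursiveIn {chi A} fun k : ℕ => ((Nat.pair 0 k : ℕ) : Part ℕ) :=
    (Primrec.nat_iff.1 (Primrec₂.natPair.comp (Primrec.const 0) Primrec.id)).recursiveIn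
  have hfin := Nat.RecursiveIn.comp hprec hk
  refine hfin.of_eq fun k => ?_
  change Part.bind _ _ = _
  rw [Part.coe_some, Part.bind_some]
  simp only [Nat.unpair_pair]
  induction k with
  | zero => rfl
  | succ k ih =>
    change Part.bind _ _ = _
    rw [ih, Part.bind_some]
    simp [seq_eq_bind_map, Part.bind_some, pre_succ, encodek]

/-- converse -/
theorem recIn_of_functional {α : Type*} [Primcodable α] (A : ℕ → Bool)
    (Φ : List Bool → α → Prop) (hΦ : REPred (fun p : List Bool × α => Φ p.1 p.2)) :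
    ∃ f : α →. Unit, RecursiveIn {chi A} f ∧ ∀ x, (f x).Dom ↔ ∃ k, Φ (pre A k) x := by
  obtain ⟨g, hg, -, eg⟩ := exists_stage hΦ
  -- the test
  obtain ⟨Q, hQ⟩ : ∃ Q : ℕ → ℕ → ℕ, Q = fun n m => ((decode (α := α) n).map fun a =>
    bif g (pre A m.unpair.1, a) m.unpair.2 then 0 else 1).getD 1 := ⟨_, rfl⟩
  have hP : Primrec fun q : ℕ => ((decode (α := α) q.unpair.1.unpair.1).bind fun a =>
      (decode (α := List Bool) q.unpair.2).map fun ρ =>
        bif g (ρ, a) q.unpair.1.unpair.2.unpair.2 then 0 else 1).getD 1 := by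
    refine Primrec.option_getD.comp ?_ (Primrec.const 1)
    refine Primrec.option_bind (Primrec.decode.comp (Primrec.fst.comp (Primrec.unpair.comp
      (Primrec.fst.comp Primrec.unpair)))) ?_
    refine Primrec.option_map (Primrec.decode.comp (Primrec.snd.comp (Primrec.unpair.comp
      Primrec.fst))) ?_
    have h1 : Primrec fun r : (ℕ × α) × List Bool =>
        g (r.2, r.1.2) r.1.1.unpair.1.unpair.2.unpair.2 := by
      refine hg.comp (Primrec.pair Primrec.snd (Primrec.snd.comp Primrec.fst)) ?_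
      exact Primrec.snd.comp (Primrec.unpair.comp (Primrec.snd.comp (Primrec.unpair.comp
        (Primrec.fst.comp (Primrec.unpair.comp (Primrec.fst.comp Primrec.fst))))))
    exact Primrec.cond h1 (Primrec.const 0) (Primrec.const 1)
  have hF : Nat.RecursiveIn {chi A} fun q => Part.some (Q q.unpair.1 q.unpair.2) := by
    have hP' := (Primrec.nat_iff.1 hP).recursiveIn (O := {chi A})
    have hid : Nat.RecursiveIn {chi A} fun q : ℕ => (q : Part ℕ) :=
      (Primrec.nat_iff.1 Primrec.id).recursiveIn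
    have hk : Nat.RecursiveIn {chi A} fun q : ℕ => ((q.unpair.2.unpair.1 : ℕ) : Part ℕ) :=
      (Primrec.nat_iff.1 (Primrec.fst.comp (Primrec.unpair.comp
        (Primrec.snd.comp Primrec.unpair)))).recursiveIn
    have h1 := Nat.RecursiveIn.comp hP' (Nat.RecursiveIn.pair hid
      (Nat.RecursiveIn.comp (rec_pre A) hk))
    refine h1.of_eq fun q => ?_
    change Part.bind _ _ = _
    simp only [seq_eq_bind_map, Part.bind_eq_bind, Part.map_eq_map, Part.coe_some,
      Part.map_some, Part.bind_some, Nat.unpair_pair, encodek, hQ]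
    congr 2
    cases (decode (α := α) q.unpair.1) with
    | none => rfl
    | some a => simp
  have hR := Nat.RecursiveIn.comp (Nat.RecursiveIn.zero (O := {chi A}))
    (Nat.RecursiveIn.rfind hF)
  refine ⟨fun a => (Nat.rfind fun m => Part.some (decide (Q (encode a) m = 0))).map fun _ => (),
    ?_, fun x => ?_⟩
  · unfold RecursiveIn
    refine hR.of_eq fun n => ?_
    change Part.bind _ _ = _
    simp only [Part.map_eq_map, Part.map_some, Nat.unpair_pair]
    cases h : (decode (α := α) n) with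
    | none =>
      have hn : ∀ m, Q n m = 1 := fun m => by rw [hQ]; simp [h]
      simp only [hn, Part.coe_none, Part.bind_none]
      refine Part.eq_none_iff.2 fun b hb => ?_
      rw [Part.mem_bind_iff] at hb
      obtain ⟨c, hc, -⟩ := hb
      have := (Nat.mem_rfind.1 hc).1
      simp at this
    | some a =>
      have hn : ∀ m, Q n m = Q (encode a) m := fun m => by rw [hQ]; simp [h, encodek]
      simp only [hn, Part.coe_some, Part.bind_some, Part.map_map]
      rw [← Part.bind_some_eq_map]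
      rfl
  · rw [show ((Nat.rfind fun m => Part.some (decide (Q (encode x) m = 0))).map fun _ => ()).Dom ↔
      (Nat.rfind fun m => Part.some (decide (Q (encode x) m = 0))).Dom from Iff.rfl]
    refine Iff.trans Nat.rfind_dom ?_
    constructor
    · rintro ⟨m, hm, -⟩
      have hm' : Q (encode x) m = 0 := by simpa using hm
      rw [hQ] at hm'
      simp only [encodek, Option.map_some, Option.getD_some] at hm'
      refine ⟨m.unpair.1, (eg (pre A m.unpair.1, x)).2 ⟨m.unpair.2, ?_⟩⟩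
      cases hgv : g (pre A m.unpair.1, x) m.unpair.2 with
      | true => rfl
      | false => rw [hgv] at hm'; simp at hm'
    · rintro ⟨k, hk⟩
      obtain ⟨s, hs⟩ := (eg (pre A k, x)).1 hk
      refine ⟨Nat.pair k s, ?_, fun _ => trivial⟩
      have : Q (encode x) (Nat.pair k s) = 0 := by
        rw [hQ]
        simp only [encodek, Option.map_some, Option.getD_some, Nat.unpair_pair, hs, cond_true]
      simp [this]

end OWR
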