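import Pool.Agent.H77.OW.Stage2
import Pool.Agent.H77.OW.GoldFinal
import Pool.Agent.H77.OW.Approx
import Pool.Agent.H77.OW.Part0b
import Pool.Agent.H77.OW.RecIn

/-!
# Every K-trivial set is low for Oberwolfach randomness
-/

namespace OWR

open Encodable

/-- Every K-trivial set is low for K. -/
theorem lk_of_ktrivial (A : ℕ → Bool) (hA : KTrivial A) : ∃ S : KSys, LK S A := by
  obtain ⟨U, hU, c, hc⟩ := hA
  obtain ⟨S, hS⟩ := ksys_of_optimal U hU
  have hb : ∀ n r, (∃ s, S.le s n r = true) → ∃ s, S.le s (encode (pre A n)) (r + c) = true := by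
    intro n r h
    rw [hS] at h ⊢
    refine (hc n).trans ?_
    push_cast
    gcongr
  obtain ⟨As, h1, h2, h3, h4⟩ := exists_approx S A c hb
  exact ⟨S, Gold.lk_of_approx S A c As h1 h2 h3 h4⟩

/-- Every K-trivial set is low for Oberwolfach randomness. -/
theorem low_of_ktrivial (A : ℕ → Bool) (hA : KTrivial A) : LowForOW A := by
  obtain ⟨S, hS⟩ := lk_of_ktrivial A hA
  exact low_of_lk S A hS

end OWR
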