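import Pool.Agent.H77.OW.Iface

/-!
# Primitive recursive stagings of r.e. predicates, and closure lemmas
-/

namespace OWR

open Encodable Denumerable

variable {α β γ : Type*} [Primcodable α] [Primcodable β] [Primcodable γ]

/-- Every r.e. predicate has a monotone primitive recursive staging. -/
theorem exists_stage {p : α → Prop} (hp : REPred p) :
    ∃ f : α → ℕ → Bool, Primrec₂ f ∧ (∀ a s t, s ≤ t → f a s = true → f a t = true) ∧
      ∀ a, p a ↔ ∃ s, f a s = true := by
  obtain ⟨c, hc⟩ := Nat.Partrec.Code.exists_code.1 hp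
  refine ⟨fun a s => (Nat.Partrec.Code.evaln s c (encode a)).isSome, ?_, ?_, ?_⟩
  · exact (Primrec.option_isSome.comp (Nat.Partrec.Code.primrec_evaln.comp
      ((Primrec.snd.pair (Primrec.const c)).pair (Primrec.encode.comp Primrec.fst))))
  · intro a s t hst h
    simp only [Option.isSome_iff_exists] at h ⊢
    obtain ⟨x, hx⟩ := h
    exact ⟨x, Nat.Partrec.Code.evaln_mono hst hx⟩
  · intro a
    have h1 : (∃ s, (Nat.Partrec.Code.evaln s c (encode a)).isSome = true) ↔
        (Nat.Partrec.Code.eval c (encode a)).Dom := by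
      constructor
      · rintro ⟨s, hs⟩
        obtain ⟨x, hx⟩ := Option.isSome_iff_exists.1 hs
        exact Part.dom_iff_mem.2 ⟨x, Nat.Partrec.Code.evaln_sound hx⟩
      · intro h
        obtain ⟨x, hx⟩ := Part.dom_iff_mem.1 h
        obtain ⟨k, hk⟩ := Nat.Partrec.Code.evaln_complete.1 hx
        exact ⟨k, Option.isSome_iff_exists.2 ⟨x, hk⟩⟩
    rw [h1, hc]
    simp [Part.assert]

/-- The projection of a primitive recursive Boolean relation with `ℕ` is r.e. -/
theorem re_of_prim_nat {f : α → ℕ → Bool} (hf : Primrec₂ f) :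
    REPred fun a => ∃ n, f a n = true := by
  have h3 : Partrec (fun a : α => Nat.rfind ((f a : ℕ → Bool) : ℕ →. Bool)) :=
    Partrec.rfind (hf.to_comp.partrec)
  refine (h3.dom_re).of_eq ?_
  intro a
  refine Nat.rfind_dom.trans ?_
  constructor
  · rintro ⟨n, hn, -⟩
    exact ⟨n, (Part.mem_some_iff.1 hn).symm⟩
  · rintro ⟨n, hn⟩
    exact ⟨n, by simp [hn], fun _ => trivial⟩

/-- The projection of a primitive recursive relation is r.e. -/
theorem re_of_prim {R : α → β → Prop} (hR : PrimrecRel R) : REPred fun a => ∃ b, R a b := by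
  classical
  have : Primrec₂ (fun (a : α) (n : ℕ) =>
      ((decode (α := β) n).map (fun b => decide (R a b))).getD false) := by
    refine Primrec₂.comp₂ (Primrec.option_getD) ?_ (Primrec₂.const false)
    refine Primrec.option_map (Primrec.decode.comp Primrec.snd) ?_
    exact (hR.decide.comp (Primrec.fst.comp Primrec.fst) Primrec.snd)
  refine (re_of_prim_nat this).of_eq ?_
  intro a
  constructor
  · rintro ⟨n, hn⟩
    cases h : (decode (α := β) n) with
    | none => simp [h] at hn
    | some b => exact ⟨b, by simpa [h] using hn⟩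
  · rintro ⟨b, hb⟩
    exact ⟨encode b, by simp [hb]⟩

/-- Monotone stagings: the version with a Boolean function. -/
theorem re_iff_stage {p : α → Prop} :
    REPred p ↔ ∃ f : α → ℕ → Bool, Primrec₂ f ∧ ∀ a, p a ↔ ∃ s, f a s = true := by
  constructor
  · intro hp
    obtain ⟨f, h1, -, h3⟩ := exists_stage hp
    exact ⟨f, h1, h3⟩
  · rintro ⟨f, h1, h3⟩
    exact (re_of_prim_nat h1).of_eq fun a => (h3 a).symm

theorem re_of_primrec {p : α → Prop} (hp : PrimrecPred p) : REPred p :=
  hp.computablePred.to_re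

theorem re_comp {p : β → Prop} (hp : REPred p) {f : α → β} (hf : Computable f) :
    REPred fun a => p (f a) :=
  Partrec.comp hp hf

theorem re_and {p q : α → Prop} (hp : REPred p) (hq : REPred q) : REPred fun a => p a ∧ q a := by
  obtain ⟨f, hf, mf, ef⟩ := exists_stage hp
  obtain ⟨g, hg, mg, eg⟩ := exists_stage hq
  refine (re_of_prim_nat (f := fun a s => f a s && g a s) (Primrec.and.comp₂ hf hg)).of_eq ?_
  intro a
  simp only [Bool.and_eq_true]
  constructor
  · rintro ⟨s, h1, h2⟩
    exact ⟨(ef a).2 ⟨s, h1⟩, (eg a).2 ⟨s, h2⟩⟩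
  · rintro ⟨h1, h2⟩
    obtain ⟨s, hs⟩ := (ef a).1 h1
    obtain ⟨t, ht⟩ := (eg a).1 h2
    exact ⟨max s t, mf a _ _ (le_max_left _ _) hs, mg a _ _ (le_max_right _ _) ht⟩

theorem re_or {p q : α → Prop} (hp : REPred p) (hq : REPred q) : REPred fun a => p a ∨ q a := by
  obtain ⟨f, hf, mf, ef⟩ := exists_stage hp
  obtain ⟨g, hg, mg, eg⟩ := exists_stage hq
  refine (re_of_prim_nat (f := fun a s => f a s || g a s) (Primrec.or.comp₂ hf hg)).of_eq ?_
  intro a
  simp only [Bool.or_eq_true]
  constructor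
  · rintro ⟨s, h1 | h2⟩
    · exact Or.inl ((ef a).2 ⟨s, h1⟩)
    · exact Or.inr ((eg a).2 ⟨s, h2⟩)
  · rintro (h1 | h2)
    · obtain ⟨s, hs⟩ := (ef a).1 h1
      exact ⟨s, Or.inl hs⟩
    · obtain ⟨t, ht⟩ := (eg a).1 h2
      exact ⟨t, Or.inr ht⟩

/-- Existential quantification over a coded type preserves r.e. -/
theorem re_exists {p : α → β → Prop} (hp : REPred fun q : α × β => p q.1 q.2) :
    REPred fun a => ∃ b, p a b := by
  obtain ⟨f, hf, -, ef⟩ := exists_stage hp
  refine (re_of_prim (β := β × ℕ) (R := fun a q => f (a, q.1) q.2 = true) ?_).of_eq ?_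
  · refine Primrec₂.primrecRel ?_
    have : Primrec₂ fun (a : α) (q : β × ℕ) => f (a, q.1) q.2 :=
      hf.comp₂ (Primrec₂.pair.comp₂ Primrec₂.left (Primrec.fst.comp₂ Primrec₂.right))
        (Primrec.snd.comp₂ Primrec₂.right)
    simpa using this
  · intro a
    constructor
    · rintro ⟨⟨b, s⟩, h⟩
      exact ⟨b, (ef (a, b)).2 ⟨s, h⟩⟩
    · rintro ⟨b, hb⟩
      obtain ⟨s, hs⟩ := (ef (a, b)).1 hb
      exact ⟨(b, s), hs⟩

/-- Bounded universal quantification over a list preserves r.e. -/
theorem re_forall_mem {p : α → β → Prop} (hp : REPred fun q : α × β => p q.1 q.2)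
    {l : α → List β} (hl : Primrec l) : REPred fun a => ∀ b ∈ l a, p a b := by
  obtain ⟨f, hf, mf, ef⟩ := exists_stage hp
  refine (re_of_prim_nat (f := fun a s => (l a).foldr (fun b r => f (a, b) s && r) true)
    ?_).of_eq ?_
  · have hl' : Primrec fun q : α × ℕ => l q.1 := hl.comp Primrec.fst
    have h1 : Primrec fun q : (α × ℕ) × (β × Bool) => f (q.1.1, q.2.1) q.1.2 :=
      hf.comp (Primrec.pair (Primrec.fst.comp Primrec.fst)
        (Primrec.fst.comp Primrec.snd)) (Primrec.snd.comp Primrec.fst)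
    have h2 : Primrec fun q : (α × ℕ) × (β × Bool) => q.2.2 := Primrec.snd.comp Primrec.snd
    have h3 : Primrec₂ fun (p : α × ℕ) (q : β × Bool) => (f (p.1, q.1) p.2 && q.2) :=
      (Primrec.and.comp h1 h2)
    exact (Primrec.list_foldr hl' (Primrec.const true) h3)
  · intro a
    have key : ∀ (L : List β) s, (L.foldr (fun b r => f (a, b) s && r) true = true) ↔
        ∀ b ∈ L, f (a, b) s = true := by
      intro L s
      induction L with
      | nil => simp
      | cons b L ih => simp [ih]
    simp only [key]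
    constructor
    · rintro ⟨s, hs⟩ b hb
      exact (ef (a, b)).2 ⟨s, hs b hb⟩
    · intro h
      generalize l a = L at h
      induction L with
      | nil => exact ⟨0, by simp⟩
      | cons b L ih =>
        obtain ⟨s, hs⟩ := ih fun b hb => h b (List.mem_cons_of_mem _ hb)
        obtain ⟨t, ht⟩ := (ef (a, b)).1 (h b (List.mem_cons_self))
        refine ⟨max s t, ?_⟩
        intro b' hb'
        rcases List.mem_cons.1 hb' with rfl | hb'
        · exact mf _ _ _ (le_max_right _ _) ht
        · exact mf _ _ _ (le_max_left _ _) (hs _ hb')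

end OWR
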