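import Pool.Agent.H77.OW.Meas

/-!
# Task Approx1 (Part IIa) : the counting theorem

Request set: `(r + 1, n)` is requested when, for some `k`, at least `2 ^ k` strings of length `n` have
complexity at most `r + k`.  By Kraft's inequality the total weight of the requests is at most 1.
-/

namespace OWR

open MeasureTheory Encodable Filter Topology

/-- the code `m` is that of a string of length `n` -/
def lenIs (n m : ℕ) : Bool :=
  decide ((decode (α := List Bool) m).map (fun ρ => (ρ.length, encode ρ)) = some (n, m))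

theorem lenIs_encode {n : ℕ} {ρ : List Bool} : lenIs n (encode ρ) = true ↔ ρ.length = n := by
  simp [lenIs]

theorem lenIs_iff {n m : ℕ} : lenIs n m = true ↔ ∃ ρ : List Bool, encode ρ = m ∧ ρ.length = n := by
  constructor
  · intro h
    unfold lenIs at h
    rw [decide_eq_true_iff, Option.map_eq_some_iff] at h
    obtain ⟨ρ, -, h2⟩ := h
    exact ⟨ρ, congrArg Prod.snd h2, congrArg Prod.fst h2⟩
  · rintro ⟨ρ, rfl, h⟩
    exact lenIs_encode.2 h

/-- decoding of strings -/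
def dec1 (m : ℕ) : List Bool := (decode (α := List Bool) m).getD []

theorem dec1_encode (ρ : List Bool) : dec1 (encode ρ) = ρ := by simp [dec1]

/-- the codes below `s` of the strings of length `n` with complexity at most `r` at stage `s` -/
def cl1 (S : KSys) (s n r : ℕ) : List ℕ :=
  (List.range s).filter fun m => lenIs n m && S.le s m r

theorem primrec_lenIs : Primrec₂ lenIs := by
  unfold lenIs
  have h1 : Primrec fun p : ℕ × ℕ => (decode (α := List Bool) p.2).map
      (fun ρ => (ρ.length, encode ρ)) :=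
    Primrec.option_map (Primrec.decode.comp Primrec.snd)
      (Primrec.pair (Primrec.list_length.comp Primrec.snd) (Primrec.encode.comp Primrec.snd))
  have h2 : Primrec fun p : ℕ × ℕ => some (p.1, p.2) :=
    Primrec.option_some.comp (Primrec.pair Primrec.fst Primrec.snd)
  exact (Primrec.eq.comp h1 h2).decide

theorem primrec_cl1 (S : KSys) : Primrec fun p : ℕ × ℕ × ℕ => cl1 S p.1 p.2.1 p.2.2 := by
  have h0 : (fun p : ℕ × ℕ × ℕ => cl1 S p.1 p.2.1 p.2.2) = fun p =>
      (List.range p.1).filterMap fun m =>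
        bif (lenIs p.2.1 m && S.le p.1 m p.2.2) then some m else none := by
    funext p
    unfold cl1
    rw [← List.filterMap_eq_filter]
    congr 1
    funext m
    cases h : (lenIs p.2.1 m && S.le p.1 m p.2.2) <;> simp [Option.guard, h]
  rw [h0]
  refine Primrec.listFilterMap (Primrec.list_range.comp Primrec.fst) ?_
  have h1 : Primrec fun q : (ℕ × ℕ × ℕ) × ℕ => lenIs q.1.2.1 q.2 :=
    primrec_lenIs.comp (Primrec.fst.comp (Primrec.snd.comp Primrec.fst)) Primrec.snd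
  have h2 : Primrec fun q : (ℕ × ℕ × ℕ) × ℕ => S.le q.1.1 q.2 q.1.2.2 :=
    S.prim.comp (Primrec.pair (Primrec.fst.comp Primrec.fst)
      (Primrec.pair Primrec.snd (Primrec.snd.comp (Primrec.snd.comp Primrec.fst))))
  exact Primrec.cond (Primrec.and.comp h1 h2) (Primrec.option_some.comp Primrec.snd)
    (Primrec.const none)

/-- the request set -/
def req1 (S : KSys) (r' n : ℕ) : Prop :=
  ∃ q : ℕ × ℕ × ℕ, r' = q.1 + 1 ∧ 2 ^ q.2.1 ≤ (cl1 S q.2.2 n (q.1 + q.2.1)).length

theorem re_req1 (S : KSys) : REPred fun p : ℕ × ℕ => req1 S p.1 p.2 := by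
  refine re_of_prim (α := ℕ × ℕ) (β := ℕ × ℕ × ℕ) (R := fun p q => p.1 = q.1 + 1 ∧
    2 ^ q.2.1 ≤ (cl1 S q.2.2 p.2 (q.1 + q.2.1)).length) ?_
  have hpow : Primrec₂ ((· ^ ·) : ℕ → ℕ → ℕ) := Primrec₂.unpaired'.1 Nat.Primrec.pow
  have h1 : PrimrecPred fun z : (ℕ × ℕ) × (ℕ × ℕ × ℕ) => z.1.1 = z.2.1 + 1 :=
    Primrec.eq.comp (Primrec.fst.comp Primrec.fst)
      (Primrec.succ.comp (Primrec.fst.comp Primrec.snd))
  have h2 : Primrec fun z : (ℕ × ℕ) × (ℕ × ℕ × ℕ) => 2 ^ z.2.2.1 :=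
    hpow.comp (Primrec.const 2) (Primrec.fst.comp (Primrec.snd.comp Primrec.snd))
  have h3 : Primrec fun z : (ℕ × ℕ) × (ℕ × ℕ × ℕ) => (z.2.2.2, z.1.2, z.2.1 + z.2.2.1) :=
    Primrec.pair (Primrec.snd.comp (Primrec.snd.comp Primrec.snd))
      (Primrec.pair (Primrec.snd.comp Primrec.fst)
        (Primrec.nat_add.comp (Primrec.fst.comp Primrec.snd)
          (Primrec.fst.comp (Primrec.snd.comp Primrec.snd))))
  have h4 : Primrec fun z : (ℕ × ℕ) × (ℕ × ℕ × ℕ) =>
      (cl1 S z.2.2.2 z.1.2 (z.2.1 + z.2.2.1)).length :=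
    Primrec.list_length.comp ((primrec_cl1 S).comp h3)
  exact (h1.and (Primrec.nat_le.comp h2 h4))

/-- Witness of a request: `2 ^ k` distinct strings of length `n`. -/
theorem req1_iff (S : KSys) (r' n : ℕ) : req1 S r' n ↔ ∃ r k : ℕ, r' = r + 1 ∧
    ∃ G : Finset (List Bool), 2 ^ k ≤ G.card ∧ ∀ ρ ∈ G, ρ.length = n ∧
      ∃ s, S.le s (encode ρ) (r + k) = true := by
  classical
  constructor
  · rintro ⟨⟨r, k, s⟩, h1, h2⟩
    refine ⟨r, k, h1, ?_⟩
    let L := cl1 S s n (r + k)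
    have hnd : L.Nodup := List.Nodup.filter _ List.nodup_range
    have hdec : ∀ m ∈ L, ∃ ρ : List Bool, encode ρ = m ∧ ρ.length = n ∧
        S.le s (encode ρ) (r + k) = true := by
      intro m hm
      have hm' : lenIs n m = true ∧ S.le s m (r + k) = true := by
        have := (List.mem_filter.1 hm).2
        simpa using this
      obtain ⟨ρ, hρ, hlen⟩ := lenIs_iff.1 hm'.1
      refine ⟨ρ, hρ, hlen, ?_⟩
      rw [hρ]
      exact hm'.2
    refine ⟨L.toFinset.image dec1, ?_, ?_⟩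
    · rw [Finset.card_image_of_injOn, List.toFinset_card_of_nodup hnd]
      · exact h2
      · intro a ha b hb hab
        obtain ⟨ρ, h3, -⟩ := hdec a (List.mem_toFinset.1 ha)
        obtain ⟨ρ', h3', -⟩ := hdec b (List.mem_toFinset.1 hb)
        rw [← h3, ← h3', dec1_encode, dec1_encode] at hab
        rw [← h3, ← h3', hab]
    · intro ρ hρ
      obtain ⟨m, hm, rfl⟩ := Finset.mem_image.1 hρ
      obtain ⟨ρ, h3, h4, h5⟩ := hdec m (List.mem_toFinset.1 hm)
      have h6 : dec1 m = ρ := by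
        rw [← h3, dec1_encode]
      rw [h6]
      exact ⟨h4, s, h5⟩
  · rintro ⟨r, k, h1, G, h2, h3⟩
    choose! f hf using fun ρ hρ => (h3 ρ hρ).2
    -- a stage that is good for all the strings
    let s := (∑ ρ ∈ G, f ρ) + (∑ ρ ∈ G, (encode ρ + 1))
    refine ⟨⟨r, k, s⟩, h1, h2.trans ?_⟩
    have hnd : (cl1 S s n (r + k)).Nodup := List.Nodup.filter _ List.nodup_range
    rw [← List.toFinset_card_of_nodup hnd, ← Finset.card_image_of_injective G encode_injective]
    apply Finset.card_le_card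
    intro m hm
    obtain ⟨ρ, hρ, rfl⟩ := Finset.mem_image.1 hm
    rw [List.mem_toFinset]
    refine List.mem_filter.2 ⟨List.mem_range.2 ?_, ?_⟩
    · have : encode ρ + 1 ≤ ∑ ρ ∈ G, (encode ρ + 1) :=
        Finset.single_le_sum (f := fun ρ : List Bool => encode ρ + 1) (fun _ _ => Nat.zero_le _) hρ
      omega
    · have h4 : f ρ ≤ ∑ ρ ∈ G, f ρ :=
        Finset.single_le_sum (f := f) (fun _ _ => Nat.zero_le _) hρ
      have h5 : S.le s (encode ρ) (r + k) = true := S.mono_s (by omega) (hf ρ hρ)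
      simp [lenIs_encode.2 (h3 ρ hρ).1, h5]

/-- geometric sums over finite sets of exponents -/
theorem sum_pow_le (F : Finset ℕ) (m : ℕ) (h : ∀ r ∈ F, m ≤ r) :
    ∑ r ∈ F, (2 : ℝ)⁻¹ ^ (r + 1) ≤ (2 : ℝ)⁻¹ ^ m := by
  have h1 : F ⊆ Finset.image (fun i => m + i) (Finset.range (F.sup id + 1)) := by
    intro r hr
    refine Finset.mem_image.2 ⟨r - m, Finset.mem_range.2 ?_, ?_⟩
    · have : id r ≤ F.sup id := Finset.le_sup hr
      simp only [id] at this
      omega
    · have := h r hr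
      omega
  refine (Finset.sum_le_sum_of_subset_of_nonneg h1 (fun _ _ _ => by positivity)).trans ?_
  rw [Finset.sum_image (fun a _ b _ hab => by simpa using hab)]
  have h2 : ∀ N : ℕ, ∑ i ∈ Finset.range N, (2 : ℝ)⁻¹ ^ (m + i + 1) =
      (2 : ℝ)⁻¹ ^ m * (1 - (2 : ℝ)⁻¹ ^ N) := by
    intro N
    induction N with
    | zero => simp
    | succ N ih =>
      rw [Finset.sum_range_succ, ih]
      ring
  rw [h2]
  have : (0 : ℝ) < (2 : ℝ)⁻¹ ^ (F.sup id + 1) := by positivity
  have h3 : (0 : ℝ) < (2 : ℝ)⁻¹ ^ m := by positivity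
  nlinarith

/-- the total weight of the requests is at most 1 -/
theorem req1_weight (S : KSys) (F : Finset (ℕ × ℕ)) (hF : ∀ p ∈ F, req1 S p.1 p.2) :
    ∑ p ∈ F, (2 : ℝ)⁻¹ ^ p.1 ≤ 1 := by
  classical
  -- group the requests by `n`
  let N := F.image Prod.snd
  let R : ℕ → Finset ℕ := fun n => (F.filter fun p => p.2 = n).image fun p => p.1 - 1
  have hR : ∀ n ∈ N, (R n).Nonempty := by
    intro n hn
    obtain ⟨p, hp, rfl⟩ := Finset.mem_image.1 hn
    exact ⟨p.1 - 1, Finset.mem_image.2 ⟨p, Finset.mem_filter.2 ⟨hp, rfl⟩, rfl⟩⟩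
  -- the least exponent
  have hmin : ∀ n ∈ N, ∃ r k : ℕ, (∀ r' ∈ R n, r ≤ r') ∧
      ∃ G : Finset (List Bool), G.card = 2 ^ k ∧ ∀ ρ ∈ G, ρ.length = n ∧
        ∃ s, S.le s (encode ρ) (r + k) = true := by
    intro n hn
    obtain ⟨p, hp, hp'⟩ := Finset.mem_image.1 ((R n).min'_mem (hR n hn))
    have hp2 := (Finset.mem_filter.1 hp).2
    obtain ⟨r, k, h1, G, h2, h3⟩ := (req1_iff S p.1 p.2).1 (hF p (Finset.mem_filter.1 hp).1)
    obtain ⟨G', hG', hcard⟩ := Finset.exists_subset_card_eq h2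
    refine ⟨r, k, ?_, G', hcard, ?_⟩
    · intro r' hr'
      have h4 := (R n).min'_le r' hr'
      omega
    · intro ρ hρ
      have := h3 ρ (hG' hρ)
      rw [hp2] at this
      exact this
  choose! r k h1 G h2 h3 using hmin
  -- the sum over one `n`
  have hsum : ∑ p ∈ F, (2 : ℝ)⁻¹ ^ p.1 ≤ ∑ n ∈ N, (2 : ℝ)⁻¹ ^ (r n) := by
    rw [← Finset.sum_fiberwise_of_maps_to (t := N) (g := Prod.snd)
      (fun p hp => Finset.mem_image_of_mem _ hp)]
    refine Finset.sum_le_sum fun n hn => ?_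
    have hpos : ∀ p ∈ F, 1 ≤ p.1 := by
      intro p hp
      obtain ⟨q, hq, -⟩ := hF p hp
      omega
    have h4 : ∑ p ∈ F with p.2 = n, (2 : ℝ)⁻¹ ^ p.1 = ∑ r' ∈ R n, (2 : ℝ)⁻¹ ^ (r' + 1) := by
      rw [Finset.sum_image]
      · refine Finset.sum_congr rfl fun p hp => ?_
        have := hpos p (Finset.mem_filter.1 hp).1
        congr 1
        omega
      · intro p hp p' hp' hpp
        simp only [Finset.coe_filter, Set.mem_ofPred_eq] at hp hp'
        have a1 := hpos p hp.1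
        have a2 := hpos p' hp'.1
        simp only at hpp
        ext
        · omega
        · rw [hp.2, hp'.2]
    rw [h4]
    exact sum_pow_le _ _ (h1 n hn)
  refine hsum.trans ?_
  -- Kraft for the union of the `G n`
  let K : Finset ℕ := (N.biUnion G).image encode
  let ex : ℕ → ℕ := fun m => r (dec1 m).length +
    k (dec1 m).length
  have hK : ∀ x ∈ K, ∃ s, S.le s x (ex x) = true := by
    intro x hx
    obtain ⟨ρ, hρ, rfl⟩ := Finset.mem_image.1 hx
    obtain ⟨n, hn, hρn⟩ := Finset.mem_biUnion.1 hρ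
    have h5 := h3 n hn ρ hρn
    simp only [ex, dec1_encode]
    rw [h5.1]
    exact h5.2
  have hkraft := S.kraft K ex hK
  refine le_trans (le_of_eq ?_) hkraft
  rw [Finset.sum_image (fun a _ b _ hab => encode_injective hab)]
  rw [Finset.sum_biUnion]
  · refine Finset.sum_congr rfl fun n hn => ?_
    have h5 : ∀ ρ ∈ G n, (2 : ℝ)⁻¹ ^ (ex (encode ρ)) = (2 : ℝ)⁻¹ ^ (r n + k n) := by
      intro ρ hρ
      simp only [ex, dec1_encode]
      rw [(h3 n hn ρ hρ).1]
    rw [Finset.sum_congr rfl h5, Finset.sum_const, h2 n hn, nsmul_eq_mul, pow_add]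
    push_cast
    have h6 : (2 : ℝ) ^ (k n) * (2 : ℝ)⁻¹ ^ (k n) = 1 := by
      rw [← mul_pow]
      norm_num
    calc (2 : ℝ)⁻¹ ^ r n = (2 : ℝ)⁻¹ ^ r n * ((2 : ℝ) ^ (k n) * (2 : ℝ)⁻¹ ^ (k n)) := by
          rw [h6, mul_one]
      _ = _ := by ring
  · intro n hn n' hn' hne
    simp only [Function.onFun]
    rw [Finset.disjoint_left]
    intro ρ hρ hρ'
    exact hne ((h3 n hn ρ hρ).1.symm.trans (h3 n' hn' ρ hρ').1)

/-- every number has a complexity -/
theorem exists_cplx (S : KSys) (x : ℕ) : ∃ r s, S.le s x r = true := by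
  classical
  obtain ⟨C, hC⟩ := S.univ (fun r x => r = x + 1)
    (re_of_primrec (Primrec.eq.comp Primrec.fst (Primrec.succ.comp Primrec.snd))) (by
      intro F hF
      have h1 : ∑ p ∈ F, (2 : ℝ)⁻¹ ^ p.1 = ∑ x ∈ F.image Prod.snd, (2 : ℝ)⁻¹ ^ (x + 1) := by
        rw [Finset.sum_image]
        · refine Finset.sum_congr rfl fun p hp => ?_
          rw [hF p hp]
        · intro p hp p' hp' hpp
          ext
          · rw [hF p hp, hF p' hp', hpp]
          · exact hpp
      rw [h1]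
      simpa using sum_pow_le (F.image Prod.snd) 0 (fun _ _ => Nat.zero_le _))
  obtain ⟨s, hs⟩ := hC (x + 1) x rfl
  exact ⟨_, s, hs⟩

/-- sub-task Approx1 : the counting theorem.
Proof: request set P(r+1, n) iff at some stage s, Σ_{|ρ|=n} 2^{-K_s(ρ)} ≥ 2^{-r}, where K_s(ρ) is the least r' ≤ s with
S.le s (encode ρ) r' (no contribution if there is none); the total request weight is Σ_n Σ_{r ≥ r_n} 2^{-r-1} = Σ_n 2^{-r_n} ≤ 1. -/
theorem count_bound (S : KSys) (b : ℕ) : ∃ M : ℕ, ∀ n, ∀ F : Finset (List Bool),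
    (∀ ρ ∈ F, ρ.length = n ∧ ∀ r, (∃ s, S.le s n r = true) →
      ∃ s, S.le s (encode ρ) (r + b) = true) → F.card ≤ M := by
  classical
  obtain ⟨C, hC⟩ := S.univ (req1 S) (re_req1 S) (req1_weight S)
  refine ⟨2 ^ (b + C + 2), fun n F hF => ?_⟩
  by_contra hcard
  push Not at hcard
  -- the complexity of `n`
  have hex : ∃ r, ∃ s, S.le s n r = true := exists_cplx S n
  obtain ⟨κ, hκ, hmin⟩ : ∃ κ, (∃ s, S.le s n κ = true) ∧ ∀ r < κ, ¬ ∃ s, S.le s n r = true :=
    ⟨Nat.find hex, Nat.find_spec hex, fun r hr => Nat.find_min hex hr⟩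
  obtain ⟨F', hF', hF'card⟩ := Finset.exists_subset_card_eq hcard.le
  have hle : ∀ ρ ∈ F', ρ.length = n ∧ ∃ s, S.le s (encode ρ) (κ + b) = true :=
    fun ρ hρ => ⟨(hF ρ (hF' hρ)).1, (hF ρ (hF' hρ)).2 κ hκ⟩
  -- Kraft
  have hj : b + C + 2 ≤ κ + b := by
    have h1 := S.kraft (F'.image encode) (fun _ => κ + b) (by
      intro x hx
      obtain ⟨ρ, hρ, rfl⟩ := Finset.mem_image.1 hx
      exact (hle ρ hρ).2)
    rw [Finset.sum_const, Finset.card_image_of_injective _ encode_injective, hF'card,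
      nsmul_eq_mul] at h1
    by_contra hlt
    push Not at hlt
    have h2 : (2 : ℝ) ^ (κ + b) * (2 : ℝ)⁻¹ ^ (κ + b) = 1 := by
      rw [← mul_pow]
      norm_num
    have h3 : (2 : ℝ) ^ (κ + b) < (2 : ℝ) ^ (b + C + 2) :=
      pow_lt_pow_right₀ (by norm_num) hlt
    have h4 : (0 : ℝ) < (2 : ℝ)⁻¹ ^ (κ + b) := by positivity
    push_cast at h1
    nlinarith [mul_lt_mul_of_pos_right h3 h4]
  -- the request
  have hreq : req1 S (κ + b - (b + C + 2) + 1) n := by
    rw [req1_iff]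
    refine ⟨κ + b - (b + C + 2), b + C + 2, rfl, F', hF'card.ge, ?_⟩
    intro ρ hρ
    have h5 : κ + b - (b + C + 2) + (b + C + 2) = κ + b := by omega
    rw [h5]
    exact hle ρ hρ
  obtain ⟨s, hs⟩ := hC _ _ hreq
  refine hmin (κ + b - (b + C + 2) + 1 + C) (by omega) ⟨s, hs⟩

end OWR
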