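import Pool.Agent.H77.OW.Stage

/-!
# Basic lemmas on strings and initial segments
-/

namespace OWR

open MeasureTheory Encodable Filter Topology

theorem pre_length (X : ℕ → Bool) (n : ℕ) : (pre X n).length = n := by simp [pre]

theorem pre_zero (X : ℕ → Bool) : pre X 0 = [] := rfl

theorem pre_take (X : ℕ → Bool) (n m : ℕ) : (pre X n).take m = pre X (min m n) := by
  simp [pre, ← List.map_take, List.take_range]

theorem pre_take_of_le (X : ℕ → Bool) {m n : ℕ} (h : m ≤ n) : (pre X n).take m = pre X m := by
  rw [pre_take, min_eq_left h]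

theorem pre_isPre (X : ℕ → Bool) {m n : ℕ} (h : m ≤ n) : pre X m <+: pre X n := by
  rw [← pre_take_of_le X h]; exact List.take_prefix _ _

theorem pre_succ (X : ℕ → Bool) (n : ℕ) : pre X (n + 1) = pre X n ++ [X n] := by
  simp [pre, List.range_succ]

theorem pre_dropLast (X : ℕ → Bool) (n : ℕ) : (pre X (n + 1)).dropLast = pre X n := by
  rw [pre_succ]; simp

theorem isPre_pre_iff (X : ℕ → Bool) (σ : List Bool) (n : ℕ) (h : σ.length ≤ n) :
    σ <+: pre X n ↔ pre X σ.length = σ := by
  constructor
  · intro hp
    have := List.prefix_iff_eq_take.1 hp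
    rw [pre_take_of_le X h] at this
    exact this.symm
  · intro hp
    rw [← hp]; simpa [pre_length] using pre_isPre X h

/-- The cylinder of a string. -/
def cyl (σ : List Bool) : Set (ℕ → Bool) := {X | pre X σ.length = σ}

/-- Extend a string by zeros to an infinite sequence. -/
def ext (σ : List Bool) : ℕ → Bool := fun n => σ.getD n false

theorem pre_ext (σ : List Bool) : pre (ext σ) σ.length = σ := by
  apply List.ext_getElem
  · simp [pre]
  · intro i h1 h2
    simp [pre, ext, h2]

theorem pre_ext_take (σ : List Bool) {n : ℕ} (h : n ≤ σ.length) : pre (ext σ) n = σ.take n := by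
  rw [← pre_take_of_le (ext σ) h, pre_ext]

end OWR
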