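import Pool.Agent.H77.OW.Meas

/-!
# Task Cells : disjoint cells of an `A`-r.e. open set, with a cut     (about 200-250 lines)

`w l ρ r σ` is a staging (monotone in `l`) of an r.e. set of axioms `(ρ, r, σ)` ('with oracle string ρ put [σ] into
the r-th open set').  For an oracle string `ρ` of length `l` and a string `σ` of length `l`, `cov w ρ r σ` says that
`[σ]` is inside the part of the r-th set enumerated by stage `l` with oracle `ρ`.
`cell w l0 D ρ r σ`: `|ρ| = |σ| ≥ l0`, σ is covered, σ minus its last bit was not covered at its own stage (or is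
shorter than l0), and the set of all strings of length |σ| covered at this stage has measure ≤ 2^{-D} (the cut).

Proof hints.  `cov` is monotone: if `cov w ρ r σ`, ρ <+: ρ', σ <+: σ', then `cov w ρ' r σ'`
(lengths: |ρ|=|σ|=l ≤ l' = |ρ'|=|σ'|).
* `cell_sum`: for F take l := max length in F (attained by σ0).  For σ ∈ F all its extensions of length l are covered by
  `pre A l` at stage l; extensions of different σ's are different: for σ ≠ σ' both cells, σ <+: σ' proper would make
  σ' minus last bit covered.  So Σ 2^{-|σ|} = #(extensions)/2^l ≤ cnt/2^l ≤ 2^{-D} by the cut condition of σ0.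
* `cell_cover`: X ∈ G gives k, n with W (pre A k) r (pre X n); choose a stage; so for all large l
  `cov w (pre A l) r (pre X l)`; take the least such l ≥ l0.  The cut holds since the covered strings of length l are
  pairwise incomparable with cylinders in G, so cnt/2^l ≤ lam G ≤ 2^{-D} (`sum_le_lam`).
* `cell_prim`: bounded searches (strings of length l: `allStr`).
-/

namespace OWR

open MeasureTheory Encodable Filter Topology

/-- all strings of length `l` -/
def allStr : ℕ → List (List Bool)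
  | 0 => [[]]
  | l + 1 => (allStr l).flatMap fun σ => [σ ++ [false], σ ++ [true]]

theorem mem_allStr {l : ℕ} {σ : List Bool} : σ ∈ allStr l ↔ σ.length = l := by
  induction l generalizing σ with
  | zero =>
    change σ ∈ [[]] ↔ _
    rw [List.mem_singleton, List.length_eq_zero_iff]
  | succ l ih =>
    change σ ∈ (allStr l).flatMap (fun σ => [σ ++ [false], σ ++ [true]]) ↔ _
    rw [List.mem_flatMap]
    constructor
    · rintro ⟨τ, hτ, h⟩
      rw [ih] at hτ
      simp only [List.mem_cons, List.not_mem_nil, or_false] at h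
      rcases h with rfl | rfl <;> simp [hτ]
    · intro h
      have hne : σ ≠ [] := by
        intro h0
        rw [h0] at h
        simp at h
      refine ⟨σ.dropLast, ih.mpr (by simp [h]), ?_⟩
      have h1 := List.dropLast_append_getLast hne
      cases hb : σ.getLast hne with
      | false => rw [hb] at h1; simp [h1]
      | true => rw [hb] at h1; simp [h1]

theorem allStr_nodup (l : ℕ) : (allStr l).Nodup := by
  induction l with
  | zero =>
    change ([[]] : List (List Bool)).Nodup
    simp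
  | succ l ih =>
    change ((allStr l).flatMap (fun σ => [σ ++ [false], σ ++ [true]])).Nodup
    rw [List.nodup_flatMap]
    constructor
    · intro σ _
      simp
    · refine ih.imp ?_
      intro a b hab
      simp only [Function.onFun, List.disjoint_left, List.mem_cons, List.not_mem_nil, or_false]
      rintro x (rfl | rfl) (h | h)
      · exact hab (List.append_inj' h rfl).1
      · have := (List.append_inj' h rfl).2
        simp at this
      · have := (List.append_inj' h rfl).2
        simp at this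
      · exact hab (List.append_inj' h rfl).1

theorem allStr_prim : Primrec allStr := by
  have h1 : Primrec₂ (fun (_ : ℕ) (L : List (List Bool)) =>
      L.flatMap fun σ => [σ ++ [false], σ ++ [true]]) := by
    refine Primrec.list_flatMap Primrec.snd ?_
    have h2 : Primrec₂ (fun (_ : ℕ × List (List Bool)) (σ : List Bool) => σ ++ [false]) :=
      Primrec.list_append.comp Primrec.snd (Primrec.const [false])
    have h3 : Primrec₂ (fun (_ : ℕ × List (List Bool)) (σ : List Bool) => σ ++ [true]) :=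
      Primrec.list_append.comp Primrec.snd (Primrec.const [true])
    exact Primrec.list_cons.comp h2 (Primrec.list_cons.comp h3 (Primrec.const []))
  refine (Primrec.nat_rec₁ [[]] h1).of_eq ?_
  intro n
  induction n with
  | zero => rfl
  | succ n ih =>
    change (Nat.rec [[]] _ n : List (List Bool)).flatMap _ = (allStr n).flatMap _
    rw [ih]

theorem allStr_length (l : ℕ) : (allStr l).length = 2 ^ l := by
  induction l with
  | zero => rfl
  | succ l ih =>
    change ((allStr l).flatMap (fun σ => [σ ++ [false], σ ++ [true]])).length = _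
    rw [List.length_flatMap]
    simp [ih, pow_succ]

/-- `[σ]` is covered, at stage `|σ|`, with oracle string `ρ` -/
def cov (w : ℕ → List Bool → ℕ → List Bool → Bool) (ρ : List Bool) (r : ℕ) (σ : List Bool) : Prop :=
  ∃ i, i ≤ ρ.length ∧ ∃ j, j ≤ σ.length ∧ w σ.length (ρ.take i) r (σ.take j) = true

instance (w : ℕ → List Bool → ℕ → List Bool → Bool) (ρ : List Bool) (r : ℕ) (σ : List Bool) :
    Decidable (cov w ρ r σ) := by
  unfold cov
  have : Decidable (∃ i, i < ρ.length + 1 ∧ ∃ j, j < σ.length + 1 ∧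
    w σ.length (ρ.take i) r (σ.take j) = true) := inferInstance
  simpa only [Nat.lt_succ_iff] using this

/-- the number of covered strings of length `|ρ|` -/
def cnt (w : ℕ → List Bool → ℕ → List Bool → Bool) (ρ : List Bool) (r : ℕ) : ℕ :=
  ((allStr ρ.length).filter fun σ => decide (cov w ρ r σ)).length

/-- cells -/
def cell (w : ℕ → List Bool → ℕ → List Bool → Bool) (l0 D : ℕ) (ρ : List Bool) (r : ℕ)
    (σ : List Bool) : Prop :=
  ρ.length = σ.length ∧ l0 ≤ σ.length ∧ cov w ρ r σ ∧
    ¬ (l0 + 1 ≤ σ.length ∧ cov w ρ.dropLast r σ.dropLast) ∧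
    cnt w ρ r * 2 ^ D ≤ 2 ^ ρ.length

theorem cov_mono {w : ℕ → List Bool → ℕ → List Bool → Bool}
    (mw : ∀ {s t ρ r σ}, s ≤ t → w s ρ r σ = true → w t ρ r σ = true)
    {ρ ρ' σ σ' : List Bool} {r : ℕ} (hρ : ρ <+: ρ') (hσ : σ <+: σ') (h : cov w ρ r σ) :
    cov w ρ' r σ' := by
  obtain ⟨i, hi, j, hj, hw⟩ := h
  refine ⟨i, hi.trans hρ.length_le, j, hj.trans hσ.length_le, ?_⟩
  obtain ⟨ρ1, rfl⟩ := hρ
  obtain ⟨σ1, rfl⟩ := hσ
  rw [List.take_append_of_le_length hi, List.take_append_of_le_length hj]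
  exact mw (by simp) hw

theorem cov_prim {w : ℕ → List Bool → ℕ → List Bool → Bool}
    (hw : Primrec (fun p : ℕ × List Bool × ℕ × List Bool => w p.1 p.2.1 p.2.2.1 p.2.2.2)) :
    PrimrecPred (fun q : List Bool × ℕ × List Bool => cov w q.1 q.2.1 q.2.2) := by
  have h1 : PrimrecRel (fun (j : ℕ) (q : ℕ × List Bool × ℕ × List Bool) =>
      w q.2.2.2.length (q.2.1.take q.1) q.2.2.1 (q.2.2.2.take j) = true) := by
    refine Primrec.eq.comp ?_ (Primrec.const true)
    have a1 : Primrec (fun p : ℕ × (ℕ × List Bool × ℕ × List Bool) => p.2.2.2.2) :=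
      Primrec.snd.comp (Primrec.snd.comp (Primrec.snd.comp Primrec.snd))
    have a2 : Primrec (fun p : ℕ × (ℕ × List Bool × ℕ × List Bool) => p.2.2.1) :=
      Primrec.fst.comp (Primrec.snd.comp Primrec.snd)
    have a3 : Primrec (fun p : ℕ × (ℕ × List Bool × ℕ × List Bool) => p.2.2.2.1) :=
      Primrec.fst.comp (Primrec.snd.comp (Primrec.snd.comp Primrec.snd))
    have a4 : Primrec (fun p : ℕ × (ℕ × List Bool × ℕ × List Bool) => p.2.1) :=
      Primrec.fst.comp Primrec.snd
    have a5 : Primrec (fun p : ℕ × (ℕ × List Bool × ℕ × List Bool) =>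
        (p.2.2.2.2.length, p.2.2.1.take p.2.1, p.2.2.2.1, p.2.2.2.2.take p.1)) :=
      (Primrec.list_length.comp a1).pair ((Primrec.list_take.comp a4 a2).pair
        (a3.pair (Primrec.list_take.comp Primrec.fst a1)))
    exact hw.comp a5
  have h2 : PrimrecRel (fun (i : ℕ) (q : List Bool × ℕ × List Bool) =>
      ∃ j ∈ List.range (q.2.2.length + 1),
        w q.2.2.length (q.1.take i) q.2.1 (q.2.2.take j) = true) := by
    have h3 := h1.exists_mem_list
    refine h3.comp (f := fun p : ℕ × (List Bool × ℕ × List Bool) =>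
      List.range (p.2.2.2.length + 1)) (g := fun p => p) ?_ Primrec.id
    exact Primrec.list_range.comp (Primrec.succ.comp (Primrec.list_length.comp
      (Primrec.snd.comp (Primrec.snd.comp Primrec.snd))))
  have h3 := h2.exists_mem_list
  refine (h3.comp (f := fun q : List Bool × ℕ × List Bool => List.range (q.1.length + 1))
    (g := fun q => q) (Primrec.list_range.comp (Primrec.succ.comp (Primrec.list_length.comp
      Primrec.fst))) Primrec.id).of_eq ?_
  intro q
  unfold cov
  simp only [List.mem_range, Nat.lt_succ_iff]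

theorem cnt_prim {w : ℕ → List Bool → ℕ → List Bool → Bool}
    (hw : Primrec (fun p : ℕ × List Bool × ℕ × List Bool => w p.1 p.2.1 p.2.2.1 p.2.2.2)) :
    Primrec (fun q : List Bool × ℕ => cnt w q.1 q.2) := by
  have h1 : PrimrecRel (fun (σ : List Bool) (q : List Bool × ℕ) => cov w q.1 q.2 σ) := by
    refine (cov_prim hw).comp (f := fun p : List Bool × (List Bool × ℕ) =>
      (p.2.1, p.2.2, p.1)) ?_
    exact (Primrec.fst.comp Primrec.snd).pair ((Primrec.snd.comp Primrec.snd).pair Primrec.fst)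
  have h2 := h1.listFilter
  exact Primrec.list_length.comp (h2.comp (allStr_prim.comp
    (Primrec.list_length.comp Primrec.fst)) Primrec.id)

theorem two_pow_prim : Primrec (fun n : ℕ => 2 ^ n) := by
  have h : Primrec₂ ((· ^ ·) : ℕ → ℕ → ℕ) := Primrec₂.unpaired'.1 Nat.Primrec.pow
  exact h.comp (Primrec.const 2) Primrec.id

theorem dropLast_prim : Primrec (fun l : List Bool => l.dropLast) :=
  (Primrec.list_take.comp (Primrec.nat_sub.comp Primrec.list_length (Primrec.const 1))
    Primrec.id).of_eq fun l => by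
      rw [List.dropLast_eq_take]; rfl

theorem cell_prim {w : ℕ → List Bool → ℕ → List Bool → Bool}
    (hw : Primrec (fun p : ℕ × List Bool × ℕ × List Bool => w p.1 p.2.1 p.2.2.1 p.2.2.2)) :
    PrimrecPred (fun p : (ℕ × ℕ) × List Bool × ℕ × List Bool =>
      cell w p.1.1 p.1.2 p.2.1 p.2.2.1 p.2.2.2) := by
  have bl0 : Primrec (fun p : (ℕ × ℕ) × List Bool × ℕ × List Bool => p.1.1) :=
    Primrec.fst.comp Primrec.fst
  have bD : Primrec (fun p : (ℕ × ℕ) × List Bool × ℕ × List Bool => p.1.2) :=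
    Primrec.snd.comp Primrec.fst
  have bρ : Primrec (fun p : (ℕ × ℕ) × List Bool × ℕ × List Bool => p.2.1) :=
    Primrec.fst.comp Primrec.snd
  have br : Primrec (fun p : (ℕ × ℕ) × List Bool × ℕ × List Bool => p.2.2.1) :=
    Primrec.fst.comp (Primrec.snd.comp Primrec.snd)
  have bσ : Primrec (fun p : (ℕ × ℕ) × List Bool × ℕ × List Bool => p.2.2.2) :=
    Primrec.snd.comp (Primrec.snd.comp Primrec.snd)
  have bρl := Primrec.list_length.comp bρ
  have bσl := Primrec.list_length.comp bσ
  have c1 : PrimrecPred (fun p : (ℕ × ℕ) × List Bool × ℕ × List Bool =>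
      p.2.1.length = p.2.2.2.length) := Primrec.eq.comp bρl bσl
  have c2 : PrimrecPred (fun p : (ℕ × ℕ) × List Bool × ℕ × List Bool =>
      p.1.1 ≤ p.2.2.2.length) := Primrec.nat_le.comp bl0 bσl
  have c3 : PrimrecPred (fun p : (ℕ × ℕ) × List Bool × ℕ × List Bool =>
      cov w p.2.1 p.2.2.1 p.2.2.2) :=
    (cov_prim hw).comp (f := fun p : (ℕ × ℕ) × List Bool × ℕ × List Bool =>
      (p.2.1, p.2.2.1, p.2.2.2)) (bρ.pair (br.pair bσ))
  have c4 : PrimrecPred (fun p : (ℕ × ℕ) × List Bool × ℕ × List Bool =>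
      p.1.1 + 1 ≤ p.2.2.2.length) := Primrec.nat_le.comp (Primrec.succ.comp bl0) bσl
  have c5 : PrimrecPred (fun p : (ℕ × ℕ) × List Bool × ℕ × List Bool =>
      cov w p.2.1.dropLast p.2.2.1 p.2.2.2.dropLast) :=
    (cov_prim hw).comp (f := fun p : (ℕ × ℕ) × List Bool × ℕ × List Bool =>
      (p.2.1.dropLast, p.2.2.1, p.2.2.2.dropLast))
      ((dropLast_prim.comp bρ).pair (br.pair (dropLast_prim.comp bσ)))
  have c6 : PrimrecPred (fun p : (ℕ × ℕ) × List Bool × ℕ × List Bool =>
      cnt w p.2.1 p.2.2.1 * 2 ^ p.1.2 ≤ 2 ^ p.2.1.length) := by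
    refine Primrec.nat_le.comp ?_ (two_pow_prim.comp bρl)
    exact Primrec.nat_mul.comp ((cnt_prim hw).comp (bρ.pair br)) (two_pow_prim.comp bD)
  exact c1.and (c2.and (c3.and ((c4.and c5).not.and c6)))

theorem cnt_eq_card (w : ℕ → List Bool → ℕ → List Bool → Bool) (ρ : List Bool) (r : ℕ) :
    cnt w ρ r = ((allStr ρ.length).toFinset.filter fun σ => cov w ρ r σ).card := by
  unfold cnt
  rw [← List.toFinset_card_of_nodup ((allStr_nodup _).filter _), List.toFinset_filter]
  congr 1
  ext σ
  simp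

theorem cell_incomp {w : ℕ → List Bool → ℕ → List Bool → Bool}
    (mw : ∀ {s t ρ r σ}, s ≤ t → w s ρ r σ = true → w t ρ r σ = true)
    (A : ℕ → Bool) {l0 D r : ℕ} {σ τ : List Bool} (hσ : cell w l0 D (pre A σ.length) r σ)
    (hτ : cell w l0 D (pre A τ.length) r τ) (h : σ <+: τ) : σ = τ := by
  by_contra hne
  have hlt : σ.length < τ.length := by
    rcases h.length_le.lt_or_eq with h1 | h1
    · exact h1
    · exact absurd (h.eq_of_length h1) hne
  apply hτ.2.2.2.1
  refine ⟨by have := hσ.2.1; omega, ?_⟩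
  refine cov_mono (w := w) mw ?_ ?_ hσ.2.2.1
  · obtain ⟨m, hm⟩ : ∃ m, τ.length = m + 1 := ⟨τ.length - 1, by omega⟩
    rw [hm, pre_dropLast]
    exact pre_isPre A (by omega)
  · rw [List.dropLast_eq_take]
    exact List.prefix_take_iff.mpr ⟨h, by omega⟩

theorem cell_sum {w : ℕ → List Bool → ℕ → List Bool → Bool}
    (mw : ∀ {s t ρ r σ}, s ≤ t → w s ρ r σ = true → w t ρ r σ = true)
    (A : ℕ → Bool) (l0 D r : ℕ) (F : Finset (List Bool))
    (hF : ∀ σ ∈ F, cell w l0 D (pre A σ.length) r σ) :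
    ∑ σ ∈ F, (2 : ℝ)⁻¹ ^ σ.length ≤ (2 : ℝ)⁻¹ ^ D := by
  classical
  rcases F.eq_empty_or_nonempty with rfl | hne
  · simp
  obtain ⟨σ0, hσ0, hmax⟩ := F.exists_max_image (fun σ => σ.length) hne
  obtain ⟨l, hl⟩ : ∃ l, l = σ0.length := ⟨_, rfl⟩
  let E : List Bool → Finset (List Bool) := fun σ =>
    (allStr (l - σ.length)).toFinset.image (fun τ => σ ++ τ)
  have hE : ∀ σ, (E σ).card = 2 ^ (l - σ.length) := by
    intro σ
    change ((allStr (l - σ.length)).toFinset.image (fun τ => σ ++ τ)).card = _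
    rw [Finset.card_image_of_injective _ (fun a b h => List.append_cancel_left h),
      List.toFinset_card_of_nodup (allStr_nodup _), allStr_length]
  have hdis : ∀ σ ∈ F, ∀ τ ∈ F, σ ≠ τ → Disjoint (E σ) (E τ) := by
    intro σ hσ τ hτ hστ
    rw [Finset.disjoint_left]
    intro x hx hx'
    obtain ⟨a, _, rfl⟩ := Finset.mem_image.mp hx
    obtain ⟨b, _, hb⟩ := Finset.mem_image.mp hx'
    have h1 : σ <+: σ ++ a := List.prefix_append _ _
    have h2 : τ <+: σ ++ a := hb ▸ List.prefix_append _ _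
    rcases List.prefix_or_prefix_of_prefix h1 h2 with h | h
    · exact hστ (cell_incomp (w := w) mw A (hF σ hσ) (hF τ hτ) h)
    · exact hστ (cell_incomp (w := w) mw A (hF τ hτ) (hF σ hσ) h).symm
  have hsub : F.biUnion E ⊆ (allStr (pre A l).length).toFinset.filter
      fun σ => cov w (pre A l) r σ := by
    intro x hx
    obtain ⟨σ, hσ, hx⟩ := Finset.mem_biUnion.mp hx
    obtain ⟨a, ha, rfl⟩ := Finset.mem_image.mp hx
    rw [List.mem_toFinset, mem_allStr] at ha
    have hle : σ.length ≤ l := hl ▸ hmax σ hσ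
    rw [Finset.mem_filter, List.mem_toFinset, mem_allStr, pre_length]
    refine ⟨by rw [List.length_append, ha]; omega, ?_⟩
    exact cov_mono (w := w) mw (pre_isPre A hle) (List.prefix_append _ _) (hF σ hσ).2.2.1
  have hcard : ∑ σ ∈ F, 2 ^ (l - σ.length) ≤ cnt w (pre A l) r := by
    rw [cnt_eq_card, ← Finset.sum_congr rfl (fun σ _ => hE σ),
      ← Finset.card_biUnion hdis]
    exact Finset.card_le_card hsub
  have hcut : cnt w (pre A l) r * 2 ^ D ≤ 2 ^ l := by
    have h := (hF σ0 hσ0).2.2.2.2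
    rw [← hl, pre_length] at h
    exact h
  have h1 : ((∑ σ ∈ F, 2 ^ (l - σ.length) : ℕ) : ℝ) * 2 ^ D ≤ 2 ^ l := by
    calc ((∑ σ ∈ F, 2 ^ (l - σ.length) : ℕ) : ℝ) * 2 ^ D
        ≤ (cnt w (pre A l) r : ℝ) * 2 ^ D := by
          refine mul_le_mul_of_nonneg_right ?_ (by positivity)
          exact_mod_cast hcard
      _ ≤ 2 ^ l := by exact_mod_cast hcut
  have h2 : ∑ σ ∈ F, (2 : ℝ)⁻¹ ^ σ.length =
      ((∑ σ ∈ F, 2 ^ (l - σ.length) : ℕ) : ℝ) * (2 : ℝ)⁻¹ ^ l := by
    rw [Nat.cast_sum, Finset.sum_mul]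
    refine Finset.sum_congr rfl fun σ hσ => ?_
    have hle : σ.length ≤ l := hl ▸ hmax σ hσ
    rw [Nat.cast_pow, Nat.cast_ofNat, inv_pow, inv_pow, pow_sub₀ _ (by norm_num) hle]
    field_simp
  rw [h2, inv_pow, inv_pow, ← div_eq_mul_inv, div_le_iff₀ (by positivity), ← div_eq_inv_mul,
    le_div_iff₀ (by positivity)]
  exact h1

theorem cell_cover {w : ℕ → List Bool → ℕ → List Bool → Bool}
    (mw : ∀ {s t ρ r σ}, s ≤ t → w s ρ r σ = true → w t ρ r σ = true)
    {W : List Bool → ℕ → List Bool → Prop}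
    (hW : ∀ ρ r σ, W ρ r σ ↔ ∃ s, w s ρ r σ = true)
    (A : ℕ → Bool) (l0 D r : ℕ) {G : Set (ℕ → Bool)}
    (hG : G = opn fun σ => ∃ k, W (pre A k) r σ)
    (hm : lam G ≤ ENNReal.ofReal ((2 : ℝ)⁻¹ ^ D)) {X : ℕ → Bool} (hX : X ∈ G) :
    ∃ l, cell w l0 D (pre A l) r (pre X l) := by
  classical
  have hX' : ∃ n k, W (pre A k) r (pre X n) := by
    rw [hG] at hX
    obtain ⟨n, k, h⟩ := hX
    exact ⟨n, k, h⟩
  obtain ⟨n, k, hnk⟩ := hX'
  obtain ⟨s, hs⟩ := (hW _ _ _).mp hnk
  have hex : ∃ l, l0 ≤ l ∧ cov w (pre A l) r (pre X l) := by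
    refine ⟨max (max l0 k) (max n s), (le_max_left _ _).trans (le_max_left _ _), k, ?_, n, ?_, ?_⟩
    · rw [pre_length]; exact (le_max_right _ _).trans (le_max_left _ _)
    · rw [pre_length]; exact (le_max_left _ _).trans (le_max_right _ _)
    · rw [pre_take_of_le A ((le_max_right _ _).trans (le_max_left _ _)),
        pre_take_of_le X ((le_max_left _ _).trans (le_max_right _ _)), pre_length]
      exact mw ((le_max_right _ _).trans (le_max_right _ _)) hs
  obtain ⟨hl1, hl2⟩ := Nat.find_spec hex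
  have hmin := fun m (hm : m < Nat.find hex) => Nat.find_min hex hm
  generalize Nat.find hex = l at hl1 hl2 hmin
  refine ⟨l, ?_, ?_, hl2, ?_, ?_⟩
  · rw [pre_length, pre_length]
  · rw [pre_length]; exact hl1
  · rintro ⟨h1, h2⟩
    rw [pre_length] at h1
    obtain ⟨m, rfl⟩ : ∃ m, l = m + 1 := ⟨l - 1, by omega⟩
    rw [pre_dropLast, pre_dropLast] at h2
    exact hmin m (Nat.lt_succ_self m) ⟨by omega, h2⟩
  · -- the cut
    rw [cnt_eq_card, pre_length]
    obtain ⟨F, hFdef⟩ : ∃ F : Finset (List Bool), F =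
        (allStr l).toFinset.filter fun σ => cov w (pre A l) r σ := ⟨_, rfl⟩
    rw [← hFdef]
    have hFl : ∀ σ ∈ F, σ.length = l := by
      intro σ hσ
      rw [hFdef, Finset.mem_filter, List.mem_toFinset, mem_allStr] at hσ
      exact hσ.1
    have hFc : ∀ σ ∈ F, cov w (pre A l) r σ := by
      intro σ hσ
      rw [hFdef, Finset.mem_filter] at hσ
      exact hσ.2
    have h1 := sum_le_lam G F
      (fun σ hσ τ hτ h => h.eq_of_length ((hFl σ hσ).trans (hFl τ hτ).symm)) (by
        intro σ hσ Y hY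
        obtain ⟨i, hi, j, hj, hw⟩ := hFc σ hσ
        rw [pre_length] at hi
        rw [hFl σ hσ] at hj
        have hY' : pre Y σ.length = σ := hY
        rw [hG]
        refine ⟨j, i, (hW _ _ _).mpr ⟨σ.length, ?_⟩⟩
        rw [pre_take_of_le A hi] at hw
        have h2 : σ.take j = pre Y j := by
          rw [← hY', pre_take_of_le Y (by rw [hFl σ hσ]; exact hj)]
        rw [h2] at hw
        exact hw)
    have h2 : ∑ σ ∈ F, (2 : ℝ)⁻¹ ^ σ.length = F.card * (2 : ℝ)⁻¹ ^ l := by
      rw [Finset.sum_congr rfl (fun σ hσ => by rw [hFl σ hσ]), Finset.sum_const, nsmul_eq_mul]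
    rw [h2] at h1
    have h3 : (F.card : ℝ) * (2 : ℝ)⁻¹ ^ l ≤ (2 : ℝ)⁻¹ ^ D :=
      (ENNReal.ofReal_le_ofReal_iff (by positivity)).mp (h1.trans hm)
    have h4 : (F.card : ℝ) * 2 ^ D ≤ 2 ^ l := by
      rw [inv_pow, inv_pow, ← div_eq_mul_inv, div_le_iff₀ (by positivity), ← div_eq_inv_mul,
        le_div_iff₀ (by positivity)] at h3
      exact h3
    exact_mod_cast h4

end OWR
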