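import Mathlib

/-!
# Oberwolfach randomness and K-triviality: the definitions

Cantor space is `ℕ → Bool`, strings are `List Bool`, and computability is that of Mathlib
(`Partrec`, `REPred`, `Computable`).
-/

namespace OWR

open MeasureTheory Encodable Filter Topology

/-- `pre X n` is the initial segment of length `n` of the infinite binary sequence `X`. -/
def pre (X : ℕ → Bool) (n : ℕ) : List Bool := (List.range n).map X

/-- The uniform (fair-coin, Lebesgue) measure on Cantor space. -/
noncomputable def lam : Measure (ℕ → Bool) :=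
  Measure.infinitePi (fun _ : ℕ => (PMF.uniformOfFintype Bool).toMeasure)

/-- The open set generated by a set `S` of strings: all `X` with an initial segment in `S`. -/
def opn (S : List Bool → Prop) : Set (ℕ → Bool) := {X | ∃ n, S (pre X n)}

/-- `G` is a uniformly `Σ⁰₁` sequence of open sets. -/
def UnifSigma (G : ℕ → Set (ℕ → Bool)) : Prop :=
  ∃ W : ℕ → List Bool → Prop, REPred (fun p : ℕ × List Bool => W p.1 p.2) ∧
    ∀ m, G m = opn (W m)

/-- `G` is a uniformly `Σ⁰₁(A)` sequence of open sets: an r.e. set `W` of axioms `(ρ, m, σ)` is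
given, and `[σ]` is put into `G m` when `(ρ, m, σ) ∈ W` for some initial segment `ρ` of `A`. -/
def UnifSigmaIn (A : ℕ → Bool) (G : ℕ → Set (ℕ → Bool)) : Prop :=
  ∃ W : List Bool → ℕ → List Bool → Prop,
    REPred (fun p : List Bool × ℕ × List Bool => W p.1 p.2.1 p.2.2) ∧
    ∀ m, G m = opn (fun σ => ∃ k, W (pre A k) m σ)

/-- A computable sequence of rationals. -/
def CompRat (β : ℕ → ℚ) : Prop :=
  ∃ a a' b : ℕ → ℕ, Computable a ∧ Computable a' ∧ Computable b ∧
    ∀ s, β s = ((a s : ℚ) - (a' s : ℚ)) / ((b s : ℚ) + 1)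

/-- An `A`-computable sequence of rationals: the graph of `s ↦ (a, a', b)` is `Σ⁰₁(A)`. -/
def CompRatIn (A : ℕ → Bool) (β : ℕ → ℚ) : Prop :=
  ∃ R : List Bool → ℕ → ℕ × ℕ × ℕ → Prop,
    REPred (fun p : List Bool × ℕ × (ℕ × ℕ × ℕ) => R p.1 p.2.1 p.2.2) ∧
    (∀ s, ∃ k v, R (pre A k) s v) ∧
    ∀ s k v, R (pre A k) s v → β s = ((v.1 : ℚ) - (v.2.1 : ℚ)) / ((v.2.2 : ℚ) + 1)

/-- The test conditions on a sequence `G` of open sets and an increasing sequence `β` of rationals
with limit `b`: the sequence `G` is descending and `λ(G m) = O(b - β m)`. -/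
structure IsTest (G : ℕ → Set (ℕ → Bool)) (β : ℕ → ℚ) (b : ℝ) : Prop where
  anti : Antitone G
  mono : StrictMono β
  lim : Tendsto (fun s => (β s : ℝ)) atTop (𝓝 b)
  bound : ∃ C : ℝ, ∀ m, lam (G m) ≤ ENNReal.ofReal (C * (b - β m))

/-- `Z` is Oberwolfach random: it passes all left-c.e. tests. -/
def OWRandom (Z : ℕ → Bool) : Prop :=
  ∀ G β b, UnifSigma G → CompRat β → IsTest G β b → Z ∉ ⋂ m, G m

/-- `Z` is Oberwolfach random relative to `A`. -/
def OWRandomIn (A Z : ℕ → Bool) : Prop :=
  ∀ G β b, UnifSigmaIn A G → CompRatIn A β → IsTest G β b → Z ∉ ⋂ m, G m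

/-- `A` is low for Oberwolfach randomness. -/
def LowForOW (A : ℕ → Bool) : Prop := ∀ Z, OWRandom Z → OWRandomIn A Z

/-- A machine with prefix-free domain: a partial recursive function from strings to `ℕ`, no two
different strings of its domain being comparable. -/
structure PFMachine (M : List Bool →. ℕ) : Prop where
  partrec : Partrec M
  pf : ∀ σ τ, (M σ).Dom → (M τ).Dom → σ <+: τ → σ = τ

/-- The complexity of `x` with respect to the machine `M`: the least length of a description. -/
noncomputable def cplx (M : List Bool →. ℕ) (x : ℕ) : ℕ∞ :=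
  ⨅ σ : {σ : List Bool // x ∈ M σ}, (σ.1.length : ℕ∞)

/-- `U` is an optimal prefix-free machine. -/
structure Optimal (U : List Bool →. ℕ) : Prop where
  pfm : PFMachine U
  opt : ∀ M, PFMachine M → ∃ c : ℕ, ∀ x, cplx U x ≤ cplx M x + c

/-- `A` is K-trivial: `K(A ↾ n) ≤ K(n) + c` for some `c` and all `n`, where `K = cplx U` for an
optimal prefix-free machine `U`. -/
def KTrivial (A : ℕ → Bool) : Prop :=
  ∃ U, Optimal U ∧ ∃ c : ℕ, ∀ n, cplx U (encode (pre A n)) ≤ cplx U n + c

end OWR
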