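import Pool.Agent.H77.OW.Meas

/-!
# Task Discipline (Part IIb, step 0)

From an r.e. set W of A-requests (total ≤ 1 for A) make a decidable set U of requests which is bounded by 1 for EVERY
oracle.  Let w be a monotone primrec staging of W and
 cov2 ρ r x := r < |ρ| ∧ x < |ρ| ∧ ∃ i ≤ |ρ|, w (ρ.take i) r x at stage |ρ|;
 U ρ r x := cov2 ρ r x ∧ ¬ cov2 ρ.dropLast r x ∧ Σ_{(r',x') with cov2 ρ r' x'} 2^{-r'} ≤ 1.
-/

namespace OWR

open MeasureTheory Encodable Filter Topology

namespace Disc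

/-- bounded existential quantifier, as a Boolean function -/
def bex (n : ℕ) (g : ℕ → Bool) : Bool := (List.range n).foldr (fun i s => g i || s) false

theorem bex_iff (n : ℕ) (g : ℕ → Bool) : bex n g = true ↔ ∃ i < n, g i = true := by
  have key : ∀ L : List ℕ, (L.foldr (fun i s => g i || s) false = true) ↔
      ∃ i ∈ L, g i = true := by
    intro L
    induction L with
    | nil => simp
    | cons b L ih => simp [ih]
  simp [bex, key]

/-- bounded sum -/
def bsum (n : ℕ) (g : ℕ → ℕ) : ℕ := (List.range n).foldr (fun i s => g i + s) 0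

theorem bsum_eq (n : ℕ) (g : ℕ → ℕ) : bsum n g = ∑ i ∈ Finset.range n, g i := by
  have key : ∀ L : List ℕ, L.foldr (fun i s => g i + s) 0 = (L.map g).sum := by
    intro L
    induction L with
    | nil => simp
    | cons b L ih => simp [ih]
  rw [bsum, key]
  rfl

variable {α : Type*} [Primcodable α]

theorem bex_prim {n : α → ℕ} {g : α → ℕ → Bool} (hn : Primrec n) (hg : Primrec₂ g) :
    Primrec fun a => bex (n a) (g a) := by
  have h1 : Primrec fun q : α × (ℕ × Bool) => g q.1 q.2.1 :=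
    hg.comp Primrec.fst (Primrec.fst.comp Primrec.snd)
  have h3 : Primrec₂ fun (a : α) (q : ℕ × Bool) => (g a q.1 || q.2) :=
    Primrec.or.comp h1 (Primrec.snd.comp Primrec.snd)
  exact Primrec.list_foldr (Primrec.list_range.comp hn) (Primrec.const false) h3

theorem bsum_prim {n : α → ℕ} {g : α → ℕ → ℕ} (hn : Primrec n) (hg : Primrec₂ g) :
    Primrec fun a => bsum (n a) (g a) := by
  have h1 : Primrec fun q : α × (ℕ × ℕ) => g q.1 q.2.1 :=
    hg.comp Primrec.fst (Primrec.fst.comp Primrec.snd)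
  have h3 : Primrec₂ fun (a : α) (q : ℕ × ℕ) => (g a q.1 + q.2) :=
    Primrec.nat_add.comp h1 (Primrec.snd.comp Primrec.snd)
  exact Primrec.list_foldr (Primrec.list_range.comp hn) (Primrec.const 0) h3

theorem pow_prim : Primrec₂ ((· ^ ·) : ℕ → ℕ → ℕ) := Primrec₂.unpaired'.1 Nat.Primrec.pow

/-- the pair `(r, x)` is covered by `ρ` -/
def cov (f : List Bool × ℕ × ℕ → ℕ → Bool) (p : List Bool × ℕ × ℕ) : Bool :=
  decide (p.2.1 < p.1.length) && (decide (p.2.2 < p.1.length) &&
    bex (p.1.length + 1) fun i => f (p.1.take i, p.2.1, p.2.2) p.1.length)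

theorem cov_iff (f : List Bool × ℕ × ℕ → ℕ → Bool) (ρ : List Bool) (r x : ℕ) :
    cov f (ρ, r, x) = true ↔ r < ρ.length ∧ x < ρ.length ∧
      ∃ i ≤ ρ.length, f (ρ.take i, r, x) ρ.length = true := by
  simp only [cov, Bool.and_eq_true, decide_eq_true_eq, bex_iff, Nat.lt_succ_iff]

theorem cov_prim {f : List Bool × ℕ × ℕ → ℕ → Bool} (hf : Primrec₂ f) : Primrec (cov f) := by
  have hl : Primrec fun p : List Bool × ℕ × ℕ => p.1.length :=
    Primrec.list_length.comp Primrec.fst
  have hr : Primrec fun p : List Bool × ℕ × ℕ => p.2.1 := Primrec.fst.comp Primrec.snd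
  have hx : Primrec fun p : List Bool × ℕ × ℕ => p.2.2 := Primrec.snd.comp Primrec.snd
  have h1 : Primrec fun p : List Bool × ℕ × ℕ => decide (p.2.1 < p.1.length) :=
    (Primrec.nat_lt.comp hr hl).decide
  have h2 : Primrec fun p : List Bool × ℕ × ℕ => decide (p.2.2 < p.1.length) :=
    (Primrec.nat_lt.comp hx hl).decide
  have h3 : Primrec₂ fun (p : List Bool × ℕ × ℕ) (i : ℕ) =>
      f (p.1.take i, p.2.1, p.2.2) p.1.length := by
    have e1 : Primrec fun q : (List Bool × ℕ × ℕ) × ℕ => q.1.1.take q.2 :=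
      Primrec.list_take.comp Primrec.snd (Primrec.fst.comp Primrec.fst)
    exact hf.comp (e1.pair ((hr.comp Primrec.fst).pair (hx.comp Primrec.fst)))
      (hl.comp Primrec.fst)
  exact Primrec.and.comp h1 (Primrec.and.comp h2 (bex_prim (Primrec.succ.comp hl) h3))

/-- scaled weight of the pairs covered by `ρ` -/
def wgt (f : List Bool × ℕ × ℕ → ℕ → Bool) (ρ : List Bool) : ℕ :=
  bsum (ρ.length * ρ.length) fun i =>
    bif cov f (ρ, i.unpair.1, i.unpair.2) then 2 ^ (ρ.length - i.unpair.1) else 0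

theorem wgt_prim {f : List Bool × ℕ × ℕ → ℕ → Bool} (hf : Primrec₂ f) : Primrec (wgt f) := by
  have hl : Primrec fun ρ : List Bool => ρ.length := Primrec.list_length
  have hu1 : Primrec fun q : List Bool × ℕ => q.2.unpair.1 :=
    Primrec.fst.comp (Primrec.unpair.comp Primrec.snd)
  have hu2 : Primrec fun q : List Bool × ℕ => q.2.unpair.2 :=
    Primrec.snd.comp (Primrec.unpair.comp Primrec.snd)
  refine bsum_prim (Primrec.nat_mul.comp hl hl) ?_
  refine Primrec.cond (f := fun q : List Bool × ℕ => 2 ^ (q.1.length - q.2.unpair.1))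
    (g := fun _ => 0) (c := fun q : List Bool × ℕ => cov f (q.1, q.2.unpair.1, q.2.unpair.2))
    ?_ ?_ (Primrec.const 0)
  · exact (cov_prim hf).comp (Primrec.fst.pair (hu1.pair hu2))
  · exact pow_prim.comp (Primrec.const 2)
      (Primrec.nat_sub.comp (hl.comp Primrec.fst) hu1)

/-- the disciplined set of requests -/
def disc (f : List Bool × ℕ × ℕ → ℕ → Bool) (p : List Bool × ℕ × ℕ) : Bool :=
  cov f p && ((!cov f (p.1.take (p.1.length - 1), p.2.1, p.2.2)) &&
    decide (wgt f p.1 ≤ 2 ^ p.1.length))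

theorem disc_prim {f : List Bool × ℕ × ℕ → ℕ → Bool} (hf : Primrec₂ f) : Primrec (disc f) := by
  have hl : Primrec fun p : List Bool × ℕ × ℕ => p.1.length :=
    Primrec.list_length.comp Primrec.fst
  have hr : Primrec fun p : List Bool × ℕ × ℕ => p.2.1 := Primrec.fst.comp Primrec.snd
  have hx : Primrec fun p : List Bool × ℕ × ℕ => p.2.2 := Primrec.snd.comp Primrec.snd
  refine Primrec.and.comp (cov_prim hf) (Primrec.and.comp ?_ ?_)
  · refine Primrec.not.comp ((cov_prim hf).comp (Primrec.pair ?_ (hr.pair hx)))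
    exact Primrec.list_take.comp (Primrec.nat_sub.comp hl (Primrec.const 1)) Primrec.fst
  · exact (Primrec.nat_le.comp ((wgt_prim hf).comp Primrec.fst)
      (pow_prim.comp (Primrec.const 2) hl)).decide

theorem cov_mono {f : List Bool × ℕ × ℕ → ℕ → Bool}
    (mf : ∀ a s t, s ≤ t → f a s = true → f a t = true) {ρ : List Bool} {k r x : ℕ}
    (h : cov f (ρ.take k, r, x) = true) : cov f (ρ, r, x) = true := by
  rw [cov_iff] at h ⊢
  obtain ⟨h1, h2, i, hi, h3⟩ := h
  have hle : (ρ.take k).length ≤ ρ.length := by simp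
  refine ⟨lt_of_lt_of_le h1 hle, lt_of_lt_of_le h2 hle, i, hi.trans hle, ?_⟩
  have he : (ρ.take k).take i = ρ.take i := by
    rw [List.take_take]
    congr 1
    have : i ≤ k := hi.trans (by simp)
    omega
  rw [he] at h3
  exact mf _ _ _ hle h3

theorem cov_pre_mono {f : List Bool × ℕ × ℕ → ℕ → Bool}
    (mf : ∀ a s t, s ≤ t → f a s = true → f a t = true) (X : ℕ → Bool) {k l r x : ℕ}
    (hkl : k ≤ l) (h : cov f (pre X k, r, x) = true) : cov f (pre X l, r, x) = true := by
  rw [← pre_take_of_le X hkl] at h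
  exact cov_mono mf h

/-- any finite set of pairs covered by `ρ` has scaled weight at most `wgt f ρ` -/
theorem sum_le_wgt (f : List Bool × ℕ × ℕ → ℕ → Bool) (ρ : List Bool) (G : Finset (ℕ × ℕ))
    (h : ∀ p ∈ G, cov f (ρ, p.1, p.2) = true) :
    ∑ p ∈ G, 2 ^ (ρ.length - p.1) ≤ wgt f ρ := by
  rw [wgt, bsum_eq]
  have hinj : Set.InjOn (fun p : ℕ × ℕ => Nat.pair p.1 p.2) (G : Set (ℕ × ℕ)) := by
    intro p _ q _ hpq
    have := Nat.pair_eq_pair.1 hpq
    exact Prod.ext this.1 this.2
  have hsub : G.image (fun p : ℕ × ℕ => Nat.pair p.1 p.2) ⊆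
      Finset.range (ρ.length * ρ.length) := by
    intro i hi
    obtain ⟨p, hp, rfl⟩ := Finset.mem_image.1 hi
    have hc := (cov_iff f ρ p.1 p.2).1 (h p hp)
    rw [Finset.mem_range]
    have h1 := Nat.pair_lt_max_add_one_sq p.1 p.2
    have h2 : max p.1 p.2 + 1 ≤ ρ.length := by
      have := max_lt hc.1 hc.2.1
      omega
    calc Nat.pair p.1 p.2 < (max p.1 p.2 + 1) ^ 2 := h1
      _ ≤ ρ.length ^ 2 := Nat.pow_le_pow_left h2 2
      _ = ρ.length * ρ.length := by ring
  calc ∑ p ∈ G, 2 ^ (ρ.length - p.1)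
      = ∑ i ∈ G.image (fun p : ℕ × ℕ => Nat.pair p.1 p.2),
          (bif cov f (ρ, i.unpair.1, i.unpair.2) then 2 ^ (ρ.length - i.unpair.1) else 0) := by
        rw [Finset.sum_image hinj]
        refine Finset.sum_congr rfl fun p hp => ?_
        simp only [Nat.unpair_pair]
        rw [h p hp]
        rfl
    _ ≤ _ := Finset.sum_le_sum_of_subset_of_nonneg hsub (fun _ _ _ => Nat.zero_le _)

/-- the covered pairs, as a finset -/
def cset (f : List Bool × ℕ × ℕ → ℕ → Bool) (ρ : List Bool) : Finset (ℕ × ℕ) :=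
  (Finset.range ρ.length ×ˢ Finset.range ρ.length).filter fun p => cov f (ρ, p.1, p.2) = true

theorem wgt_eq (f : List Bool × ℕ × ℕ → ℕ → Bool) (ρ : List Bool) :
    wgt f ρ = ∑ p ∈ cset f ρ, 2 ^ (ρ.length - p.1) := by
  apply le_antisymm
  · rw [wgt, bsum_eq]
    have h1 : ∀ i ∈ Finset.range (ρ.length * ρ.length),
        (bif cov f (ρ, i.unpair.1, i.unpair.2) then 2 ^ (ρ.length - i.unpair.1) else 0) =
        (if cov f (ρ, i.unpair.1, i.unpair.2) = true then 2 ^ (ρ.length - i.unpair.1) else 0) := by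
      intro i _
      cases cov f (ρ, i.unpair.1, i.unpair.2) <;> rfl
    rw [Finset.sum_congr rfl h1, ← Finset.sum_filter]
    have hinj : Set.InjOn (fun i : ℕ => i.unpair)
        ((Finset.range (ρ.length * ρ.length)).filter
          (fun i => cov f (ρ, i.unpair.1, i.unpair.2) = true) : Set ℕ) := by
      intro i _ j _ hij
      have h2 : i.unpair = j.unpair := hij
      rw [← Nat.pair_unpair i, ← Nat.pair_unpair j, h2]
    calc ∑ i ∈ (Finset.range (ρ.length * ρ.length)).filter
          (fun i => cov f (ρ, i.unpair.1, i.unpair.2) = true), 2 ^ (ρ.length - i.unpair.1)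
        = ∑ p ∈ ((Finset.range (ρ.length * ρ.length)).filter
          (fun i => cov f (ρ, i.unpair.1, i.unpair.2) = true)).image (fun i : ℕ => i.unpair),
            2 ^ (ρ.length - p.1) := by rw [Finset.sum_image hinj]
      _ ≤ _ := by
        refine Finset.sum_le_sum_of_subset_of_nonneg ?_ (fun _ _ _ => Nat.zero_le _)
        intro p hp
        obtain ⟨i, hi, rfl⟩ := Finset.mem_image.1 hp
        have hc := (Finset.mem_filter.1 hi).2
        have hc' := (cov_iff f ρ _ _).1 hc
        simp only [cset, Finset.mem_filter, Finset.mem_product, Finset.mem_range]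
        exact ⟨⟨hc'.1, hc'.2.1⟩, hc⟩
  · exact sum_le_wgt f ρ _ fun p hp => (Finset.mem_filter.1 hp).2

theorem half_pow_scale {l r : ℕ} (h : r ≤ l) :
    (2 : ℝ)⁻¹ ^ r = ((2 ^ (l - r) : ℕ) : ℝ) / 2 ^ l := by
  have h2 : (2 : ℝ) ^ l = 2 ^ (l - r) * 2 ^ r := by rw [← pow_add]; congr 1; omega
  rw [h2]
  push_cast
  rw [inv_pow]
  field_simp

end Disc

theorem discipline (A : ℕ → Bool) (W : List Bool → ℕ → ℕ → Prop)
    (hW : REPred (fun p : List Bool × ℕ × ℕ => W p.1 p.2.1 p.2.2))
    (hs : ∀ F : Finset (ℕ × ℕ), (∀ p ∈ F, ∃ k, W (pre A k) p.1 p.2) →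
      ∑ p ∈ F, (2 : ℝ)⁻¹ ^ p.1 ≤ 1) :
    ∃ U : List Bool × ℕ × ℕ → Bool, Primrec U ∧
      (∀ ρ r x, U (ρ, r, x) = true → r < ρ.length ∧ x < ρ.length) ∧
      (∀ (X : ℕ → Bool) (F : Finset (List Bool × ℕ × ℕ)),
        (∀ u ∈ F, U u = true ∧ u.1 = pre X u.1.length) → ∑ u ∈ F, (2 : ℝ)⁻¹ ^ u.2.1 ≤ 1) ∧
      (∀ k r x, W (pre A k) r x → ∃ k', U (pre A k', r, x) = true) := by
  obtain ⟨f, hf, mf, ef⟩ := exists_stage hW
  have hU : ∀ ρ r x, Disc.disc f (ρ, r, x) = true ↔
      Disc.cov f (ρ, r, x) = true ∧ Disc.cov f (ρ.take (ρ.length - 1), r, x) = false ∧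
        Disc.wgt f ρ ≤ 2 ^ ρ.length := by
    intro ρ r x
    simp [Disc.disc]
  refine ⟨Disc.disc f, Disc.disc_prim hf, ?_, ?_, ?_⟩
  · intro ρ r x h
    have h1 := (Disc.cov_iff f ρ r x).1 ((hU ρ r x).1 h).1
    exact ⟨h1.1, h1.2.1⟩
  · intro X F hF
    rcases F.eq_empty_or_nonempty with rfl | hne
    · simp
    obtain ⟨u0, hu0, hmax⟩ := F.exists_max_image (fun u => u.1.length) hne
    set K := u0.1.length with hK
    have hcov : ∀ u ∈ F, Disc.cov f (pre X K, u.2.1, u.2.2) = true := by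
      intro u hu
      obtain ⟨h1, h2⟩ := hF u hu
      have h3 := ((hU u.1 u.2.1 u.2.2).1 h1).1
      rw [h2] at h3
      exact Disc.cov_pre_mono mf X (hmax u hu) h3
    have hinj : Set.InjOn (fun u : List Bool × ℕ × ℕ => u.2) (F : Set (List Bool × ℕ × ℕ)) := by
      have aux : ∀ u ∈ F, ∀ v ∈ F, u.2 = v.2 → ¬ u.1.length < v.1.length := by
        intro u hu v hv huv hlt
        obtain ⟨hu1, hu2⟩ := hF u hu
        obtain ⟨hv1, hv2⟩ := hF v hv
        have h3 := ((hU u.1 u.2.1 u.2.2).1 hu1).1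
        have h4 := ((hU v.1 v.2.1 v.2.2).1 hv1).2.1
        rw [hu2] at h3
        rw [hv2, pre_length, pre_take_of_le X (Nat.sub_le _ _)] at h4
        rw [huv] at h3
        have h5 := Disc.cov_pre_mono mf X (show u.1.length ≤ v.1.length - 1 by omega) h3
        rw [h5] at h4
        exact Bool.noConfusion h4
      intro u hu v hv huv
      have hu' : u ∈ F := hu
      have hv' : v ∈ F := hv
      have h1 := aux u hu' v hv' huv
      have h2 := aux v hv' u hu' huv.symm
      have h3 : u.1.length = v.1.length := by omega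
      refine Prod.ext ?_ huv
      rw [(hF u hu').2, (hF v hv').2, h3]
    have hlen : (pre X K).length = K := pre_length X K
    have hw : Disc.wgt f (pre X K) ≤ 2 ^ K := by
      obtain ⟨h1, h2⟩ := hF u0 hu0
      have h3 := ((hU u0.1 u0.2.1 u0.2.2).1 h1).2.2
      rw [h2, pre_length] at h3
      exact h3
    have hsum := Disc.sum_le_wgt f (pre X K) (F.image fun u => u.2) (by
      intro p hp
      obtain ⟨u, hu, rfl⟩ := Finset.mem_image.1 hp
      exact hcov u hu)
    rw [Finset.sum_image hinj, hlen] at hsum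
    have hsum' := hsum.trans hw
    have hle : ∀ u ∈ F, u.2.1 ≤ K := by
      intro u hu
      have := (Disc.cov_iff f _ _ _).1 (hcov u hu)
      rw [hlen] at this
      omega
    calc ∑ u ∈ F, (2 : ℝ)⁻¹ ^ u.2.1
        = ∑ u ∈ F, ((2 ^ (K - u.2.1) : ℕ) : ℝ) / 2 ^ K :=
          Finset.sum_congr rfl fun u hu => Disc.half_pow_scale (hle u hu)
      _ = ((∑ u ∈ F, 2 ^ (K - u.2.1) : ℕ) : ℝ) / 2 ^ K := by
          rw [← Finset.sum_div]; push_cast; rfl
      _ ≤ 1 := by
          rw [div_le_one (by positivity)]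
          exact_mod_cast hsum'
  · intro k r x hk
    obtain ⟨s, hs'⟩ := (ef (pre A k, r, x)).1 hk
    have hex : ∃ l, Disc.cov f (pre A l, r, x) = true := by
      refine ⟨max (max k s) (max (r + 1) (x + 1)), ?_⟩
      rw [Disc.cov_iff, pre_length]
      refine ⟨?_, ?_, k, ?_, ?_⟩
      · exact lt_of_lt_of_le (Nat.lt_succ_self r) ((le_max_left _ _).trans (le_max_right _ _))
      · exact lt_of_lt_of_le (Nat.lt_succ_self x) ((le_max_right _ _).trans (le_max_right _ _))
      · exact (le_max_left _ _).trans (le_max_left _ _)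
      · rw [pre_take_of_le A ((le_max_left _ _).trans (le_max_left _ _))]
        exact mf _ _ _ ((le_max_right _ _).trans (le_max_left _ _)) hs'
    classical
    let l := Nat.find hex
    have hl : Disc.cov f (pre A l, r, x) = true := Nat.find_spec hex
    have hl0 : r < l := by
      have := ((Disc.cov_iff f _ _ _).1 hl).1
      rwa [pre_length] at this
    have hmin : Disc.cov f (pre A (l - 1), r, x) = false := by
      have := Nat.find_min hex (m := l - 1) (by omega)
      simpa using this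
    refine ⟨l, (hU _ _ _).2 ⟨hl, ?_, ?_⟩⟩
    · rw [pre_length, pre_take_of_le A (Nat.sub_le _ _)]
      exact hmin
    · rw [pre_length, Disc.wgt_eq, pre_length]
      have h1 : ∀ p ∈ Disc.cset f (pre A l), ∃ k, W (pre A k) p.1 p.2 := by
        intro p hp
        have hc := (Disc.cov_iff f _ _ _).1 (Finset.mem_filter.1 hp).2
        obtain ⟨-, -, i, hi, h3⟩ := hc
        rw [pre_length] at hi
        rw [pre_take_of_le A hi] at h3
        exact ⟨i, (ef (pre A i, p.1, p.2)).2 ⟨_, h3⟩⟩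
      have h2 := hs _ h1
      have h3 : ∑ p ∈ Disc.cset f (pre A l), (2 : ℝ)⁻¹ ^ p.1 =
          ((∑ p ∈ Disc.cset f (pre A l), 2 ^ (l - p.1) : ℕ) : ℝ) / 2 ^ l := by
        push_cast
        rw [Finset.sum_div]
        refine Finset.sum_congr rfl fun p hp => ?_
        have hc := (Disc.cov_iff f _ _ _).1 (Finset.mem_filter.1 hp).2
        rw [pre_length] at hc
        have := Disc.half_pow_scale (show p.1 ≤ l by omega)
        push_cast at this
        exact this
      rw [h3, div_le_one (by positivity)] at h2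
      exact_mod_cast h2

end OWR
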