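import Pool.Agent.H77.OW.GoldInv

/-!
# Task GoldCert : certificates, and the root is never done   (about 150-200 lines)

`Cert le b e t`: the number n = t.1 has at least N - |holder| certified strings of length n extending all requests of the
holder.  Preservation: when the token moves to `tail π` at an active stage s, π is not valid for B = As s but tail π is,
and |B| ≥ clock > n, K_s(n) ≤ w + 2e (activity) so `le s (encode (B.take n)) (w + 2e + b)` by h3; B.take n extends the
requests of tail π (their length is ≤ n, `Inv.treq`) but not the head request of π, hence is a new string.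
If the head is `none`, the number of strings needed before was N - N = 0.
`root_not_done`: N * (1/2) ≤ Σ_{tokens of root} N 2^{-w} ≤ 2^{2e+b} by kraft (different tokens have different n, so
different certified strings), N > 2^{2e+b+1}.
-/

namespace OWR.Gold

open Encodable

def Cert (le : ℕ → ℕ → ℕ → Bool) (b e : ℕ) (t : Tok) : Prop :=
  ∃ F : Finset (List Bool), NN b e ≤ F.card + t.2.2.length ∧
    ∀ τ ∈ F, τ.length = t.1 ∧ (∀ x ∈ t.2.2, ∀ u, x.1 = some u → u.1 <+: τ) ∧
      ∃ s, le s (encode τ) (t.2.1 + 2 * e + b) = true

theorem cert_valid_cons (B : List Bool) (p : Option Req × ℕ) (π : Path) :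
    valid B (p :: π) = (okE B p.1 && valid B π) := rfl

theorem okE_of_valid {B : List Bool} {π : Path} (h : valid B π = true) :
    ∀ x ∈ π, okE B x.1 = true := by
  induction π with
  | nil => simp
  | cons p π ih =>
    rw [cert_valid_cons, Bool.and_eq_true] at h
    intro x hx
    rcases List.mem_cons.1 hx with rfl | hx
    · exact h.1
    · exact ih h.2 x hx

/-- the tokens after an update -/
theorem mem_create_toks {U : Req → Bool} {N q0 : ℕ} {B : List Bool} {a : ℕ}
    {I : List (Path × Bool)} {T : List Tok} {t : Tok} (h : t ∈ (create U N q0 B a I T).2) :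
    t ∈ T ∨ ∃ π : Path, t = (a, qq q0 π, (none, a) :: π) ∧ π.length + 1 = N := by
  unfold create at h
  split at h
  · exact Or.inl h
  · rename_i π u _
    split_ifs at h with h1 h2 h3
    · rcases List.mem_cons.1 h with h | h
      · exact Or.inr ⟨π, h, h2⟩
      · exact Or.inl h
    · exact Or.inl h
    · exact Or.inl h
    · exact Or.inl h

theorem toks_subset_create {U : Req → Bool} {N q0 : ℕ} {B : List Bool} {a : ℕ}
    {I : List (Path × Bool)} {T : List Tok} :
    T.Sublist (create U N q0 B a I T).2 := by
  unfold create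
  split
  · exact List.Sublist.refl _
  · split_ifs
    · exact List.sublist_cons_self _ _
    · exact List.Sublist.refl _
    · exact List.Sublist.refl _
    · exact List.Sublist.refl _

theorem mem_create_insts {U : Req → Bool} {N q0 : ℕ} {B : List Bool} {a : ℕ}
    {I : List (Path × Bool)} {T : List Tok} {p : Path × Bool}
    (h : p ∈ (create U N q0 B a I T).1) : p ∈ I ∨ p.2 = false := by
  unfold create at h
  split at h
  · exact Or.inl h
  · split_ifs at h with h1 h2 h3
    · exact Or.inl h
    · rcases List.mem_cons.1 h with h | h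
      · exact Or.inr (by rw [h])
      · exact Or.inl h
    · exact Or.inl h
    · exact Or.inl h

theorem cert_upTok (S : KSys) (As : ℕ → List Bool) (U : Req → Bool) (b e : ℕ)
    (h3 : ∀ s j r, j ≤ (As s).length → S.le s j r = true →
          S.le s (encode ((As s).take j)) (r + b) = true) (s : ℕ) {B0 : List Bool} {st : State}
    (hI : Inv U b e B0 st) (hlen : st.1 ≤ (As s).length)
    {t t' : Tok} (ht : t ∈ st.2.2) (hle : S.le s t.1 (t.2.1 + 2 * e) = true)
    (hc : Cert S.le b e t) (hu : upTok (As s) t = some t') : Cert S.le b e t' := by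
  unfold upTok at hu
  split_ifs at hu with hv hv'
  · simp only [Option.some.injEq] at hu
    rw [← hu]; exact hc
  · simp only [Option.some.injEq] at hu
    obtain ⟨n, w, π0⟩ := t
    cases π0 with
    | nil => exact absurd rfl hv
    | cons p π =>
      simp only [List.tail_cons] at hu hv'
      subst hu
      have hp : okE (As s) p.1 ≠ true := by
        intro hp
        apply hv
        show valid (As s) (p :: π) = true
        rw [cert_valid_cons, hp, hv']; rfl
      have hn : n ≤ (As s).length := (hI.tclock _ ht).le.trans hlen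
      have hτl : ((As s).take n).length = n := by simpa using hn
      have hτx : ∀ x ∈ π, ∀ u, x.1 = some u → u.1 <+: (As s).take n := by
        intro x hx u hxu
        have h1 : okE (As s) x.1 = true := okE_of_valid hv' x hx
        rw [hxu] at h1
        have h2 : (As s).take u.1.length = u.1 := by simpa [okE] using h1
        have h4 : u.1.length ≤ n := hI.treq _ ht x (List.mem_cons_of_mem _ hx) u hxu
        rw [← h2]
        exact List.take_prefix_take_left h4
      have hτle : S.le s (encode ((As s).take n)) (w + 2 * e + b) = true := h3 s n _ hn hle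
      cases hp1 : p.1 with
      | none =>
        refine ⟨{(As s).take n}, ?_, ?_⟩
        · have hl : (p :: π).length = NN b e := by
            rcases hI.thold _ ht with ⟨d, hd⟩ | h
            · obtain ⟨u, hu, -⟩ := hI.reqs _ hd p List.mem_cons_self
              rw [hp1] at hu
              exact absurd hu (by simp)
            · exact h.2.2.1
          simp only [List.length_cons] at hl
          simp only [Finset.card_singleton]
          omega
        · intro τ hτ
          rw [Finset.mem_singleton] at hτ
          subst hτ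
          exact ⟨hτl, hτx, s, hτle⟩
      | some u =>
        obtain ⟨F, hF, hF'⟩ := hc
        have hnew : (As s).take n ∉ F := by
          intro hmem
          have h1 : u.1 <+: (As s).take n :=
            (hF' _ hmem).2.1 p List.mem_cons_self u hp1
          apply hp
          rw [hp1]
          have h2 : u.1 <+: As s := h1.trans (List.take_prefix _ _)
          simpa [okE] using (List.prefix_iff_eq_take.1 h2).symm
        refine ⟨insert ((As s).take n) F, ?_, ?_⟩
        · rw [Finset.card_insert_of_notMem hnew]
          simp only [List.length_cons] at hF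
          show NN b e ≤ F.card + 1 + π.length
          omega
        · intro τ hτ
          rcases Finset.mem_insert.1 hτ with rfl | hτ
          · exact ⟨hτl, hτx, s, hτle⟩
          · obtain ⟨g1, g2, g3⟩ := hF' τ hτ
            exact ⟨g1, fun x hx => g2 x (List.mem_cons_of_mem _ hx), g3⟩

theorem cert_state (S : KSys) (As : ℕ → List Bool) (U : Req → Bool) (b e : ℕ)
    (h3 : ∀ s j r, j ≤ (As s).length → S.le s j r = true →
          S.le s (encode ((As s).take j)) (r + b) = true) (s : ℕ) :
    ∀ t ∈ (state S.le As U b e s).2.2, Cert S.le b e t := by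
  induction s with
  | zero => simp [state]
  | succ s ih =>
    show ∀ t ∈ (step S.le As U b e s (state S.le As U b e s)).2.2, Cert S.le b e t
    unfold step
    split_ifs with hact
    · obtain ⟨B0, hI⟩ := inv_state S.le As U b e s
      generalize state S.le As U b e s = st at ih hact hI
      simp only [active, Bool.and_eq_true, decide_eq_true_eq, List.all_eq_true] at hact
      intro t ht
      rcases mem_create_toks ht with ht | ⟨π, rfl, hπ⟩
      · have ht1 : t ∈ toks1 (As s) st.2.2 := (List.mem_filter.1 ht).1
        obtain ⟨t0, ht0, hu⟩ := List.mem_filterMap.1 ht1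
        exact cert_upTok S As U b e h3 s hI hact.1 ht0 (hact.2 t0 ht0) (ih t0 ht0) hu
      · exact ⟨∅, by simp [hπ], by simp⟩
    · exact ih

/-- the weight held by π -/
noncomputable def held (T : List Tok) (π : Path) : ℝ :=
  (T.map fun t => if t.2.2 = π then (2 : ℝ)⁻¹ ^ t.2.1 else 0).sum

theorem held_cons (t : Tok) (T : List Tok) (π : Path) :
    held (t :: T) π = (if t.2.2 = π then (2 : ℝ)⁻¹ ^ t.2.1 else 0) + held T π := by
  simp [held]

theorem held_nonneg (T : List Tok) (π : Path) : 0 ≤ held T π := by
  induction T with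
  | nil => simp [held]
  | cons t T ih =>
    rw [held_cons]
    split_ifs
    · positivity
    · simpa using ih

theorem held_sublist {T T' : List Tok} (h : T.Sublist T') (π : Path) :
    held T π ≤ held T' π := by
  induction h with
  | slnil => exact le_rfl
  | cons t _ ih =>
    rw [held_cons]
    refine ih.trans ?_
    split_ifs
    · have : (0 : ℝ) ≤ (2 : ℝ)⁻¹ ^ t.2.1 := by positivity
      linarith
    · simp
  | cons_cons t _ ih =>
    rw [held_cons, held_cons]
    linarith

theorem wt_eq (M : ℕ) (T : List Tok) (π : Path) (h : ∀ t ∈ T, t.2.1 ≤ M) :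
    (wt M T π : ℝ) = 2 ^ M * held T π := by
  induction T with
  | nil => simp [wt, held]
  | cons t T ih =>
    have h1 := ih fun t ht => h t (List.mem_cons_of_mem _ ht)
    have h2 := h t List.mem_cons_self
    rw [held_cons, mul_add, ← h1]
    have h4 : wt M (t :: T) π = (if t.2.2 = π then 2 ^ (M - t.2.1) else 0) + wt M T π := by
      simp [wt]
    rw [h4]
    push_cast
    congr 1
    split_ifs
    · rw [pow_sub₀ _ two_ne_zero h2, inv_pow]
    · simp

theorem reached_iff (q0 : ℕ) (T : List Tok) (π : Path) :
    reached q0 T π = true ↔ (2 : ℝ)⁻¹ ^ gg q0 π ≤ held T π := by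
  have hM : ∀ t ∈ T, t.2.1 ≤ (T.map fun t => t.2.1).sum + gg q0 π := by
    intro t ht
    have : t.2.1 ≤ (T.map fun t => t.2.1).sum :=
      List.single_le_sum (fun _ _ => Nat.zero_le _) _ (List.mem_map_of_mem ht)
    omega
  have h1 := wt_eq _ T π hM
  unfold reached
  rw [decide_eq_true_iff]
  generalize (T.map fun t => t.2.1).sum = M at h1
  have h2 : (2 ^ M ≤ wt (M + gg q0 π) T π) ↔ ((2 : ℝ) ^ M ≤ (wt (M + gg q0 π) T π : ℝ)) := by
    exact_mod_cast Iff.rfl
  rw [h2, h1, pow_add, mul_assoc, inv_pow]
  constructor
  · intro h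
    have h5 : (1 : ℝ) ≤ 2 ^ gg q0 π * held T π := by
      have := (mul_le_mul_iff_right₀ (show (0 : ℝ) < 2 ^ M by positivity)).1
        (show (2 : ℝ) ^ M * 1 ≤ 2 ^ M * (2 ^ gg q0 π * held T π) by simpa using h)
      exact this
    rw [inv_le_iff_one_le_mul₀ (by positivity), mul_comm]
    exact h5
  · intro h
    rw [inv_le_iff_one_le_mul₀ (by positivity), mul_comm] at h
    nlinarith [show (0 : ℝ) < 2 ^ M by positivity]

theorem held_toks1 {B : List Bool} {π : Path} (h : valid B π = true) (T : List Tok) :
    held T π ≤ held (toks1 B T) π := by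
  induction T with
  | nil => simp [toks1, held]
  | cons t T ih =>
    rw [held_cons]
    by_cases ht : t.2.2 = π
    · have h1 : upTok B t = some t := by simp [upTok, ht, h]
      have h2 : toks1 B (t :: T) = t :: toks1 B T := by simp [toks1, h1]
      rw [h2, held_cons]
      linarith
    · rw [if_neg ht, zero_add]
      refine ih.trans (held_sublist ?_ π)
      exact (List.sublist_cons_self t T).filterMap _

theorem held_toks3 {I : List (Path × Bool)} {π : Path} (h : dead I π = false) (T : List Tok) :
    held T π ≤ held (toks3 I T) π := by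
  induction T with
  | nil => simp [toks3, held]
  | cons t T ih =>
    rw [held_cons]
    by_cases ht : t.2.2 = π
    · have h2 : toks3 I (t :: T) = t :: toks3 I T := by simp [toks3, ht, h]
      rw [h2, held_cons]
      linarith
    · rw [if_neg ht, zero_add]
      refine ih.trans (held_sublist ?_ π)
      exact (List.sublist_cons_self t T).filter _

/-- a done instance holds at least its goal -/
theorem done_held (le : ℕ → ℕ → ℕ → Bool) (As : ℕ → List Bool) (U : Req → Bool) (b e s : ℕ) :
    ∀ p ∈ (state le As U b e s).2.1, p.2 = true →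
      (2 : ℝ)⁻¹ ^ gg (Q0 b e) p.1 ≤ held (state le As U b e s).2.2 p.1 := by
  induction s with
  | zero =>
    intro p hp hp2
    simp only [state, List.mem_singleton] at hp
    rw [hp] at hp2
    exact absurd hp2 (by simp)
  | succ s ih =>
    show ∀ p ∈ (step le As U b e s (state le As U b e s)).2.1, p.2 = true →
      (2 : ℝ)⁻¹ ^ gg (Q0 b e) p.1 ≤ held (step le As U b e s (state le As U b e s)).2.2 p.1
    unfold step
    split_ifs with hact
    · generalize state le As U b e s = st at ih hact
      intro p hp hp2
      rcases mem_create_insts hp with hp | hp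
      · have hdead : dead (insts2 (Q0 b e) (toks1 (As s) st.2.2) (insts1 (As s) st.2.1)) p.1
            = false := by
          have := (List.mem_filter.1 hp).2
          simpa using this
        have hp' := (List.mem_filter.1 hp).1
        obtain ⟨q, hq, rfl⟩ := List.mem_map.1 hp'
        have hq1 := (List.mem_filter.1 hq).1
        have hq2 : valid (As s) q.1 = true := (List.mem_filter.1 hq).2
        have key : (2 : ℝ)⁻¹ ^ gg (Q0 b e) q.1 ≤ held (toks1 (As s) st.2.2) q.1 := by
          rcases Bool.or_eq_true_iff.1 hp2 with h | h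
          · exact (ih q hq1 h).trans (held_toks1 hq2 _)
          · exact (reached_iff _ _ _).1 h
        refine key.trans ((held_toks3 hdead _).trans ?_)
        exact held_sublist toks_subset_create _
      · rw [hp] at hp2
        exact absurd hp2 (by simp)
    · exact ih

theorem root_not_done (S : KSys) (As : ℕ → List Bool) (U : Req → Bool) (b e : ℕ)
    (h3 : ∀ s j r, j ≤ (As s).length → S.le s j r = true →
          S.le s (encode ((As s).take j)) (r + b) = true) (s : ℕ) :
    ([], true) ∉ (state S.le As U b e s).2.1 := by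
  classical
  intro hmem
  have h1 := done_held S.le As U b e s _ hmem rfl
  have hcert := cert_state S As U b e h3 s
  obtain ⟨B0, hI⟩ := inv_state S.le As U b e s
  have hnd := hI.tnodup
  clear hI hmem
  generalize (state S.le As U b e s).2.2 = T at h1 hcert hnd
  simp only [gg, pow_one] at h1
  have hTnd : T.Nodup := List.Nodup.of_map _ hnd
  have hinj : ∀ t ∈ T, ∀ t' ∈ T, t.1 = t'.1 → t = t' := fun t ht t' ht' h =>
    List.inj_on_of_nodup_map hnd ht ht' h
  set T' : Finset Tok := T.toFinset.filter fun t => t.2.2 = [] with hT'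
  have hT'mem : ∀ t ∈ T', t ∈ T ∧ t.2.2 = [] := by
    intro t ht
    simpa [hT'] using ht
  have hheld : held T [] = ∑ t ∈ T', (2 : ℝ)⁻¹ ^ t.2.1 := by
    rw [hT', Finset.sum_filter, List.sum_toFinset _ hTnd]
    rfl
  choose! F hF hF' using hcert
  let r : ℕ → ℕ := fun x =>
    if h : ∃ t ∈ T, ∃ τ : List Bool, x = encode τ ∧ τ.length = t.1 then
      h.choose.2.1 + 2 * e + b else 0
  have hr : ∀ t ∈ T, ∀ τ ∈ F t, r (encode τ) = t.2.1 + 2 * e + b := by
    intro t ht τ hτ
    have hex : ∃ t' ∈ T, ∃ τ' : List Bool, encode τ = encode τ' ∧ τ'.length = t'.1 :=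
      ⟨t, ht, τ, rfl, (hF' t ht τ hτ).1⟩
    have h4 : r (encode τ) = hex.choose.2.1 + 2 * e + b := by
      simp only [r]
      rw [dif_pos hex]
    obtain ⟨h5, τ', h6, h7⟩ := hex.choose_spec
    have h8 : τ = τ' := encode_injective h6
    have h9 : hex.choose = t := by
      apply hinj _ h5 _ ht
      rw [← h7, ← h8, (hF' t ht τ hτ).1]
    rw [h4, h9]
  have hkraft := S.kraft (T'.biUnion fun t => (F t).image encode) r (by
    intro x hx
    obtain ⟨t, ht, hx⟩ := Finset.mem_biUnion.1 hx
    obtain ⟨τ, hτ, rfl⟩ := Finset.mem_image.1 hx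
    have ht' := (hT'mem t ht).1
    obtain ⟨s', hs'⟩ := (hF' t ht' τ hτ).2.2
    exact ⟨s', by rw [hr t ht' τ hτ]; exact hs'⟩)
  rw [Finset.sum_biUnion] at hkraft
  · have h5 : ∀ t ∈ T', (NN b e : ℝ) * (2 : ℝ)⁻¹ ^ (t.2.1 + 2 * e + b) ≤
        ∑ x ∈ (F t).image encode, (2 : ℝ)⁻¹ ^ r x := by
      intro t ht
      obtain ⟨ht1, ht2⟩ := hT'mem t ht
      rw [Finset.sum_image (fun x _ y _ h => encode_injective h)]
      rw [Finset.sum_congr rfl fun τ hτ => by rw [hr t ht1 τ hτ]]
      rw [Finset.sum_const, nsmul_eq_mul]
      refine mul_le_mul_of_nonneg_right ?_ (by positivity)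
      have := hF t ht1
      rw [ht2] at this
      exact_mod_cast (by simpa using this)
    have h6 := (Finset.sum_le_sum h5).trans hkraft
    have h7 : ∑ t ∈ T', (NN b e : ℝ) * (2 : ℝ)⁻¹ ^ (t.2.1 + 2 * e + b) =
        (NN b e : ℝ) * (2 : ℝ)⁻¹ ^ (2 * e + b) * held T [] := by
      rw [hheld, Finset.mul_sum]
      refine Finset.sum_congr rfl fun t _ => ?_
      rw [show t.2.1 + 2 * e + b = (2 * e + b) + t.2.1 by ring, pow_add]
      ring
    rw [h7] at h6
    have h8 : (NN b e : ℝ) = 2 ^ (2 * e + b) * 2 + 1 := by
      simp [NN, pow_succ]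
    have h9 : (2 : ℝ) ^ (2 * e + b) * (2 : ℝ)⁻¹ ^ (2 * e + b) = 1 := by
      rw [← mul_pow]; norm_num
    have h10 : (0 : ℝ) < (2 : ℝ)⁻¹ ^ (2 * e + b) := by positivity
    have h11 : (NN b e : ℝ) * (2 : ℝ)⁻¹ ^ (2 * e + b) = 2 + (2 : ℝ)⁻¹ ^ (2 * e + b) := by
      rw [h8]
      linear_combination 2 * h9
    rw [h11] at h6
    have h12 : (2 + (2 : ℝ)⁻¹ ^ (2 * e + b)) * (2 : ℝ)⁻¹ ≤
        (2 + (2 : ℝ)⁻¹ ^ (2 * e + b)) * held T [] :=
      mul_le_mul_of_nonneg_left h1 (by positivity)
    linarith
  · intro t ht t' ht' hne
    rw [Function.onFun, Finset.disjoint_left]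
    intro x hx hx'
    obtain ⟨τ, hτ, rfl⟩ := Finset.mem_image.1 hx
    obtain ⟨τ', hτ', h⟩ := Finset.mem_image.1 hx'
    have h4 : τ' = τ := encode_injective h
    subst h4
    have g1 := (hT'mem t (by simpa using ht)).1
    have g2 := (hT'mem t' (by simpa using ht')).1
    exact hne (hinj _ g1 _ g2 (by rw [← (hF' t g1 _ hτ).1, (hF' t' g2 _ hτ').1]))

end OWR.Gold
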