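import Pool.Agent.H77.OW.Discipline

/-!
# The golden run: definition of the process   (Part IIb, step 1)

Instances are named by paths (head = youngest); the root is `[]`.  The level of π is `N - |π|`.
An entry `(some u, a)` is the request u served at clock value a; an entry `(none, a)` is never valid and marks a
pending token.
-/

namespace OWR.Gold

open Encodable

/-- a request (ρ, r, x) -/
abbrev Req := List Bool × ℕ × ℕ
abbrev Path := List (Option Req × ℕ)
/-- tokens (n, w, holder) -/
abbrev Tok := ℕ × ℕ × Path
/-- state: clock, alive instances with done-flag, tokens -/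
abbrev State := ℕ × List (Path × Bool) × List Tok

def NN (b e : ℕ) : ℕ := 2 ^ (2 * e + b + 1) + 1
def Q0 (b e : ℕ) : ℕ := 2 * e + b + 6

def rr (o : Option Req) : ℕ := (o.map fun u => u.2.1).getD 0

/-- quota exponent -/
def qq (q0 : ℕ) (π : Path) : ℕ := π.foldr (fun p s => s + rr p.1 + p.2 + 1) q0

/-- goal exponent -/
def gg (q0 : ℕ) : Path → ℕ
  | [] => 1
  | p :: π => qq q0 π + rr p.1

/-- an entry is valid for the string B -/
def okE (B : List Bool) (o : Option Req) : Bool :=
  match o with
  | none => false
  | some u => decide (B.take u.1.length = u.1)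

def valid (B : List Bool) (π : Path) : Bool := π.foldr (fun p s => okE B p.1 && s) true

/-- π' is a proper suffix of π (a proper ancestor) -/
def above (π' π : Path) : Bool :=
  decide (π'.length < π.length) && decide (π.drop (π.length - π'.length) = π')

/-- update of a token at an active stage -/
def upTok (B : List Bool) (t : Tok) : Option Tok :=
  if valid B t.2.2 then some t
  else if valid B t.2.2.tail then some (t.1, t.2.1, t.2.2.tail) else none

/-- the weight held by π, scaled by 2^M -/
def wt (M : ℕ) (T : List Tok) (π : Path) : ℕ :=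
  (T.map fun t => if t.2.2 = π then 2 ^ (M - t.2.1) else 0).sum

/-- π has reached its goal -/
def reached (q0 : ℕ) (T : List Tok) (π : Path) : Bool :=
  decide (2 ^ ((T.map fun t => t.2.1).sum) ≤ wt ((T.map fun t => t.2.1).sum + gg q0 π) T π)

/-- instances after steps 1 and 2 -/
def insts1 (B : List Bool) (I : List (Path × Bool)) : List (Path × Bool) :=
  I.filter fun p => valid B p.1

def toks1 (B : List Bool) (T : List Tok) : List Tok := T.filterMap (upTok B)

def insts2 (q0 : ℕ) (T : List Tok) (I : List (Path × Bool)) : List (Path × Bool) :=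
  I.map fun p => (p.1, p.2 || reached q0 T p.1)

/-- π is strictly below a done instance -/
def dead (I : List (Path × Bool)) (π : Path) : Bool :=
  I.any fun p => p.2 && above p.1 π

def insts3 (I : List (Path × Bool)) : List (Path × Bool) := I.filter fun p => !dead I p.1

def toks3 (I : List (Path × Bool)) (T : List Tok) : List Tok := T.filter fun t => !dead I t.2.2

/-- there is an alive child of π with request u -/
def hasChild (I : List (Path × Bool)) (π : Path) (u : Req) : Bool :=
  I.any fun p => decide (p.1.tail = π) && decide (p.1.head?.map Prod.fst = some (some u))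

/-- step 3 : creation -/
def create (U : Req → Bool) (N q0 : ℕ) (B : List Bool) (a : ℕ) (I : List (Path × Bool))
    (T : List Tok) : List (Path × Bool) × List Tok :=
  match (decode (α := Path × Req) a.unpair.1) with
  | none => (I, T)
  | some (π, u) =>
    if (π, false) ∈ I then
      if π.length + 1 = N then (I, (a, qq q0 π, (none, a) :: π) :: T)
      else if π.length + 1 < N ∧ U u = true ∧ okE B (some u) = true ∧ u.1.length ≤ a ∧
          hasChild I π u = false then
        (((some u, a) :: π, false) :: I, T)
      else (I, T)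
    else (I, T)

variable (le : ℕ → ℕ → ℕ → Bool) (As : ℕ → List Bool) (U : Req → Bool) (b : ℕ)

/-- stage s is active -/
def active (e s : ℕ) (st : State) : Bool :=
  decide (st.1 ≤ (As s).length) && st.2.2.all fun t => le s t.1 (t.2.1 + 2 * e)

/-- the state after the update at an active stage with string B -/
def upd (e : ℕ) (B : List Bool) (st : State) : State :=
  let I2 := insts2 (Q0 b e) (toks1 B st.2.2) (insts1 B st.2.1)
  let c := create U (NN b e) (Q0 b e) B st.1 (insts3 I2) (toks3 I2 (toks1 B st.2.2))
  (st.1 + 1, c.1, c.2)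

def step (e s : ℕ) (st : State) : State :=
  if active le As e s st then upd U b e (As s) st else st

/-- the state before stage s -/
def state (e : ℕ) : ℕ → State
  | 0 => (0, [([], false)], [])
  | s + 1 => step le As U b e s (state e s)

/-! ### Primitive recursiveness -/

section prim

open Primrec

variable {α β γ : Type*} [Primcodable α] [Primcodable β] [Primcodable γ]

theorem pp_isTrue {f : α → Bool} (hf : Primrec f) : PrimrecPred fun a => f a = true :=
  ⟨inferInstance, hf.of_eq fun a => by simp⟩

theorem pp_and {p q : α → Prop} (hp : PrimrecPred p) (hq : PrimrecPred q) :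
    PrimrecPred fun a => p a ∧ q a := hp.and hq

theorem pp_eq {f g : α → β} (hf : Primrec f) (hg : Primrec g) : PrimrecPred fun a => f a = g a := by
  classical
  exact Primrec.eq.comp hf hg

theorem pp_le {f g : α → ℕ} (hf : Primrec f) (hg : Primrec g) : PrimrecPred fun a => f a ≤ g a :=
  Primrec.nat_le.comp hf hg

theorem pp_lt {f g : α → ℕ} (hf : Primrec f) (hg : Primrec g) : PrimrecPred fun a => f a < g a :=
  Primrec.nat_lt.comp hf hg

theorem pp_dec {p : α → Prop} {inst : DecidablePred p} (hp : PrimrecPred p) :
    Primrec fun a => decide (p a) := hp.decide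

theorem p_ite {c : α → Prop} {inst : DecidablePred c} {f g : α → β} (hc : PrimrecPred c)
    (hf : Primrec f) (hg : Primrec g) : Primrec fun a => if c a then f a else g a :=
  Primrec.ite hc hf hg

theorem p_add {f g : α → ℕ} (hf : Primrec f) (hg : Primrec g) : Primrec fun a => f a + g a :=
  Primrec.nat_add.comp hf hg

theorem p_sub {f g : α → ℕ} (hf : Primrec f) (hg : Primrec g) : Primrec fun a => f a - g a :=
  Primrec.nat_sub.comp hf hg

theorem p_and {f g : α → Bool} (hf : Primrec f) (hg : Primrec g) :
    Primrec fun a => (f a && g a) := Primrec.and.comp hf hg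

theorem p_or {f g : α → Bool} (hf : Primrec f) (hg : Primrec g) :
    Primrec fun a => (f a || g a) := Primrec.or.comp hf hg

theorem p_pow2 {f : α → ℕ} (hf : Primrec f) : Primrec fun a => 2 ^ f a := by
  have h : Primrec fun n : ℕ => 2 ^ n := by
    refine (Primrec.nat_rec₁ 1 (f := fun _ r => r + r) ?_).of_eq ?_
    · exact p_add Primrec.snd Primrec.snd
    · intro n
      induction n with
      | zero => rfl
      | succ n ih =>
        show _ + _ = _
        rw [ih, pow_succ]
        omega
  exact h.comp hf

theorem p_sum {f : α → List ℕ} (hf : Primrec f) : Primrec fun a => (f a).sum := by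
  refine (Primrec.list_foldr hf (Primrec.const 0) (h := fun _ p => p.1 + p.2) ?_).of_eq ?_
  · exact p_add (Primrec.fst.comp Primrec.snd) (Primrec.snd.comp Primrec.snd)
  · intro a
    rfl

theorem p_filter {f : α → List β} {g : α → β → Bool} (hf : Primrec f) (hg : Primrec₂ g) :
    Primrec fun a => (f a).filter (g a) := by
  have h : Primrec₂ fun (a : α) (b : β) => if g a b = true then some b else none :=
    p_ite (pp_isTrue hg) (Primrec.option_some.comp Primrec.snd) (Primrec.const none)
  refine (Primrec.listFilterMap hf h).of_eq fun a => ?_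
  induction f a with
  | nil => rfl
  | cons b l ih =>
    rw [List.filterMap_cons, List.filter_cons]
    by_cases hb : g a b = true
    · simp only [hb, if_true]
      rw [ih]
    · simp only [hb, Bool.false_eq_true, if_false]
      rw [ih]

theorem p_any {f : α → List β} {g : α → β → Bool} (hf : Primrec f) (hg : Primrec₂ g) :
    Primrec fun a => (f a).any (g a) := by
  refine (Primrec.list_foldr hf (Primrec.const false) (h := fun a p => (g a p.1 || p.2)) ?_).of_eq ?_
  · exact p_or (hg.comp Primrec.fst (Primrec.fst.comp Primrec.snd)) (Primrec.snd.comp Primrec.snd)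
  · intro a
    induction f a with
    | nil => rfl
    | cons b l ih =>
      rw [List.foldr_cons, ih, List.any_cons]

theorem p_all {f : α → List β} {g : α → β → Bool} (hf : Primrec f) (hg : Primrec₂ g) :
    Primrec fun a => (f a).all (g a) := by
  refine (Primrec.list_foldr hf (Primrec.const true) (h := fun a p => (g a p.1 && p.2)) ?_).of_eq ?_
  · exact p_and (hg.comp Primrec.fst (Primrec.fst.comp Primrec.snd)) (Primrec.snd.comp Primrec.snd)
  · intro a
    induction f a with
    | nil => rfl
    | cons b l ih =>
      rw [List.foldr_cons, ih, List.all_cons]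

theorem pp_mem {f : α → List β} {g : α → β} (hf : Primrec f) (hg : Primrec g) :
    PrimrecPred fun a => g a ∈ f a := by
  classical
  have h := (Primrec.eq (α := β)).exists_mem_list.comp hf hg
  refine h.of_eq fun a => ?_
  constructor
  · rintro ⟨b, hb, rfl⟩
    exact hb
  · intro hb
    exact ⟨_, hb, rfl⟩

theorem p_rr {f : α → Option Req} (hf : Primrec f) : Primrec fun a => rr (f a) := by
  have h : Primrec₂ fun (_ : α) (u : Req) => u.2.1 :=
    Primrec.fst.comp (Primrec.snd.comp Primrec.snd)
  exact Primrec.option_getD.comp (Primrec.option_map hf h) (Primrec.const 0)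

theorem p_qq {f : α → ℕ} {g : α → Path} (hf : Primrec f) (hg : Primrec g) :
    Primrec fun a => qq (f a) (g a) := by
  have h : Primrec₂ fun (_ : α) (p : (Option Req × ℕ) × ℕ) => p.2 + rr p.1.1 + p.1.2 + 1 :=
    p_add (p_add (p_add (Primrec.snd.comp Primrec.snd)
      (p_rr (Primrec.fst.comp (Primrec.fst.comp Primrec.snd))))
      (Primrec.snd.comp (Primrec.fst.comp Primrec.snd))) (Primrec.const 1)
  exact Primrec.list_foldr hg hf h

theorem p_gg {f : α → ℕ} {g : α → Path} (hf : Primrec f) (hg : Primrec g) :
    Primrec fun a => gg (f a) (g a) := by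
  have h : Primrec₂ fun (a : α) (p : (Option Req × ℕ) × Path) => qq (f a) p.2 + rr p.1.1 :=
    p_add (p_qq (hf.comp Primrec.fst) (Primrec.snd.comp Primrec.snd))
      (p_rr (Primrec.fst.comp (Primrec.fst.comp Primrec.snd)))
  refine (Primrec.list_casesOn hg (Primrec.const 1) h).of_eq fun a => ?_
  cases g a <;> rfl

theorem p_okE {f : α → List Bool} {g : α → Option Req} (hf : Primrec f) (hg : Primrec g) :
    Primrec fun a => okE (f a) (g a) := by
  have h : Primrec₂ fun (a : α) (u : Req) => decide ((f a).take u.1.length = u.1) :=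
    pp_dec (pp_eq (Primrec.list_take.comp (Primrec.list_length.comp (Primrec.fst.comp Primrec.snd))
      (hf.comp Primrec.fst)) (Primrec.fst.comp Primrec.snd))
  refine (Primrec.option_casesOn hg (Primrec.const false) h).of_eq fun a => ?_
  cases g a <;> rfl

theorem p_valid {f : α → List Bool} {g : α → Path} (hf : Primrec f) (hg : Primrec g) :
    Primrec fun a => valid (f a) (g a) := by
  have h : Primrec₂ fun (a : α) (p : (Option Req × ℕ) × Bool) => (okE (f a) p.1.1 && p.2) :=
    p_and (p_okE (hf.comp Primrec.fst) (Primrec.fst.comp (Primrec.fst.comp Primrec.snd)))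
      (Primrec.snd.comp Primrec.snd)
  exact Primrec.list_foldr hg (Primrec.const true) h

theorem p_above {f g : α → Path} (hf : Primrec f) (hg : Primrec g) :
    Primrec fun a => above (f a) (g a) :=
  p_and (pp_dec (pp_lt (Primrec.list_length.comp hf) (Primrec.list_length.comp hg)))
    (pp_dec (pp_eq (Primrec.list_drop.comp (p_sub (Primrec.list_length.comp hg)
      (Primrec.list_length.comp hf)) hg) hf))

theorem p_upTok {f : α → List Bool} {g : α → Tok} (hf : Primrec f) (hg : Primrec g) :
    Primrec fun a => upTok (f a) (g a) := by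
  unfold upTok
  refine p_ite (pp_isTrue (p_valid hf (Primrec.snd.comp (Primrec.snd.comp hg))))
    (Primrec.option_some.comp hg) (p_ite (pp_isTrue (p_valid hf (Primrec.list_tail.comp
      (Primrec.snd.comp (Primrec.snd.comp hg))))) ?_ (Primrec.const none))
  exact Primrec.option_some.comp ((Primrec.fst.comp hg).pair
    ((Primrec.fst.comp (Primrec.snd.comp hg)).pair (Primrec.list_tail.comp
      (Primrec.snd.comp (Primrec.snd.comp hg)))))

theorem p_wt {f : α → ℕ} {g : α → List Tok} {h : α → Path} (hf : Primrec f) (hg : Primrec g)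
    (hh : Primrec h) : Primrec fun a => wt (f a) (g a) (h a) := by
  have k : Primrec₂ fun (a : α) (t : Tok) => if t.2.2 = h a then 2 ^ (f a - t.2.1) else 0 :=
    p_ite (pp_eq (Primrec.snd.comp (Primrec.snd.comp Primrec.snd)) (hh.comp Primrec.fst))
      (p_pow2 (p_sub (hf.comp Primrec.fst) (Primrec.fst.comp (Primrec.snd.comp Primrec.snd))))
      (Primrec.const 0)
  exact p_sum (Primrec.list_map hg k)

theorem p_tsum {g : α → List Tok} (hg : Primrec g) :
    Primrec fun a => ((g a).map fun t => t.2.1).sum := by
  have k : Primrec₂ fun (_ : α) (t : Tok) => t.2.1 :=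
    Primrec.fst.comp (Primrec.snd.comp Primrec.snd)
  exact p_sum (Primrec.list_map hg k)

theorem p_reached {f : α → ℕ} {g : α → List Tok} {h : α → Path} (hf : Primrec f) (hg : Primrec g)
    (hh : Primrec h) : Primrec fun a => reached (f a) (g a) (h a) :=
  pp_dec (pp_le (p_pow2 (p_tsum hg)) (p_wt (p_add (p_tsum hg) (p_gg hf hh)) hg hh))

theorem p_insts1 {f : α → List Bool} {g : α → List (Path × Bool)} (hf : Primrec f)
    (hg : Primrec g) : Primrec fun a => insts1 (f a) (g a) := by
  have k : Primrec₂ fun (a : α) (p : Path × Bool) => valid (f a) p.1 :=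
    p_valid (hf.comp Primrec.fst) (Primrec.fst.comp Primrec.snd)
  exact p_filter hg k

theorem p_toks1 {f : α → List Bool} {g : α → List Tok} (hf : Primrec f)
    (hg : Primrec g) : Primrec fun a => toks1 (f a) (g a) := by
  have k : Primrec₂ fun (a : α) (t : Tok) => upTok (f a) t :=
    p_upTok (hf.comp Primrec.fst) Primrec.snd
  exact Primrec.listFilterMap hg k

theorem p_insts2 {f : α → ℕ} {g : α → List Tok} {h : α → List (Path × Bool)} (hf : Primrec f)
    (hg : Primrec g) (hh : Primrec h) : Primrec fun a => insts2 (f a) (g a) (h a) := by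
  have k : Primrec₂ fun (a : α) (p : Path × Bool) => (p.1, p.2 || reached (f a) (g a) p.1) :=
    Primrec.pair (Primrec.fst.comp Primrec.snd) (p_or (Primrec.snd.comp Primrec.snd)
      (p_reached (hf.comp Primrec.fst) (hg.comp Primrec.fst) (Primrec.fst.comp Primrec.snd)))
  exact Primrec.list_map hh k

theorem p_dead {f : α → List (Path × Bool)} {g : α → Path} (hf : Primrec f) (hg : Primrec g) :
    Primrec fun a => dead (f a) (g a) := by
  have k : Primrec₂ fun (a : α) (p : Path × Bool) => (p.2 && above p.1 (g a)) :=
    p_and (Primrec.snd.comp Primrec.snd) (p_above (Primrec.fst.comp Primrec.snd)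
      (hg.comp Primrec.fst))
  exact p_any hf k

theorem p_not {f : α → Bool} (hf : Primrec f) : Primrec fun a => !f a := Primrec.not.comp hf

theorem p_insts3 {f : α → List (Path × Bool)} (hf : Primrec f) :
    Primrec fun a => insts3 (f a) := by
  have k : Primrec₂ fun (a : α) (p : Path × Bool) => !dead (f a) p.1 :=
    p_not (p_dead (hf.comp Primrec.fst) (Primrec.fst.comp Primrec.snd))
  exact p_filter hf k

theorem p_toks3 {f : α → List (Path × Bool)} {g : α → List Tok} (hf : Primrec f)
    (hg : Primrec g) : Primrec fun a => toks3 (f a) (g a) := by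
  have k : Primrec₂ fun (a : α) (t : Tok) => !dead (f a) t.2.2 :=
    p_not (p_dead (hf.comp Primrec.fst) (Primrec.snd.comp (Primrec.snd.comp Primrec.snd)))
  exact p_filter hg k

theorem p_hasChild {f : α → List (Path × Bool)} {g : α → Path} {h : α → Req} (hf : Primrec f)
    (hg : Primrec g) (hh : Primrec h) : Primrec fun a => hasChild (f a) (g a) (h a) := by
  have k1 : Primrec₂ fun (_ : α × (Path × Bool)) (q : Option Req × ℕ) => q.1 :=
    Primrec.fst.comp Primrec.snd
  have k : Primrec₂ fun (a : α) (p : Path × Bool) =>
      (decide (p.1.tail = g a) && decide (p.1.head?.map Prod.fst = some (some (h a)))) :=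
    p_and (pp_dec (pp_eq (Primrec.list_tail.comp (Primrec.fst.comp Primrec.snd))
      (hg.comp Primrec.fst))) (pp_dec (pp_eq (Primrec.option_map (Primrec.list_head?.comp
        (Primrec.fst.comp Primrec.snd)) k1) (Primrec.option_some.comp (Primrec.option_some.comp
          (hh.comp Primrec.fst)))))
  exact p_any hf k

theorem p_create {U : Req → Bool} (hU : Primrec U) {N q0 : α → ℕ} {B : α → List Bool} {c : α → ℕ}
    {I : α → List (Path × Bool)} {T : α → List Tok} (hN : Primrec N) (hq : Primrec q0)
    (hB : Primrec B) (hc : Primrec c) (hI : Primrec I) (hT : Primrec T) :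
    Primrec fun a => create U (N a) (q0 a) (B a) (c a) (I a) (T a) := by
  have hd : Primrec fun a => decode (α := Path × Req) (c a).unpair.1 :=
    Primrec.decode.comp (Primrec.fst.comp (Primrec.unpair.comp hc))
  have hN' : Primrec fun x : α × (Path × Req) => N x.1 := hN.comp Primrec.fst
  have hq' : Primrec fun x : α × (Path × Req) => q0 x.1 := hq.comp Primrec.fst
  have hB' : Primrec fun x : α × (Path × Req) => B x.1 := hB.comp Primrec.fst
  have hc' : Primrec fun x : α × (Path × Req) => c x.1 := hc.comp Primrec.fst
  have hI' : Primrec fun x : α × (Path × Req) => I x.1 := hI.comp Primrec.fst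
  have hT' : Primrec fun x : α × (Path × Req) => T x.1 := hT.comp Primrec.fst
  have hπ : Primrec fun x : α × (Path × Req) => x.2.1 := Primrec.fst.comp Primrec.snd
  have hu : Primrec fun x : α × (Path × Req) => x.2.2 := Primrec.snd.comp Primrec.snd
  have hlen : Primrec fun x : α × (Path × Req) => x.2.1.length := Primrec.list_length.comp hπ
  have hIT : Primrec fun x : α × (Path × Req) => (I x.1, T x.1) := hI'.pair hT'
  have k : Primrec₂ fun (a : α) (x : Path × Req) =>
      if (x.1, false) ∈ I a then
        if x.1.length + 1 = N a then (I a, (c a, qq (q0 a) x.1, (none, c a) :: x.1) :: T a)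
        else if x.1.length + 1 < N a ∧ U x.2 = true ∧ okE (B a) (some x.2) = true ∧
            x.2.1.length ≤ c a ∧ hasChild (I a) x.1 x.2 = false then
          (((some x.2, c a) :: x.1, false) :: I a, T a)
        else (I a, T a)
      else (I a, T a) := by
    refine p_ite (pp_mem hI' (hπ.pair (Primrec.const false))) ?_ hIT
    refine p_ite (pp_eq (p_add hlen (Primrec.const 1)) hN') ?_ ?_
    · exact hI'.pair (Primrec.list_cons.comp (hc'.pair ((p_qq hq' hπ).pair
        (Primrec.list_cons.comp ((Primrec.const none).pair hc') hπ))) hT')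
    · refine p_ite ?_ ?_ hIT
      · refine pp_and (pp_lt (p_add hlen (Primrec.const 1)) hN') (pp_and (pp_isTrue (hU.comp hu))
          (pp_and (pp_isTrue (p_okE hB' (Primrec.option_some.comp hu))) (pp_and
            (pp_le (Primrec.list_length.comp (Primrec.fst.comp hu)) hc')
            (pp_eq (p_hasChild hI' hπ hu) (Primrec.const false)))))
      · exact (Primrec.list_cons.comp ((Primrec.list_cons.comp
          ((Primrec.option_some.comp hu).pair hc') hπ).pair (Primrec.const false)) hI').pair hT'
  refine (Primrec.option_casesOn hd (hI.pair hT) k).of_eq fun a => ?_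
  unfold create
  cases decode (α := Path × Req) (c a).unpair.1 with
  | none => rfl
  | some x => rfl

theorem p_active {le : ℕ → ℕ → ℕ → Bool} {As : ℕ → List Bool}
    (hle : Primrec (fun p : ℕ × ℕ × ℕ => le p.1 p.2.1 p.2.2)) (hAs : Primrec As)
    {e s : α → ℕ} {st : α → State} (he : Primrec e) (hs : Primrec s) (hst : Primrec st) :
    Primrec fun a => active le As (e a) (s a) (st a) := by
  have k : Primrec₂ fun (a : α) (t : Tok) => le (s a) t.1 (t.2.1 + 2 * e a) := by
    have h1 : Primrec fun x : α × Tok => (s x.1, x.2.1, x.2.2.1 + 2 * e x.1) :=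
      (hs.comp Primrec.fst).pair ((Primrec.fst.comp Primrec.snd).pair
        (p_add (Primrec.fst.comp (Primrec.snd.comp Primrec.snd))
          (Primrec.nat_mul.comp (Primrec.const 2) (he.comp Primrec.fst))))
    exact hle.comp h1
  exact p_and (pp_dec (pp_le (Primrec.fst.comp hst) (Primrec.list_length.comp (hAs.comp hs))))
    (p_all (Primrec.snd.comp (Primrec.snd.comp hst)) k)

theorem p_upd {U : Req → Bool} (hU : Primrec U) (b : ℕ)
    {e : α → ℕ} {B : α → List Bool} {st : α → State} (he : Primrec e) (hB : Primrec B)
    (hst : Primrec st) : Primrec fun a => upd U b (e a) (B a) (st a) := by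
  have hQ : Primrec fun a => Q0 b (e a) :=
    p_add (p_add (Primrec.nat_mul.comp (Primrec.const 2) he) (Primrec.const b)) (Primrec.const 6)
  have hN : Primrec fun a => NN b (e a) :=
    p_add (p_pow2 (p_add (p_add (Primrec.nat_mul.comp (Primrec.const 2) he) (Primrec.const b))
      (Primrec.const 1))) (Primrec.const 1)
  have hT1 : Primrec fun a => toks1 (B a) (st a).2.2 :=
    p_toks1 hB (Primrec.snd.comp (Primrec.snd.comp hst))
  have hI1 : Primrec fun a => insts1 (B a) (st a).2.1 :=
    p_insts1 hB (Primrec.fst.comp (Primrec.snd.comp hst))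
  have hI2 := p_insts2 hQ hT1 hI1
  have hcr := p_create hU hN hQ hB (Primrec.fst.comp hst) (p_insts3 hI2) (p_toks3 hI2 hT1)
  exact (p_add (Primrec.fst.comp hst) (Primrec.const 1)).pair
    ((Primrec.fst.comp hcr).pair (Primrec.snd.comp hcr))

theorem p_step {le : ℕ → ℕ → ℕ → Bool} {As : ℕ → List Bool} {U : Req → Bool}
    (hle : Primrec (fun p : ℕ × ℕ × ℕ => le p.1 p.2.1 p.2.2)) (hAs : Primrec As)
    (hU : Primrec U) (b : ℕ)
    {e s : α → ℕ} {st : α → State} (he : Primrec e) (hs : Primrec s) (hst : Primrec st) :
    Primrec fun a => step le As U b (e a) (s a) (st a) := by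
  unfold step
  exact p_ite (pp_isTrue (p_active hle hAs he hs hst)) (p_upd hU b he (hAs.comp hs) hst) hst

end prim

/-- the process is primitive recursive, uniformly in e -/
theorem state_prim {le : ℕ → ℕ → ℕ → Bool} {As : ℕ → List Bool} {U : Req → Bool}
    (hle : Primrec (fun p : ℕ × ℕ × ℕ => le p.1 p.2.1 p.2.2)) (hAs : Primrec As)
    (hU : Primrec U) (b : ℕ) : Primrec₂ (state le As U b) := by
  have h : Primrec₂ fun (e : ℕ) (p : ℕ × State) => step le As U b e p.1 p.2 :=
    p_step hle hAs hU b Primrec.fst (Primrec.fst.comp Primrec.snd) (Primrec.snd.comp Primrec.snd)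
  refine (Primrec.nat_rec (f := fun _ : ℕ => ((0, [([], false)], []) : State))
    (Primrec.const _) h).of_eq fun e s => ?_
  induction s with
  | zero => rfl
  | succ s ih =>
    show step le As U b e s _ = step le As U b e s _
    rw [ih]

end OWR.Gold
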