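import Pool.Agent.H77.OW.GoldDefs

/-!
# Task GoldInv : structural invariants of the golden-run process   (about 250-350 lines)

`Inv U b e B st` is preserved by `upd` (with the new string), hence holds for all states with some string B (`inv_state`).
-/

namespace OWR.Gold

open Encodable

structure Inv (U : Req → Bool) (b e : ℕ) (B : List Bool) (st : State) : Prop where
  root : ∃ d, ([], d) ∈ st.2.1
  nodup : (st.2.1.map Prod.fst).Nodup
  val : ∀ p ∈ st.2.1, valid B p.1 = true
  parent : ∀ p ∈ st.2.1, p.1 ≠ [] → (p.1.tail, false) ∈ st.2.1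
  birth : ∀ p ∈ st.2.1, ∀ x ∈ p.1, x.2 < st.1
  reqs : ∀ p ∈ st.2.1, ∀ x ∈ p.1, ∃ u, x.1 = some u ∧ U u = true ∧ u.1.length ≤ x.2
  child : ∀ p ∈ st.2.1, ∀ p' ∈ st.2.1, p.1 ≠ [] → p'.1 ≠ [] → p.1.tail = p'.1.tail →
    p.1.head?.map Prod.fst = p'.1.head?.map Prod.fst → p.1 = p'.1
  len : ∀ p ∈ st.2.1, p.1.length < NN b e
  tnodup : (st.2.2.map Prod.fst).Nodup
  tclock : ∀ t ∈ st.2.2, t.1 < st.1
  thold : ∀ t ∈ st.2.2, (∃ d, (t.2.2, d) ∈ st.2.1) ∨
    (t.2.2.head? = some (none, t.1) ∧ (t.2.2.tail, false) ∈ st.2.1 ∧ t.2.2.length = NN b e ∧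
      t.2.1 = qq (Q0 b e) t.2.2.tail)
  treq : ∀ t ∈ st.2.2, ∀ x ∈ t.2.2, ∀ u, x.1 = some u → u.1.length ≤ t.1
  pend : ∀ t ∈ st.2.2, t.2.2.head?.map Prod.fst = some none → t.1 + 1 = st.1

theorem valid_nil (B : List Bool) : valid B [] = true := rfl

theorem valid_cons (B : List Bool) (x : Option Req × ℕ) (π : Path) :
    valid B (x :: π) = (okE B x.1 && valid B π) := rfl

theorem valid_tail {B : List Bool} {π : Path} (h : valid B π = true) :
    valid B π.tail = true := by
  cases π with
  | nil => exact h
  | cons x π =>
    rw [valid_cons, Bool.and_eq_true] at h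
    exact h.2

theorem head_of_valid {B : List Bool} {π : Path} (h : valid B π = true) :
    π.head?.map Prod.fst ≠ some none := by
  cases π with
  | nil => simp
  | cons x π =>
    rw [valid_cons, Bool.and_eq_true] at h
    intro hx
    simp only [List.head?_cons, Option.map_some, Option.some.injEq] at hx
    rw [hx] at h
    exact absurd h.1 (by simp [okE])

theorem above_iff {π' π : Path} :
    above π' π = true ↔ π'.length < π.length ∧ π.drop (π.length - π'.length) = π' := by
  simp [above]

theorem above_tail {π : Path} (h : π ≠ []) : above π.tail π = true := by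
  cases π with
  | nil => exact absurd rfl h
  | cons x π =>
    rw [above_iff]
    simp

theorem above_of_tail {q π : Path} (h : above q π.tail = true) : above q π = true := by
  cases π with
  | nil => exact h
  | cons x π =>
    rw [above_iff] at h ⊢
    simp only [List.tail_cons] at h
    refine ⟨?_, ?_⟩
    · simp only [List.length_cons]; omega
    · have h1 : (x :: π).length - q.length = (π.length - q.length) + 1 := by
        simp only [List.length_cons]; omega
      rw [h1, List.drop_succ_cons]
      exact h.2

theorem dead_iff {I : List (Path × Bool)} {π : Path} :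
    dead I π = true ↔ ∃ p ∈ I, p.2 = true ∧ above p.1 π = true := by
  simp [dead, List.any_eq_true]

theorem dead_false_iff {I : List (Path × Bool)} {π : Path} :
    dead I π = false ↔ ¬ dead I π = true := by
  simp

theorem dead_nil (I : List (Path × Bool)) : ¬ dead I [] = true := by
  rw [dead_iff]
  rintro ⟨p, -, -, h⟩
  rw [above_iff] at h
  simp at h

theorem dead_of_tail {I : List (Path × Bool)} {π : Path} (h : dead I π.tail = true) :
    dead I π = true := by
  rw [dead_iff] at h ⊢
  obtain ⟨p, hp, h1, h2⟩ := h
  exact ⟨p, hp, h1, above_of_tail h2⟩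

theorem mem_insts1 {B : List Bool} {I : List (Path × Bool)} {p : Path × Bool} :
    p ∈ insts1 B I ↔ p ∈ I ∧ valid B p.1 = true := by
  simp [insts1]

theorem mem_insts2 {q0 : ℕ} {T : List Tok} {I : List (Path × Bool)} {π : Path} {d : Bool} :
    (π, d) ∈ insts2 q0 T I ↔ ∃ d', (π, d') ∈ I ∧ d = (d' || reached q0 T π) := by
  unfold insts2
  rw [List.mem_map]
  constructor
  · rintro ⟨⟨π', d'⟩, hp, he⟩
    simp only [Prod.mk.injEq] at he
    obtain ⟨h1, h2⟩ := he
    subst h1
    exact ⟨d', hp, h2.symm⟩
  · rintro ⟨d', hp, he⟩
    exact ⟨(π, d'), hp, by rw [he]⟩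

theorem insts2_fst {q0 : ℕ} {T : List Tok} {I : List (Path × Bool)} :
    (insts2 q0 T I).map Prod.fst = I.map Prod.fst := by
  simp [insts2]

theorem mem_insts3 {I : List (Path × Bool)} {p : Path × Bool} :
    p ∈ insts3 I ↔ p ∈ I ∧ ¬ dead I p.1 = true := by
  simp [insts3]

theorem mem_toks3 {I : List (Path × Bool)} {T : List Tok} {t : Tok} :
    t ∈ toks3 I T ↔ t ∈ T ∧ ¬ dead I t.2.2 = true := by
  simp [toks3]

theorem mem_toks1 {B : List Bool} {T : List Tok} {t : Tok} :
    t ∈ toks1 B T ↔ ∃ t0 ∈ T, upTok B t0 = some t := by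
  simp [toks1, List.mem_filterMap]

/-- what `upTok` does -/
theorem upTok_some {B : List Bool} {t0 t : Tok} (h : upTok B t0 = some t) :
    t.1 = t0.1 ∧ t.2.1 = t0.2.1 ∧ valid B t.2.2 = true ∧
      ((valid B t0.2.2 = true ∧ t.2.2 = t0.2.2) ∨
        (¬ valid B t0.2.2 = true ∧ t.2.2 = t0.2.2.tail)) := by
  unfold upTok at h
  split_ifs at h with h1 h2
  · simp only [Option.some.injEq] at h
    subst h
    exact ⟨rfl, rfl, h1, Or.inl ⟨h1, rfl⟩⟩
  · simp only [Option.some.injEq] at h
    subst h
    exact ⟨rfl, rfl, h2, Or.inr ⟨h1, rfl⟩⟩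

theorem toks1_fst_sublist (B : List Bool) (T : List Tok) :
    List.Sublist ((toks1 B T).map Prod.fst) (T.map Prod.fst) := by
  unfold toks1
  induction T with
  | nil => simp
  | cons t T ih =>
    rcases h : upTok B t with _ | t'
    · rw [List.filterMap_cons_none h, List.map_cons]
      exact ih.cons _
    · rw [List.filterMap_cons_some h, List.map_cons, List.map_cons, (upTok_some h).1]
      exact ih.cons_cons _

/-- The three possible results of `create`. -/
theorem create_cases (U : Req → Bool) (N q0 : ℕ) (B : List Bool) (a : ℕ)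
    (I : List (Path × Bool)) (T : List Tok) :
    create U N q0 B a I T = (I, T) ∨
    (∃ π : Path, (π, false) ∈ I ∧ π.length + 1 = N ∧
      create U N q0 B a I T = (I, (a, qq q0 π, (none, a) :: π) :: T)) ∨
    (∃ (π : Path) (u : Req), (π, false) ∈ I ∧ π.length + 1 < N ∧ U u = true ∧
      okE B (some u) = true ∧ u.1.length ≤ a ∧ hasChild I π u = false ∧
      create U N q0 B a I T = (((some u, a) :: π, false) :: I, T)) := by
  unfold create
  rcases hd : (decode (α := Path × Req) a.unpair.1) with _ | ⟨π, u⟩
  · exact Or.inl rfl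
  · by_cases h1 : (π, false) ∈ I
    · simp only [if_pos h1]
      by_cases h2 : π.length + 1 = N
      · simp only [if_pos h2]
        exact Or.inr (Or.inl ⟨π, h1, h2, rfl⟩)
      · simp only [if_neg h2]
        by_cases h3 : π.length + 1 < N ∧ U u = true ∧ okE B (some u) = true ∧
            u.1.length ≤ a ∧ hasChild I π u = false
        · simp only [if_pos h3]
          exact Or.inr (Or.inr ⟨π, u, h1, h3.1, h3.2.1, h3.2.2.1, h3.2.2.2.1, h3.2.2.2.2, rfl⟩)
        · simp only [if_neg h3]
          exact Or.inl trivial
    · simp only [if_neg h1]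
      exact Or.inl trivial

/-- `create` preserves the invariant if the clock is increased -/
theorem inv_create {U : Req → Bool} {b e : ℕ} {B : List Bool} {a : ℕ} {I : List (Path × Bool)}
    {T : List Tok} (h : Inv U b e B (a, I, T))
    (hp : ∀ t ∈ T, t.2.2.head?.map Prod.fst ≠ some none) :
    Inv U b e B (a + 1, (create U (NN b e) (Q0 b e) B a I T).1,
      (create U (NN b e) (Q0 b e) B a I T).2) := by
  rcases create_cases U (NN b e) (Q0 b e) B a I T with hc | ⟨π, hπ, hl, hc⟩ |
      ⟨π, u, hπ, hl, hU, hok, hlen, hch, hc⟩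
  · rw [hc]
    exact
      { root := h.root
        nodup := h.nodup
        val := h.val
        parent := h.parent
        birth := fun p hp x hx => Nat.lt_succ_of_lt (h.birth p hp x hx)
        reqs := h.reqs
        child := h.child
        len := h.len
        tnodup := h.tnodup
        tclock := fun t ht => Nat.lt_succ_of_lt (h.tclock t ht)
        thold := h.thold
        treq := h.treq
        pend := fun t ht hh => absurd hh (hp t ht) }
  · rw [hc]
    refine
      { root := h.root
        nodup := h.nodup
        val := h.val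
        parent := h.parent
        birth := fun p hp x hx => Nat.lt_succ_of_lt (h.birth p hp x hx)
        reqs := h.reqs
        child := h.child
        len := h.len
        tnodup := ?_
        tclock := ?_
        thold := ?_
        treq := ?_
        pend := ?_ }
    · simp only [List.map_cons, List.nodup_cons]
      refine ⟨?_, h.tnodup⟩
      intro hm
      rw [List.mem_map] at hm
      obtain ⟨t, ht, hta⟩ := hm
      have := h.tclock t ht
      simp only at this hta
      omega
    · intro t ht
      simp only [List.mem_cons] at ht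
      rcases ht with rfl | ht
      · exact Nat.lt_succ_self a
      · exact Nat.lt_succ_of_lt (h.tclock t ht)
    · intro t ht
      simp only [List.mem_cons] at ht
      rcases ht with rfl | ht
      · right
        exact ⟨rfl, hπ, by simpa using hl, rfl⟩
      · exact h.thold t ht
    · intro t ht x hx v hv
      simp only [List.mem_cons] at ht
      rcases ht with rfl | ht
      · simp only [List.mem_cons] at hx
        rcases hx with rfl | hx
        · simp at hv
        · obtain ⟨u', hu', -, hle⟩ := h.reqs (π, false) hπ x hx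
          have hb := h.birth (π, false) hπ x hx
          rw [hu'] at hv
          simp only [Option.some.injEq] at hv
          subst hv
          simp only at hb ⊢
          omega
      · exact h.treq t ht x hx v hv
    · intro t ht hh
      simp only [List.mem_cons] at ht
      rcases ht with rfl | ht
      · rfl
      · exact absurd hh (hp t ht)
  · rw [hc]
    have hnotin : ∀ p ∈ I, p.1 ≠ (some u, a) :: π := by
      intro p hpI he
      have := h.birth p hpI (some u, a) (by rw [he]; exact List.mem_cons_self)
      simp only at this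
      omega
    have hnochild : ∀ p ∈ I, p.1 ≠ [] → p.1.tail = π →
        p.1.head?.map Prod.fst ≠ some (some u) := by
      intro p hpI _ htl hhd
      have : hasChild I π u = true := by
        unfold hasChild
        rw [List.any_eq_true]
        exact ⟨p, hpI, by simp [htl, hhd]⟩
      rw [hch] at this
      exact absurd this (by simp)
    refine
      { root := ?_
        nodup := ?_
        val := ?_
        parent := ?_
        birth := ?_
        reqs := ?_
        child := ?_
        len := ?_
        tnodup := h.tnodup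
        tclock := fun t ht => Nat.lt_succ_of_lt (h.tclock t ht)
        thold := ?_
        treq := h.treq
        pend := fun t ht hh => absurd hh (hp t ht) }
    · obtain ⟨d, hd⟩ := h.root
      exact ⟨d, List.mem_cons_of_mem _ hd⟩
    · simp only [List.map_cons, List.nodup_cons]
      refine ⟨?_, h.nodup⟩
      intro hm
      rw [List.mem_map] at hm
      obtain ⟨p, hpI, hpe⟩ := hm
      exact hnotin p hpI hpe
    · intro p hpI
      simp only [List.mem_cons] at hpI
      rcases hpI with rfl | hpI
      · rw [valid_cons, Bool.and_eq_true]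
        exact ⟨hok, h.val (π, false) hπ⟩
      · exact h.val p hpI
    · intro p hpI hne
      simp only [List.mem_cons] at hpI
      rcases hpI with rfl | hpI
      · exact List.mem_cons_of_mem _ hπ
      · exact List.mem_cons_of_mem _ (h.parent p hpI hne)
    · intro p hpI x hx
      simp only [List.mem_cons] at hpI
      rcases hpI with rfl | hpI
      · simp only [List.mem_cons] at hx
        rcases hx with rfl | hx
        · exact Nat.lt_succ_self a
        · exact Nat.lt_succ_of_lt (h.birth (π, false) hπ x hx)
      · exact Nat.lt_succ_of_lt (h.birth p hpI x hx)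
    · intro p hpI x hx
      simp only [List.mem_cons] at hpI
      rcases hpI with rfl | hpI
      · simp only [List.mem_cons] at hx
        rcases hx with rfl | hx
        · exact ⟨u, rfl, hU, hlen⟩
        · exact h.reqs (π, false) hπ x hx
      · exact h.reqs p hpI x hx
    · intro p hpI p' hpI' hne hne' htl hhd
      simp only [List.mem_cons] at hpI hpI'
      rcases hpI with rfl | hpI
      · rcases hpI' with rfl | hpI'
        · rfl
        · exfalso
          exact hnochild p' hpI' hne' (by simpa using htl.symm) (by simpa using hhd.symm)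
      · rcases hpI' with rfl | hpI'
        · exfalso
          exact hnochild p hpI hne (by simpa using htl) (by simpa using hhd)
        · exact h.child p hpI p' hpI' hne hne' htl hhd
    · intro p hpI
      simp only [List.mem_cons] at hpI
      rcases hpI with rfl | hpI
      · simpa using hl
      · exact h.len p hpI
    · intro t ht
      rcases h.thold t ht with ⟨d, hd⟩ | ⟨h1, h2, h3, h4⟩
      · exact Or.inl ⟨d, List.mem_cons_of_mem _ hd⟩
      · exact Or.inr ⟨h1, List.mem_cons_of_mem _ h2, h3, h4⟩

theorem inv_init (U : Req → Bool) (b e : ℕ) (B : List Bool) :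
    Inv U b e B (0, [([], false)], []) := by
  have hmem : ∀ p : Path × Bool, p ∈ [(([] : Path), false)] → p.1 = [] := by
    intro p hp
    rw [List.mem_singleton] at hp
    rw [hp]
  refine
    { root := ⟨false, by simp⟩
      nodup := by simp
      val := ?_
      parent := ?_
      birth := ?_
      reqs := ?_
      child := ?_
      len := ?_
      tnodup := by simp
      tclock := by simp
      thold := by simp
      treq := by simp
      pend := by simp }
  · intro p hp
    rw [hmem p hp]; rfl
  · intro p hp hne
    exact absurd (hmem p hp) hne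
  · intro p hp x hx
    rw [hmem p hp] at hx
    exact absurd hx (by simp)
  · intro p hp x hx
    rw [hmem p hp] at hx
    exact absurd hx (by simp)
  · intro p hp p' hp' hne
    exact absurd (hmem p hp) hne
  · intro p hp
    rw [hmem p hp]
    simp [NN]

/-- the state before `create` satisfies the invariant with the old clock -/
theorem inv_pre {U : Req → Bool} {b e : ℕ} {B0 B : List Bool} {a : ℕ} {I : List (Path × Bool)}
    {T : List Tok} (h : Inv U b e B0 (a, I, T)) (q0 : ℕ) :
    Inv U b e B (a, insts3 (insts2 q0 (toks1 B T) (insts1 B I)),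
      toks3 (insts2 q0 (toks1 B T) (insts1 B I)) (toks1 B T)) := by
  -- membership in the new list of instances
  have hold : ∀ p ∈ insts3 (insts2 q0 (toks1 B T) (insts1 B I)),
      ∃ d', (p.1, d') ∈ I ∧ valid B p.1 = true := by
    intro p hp
    rw [mem_insts3] at hp
    obtain ⟨π, d⟩ := p
    rw [mem_insts2] at hp
    obtain ⟨⟨d', hd', -⟩, -⟩ := hp
    rw [mem_insts1] at hd'
    exact ⟨d', hd'⟩
  have hkeep : ∀ (π : Path) (d' : Bool), (π, d') ∈ I → valid B π = true →
      ¬ dead (insts2 q0 (toks1 B T) (insts1 B I)) π = true →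
      ∃ d, (π, d) ∈ insts3 (insts2 q0 (toks1 B T) (insts1 B I)) := by
    intro π d' hπ hv hnd
    refine ⟨d' || reached q0 (toks1 B T) π, ?_⟩
    rw [mem_insts3]
    refine ⟨?_, hnd⟩
    rw [mem_insts2]
    exact ⟨d', mem_insts1.2 ⟨hπ, hv⟩, rfl⟩
  refine
    { root := ?_
      nodup := ?_
      val := ?_
      parent := ?_
      birth := ?_
      reqs := ?_
      child := ?_
      len := ?_
      tnodup := ?_
      tclock := ?_
      thold := ?_
      treq := ?_
      pend := ?_ }
  · obtain ⟨d, hd⟩ := h.root
    exact hkeep [] d hd (valid_nil B) (dead_nil _)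
  · have h1 : (insts3 (insts2 q0 (toks1 B T) (insts1 B I))).map Prod.fst |>.Sublist
        ((insts2 q0 (toks1 B T) (insts1 B I)).map Prod.fst) :=
      List.filter_sublist.map _
    have h2 : ((insts1 B I).map Prod.fst).Sublist (I.map Prod.fst) :=
      List.filter_sublist.map _
    rw [insts2_fst] at h1
    exact (h.nodup.sublist h2).sublist h1
  · intro p hp
    exact (hold p hp).choose_spec.2
  · intro p hp hne
    obtain ⟨d', hd', hv⟩ := hold p hp
    have hpar := h.parent (p.1, d') hd' hne
    simp only at hpar
    have hvt := valid_tail hv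
    have hnd : ¬ dead (insts2 q0 (toks1 B T) (insts1 B I)) p.1 = true := (mem_insts3.1 hp).2
    have hndt : ¬ dead (insts2 q0 (toks1 B T) (insts1 B I)) p.1.tail = true :=
      fun hd => hnd (dead_of_tail hd)
    have hin2 : (p.1.tail, (false || reached q0 (toks1 B T) p.1.tail)) ∈
        insts2 q0 (toks1 B T) (insts1 B I) := by
      rw [mem_insts2]
      exact ⟨false, mem_insts1.2 ⟨hpar, hvt⟩, rfl⟩
    have hnr : (false || reached q0 (toks1 B T) p.1.tail) = false := by
      by_contra hr
      rw [Bool.not_eq_false] at hr
      rw [hr] at hin2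
      exact hnd (dead_iff.2 ⟨_, hin2, rfl, above_tail hne⟩)
    rw [hnr] at hin2
    exact mem_insts3.2 ⟨hin2, hndt⟩
  · intro p hp x hx
    obtain ⟨d', hd', -⟩ := hold p hp
    exact h.birth (p.1, d') hd' x hx
  · intro p hp x hx
    obtain ⟨d', hd', -⟩ := hold p hp
    exact h.reqs (p.1, d') hd' x hx
  · intro p hp p' hp' hne hne' htl hhd
    obtain ⟨d, hd, -⟩ := hold p hp
    obtain ⟨d', hd', -⟩ := hold p' hp'
    exact h.child (p.1, d) hd (p'.1, d') hd' hne hne' htl hhd
  · intro p hp
    obtain ⟨d', hd', -⟩ := hold p hp
    exact h.len (p.1, d') hd'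
  · have h1 : ((toks3 (insts2 q0 (toks1 B T) (insts1 B I)) (toks1 B T)).map Prod.fst).Sublist
        ((toks1 B T).map Prod.fst) := List.filter_sublist.map _
    exact (h.tnodup.sublist (toks1_fst_sublist B T)).sublist h1
  · intro t ht
    rw [mem_toks3, mem_toks1] at ht
    obtain ⟨⟨t0, ht0, hu⟩, -⟩ := ht
    have := h.tclock t0 ht0
    rw [(upTok_some hu).1]
    exact this
  · intro t ht
    rw [mem_toks3, mem_toks1] at ht
    obtain ⟨⟨t0, ht0, hu⟩, hnd⟩ := ht
    obtain ⟨-, -, hv, hcase⟩ := upTok_some hu
    left
    rcases hcase with ⟨hv0, he⟩ | ⟨hv0, he⟩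
    · rcases h.thold t0 ht0 with ⟨d, hd⟩ | ⟨h1, -, -, -⟩
      · rw [he] at hnd ⊢
        exact hkeep _ d hd hv0 hnd
      · exfalso
        exact head_of_valid hv0 (by rw [h1]; rfl)
    · have hpar : (t0.2.2.tail, false) ∈ I := by
        rcases h.thold t0 ht0 with ⟨d, hd⟩ | ⟨-, h2, -, -⟩
        · have hne : t0.2.2 ≠ [] := by
            intro h0
            rw [h0] at hv0
            exact hv0 (valid_nil B)
          exact h.parent (t0.2.2, d) hd hne
        · exact h2
      rw [he] at hnd hv ⊢
      exact hkeep _ false hpar hv hnd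
  · intro t ht x hx u hxu
    rw [mem_toks3, mem_toks1] at ht
    obtain ⟨⟨t0, ht0, hu⟩, -⟩ := ht
    obtain ⟨h1, -, -, hcase⟩ := upTok_some hu
    rw [h1]
    rcases hcase with ⟨-, he⟩ | ⟨-, he⟩
    · rw [he] at hx
      exact h.treq t0 ht0 x hx u hxu
    · rw [he] at hx
      exact h.treq t0 ht0 x (List.mem_of_mem_tail hx) u hxu
  · intro t ht hh
    rw [mem_toks3, mem_toks1] at ht
    obtain ⟨⟨t0, ht0, hu⟩, -⟩ := ht
    exact absurd hh (head_of_valid (upTok_some hu).2.2.1)

/-- B0: the string of the previous active stage -/
theorem inv_upd {U : Req → Bool} {b e : ℕ} {B0 B : List Bool} {st : State}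
    (h : Inv U b e B0 st) (hB : st.1 ≤ B.length) : Inv U b e B (upd U b e B st) := by
  obtain ⟨a, I, T⟩ := st
  have h1 := inv_pre (B := B) h (Q0 b e)
  have h2 := inv_create h1 (by
    intro t ht
    rw [mem_toks3, mem_toks1] at ht
    obtain ⟨⟨t0, ht0, hu⟩, -⟩ := ht
    exact head_of_valid (upTok_some hu).2.2.1)
  exact h2

theorem inv_state (le : ℕ → ℕ → ℕ → Bool) (As : ℕ → List Bool) (U : Req → Bool) (b e s : ℕ) :
    ∃ B, Inv U b e B (state le As U b e s) := by
  induction s with
  | zero => exact ⟨[], inv_init U b e []⟩
  | succ s ih =>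
    obtain ⟨B, hB⟩ := ih
    show ∃ B, Inv U b e B (step le As U b e s (state le As U b e s))
    unfold step
    by_cases ha : active le As e s (state le As U b e s) = true
    · rw [if_pos ha]
      refine ⟨As s, inv_upd hB ?_⟩
      unfold active at ha
      rw [Bool.and_eq_true, decide_eq_true_eq] at ha
      exact ha.1
    · rw [if_neg ha]
      exact ⟨B, hB⟩

end OWR.Gold
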