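import Pool.Agent.H77.OW.GoldCert

/-!
# Task GoldWeight : weights

`hU`: for every sequence X the requests u with U u whose string is an initial segment of X have total weight ≤ 1
(`discipline`).
Invariants for all alive instances π (level(π) = N - |π| ≥ 1), T = tokens, I = instances:
 (a) below T π ≤ level(π) 2^{-q(π)};   (b) held T π ≤ 2^{-g(π)} + level(π) 2^{-q(π)};   (c) π not done → held T π < 2^{-g(π)};
 (d) a done instance has nothing strictly below.
Every dropped token is strictly below an instance which was alive and not done before the update and is not so after it.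
-/

namespace OWR.Gold

open Encodable

/-- the weight held strictly below π -/
noncomputable def below (T : List Tok) (π : Path) : ℝ :=
  (T.map fun t => if above π t.2.2 = true then (2 : ℝ)⁻¹ ^ t.2.1 else 0).sum

/-- (n,w) was issued by process e -/
def Issued (le : ℕ → ℕ → ℕ → Bool) (As : ℕ → List Bool) (U : Req → Bool) (b e n w : ℕ) : Prop :=
  ∃ s π, (n, w, π) ∈ (state le As U b e s).2.2

/-! ### Sums over lists -/

theorem gw_sum_finset {α β : Type*} (T : List α) (C : Finset β) (f : β → α → ℝ) :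
    (T.map fun t => ∑ c ∈ C, f c t).sum = ∑ c ∈ C, (T.map (f c)).sum := by
  induction T with
  | nil => simp
  | cons t T ih =>
    simp only [List.map_cons, List.sum_cons, ih]
    rw [Finset.sum_add_distrib]

theorem gw_sum_le {α : Type*} (T : List α) (f g : α → ℝ) (h : ∀ t ∈ T, f t ≤ g t) :
    (T.map f).sum ≤ (T.map g).sum := by
  induction T with
  | nil => simp
  | cons t T ih =>
    simp only [List.map_cons, List.sum_cons]
    have h1 := h t (by simp)
    have h2 := ih fun t ht => h t (by simp [ht])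
    linarith

theorem gw_sum_add {α : Type*} (T : List α) (f g : α → ℝ) :
    (T.map fun t => f t + g t).sum = (T.map f).sum + (T.map g).sum := by
  induction T with
  | nil => simp
  | cons t T ih =>
    simp only [List.map_cons, List.sum_cons, ih]
    ring

theorem gw_sum_nonneg {α : Type*} (T : List α) (f : α → ℝ) (h : ∀ t ∈ T, 0 ≤ f t) :
    0 ≤ (T.map f).sum := by
  have h1 := gw_sum_le T (fun _ => 0) f h
  simpa using h1

theorem gw_sum_filterMap {α β : Type*} (T : List α) (φ : α → Option β) (g : β → ℝ) :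
    ((T.filterMap φ).map g).sum = (T.map fun t => ((φ t).map g).getD 0).sum := by
  induction T with
  | nil => simp
  | cons t T ih =>
    cases h : φ t with
    | none =>
      rw [List.filterMap_cons_none h, ih, List.map_cons, List.sum_cons, h]
      simp
    | some t' =>
      rw [List.filterMap_cons_some h, List.map_cons, List.sum_cons, ih, List.map_cons,
        List.sum_cons, h]
      simp

theorem gw_sum_filter {α : Type*} (T : List α) (φ : α → Bool) (g : α → ℝ) :
    ((T.filter φ).map g).sum = (T.map fun t => if φ t = true then g t else 0).sum := by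
  induction T with
  | nil => simp
  | cons t T ih =>
    by_cases h : φ t = true
    · rw [List.filter_cons_of_pos h, List.map_cons, List.sum_cons, ih, List.map_cons,
        List.sum_cons, if_pos h]
    · rw [List.filter_cons_of_neg h, ih, List.map_cons, List.sum_cons, if_neg h, zero_add]

theorem gw_sum_single {α : Type*} (T : List (ℕ × α)) (h : (T.map Prod.fst).Nodup) (n : ℕ) (c : ℝ)
    (hc : 0 ≤ c) : (T.map fun t => if t.1 = n then c else 0).sum ≤ c := by
  induction T with
  | nil => simpa using hc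
  | cons t T ih =>
    rw [List.map_cons, List.nodup_cons] at h
    rw [List.map_cons, List.sum_cons]
    by_cases ht : t.1 = n
    · rw [if_pos ht]
      have h1 : (T.map fun t => if t.1 = n then c else 0).sum ≤ (T.map fun _ => (0 : ℝ)).sum := by
        apply gw_sum_le
        intro t' ht'
        rw [if_neg]
        intro h2
        apply h.1
        rw [ht, ← h2]
        exact List.mem_map_of_mem ht'
      have h2 : (T.map fun _ => (0 : ℝ)).sum = 0 := by simp
      linarith
    · rw [if_neg ht, zero_add]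
      exact ih h.2

theorem gw_pow_pos (n : ℕ) : (0 : ℝ) < (2 : ℝ)⁻¹ ^ n := by positivity

theorem gw_pow_le {m n : ℕ} (h : m ≤ n) : (2 : ℝ)⁻¹ ^ n ≤ (2 : ℝ)⁻¹ ^ m :=
  pow_le_pow_of_le_one (by norm_num) (by norm_num) h

/-! ### Paths -/

theorem qq_cons (q0 : ℕ) (p : Option Req × ℕ) (π : Path) :
    qq q0 (p :: π) = qq q0 π + rr p.1 + p.2 + 1 := rfl

theorem le_qq (q0 : ℕ) (π : Path) : q0 ≤ qq q0 π := by
  induction π with
  | nil => exact le_refl _
  | cons p π ih =>
    rw [qq_cons]
    omega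

theorem above_iff_w (π' π : Path) : above π' π = true ↔ π'.length < π.length ∧ π' <:+ π := by
  unfold above
  rw [Bool.and_eq_true, decide_eq_true_iff, decide_eq_true_iff, List.suffix_iff_eq_drop]
  constructor <;> rintro ⟨h1, h2⟩ <;> exact ⟨h1, h2.symm⟩

theorem above_cons (x : Option Req × ℕ) (π : Path) : above π (x :: π) = true := by
  rw [above_iff_w]
  exact ⟨by simp, List.suffix_cons x π⟩

theorem above_cons_iff (x : Option Req × ℕ) (π ρ : Path) :
    above π (x :: ρ) = true ↔ π = ρ ∨ above π ρ = true := by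
  rw [above_iff_w, above_iff_w, List.suffix_cons_iff, List.length_cons]
  constructor
  · rintro ⟨h1, h2⟩
    rcases h2 with h2 | h2
    · rw [h2, List.length_cons] at h1
      omega
    · rcases lt_or_ge π.length ρ.length with h3 | h3
      · exact Or.inr ⟨h3, h2⟩
      · left
        exact h2.eq_of_length_le h3
  · rintro (h | ⟨h1, h2⟩)
    · subst h
      exact ⟨by omega, Or.inr (List.suffix_refl _)⟩
    · exact ⟨by omega, Or.inr h2⟩

theorem above_nil (π : Path) : above [] π = true ↔ π ≠ [] := by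
  rw [above_iff_w]
  constructor
  · rintro ⟨h1, -⟩ h2
    rw [h2] at h1
    simp at h1
  · intro h
    refine ⟨?_, List.nil_suffix⟩
    simpa using List.length_pos_of_ne_nil h

theorem not_above_nil (π : Path) : above π [] = false := by
  rw [Bool.eq_false_iff]
  intro h
  rw [above_iff_w] at h
  simp at h

/-- the child through which π' is below π -/
theorem above_cases {π τ : Path} (h : above π τ = true) :
    ∃ x, τ = x :: π ∨ above (x :: π) τ = true := by
  induction τ with
  | nil => rw [not_above_nil] at h; exact absurd h (by simp)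
  | cons y ρ ih =>
    rw [above_cons_iff] at h
    rcases h with h | h
    · exact ⟨y, Or.inl (by rw [h])⟩
    · obtain ⟨x, hx⟩ := ih h
      refine ⟨x, Or.inr ?_⟩
      rw [above_cons_iff]
      rcases hx with hx | hx
      · exact Or.inl hx.symm
      · exact Or.inr hx

theorem valid_nil_w (B : List Bool) : valid B [] = true := rfl

theorem valid_cons_w (B : List Bool) (x : Option Req × ℕ) (π : Path) :
    valid B (x :: π) = (okE B x.1 && valid B π) := rfl

/-! ### Consequences of the structural invariants -/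

section

variable {U : Req → Bool} {b e : ℕ} {B : List Bool} {st : State}

theorem Inv.uniq (h : Inv U b e B st) {π : Path} {d d' : Bool} (h1 : (π, d) ∈ st.2.1)
    (h2 : (π, d') ∈ st.2.1) : d = d' := by
  have h3 := List.inj_on_of_nodup_map h.nodup h1 h2 rfl
  exact congrArg Prod.snd h3

theorem Inv.anc (h : Inv U b e B st) {π : Path} : ∀ (ρ : Path) (d : Bool), (ρ, d) ∈ st.2.1 →
    above π ρ = true → (π, false) ∈ st.2.1 := by
  intro ρ
  induction ρ with
  | nil =>
    intro d _ h2
    rw [not_above_nil] at h2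
    exact absurd h2 (by simp)
  | cons x ρ ih =>
    intro d h1 h2
    have h3 := h.parent _ h1 (by simp)
    change (ρ, false) ∈ st.2.1 at h3
    rw [above_cons_iff] at h2
    rcases h2 with h2 | h2
    · rw [h2]
      exact h3
    · exact ih false h3 h2

theorem Inv.tok_cases (h : Inv U b e B st) {t : Tok} (ht : t ∈ st.2.2) :
    (∃ d, (t.2.2, d) ∈ st.2.1) ∨ ∃ ρ : Path, t.2.2 = (none, t.1) :: ρ ∧ (ρ, false) ∈ st.2.1 ∧
      ρ.length + 1 = NN b e ∧ t.2.1 = qq (Q0 b e) ρ ∧ t.1 + 1 = st.1 := by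
  rcases h.thold t ht with h1 | ⟨h1, h2, h3, h4⟩
  · exact Or.inl h1
  · right
    have h5 := h.pend t ht (by rw [h1]; rfl)
    cases h6 : t.2.2 with
    | nil => rw [h6] at h1; exact absurd h1 (by simp)
    | cons x ρ =>
      rw [h6] at h1 h2 h3 h4
      rw [List.head?_cons, Option.some_inj] at h1
      refine ⟨ρ, by rw [h1], h2, by simpa using h3, h4, h5⟩

theorem Inv.tok_anc (h : Inv U b e B st) {t : Tok} (ht : t ∈ st.2.2) {π : Path}
    (ha : above π t.2.2 = true) : (π, false) ∈ st.2.1 := by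
  rcases h.tok_cases ht with ⟨d, h1⟩ | ⟨ρ, h1, h2, -⟩
  · exact h.anc _ d h1 ha
  · rw [h1, above_cons_iff] at ha
    rcases ha with ha | ha
    · rw [ha]
      exact h2
    · exact h.anc _ false h2 ha

theorem Inv.tok_birth (h : Inv U b e B st) {t : Tok} (ht : t ∈ st.2.2) :
    ∀ x ∈ t.2.2, x.2 < st.1 := by
  rcases h.tok_cases ht with ⟨d, h1⟩ | ⟨ρ, h1, h2, -⟩
  · exact h.birth _ h1
  · rw [h1]
    intro x hx
    rcases List.mem_cons.mp hx with hx | hx
    · rw [hx]
      exact h.tclock t ht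
    · exact h.birth _ h2 x hx

theorem Inv.below_done (h : Inv U b e B st) {π : Path} (hd : (π, true) ∈ st.2.1) :
    below st.2.2 π = 0 := by
  unfold below
  have h1 : (st.2.2.map fun t => if above π t.2.2 = true then (2 : ℝ)⁻¹ ^ t.2.1 else 0) =
      st.2.2.map fun _ => (0 : ℝ) := by
    apply List.map_congr_left
    intro t ht
    rw [if_neg]
    intro ha
    exact absurd (h.uniq hd (h.tok_anc ht ha)) (by simp)
  rw [h1]
  simp

open Classical in
/-- the alive children of π -/
noncomputable def kids (I : List (Path × Bool)) (π : Path) : Finset Path :=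
  (I.map Prod.fst).toFinset.filter fun c => c ≠ [] ∧ c.tail = π

theorem mem_kids (I : List (Path × Bool)) (π c : Path) :
    c ∈ kids I π ↔ (∃ d, (c, d) ∈ I) ∧ ∃ x, c = x :: π := by
  classical
  unfold kids
  rw [Finset.mem_filter, List.mem_toFinset, List.mem_map]
  constructor
  · rintro ⟨⟨p, hp, rfl⟩, h2, h3⟩
    refine ⟨⟨p.2, hp⟩, p.1.head h2, ?_⟩
    conv_lhs => rw [← List.cons_head_tail h2]
    rw [h3]
  · rintro ⟨⟨d, hd⟩, x, rfl⟩
    exact ⟨⟨(_, d), hd, rfl⟩, by simp, rfl⟩

/-- the request of the youngest entry -/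
def headReq (c : Path) : Req :=
  match c with
  | [] => ([], 0, 0)
  | x :: _ => x.1.getD ([], 0, 0)

theorem kids_sum (h : Inv U b e B st)
    (hU : ∀ (X : ℕ → Bool) (F : Finset Req),
        (∀ u ∈ F, U u = true ∧ u.1 = pre X u.1.length) → ∑ u ∈ F, (2 : ℝ)⁻¹ ^ u.2.1 ≤ 1)
    (π : Path) : ∑ c ∈ kids st.2.1 π, (2 : ℝ)⁻¹ ^ (headReq c).2.1 ≤ 1 := by
  classical
  have h0 : ∀ c ∈ kids st.2.1 π, ∃ d u a, (c, d) ∈ st.2.1 ∧ c = (some u, a) :: π ∧ U u = true ∧
      B.take u.1.length = u.1 := by
    intro c hc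
    rw [mem_kids] at hc
    obtain ⟨⟨d, hd⟩, x, rfl⟩ := hc
    obtain ⟨u, hu1, hu2, -⟩ := h.reqs _ hd x (by simp)
    refine ⟨d, u, x.2, hd, ?_, hu2, ?_⟩
    · rw [← hu1]
    · have h1 := h.val _ hd
      rw [valid_cons_w, Bool.and_eq_true, hu1] at h1
      simpa [okE] using h1.1
  have h1 : ∑ c ∈ kids st.2.1 π, (2 : ℝ)⁻¹ ^ (headReq c).2.1 =
      ∑ u ∈ (kids st.2.1 π).image headReq, (2 : ℝ)⁻¹ ^ u.2.1 := by
    rw [Finset.sum_image]
    intro c hc c' hc' hcc
    obtain ⟨d, u, a, h2, h3, -⟩ := h0 c hc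
    obtain ⟨d', u', a', h2', h3', -⟩ := h0 c' hc'
    rw [h3, h3'] at hcc
    have h4 : u = u' := hcc
    refine h.child (c, d) h2 (c', d') h2' (by rw [h3]; simp) (by rw [h3']; simp) ?_ ?_
    · change c.tail = c'.tail
      rw [h3, h3']
      rfl
    · change c.head?.map Prod.fst = c'.head?.map Prod.fst
      rw [h3, h3', h4]
      rfl
  rw [h1]
  apply hU (ext B)
  intro u hu
  rw [Finset.mem_image] at hu
  obtain ⟨c, hc, rfl⟩ := hu
  obtain ⟨d, u, a, h2, h3, h4, h5⟩ := h0 c hc
  rw [h3]
  refine ⟨h4, ?_⟩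
  change u.1 = pre (ext B) u.1.length
  rw [pre_ext_take B, h5]
  have h6 := congrArg List.length h5
  rw [List.length_take] at h6
  omega

/-- Invariant (a): the weight strictly below an alive instance. -/
theorem below_le (h : Inv U b e B st)
    (hU : ∀ (X : ℕ → Bool) (F : Finset Req),
        (∀ u ∈ F, U u = true ∧ u.1 = pre X u.1.length) → ∑ u ∈ F, (2 : ℝ)⁻¹ ^ u.2.1 ≤ 1)
    (hb : ∀ p ∈ st.2.1, held st.2.2 p.1 ≤ (2 : ℝ)⁻¹ ^ gg (Q0 b e) p.1 +
      ((NN b e : ℝ) - p.1.length) * (2 : ℝ)⁻¹ ^ qq (Q0 b e) p.1) :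
    ∀ (k : ℕ) (π : Path) (d : Bool), (π, d) ∈ st.2.1 → π.length + k + 1 = NN b e →
      below st.2.2 π ≤ ((k : ℝ) + 1) * (2 : ℝ)⁻¹ ^ qq (Q0 b e) π := by
  intro k
  induction k with
  | zero =>
    intro π d hπ hk
    have h1 : below st.2.2 π ≤
        (st.2.2.map fun t => if t.1 = st.1 - 1 then (2 : ℝ)⁻¹ ^ qq (Q0 b e) π else 0).sum := by
      unfold below
      apply gw_sum_le
      intro t ht
      by_cases ha : above π t.2.2 = true
      · rw [if_pos ha]
        obtain ⟨x, hx⟩ := above_cases ha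
        rcases hx with hx | hx
        · rcases h.tok_cases ht with ⟨d', h2⟩ | ⟨ρ, h2, h3, h4, h5, h6⟩
          · have h3 := h.len _ h2
            rw [hx] at h3
            simp only [List.length_cons] at h3
            omega
          · rw [h2] at hx
            have h7 : ρ = π := (List.cons.inj hx).2
            rw [if_pos (by omega), h5, h7]
        · have h3 := h.len _ (h.tok_anc ht hx)
          simp only [List.length_cons] at h3
          omega
      · rw [if_neg ha]
        split_ifs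
        · exact (gw_pow_pos _).le
        · exact le_refl _
    have h2 := gw_sum_single st.2.2 h.tnodup (st.1 - 1) _ (gw_pow_pos (qq (Q0 b e) π)).le
    simp only [Nat.cast_zero, zero_add, one_mul]
    exact h1.trans h2
  | succ k ih =>
    intro π d hπ hk
    have h1 : below st.2.2 π ≤ ∑ c ∈ kids st.2.1 π, (held st.2.2 c + below st.2.2 c) := by
      unfold below held
      have h2 : ∀ c ∈ kids st.2.1 π,
          (st.2.2.map fun t => if t.2.2 = c then (2 : ℝ)⁻¹ ^ t.2.1 else 0).sum +
          (st.2.2.map fun t => if above c t.2.2 = true then (2 : ℝ)⁻¹ ^ t.2.1 else 0).sum =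
          (st.2.2.map fun t => (if t.2.2 = c then (2 : ℝ)⁻¹ ^ t.2.1 else 0) +
            (if above c t.2.2 = true then (2 : ℝ)⁻¹ ^ t.2.1 else 0)).sum := by
        intro c _
        rw [gw_sum_add]
      rw [Finset.sum_congr rfl h2, ← gw_sum_finset]
      apply gw_sum_le
      intro t ht
      have h3 : ∀ c ∈ kids st.2.1 π, (0 : ℝ) ≤ (if t.2.2 = c then (2 : ℝ)⁻¹ ^ t.2.1 else 0) +
            (if above c t.2.2 = true then (2 : ℝ)⁻¹ ^ t.2.1 else 0) := by
        intro c _
        have := gw_pow_pos t.2.1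
        split_ifs <;> linarith
      by_cases ha : above π t.2.2 = true
      · rw [if_pos ha]
        obtain ⟨x, hx⟩ := above_cases ha
        have h4 : x :: π ∈ kids st.2.1 π := by
          rw [mem_kids]
          refine ⟨?_, x, rfl⟩
          rcases hx with hx | hx
          · rcases h.tok_cases ht with ⟨d', h2⟩ | ⟨ρ, h2, h3, h4, h5, h6⟩
            · exact ⟨d', by rw [← hx]; exact h2⟩
            · rw [h2] at hx
              have h7 : ρ = π := (List.cons.inj hx).2
              rw [h7] at h4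
              omega
          · exact ⟨false, h.tok_anc ht hx⟩
        have h5 := Finset.single_le_sum h3 h4
        refine le_trans ?_ h5
        have := gw_pow_pos t.2.1
        rcases hx with hx | hx
        · rw [if_pos hx]
          split_ifs <;> linarith
        · rw [if_pos hx]
          split_ifs <;> linarith
      · rw [if_neg ha]
        exact Finset.sum_nonneg h3
    have h2 : ∀ c ∈ kids st.2.1 π, held st.2.2 c + below st.2.2 c ≤
        ((k : ℝ) + 1 + 1) * (2 : ℝ)⁻¹ ^ qq (Q0 b e) π * (2 : ℝ)⁻¹ ^ (headReq c).2.1 := by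
      intro c hc
      rw [mem_kids] at hc
      obtain ⟨⟨d', hd'⟩, x, hx⟩ := hc
      have hlen : c.length + k + 1 = NN b e := by
        rw [hx, List.length_cons]
        omega
      have h3 := hb _ hd'
      have h4 := ih c d' hd' hlen
      simp only at h3
      obtain ⟨u, hu, -⟩ := h.reqs _ hd' x (by simp [hx])
      have h5 : gg (Q0 b e) c = qq (Q0 b e) π + (headReq c).2.1 := by
        rw [hx]
        change qq (Q0 b e) π + rr x.1 = qq (Q0 b e) π + (x.1.getD ([], 0, 0)).2.1
        rw [hu]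
        rfl
      have h6 : qq (Q0 b e) π + (headReq c).2.1 + 1 ≤ qq (Q0 b e) c := by
        rw [hx]
        change qq (Q0 b e) π + (x.1.getD ([], 0, 0)).2.1 + 1 ≤ qq (Q0 b e) π + rr x.1 + x.2 + 1
        rw [hu]
        change qq (Q0 b e) π + u.2.1 + 1 ≤ qq (Q0 b e) π + u.2.1 + x.2 + 1
        omega
      have h7 : (2 : ℝ)⁻¹ ^ qq (Q0 b e) c ≤
          (2 : ℝ)⁻¹ ^ (qq (Q0 b e) π) * (2 : ℝ)⁻¹ ^ (headReq c).2.1 * (2 : ℝ)⁻¹ := by
        have h8 := gw_pow_le h6
        rwa [pow_succ, pow_add] at h8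
      have h8 : ((NN b e : ℝ) - c.length) = (k : ℝ) + 1 := by
        rw [← hlen]
        push_cast
        ring
      rw [h8, h5, pow_add] at h3
      have h9 : ((k : ℝ) + 1) * (2 : ℝ)⁻¹ ^ qq (Q0 b e) c ≤ ((k : ℝ) + 1) *
          ((2 : ℝ)⁻¹ ^ (qq (Q0 b e) π) * (2 : ℝ)⁻¹ ^ (headReq c).2.1 * (2 : ℝ)⁻¹) :=
        mul_le_mul_of_nonneg_left h7 (by positivity)
      nlinarith [h3, h4, h9]
    have h3 := kids_sum h hU π
    calc below st.2.2 π ≤ ∑ c ∈ kids st.2.1 π, (held st.2.2 c + below st.2.2 c) := h1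
      _ ≤ ∑ c ∈ kids st.2.1 π,
          ((k : ℝ) + 1 + 1) * (2 : ℝ)⁻¹ ^ qq (Q0 b e) π * (2 : ℝ)⁻¹ ^ (headReq c).2.1 :=
        Finset.sum_le_sum h2
      _ = ((k : ℝ) + 1 + 1) * (2 : ℝ)⁻¹ ^ qq (Q0 b e) π *
          ∑ c ∈ kids st.2.1 π, (2 : ℝ)⁻¹ ^ (headReq c).2.1 := by rw [Finset.mul_sum]
      _ ≤ ((k : ℝ) + 1 + 1) * (2 : ℝ)⁻¹ ^ qq (Q0 b e) π * 1 :=
        mul_le_mul_of_nonneg_left h3 (by positivity)
      _ = (((k + 1 : ℕ) : ℝ) + 1) * (2 : ℝ)⁻¹ ^ qq (Q0 b e) π := by push_cast; ring

theorem below_le' (h : Inv U b e B st)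
    (hU : ∀ (X : ℕ → Bool) (F : Finset Req),
        (∀ u ∈ F, U u = true ∧ u.1 = pre X u.1.length) → ∑ u ∈ F, (2 : ℝ)⁻¹ ^ u.2.1 ≤ 1)
    (hb : ∀ p ∈ st.2.1, held st.2.2 p.1 ≤ (2 : ℝ)⁻¹ ^ gg (Q0 b e) p.1 +
      ((NN b e : ℝ) - p.1.length) * (2 : ℝ)⁻¹ ^ qq (Q0 b e) p.1) {π : Path} {d : Bool}
    (hπ : (π, d) ∈ st.2.1) :
    below st.2.2 π ≤ ((NN b e : ℝ) - π.length) * (2 : ℝ)⁻¹ ^ qq (Q0 b e) π := by
  have h1 := h.len _ hπ
  simp only at h1
  obtain ⟨k, hk⟩ : ∃ k, π.length + k + 1 = NN b e := ⟨NN b e - π.length - 1, by omega⟩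
  have h2 := below_le h hU hb k π d hπ hk
  have h3 : ((NN b e : ℝ) - π.length) = (k : ℝ) + 1 := by
    rw [← hk]
    push_cast
    ring
  rw [h3]
  exact h2

end

/-! ### The update -/

theorem create_cases_w (U : Req → Bool) (N q0 : ℕ) (B : List Bool) (a : ℕ) (I : List (Path × Bool))
    (T : List Tok) :
    create U N q0 B a I T = (I, T) ∨
    (∃ π, (π, false) ∈ I ∧ π.length + 1 = N ∧
      create U N q0 B a I T = (I, (a, qq q0 π, (none, a) :: π) :: T)) ∨
    (∃ π u, (π, false) ∈ I ∧ π.length + 1 < N ∧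
      create U N q0 B a I T = (((some u, a) :: π, false) :: I, T)) := by
  unfold create
  cases h : (decode (α := Path × Req) a.unpair.1) with
  | none => exact Or.inl rfl
  | some x =>
    obtain ⟨π, u⟩ := x
    simp only
    split_ifs with h1 h2 h3
    · exact Or.inr (Or.inl ⟨π, h1, h2, rfl⟩)
    · exact Or.inr (Or.inr ⟨π, u, h1, h3.1, rfl⟩)
    · exact Or.inl rfl
    · exact Or.inl rfl

/-- the tokens after steps 1 and 2 -/
def updT (b e : ℕ) (B : List Bool) (st : State) : List Tok :=
  toks3 (insts2 (Q0 b e) (toks1 B st.2.2) (insts1 B st.2.1)) (toks1 B st.2.2)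

/-- the instances after steps 1 and 2 -/
def updI (b e : ℕ) (B : List Bool) (st : State) : List (Path × Bool) :=
  insts3 (insts2 (Q0 b e) (toks1 B st.2.2) (insts1 B st.2.1))

theorem upd_cases (U : Req → Bool) (b e : ℕ) (B : List Bool) (st : State) :
    upd U b e B st = (st.1 + 1, updI b e B st, updT b e B st) ∨
    (∃ π, (π, false) ∈ updI b e B st ∧ π.length + 1 = NN b e ∧
      upd U b e B st = (st.1 + 1, updI b e B st,
        (st.1, qq (Q0 b e) π, (none, st.1) :: π) :: updT b e B st)) ∨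
    (∃ π u, (π, false) ∈ updI b e B st ∧ π.length + 1 < NN b e ∧
      upd U b e B st = (st.1 + 1, ((some u, st.1) :: π, false) :: updI b e B st,
        updT b e B st)) := by
  unfold upd
  simp only
  rcases create_cases_w U (NN b e) (Q0 b e) B st.1 (updI b e B st) (updT b e B st) with
    h | ⟨π, h1, h2, h⟩ | ⟨π, u, h1, h2, h⟩
  · left
    change (st.1 + 1, (create U (NN b e) (Q0 b e) B st.1 (updI b e B st) (updT b e B st)).1,
      (create U (NN b e) (Q0 b e) B st.1 (updI b e B st) (updT b e B st)).2) = _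
    rw [h]
  · right
    left
    refine ⟨π, h1, h2, ?_⟩
    change (st.1 + 1, (create U (NN b e) (Q0 b e) B st.1 (updI b e B st) (updT b e B st)).1,
      (create U (NN b e) (Q0 b e) B st.1 (updI b e B st) (updT b e B st)).2) = _
    rw [h]
  · right
    right
    refine ⟨π, u, h1, h2, ?_⟩
    change (st.1 + 1, (create U (NN b e) (Q0 b e) B st.1 (updI b e B st) (updT b e B st)).1,
      (create U (NN b e) (Q0 b e) B st.1 (updI b e B st) (updT b e B st)).2) = _
    rw [h]

theorem upTok_cases (B : List Bool) (t : Tok) :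
    (valid B t.2.2 = true ∧ upTok B t = some t) ∨
    (valid B t.2.2 = false ∧ valid B t.2.2.tail = true ∧ t.2.2 ≠ [] ∧
      upTok B t = some (t.1, t.2.1, t.2.2.tail)) ∨
    (valid B t.2.2 = false ∧ valid B t.2.2.tail = false ∧ t.2.2 ≠ [] ∧ upTok B t = none) := by
  unfold upTok
  split_ifs with h1 h2
  · exact Or.inl ⟨h1, rfl⟩
  · refine Or.inr (Or.inl ⟨by simpa using h1, h2, ?_, rfl⟩)
    intro h3
    rw [h3] at h1
    exact h1 rfl
  · refine Or.inr (Or.inr ⟨by simpa using h1, by simpa using h2, ?_, rfl⟩)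
    intro h3
    rw [h3] at h1
    exact h1 rfl

theorem mem_updI {b e : ℕ} {B : List Bool} {st : State} {π : Path} {d' : Bool}
    (h : (π, d') ∈ updI b e B st) : ∃ d, (π, d) ∈ st.2.1 ∧ valid B π = true ∧
      d' = (d || reached (Q0 b e) (toks1 B st.2.2) π) := by
  unfold updI insts3 at h
  have h1 := (List.mem_filter.mp h).1
  unfold insts2 at h1
  rw [List.mem_map] at h1
  obtain ⟨p, hp, hp2⟩ := h1
  unfold insts1 at hp
  rw [List.mem_filter] at hp
  rw [Prod.mk.injEq] at hp2
  obtain ⟨hp2, hp3⟩ := hp2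
  refine ⟨p.2, ?_, ?_, ?_⟩
  · rw [← hp2]
    exact hp.1
  · rw [← hp2]
    exact hp.2
  · rw [← hp3, ← hp2]

theorem held_updT_le (b e : ℕ) (B : List Bool) (st : State) (π : Path) :
    held (updT b e B st) π ≤ held (toks1 B st.2.2) π := by
  unfold held updT toks3
  rw [gw_sum_filter]
  apply gw_sum_le
  intro t _
  have := gw_pow_pos t.2.1
  split_ifs <;> linarith

theorem held_toks1_le (B : List Bool) (T : List Tok) (π : Path) :
    held (toks1 B T) π ≤ held T π + below T π := by
  unfold held below toks1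
  rw [gw_sum_filterMap, ← gw_sum_add]
  apply gw_sum_le
  intro t _
  have := gw_pow_pos t.2.1
  rcases upTok_cases B t with ⟨-, h⟩ | ⟨-, -, h1, h⟩ | ⟨-, -, -, h⟩
  · rw [h]
    simp only [Option.map_some, Option.getD_some]
    split_ifs <;> linarith
  · rw [h]
    simp only [Option.map_some, Option.getD_some]
    by_cases h2 : t.2.2.tail = π
    · have h3 : above π t.2.2 = true := by
        cases h4 : t.2.2 with
        | nil => exact absurd h4 h1
        | cons x ρ =>
          rw [h4] at h2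
          change ρ = π at h2
          rw [h2]
          exact above_cons x π
      rw [if_pos h2, if_pos h3]
      split_ifs <;> linarith
    · rw [if_neg h2]
      split_ifs <;> linarith
  · rw [h]
    simp only [Option.map_none, Option.getD_none]
    split_ifs <;> linarith

theorem mem_updT {b e : ℕ} {B : List Bool} {st : State} {t' : Tok} (h : t' ∈ updT b e B st) :
    ∃ t ∈ st.2.2, t'.1 = t.1 ∧ t'.2.1 = t.2.1 ∧ ∀ x ∈ t'.2.2, x ∈ t.2.2 := by
  unfold updT toks3 at h
  have h1 := (List.mem_filter.mp h).1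
  unfold toks1 at h1
  rw [List.mem_filterMap] at h1
  obtain ⟨t, ht, h2⟩ := h1
  refine ⟨t, ht, ?_⟩
  rcases upTok_cases B t with ⟨-, h3⟩ | ⟨-, -, -, h3⟩ | ⟨-, -, -, h3⟩
  · rw [h3, Option.some_inj] at h2
    rw [← h2]
    exact ⟨rfl, rfl, fun x hx => hx⟩
  · rw [h3, Option.some_inj] at h2
    rw [← h2]
    exact ⟨rfl, rfl, fun x hx => List.mem_of_mem_tail hx⟩
  · rw [h3] at h2
    exact absurd h2 (by simp)

/-- The invariants (b) and (c). -/
structure WInv (b e : ℕ) (st : State) : Prop where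
  hb : ∀ p ∈ st.2.1, held st.2.2 p.1 ≤ (2 : ℝ)⁻¹ ^ gg (Q0 b e) p.1 +
      ((NN b e : ℝ) - p.1.length) * (2 : ℝ)⁻¹ ^ qq (Q0 b e) p.1
  hc : ∀ p ∈ st.2.1, p.2 = false → held st.2.2 p.1 < (2 : ℝ)⁻¹ ^ gg (Q0 b e) p.1

theorem held_eq_zero {T : List Tok} {π : Path} (h : ∀ t ∈ T, t.2.2 ≠ π) : held T π = 0 := by
  unfold held
  have h1 : (T.map fun t => if t.2.2 = π then (2 : ℝ)⁻¹ ^ t.2.1 else 0) =
      T.map fun _ => (0 : ℝ) := by
    apply List.map_congr_left
    intro t ht
    rw [if_neg (h t ht)]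
  rw [h1]
  simp

theorem winv_upd {U : Req → Bool} {b e : ℕ} {B0 B : List Bool} {st : State}
    (h : Inv U b e B0 st)
    (hU : ∀ (X : ℕ → Bool) (F : Finset Req),
        (∀ u ∈ F, U u = true ∧ u.1 = pre X u.1.length) → ∑ u ∈ F, (2 : ℝ)⁻¹ ^ u.2.1 ≤ 1)
    (hw : WInv b e st) : WInv b e (upd U b e B st) := by
  -- the old instances
  have hN : ∀ p ∈ updI b e B st, (0 : ℝ) ≤ (NN b e : ℝ) - p.1.length := by
    intro p hp
    obtain ⟨d, h1, -⟩ := mem_updI (π := p.1) (d' := p.2) hp
    have h2 := h.len _ h1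
    simp only at h2
    have h3 : (p.1.length : ℝ) ≤ (NN b e : ℝ) := by exact_mod_cast h2.le
    linarith
  have hb : ∀ p ∈ updI b e B st, held (updT b e B st) p.1 ≤ (2 : ℝ)⁻¹ ^ gg (Q0 b e) p.1 +
      ((NN b e : ℝ) - p.1.length) * (2 : ℝ)⁻¹ ^ qq (Q0 b e) p.1 := by
    intro p hp
    obtain ⟨d, h1, -⟩ := mem_updI (π := p.1) (d' := p.2) hp
    have h2 := held_updT_le b e B st p.1
    have h3 := held_toks1_le B st.2.2 p.1
    cases d with
    | true =>
      have h4 := hw.hb _ h1
      have h5 := h.below_done h1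
      simp only at h4
      linarith
    | false =>
      have h4 := hw.hc _ h1 rfl
      have h5 := below_le' h hU hw.hb h1
      simp only at h4
      linarith
  have hc : ∀ p ∈ updI b e B st, p.2 = false →
      held (updT b e B st) p.1 < (2 : ℝ)⁻¹ ^ gg (Q0 b e) p.1 := by
    intro p hp hp2
    obtain ⟨d, h1, -, h2⟩ := mem_updI (π := p.1) (d' := p.2) hp
    rw [hp2] at h2
    have h3 : ¬ reached (Q0 b e) (toks1 B st.2.2) p.1 = true := by
      intro h4
      rw [h4, Bool.or_true] at h2
      exact absurd h2 (by simp)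
    rw [reached_iff] at h3
    have h4 := held_updT_le b e B st p.1
    linarith
  rcases upd_cases U b e B st with h1 | ⟨π, h1, h2, h3⟩ | ⟨π, u, h1, h2, h3⟩
  · rw [h1]
    exact ⟨hb, hc⟩
  · rw [h3]
    have h4 : ∀ p ∈ updI b e B st,
        held ((st.1, qq (Q0 b e) π, (none, st.1) :: π) :: updT b e B st) p.1 =
        held (updT b e B st) p.1 := by
      intro p hp
      obtain ⟨d, h5, -⟩ := mem_updI (π := p.1) (d' := p.2) hp
      unfold held
      rw [List.map_cons, List.sum_cons, if_neg, zero_add]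
      intro h6
      obtain ⟨u, hu, -⟩ := h.reqs _ h5 (none, st.1) (by
        simp only
        rw [← h6]
        simp)
      exact absurd hu (by simp)
    exact ⟨fun p hp => by rw [h4 p hp]; exact hb p hp,
      fun p hp hp2 => by rw [h4 p hp]; exact hc p hp hp2⟩
  · rw [h3]
    have h4 : held (updT b e B st) ((some u, st.1) :: π) = 0 := by
      apply held_eq_zero
      intro t' ht' h5
      obtain ⟨t, ht, -, -, h6⟩ := mem_updT ht'
      have h7 := h.tok_birth ht (some u, st.1) (h6 _ (by rw [h5]; simp))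
      simp at h7
    refine ⟨?_, ?_⟩
    · intro p hp
      rcases List.mem_cons.mp hp with hp | hp
      · rw [hp]
        change held (updT b e B st) ((some u, st.1) :: π) ≤ _
        rw [h4]
        have h5 : (0 : ℝ) ≤ (NN b e : ℝ) - (((some u, st.1) :: π : Path).length : ℝ) := by
          rw [List.length_cons]
          have h6 : ((π.length + 1 : ℕ) : ℝ) ≤ (NN b e : ℝ) := by exact_mod_cast h2.le
          linarith
        have h6 := gw_pow_pos (gg (Q0 b e) ((some u, st.1) :: π))
        have h7 := gw_pow_pos (qq (Q0 b e) ((some u, st.1) :: π))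
        have h8 := mul_nonneg h5 h7.le
        simp only
        linarith
      · exact hb p hp
    · intro p hp hp2
      rcases List.mem_cons.mp hp with hp | hp
      · rw [hp]
        change held (updT b e B st) ((some u, st.1) :: π) < _
        rw [h4]
        exact gw_pow_pos _
      · exact hc p hp hp2

theorem gw_active_length {le : ℕ → ℕ → ℕ → Bool} {As : ℕ → List Bool} {e s : ℕ} {st : State}
    (h : active le As e s st = true) : st.1 ≤ (As s).length := by
  unfold active at h
  rw [Bool.and_eq_true, decide_eq_true_iff] at h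
  exact h.1

theorem winv_state (le : ℕ → ℕ → ℕ → Bool) (As : ℕ → List Bool) (U : Req → Bool) (b e : ℕ)
    (hU : ∀ (X : ℕ → Bool) (F : Finset Req),
        (∀ u ∈ F, U u = true ∧ u.1 = pre X u.1.length) → ∑ u ∈ F, (2 : ℝ)⁻¹ ^ u.2.1 ≤ 1)
    (s : ℕ) : WInv b e (state le As U b e s) := by
  induction s with
  | zero =>
    refine ⟨?_, ?_⟩
    · intro p hp
      have h1 : p = ([], false) := by simpa [state] using hp
      rw [h1]
      have h2 : held (state le As U b e 0).2.2 [] = 0 := by simp [state, held]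
      simp only
      rw [h2]
      have h3 : (0 : ℝ) ≤ (NN b e : ℝ) - (([] : Path).length : ℝ) := by simp
      have h6 := gw_pow_pos (gg (Q0 b e) [])
      have h7 := gw_pow_pos (qq (Q0 b e) [])
      have h8 := mul_nonneg h3 h7.le
      linarith
    · intro p hp _
      have h1 : p = ([], false) := by simpa [state] using hp
      rw [h1]
      have h2 : held (state le As U b e 0).2.2 [] = 0 := by simp [state, held]
      simp only
      rw [h2]
      exact gw_pow_pos _
  | succ s ih =>
    obtain ⟨B0, h⟩ := inv_state le As U b e s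
    change WInv b e (step le As U b e s (state le As U b e s))
    unfold step
    split_ifs with h1
    · exact winv_upd h hU ih
    · exact ih

theorem held_le (le : ℕ → ℕ → ℕ → Bool) (As : ℕ → List Bool) (U : Req → Bool) (b e s : ℕ)
    (hU : ∀ (X : ℕ → Bool) (F : Finset Req),
        (∀ u ∈ F, U u = true ∧ u.1 = pre X u.1.length) → ∑ u ∈ F, (2 : ℝ)⁻¹ ^ u.2.1 ≤ 1) :
    ∀ p ∈ (state le As U b e s).2.1,
      held (state le As U b e s).2.2 p.1 ≤
        (2 : ℝ)⁻¹ ^ gg (Q0 b e) p.1 + (NN b e : ℝ) * (2 : ℝ)⁻¹ ^ qq (Q0 b e) p.1 := by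
  intro p hp
  have h1 := (winv_state le As U b e hU s).hb p hp
  have h2 := gw_pow_pos (qq (Q0 b e) p.1)
  have h3 : (0 : ℝ) ≤ (p.1.length : ℝ) := by positivity
  nlinarith [mul_nonneg h3 h2.le]

/-! ### The total weight -/

/-- the weight of all the tokens -/
noncomputable def totw (T : List Tok) : ℝ := (T.map fun t => (2 : ℝ)⁻¹ ^ t.2.1).sum

theorem totw_eq (T : List Tok) : totw T = held T [] + below T [] := by
  unfold totw held below
  rw [← gw_sum_add]
  congr 1
  apply List.map_congr_left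
  intro t _
  by_cases h : t.2.2 = []
  · rw [if_pos h, if_neg, add_zero]
    rw [above_nil]
    exact fun h1 => h1 h
  · rw [if_neg h, if_pos ((above_nil _).mpr h), zero_add]

open Classical in
/-- the paths of the instances which are alive and not done -/
noncomputable def liveF (I : List (Path × Bool)) : Finset Path := ((I.filter fun p => !p.2).map Prod.fst).toFinset

theorem mem_liveF (I : List (Path × Bool)) (π : Path) : π ∈ liveF I ↔ (π, false) ∈ I := by
  classical
  unfold liveF
  rw [List.mem_toFinset, List.mem_map]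
  constructor
  · rintro ⟨p, hp, rfl⟩
    rw [List.mem_filter] at hp
    have h1 : p = (p.1, false) := by
      rw [Prod.ext_iff]
      refine ⟨rfl, ?_⟩
      simpa using hp.2
    rw [← h1]
    exact hp.1
  · intro h
    exact ⟨(π, false), List.mem_filter.mpr ⟨h, rfl⟩, rfl⟩

theorem dead_iff_w (I : List (Path × Bool)) (π : Path) :
    dead I π = true ↔ ∃ π', (π', true) ∈ I ∧ above π' π = true := by
  unfold dead
  rw [List.any_eq_true]
  constructor
  · rintro ⟨p, hp, h1⟩
    rw [Bool.and_eq_true] at h1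
    refine ⟨p.1, ?_, h1.2⟩
    have h2 : p = (p.1, true) := by
      rw [Prod.ext_iff]
      exact ⟨rfl, h1.1⟩
    rw [← h2]
    exact hp
  · rintro ⟨π', h1, h2⟩
    exact ⟨(π', true), h1, by rw [Bool.and_eq_true]; exact ⟨rfl, h2⟩⟩

open Classical in
/-- Dropped tokens are strictly below an instance which stops to be alive and not done. -/
theorem totw_drop {U : Req → Bool} {b e : ℕ} {B0 B : List Bool} {st : State}
    (h : Inv U b e B0 st) :
    totw st.2.2 ≤ totw (updT b e B st) +
      ∑ π ∈ liveF st.2.1 \ liveF (updI b e B st), below st.2.2 π := by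
  unfold totw updT toks3 below
  rw [gw_sum_filter]
  unfold toks1
  rw [gw_sum_filterMap, ← gw_sum_finset, ← gw_sum_add]
  apply gw_sum_le
  intro t ht
  have hpos := gw_pow_pos t.2.1
  have hnn : ∀ π ∈ liveF st.2.1 \ liveF (updI b e B st),
      (0 : ℝ) ≤ if above π t.2.2 = true then (2 : ℝ)⁻¹ ^ t.2.1 else 0 := by
    intro π _
    split_ifs <;> linarith
  have hsum := Finset.sum_nonneg hnn
  have key : ∀ π, above π t.2.2 = true → (π, false) ∉ updI b e B st →
      (2 : ℝ)⁻¹ ^ t.2.1 ≤ ∑ π ∈ liveF st.2.1 \ liveF (updI b e B st),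
        if above π t.2.2 = true then (2 : ℝ)⁻¹ ^ t.2.1 else 0 := by
    intro π h1 h2
    have h3 : π ∈ liveF st.2.1 \ liveF (updI b e B st) := by
      rw [Finset.mem_sdiff, mem_liveF, mem_liveF]
      exact ⟨h.tok_anc ht h1, h2⟩
    have h4 := Finset.single_le_sum hnn h3
    rw [if_pos h1] at h4
    exact h4
  have hdead : ∀ ρ : Path, (∀ π, above π ρ = true → above π t.2.2 = true) →
      dead (insts2 (Q0 b e) (toks1 B st.2.2) (insts1 B st.2.1)) ρ = true →
      (2 : ℝ)⁻¹ ^ t.2.1 ≤ ∑ π ∈ liveF st.2.1 \ liveF (updI b e B st),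
        if above π t.2.2 = true then (2 : ℝ)⁻¹ ^ t.2.1 else 0 := by
    intro ρ hρ hd
    rw [dead_iff_w] at hd
    obtain ⟨π, h1, h2⟩ := hd
    apply key π (hρ π h2)
    intro h3
    obtain ⟨d, h4, -, h5⟩ := mem_updI h3
    unfold insts2 at h1
    rw [List.mem_map] at h1
    obtain ⟨p, hp, hp2⟩ := h1
    unfold insts1 at hp
    rw [List.mem_filter] at hp
    rw [Prod.mk.injEq] at hp2
    obtain ⟨hp2, hp3⟩ := hp2
    have h6 : (π, p.2) ∈ st.2.1 := by
      rw [← hp2]
      exact hp.1
    have h7 := h.uniq h4 h6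
    rw [hp2, ← h7, ← h5] at hp3
    exact absurd hp3 (by simp)
  rcases upTok_cases B t with ⟨-, h1⟩ | ⟨-, -, h2, h1⟩ | ⟨h3, h4, h2, h1⟩
  · rw [h1]
    simp only [Option.map_some, Option.getD_some]
    split_ifs with h5
    · linarith
    · rw [zero_add]
      apply hdead t.2.2 (fun π hπ => hπ)
      change dead (insts2 (Q0 b e) (List.filterMap (upTok B) st.2.2) (insts1 B st.2.1)) t.2.2 = true
      simpa using h5
  · rw [h1]
    simp only [Option.map_some, Option.getD_some]
    split_ifs with h5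
    · linarith
    · rw [zero_add]
      apply hdead t.2.2.tail
      · intro π hπ
        cases h6 : t.2.2 with
        | nil => exact absurd h6 h2
        | cons x ρ =>
          rw [h6] at hπ
          rw [above_cons_iff]
          exact Or.inr hπ
      · change dead (insts2 (Q0 b e) (List.filterMap (upTok B) st.2.2) (insts1 B st.2.1))
          t.2.2.tail = true
        simpa using h5
  · rw [h1]
    simp only [Option.map_none, Option.getD_none, zero_add]
    apply key t.2.2.tail
    · cases h6 : t.2.2 with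
      | nil => exact absurd h6 h2
      | cons x ρ => exact above_cons x ρ
    · intro h5
      obtain ⟨d, -, h6, -⟩ := mem_updI h5
      rw [h4] at h6
      exact absurd h6 (by simp)

/-- the reserve -/
noncomputable def resv (q0 : ℕ) (I : List (Path × Bool)) : ℝ :=
  ∑ π ∈ liveF I, (2 : ℝ)⁻¹ ^ qq q0 π

open Classical in
theorem resv_upd {U : Req → Bool} {b e : ℕ} {B0 B : List Bool} {st : State}
    (h : Inv U b e B0 st)
    (hU : ∀ (X : ℕ → Bool) (F : Finset Req),
        (∀ u ∈ F, U u = true ∧ u.1 = pre X u.1.length) → ∑ u ∈ F, (2 : ℝ)⁻¹ ^ u.2.1 ≤ 1)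
    (hw : WInv b e st) :
    totw st.2.2 + (NN b e : ℝ) * resv (Q0 b e) (updI b e B st) ≤
      totw (updT b e B st) + (NN b e : ℝ) * resv (Q0 b e) st.2.1 := by
  have h1 := totw_drop (B := B) h
  have h2 : ∑ π ∈ liveF st.2.1 \ liveF (updI b e B st), below st.2.2 π ≤
      ∑ π ∈ liveF st.2.1 \ liveF (updI b e B st),
        (NN b e : ℝ) * (2 : ℝ)⁻¹ ^ qq (Q0 b e) π := by
    apply Finset.sum_le_sum
    intro π hπ
    rw [Finset.mem_sdiff, mem_liveF] at hπ
    have h3 := below_le' h hU hw.hb hπ.1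
    have h4 := gw_pow_pos (qq (Q0 b e) π)
    have h5 : (0 : ℝ) ≤ (π.length : ℝ) := by positivity
    nlinarith [mul_nonneg h5 h4.le]
  have hsub : liveF (updI b e B st) ⊆ liveF st.2.1 := by
    intro π hπ
    rw [mem_liveF] at hπ ⊢
    obtain ⟨d, h3, -, h4⟩ := mem_updI hπ
    cases d with
    | true => exact absurd h4 (by simp)
    | false => exact h3
  have h3 : ∑ π ∈ liveF st.2.1 \ liveF (updI b e B st), (2 : ℝ)⁻¹ ^ qq (Q0 b e) π +
      resv (Q0 b e) (updI b e B st) = resv (Q0 b e) st.2.1 := Finset.sum_sdiff hsub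
  rw [← Finset.mul_sum] at h2
  rw [← h3]
  linarith

theorem resv_cons_le (q0 : ℕ) (I : List (Path × Bool)) (π : Path) (u : Req) (a : ℕ) :
    resv q0 (((some u, a) :: π, false) :: I) ≤ resv q0 I + (2 : ℝ)⁻¹ ^ (q0 + a + 1) := by
  classical
  have h1 : liveF (((some u, a) :: π, false) :: I) ⊆ insert ((some u, a) :: π) (liveF I) := by
    intro ρ hρ
    rw [mem_liveF] at hρ
    rw [Finset.mem_insert, mem_liveF]
    rcases List.mem_cons.mp hρ with h | h
    · left
      exact congrArg Prod.fst h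
    · exact Or.inr h
  have h2 : resv q0 (((some u, a) :: π, false) :: I) ≤
      ∑ ρ ∈ insert ((some u, a) :: π) (liveF I), (2 : ℝ)⁻¹ ^ qq q0 ρ :=
    Finset.sum_le_sum_of_subset_of_nonneg h1 fun ρ _ _ => (gw_pow_pos _).le
  have h3 : ∑ ρ ∈ insert ((some u, a) :: π) (liveF I), (2 : ℝ)⁻¹ ^ qq q0 ρ ≤
      (2 : ℝ)⁻¹ ^ qq q0 ((some u, a) :: π) + resv q0 I := by
    by_cases h4 : (some u, a) :: π ∈ liveF I
    · rw [Finset.insert_eq_of_mem h4]
      have := gw_pow_pos (qq q0 ((some u, a) :: π))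
      unfold resv
      linarith
    · rw [Finset.sum_insert h4]
      exact le_refl _
  have h4 : (2 : ℝ)⁻¹ ^ qq q0 ((some u, a) :: π) ≤ (2 : ℝ)⁻¹ ^ (q0 + a + 1) := by
    apply gw_pow_le
    rw [qq_cons]
    have := le_qq q0 π
    simp only
    omega
  linarith

theorem issued_inv (le : ℕ → ℕ → ℕ → Bool) (As : ℕ → List Bool) (U : Req → Bool) (b e : ℕ)
    (hU : ∀ (X : ℕ → Bool) (F : Finset Req),
        (∀ u ∈ F, U u = true ∧ u.1 = pre X u.1.length) → ∑ u ∈ F, (2 : ℝ)⁻¹ ^ u.2.1 ≤ 1)
    (s : ℕ) : ∀ F : Finset (ℕ × ℕ),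
      (∀ p ∈ F, ∃ s' ≤ s, ∃ π, (p.1, p.2, π) ∈ (state le As U b e s').2.2) →
      ∑ p ∈ F, (2 : ℝ)⁻¹ ^ p.2 + (NN b e : ℝ) * resv (Q0 b e) (state le As U b e s).2.1 ≤
        totw (state le As U b e s).2.2 + (NN b e : ℝ) *
          (2 * (2 : ℝ)⁻¹ ^ (Q0 b e) - (2 : ℝ)⁻¹ ^ (Q0 b e + (state le As U b e s).1)) := by
  classical
  induction s with
  | zero =>
    intro F hF
    have h1 : F = ∅ := by
      rw [Finset.eq_empty_iff_forall_notMem]
      intro p hp
      obtain ⟨s', hs', π, h2⟩ := hF p hp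
      have h3 : s' = 0 := by omega
      rw [h3] at h2
      simp [state] at h2
    have h2 : resv (Q0 b e) (state le As U b e 0).2.1 = (2 : ℝ)⁻¹ ^ (Q0 b e) := by
      unfold resv
      have h3 : liveF (state le As U b e 0).2.1 = {[]} := by
        ext π
        rw [mem_liveF]
        simp [state]
      rw [h3, Finset.sum_singleton]
      rfl
    have h3 : totw (state le As U b e 0).2.2 = 0 := by simp [state, totw]
    have h4 : (state le As U b e 0).1 = 0 := rfl
    rw [h1, h2, h3, h4, Finset.sum_empty, add_zero]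
    apply le_of_eq
    ring
  | succ s ih =>
    intro F hF
    obtain ⟨B0, h⟩ := inv_state le As U b e s
    have hw := winv_state le As U b e hU s
    have hstep : state le As U b e (s + 1) = step le As U b e s (state le As U b e s) := rfl
    by_cases hact : active le As e s (state le As U b e s) = true
    · have hst : state le As U b e (s + 1) = upd U b e (As s) (state le As U b e s) := by
        rw [hstep]
        unfold step
        rw [if_pos hact]
      have hold : ∀ n w π, (n, w, π) ∈ updT b e (As s) (state le As U b e s) →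
          ∃ s' ≤ s, ∃ π, (n, w, π) ∈ (state le As U b e s').2.2 := by
        intro n w π h1
        obtain ⟨t, ht, h2, h3, -⟩ := mem_updT h1
        simp only at h2 h3
        refine ⟨s, le_refl _, t.2.2, ?_⟩
        rw [h2, h3]
        exact ht
      have hres := resv_upd (B := As s) h hU hw
      set st := state le As U b e s with hst0
      have hN0 : (0 : ℝ) ≤ (NN b e : ℝ) := by positivity
      have hq : (2 : ℝ)⁻¹ ^ (Q0 b e + (st.1 + 1)) = (2 : ℝ)⁻¹ ^ (Q0 b e + st.1) * (2 : ℝ)⁻¹ := by
        rw [← add_assoc, pow_succ]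
      have hqpos := gw_pow_pos (Q0 b e + st.1)
      rcases upd_cases U b e (As s) st with h1 | ⟨π, h1, h2, h3⟩ | ⟨π, u, h1, h2, h3⟩
      · rw [hst, h1]
        simp only
        have h4 := ih F (by
          intro p hp
          obtain ⟨s', hs', π, h5⟩ := hF p hp
          rcases Nat.lt_or_ge s' (s + 1) with h6 | h6
          · exact ⟨s', by omega, π, h5⟩
          · have h7 : s' = s + 1 := by omega
            rw [h7, hst, h1] at h5
            exact hold _ _ _ h5)
        rw [hq]
        nlinarith [h4, hres, mul_nonneg hN0 hqpos.le]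
      · rw [hst, h3]
        simp only
        have h4 := ih (F.erase (st.1, qq (Q0 b e) π)) (by
          intro p hp
          rw [Finset.mem_erase] at hp
          obtain ⟨s', hs', π', h5⟩ := hF p hp.2
          rcases Nat.lt_or_ge s' (s + 1) with h6 | h6
          · exact ⟨s', by omega, π', h5⟩
          · have h7 : s' = s + 1 := by omega
            rw [h7, hst, h3] at h5
            rcases List.mem_cons.mp h5 with h8 | h8
            · exfalso
              apply hp.1
              rw [Prod.mk.injEq, Prod.mk.injEq] at h8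
              rw [Prod.ext_iff]
              exact ⟨h8.1, h8.2.1⟩
            · exact hold _ _ _ h8)
        have h5 : ∑ p ∈ F, (2 : ℝ)⁻¹ ^ p.2 ≤ ∑ p ∈ F.erase (st.1, qq (Q0 b e) π),
            (2 : ℝ)⁻¹ ^ p.2 + (2 : ℝ)⁻¹ ^ qq (Q0 b e) π := by
          by_cases h6 : (st.1, qq (Q0 b e) π) ∈ F
          · rw [← Finset.sum_erase_add F _ h6]
          · rw [Finset.erase_eq_of_notMem h6]
            have := gw_pow_pos (qq (Q0 b e) π)
            linarith
        have h6 : totw ((st.1, qq (Q0 b e) π, (none, st.1) :: π) :: updT b e (As s) st) =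
            (2 : ℝ)⁻¹ ^ qq (Q0 b e) π + totw (updT b e (As s) st) := by
          unfold totw
          rw [List.map_cons, List.sum_cons]
        rw [h6, hq]
        nlinarith [h4, h5, hres, mul_nonneg hN0 hqpos.le]
      · rw [hst, h3]
        simp only
        have h4 := ih F (by
          intro p hp
          obtain ⟨s', hs', π', h5⟩ := hF p hp
          rcases Nat.lt_or_ge s' (s + 1) with h6 | h6
          · exact ⟨s', by omega, π', h5⟩
          · have h7 : s' = s + 1 := by omega
            rw [h7, hst, h3] at h5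
            exact hold _ _ _ h5)
        have h5 := resv_cons_le (Q0 b e) (updI b e (As s) st) π u st.1
        have h6 := mul_le_mul_of_nonneg_left h5 hN0
        have h7 : (2 : ℝ)⁻¹ ^ (Q0 b e + st.1 + 1) = (2 : ℝ)⁻¹ ^ (Q0 b e + st.1) * (2 : ℝ)⁻¹ := by
          rw [pow_succ]
        rw [h7] at h6
        rw [hq]
        nlinarith [h4, h6, hres, mul_nonneg hN0 hqpos.le]
    · have hst : state le As U b e (s + 1) = state le As U b e s := by
        rw [hstep]
        unfold step
        rw [if_neg hact]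
      rw [hst]
      apply ih
      intro p hp
      obtain ⟨s', hs', π, h5⟩ := hF p hp
      rcases Nat.lt_or_ge s' (s + 1) with h6 | h6
      · exact ⟨s', by omega, π, h5⟩
      · have h7 : s' = s + 1 := by omega
        rw [h7, hst] at h5
        exact ⟨s, le_refl _, π, h5⟩

theorem issued_sum (le : ℕ → ℕ → ℕ → Bool) (As : ℕ → List Bool) (U : Req → Bool) (b e : ℕ)
    (hU : ∀ (X : ℕ → Bool) (F : Finset Req),
        (∀ u ∈ F, U u = true ∧ u.1 = pre X u.1.length) → ∑ u ∈ F, (2 : ℝ)⁻¹ ^ u.2.1 ≤ 1)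
    (F : Finset (ℕ × ℕ)) (hF : ∀ p ∈ F, Issued le As U b e p.1 p.2) :
    ∑ p ∈ F, (2 : ℝ)⁻¹ ^ p.2 ≤ 1 := by
  classical
  have h1 : ∀ p : ℕ × ℕ, ∃ s, p ∈ F → ∃ π, (p.1, p.2, π) ∈ (state le As U b e s).2.2 := by
    intro p
    by_cases hp : p ∈ F
    · obtain ⟨s, hs⟩ := hF p hp
      exact ⟨s, fun _ => hs⟩
    · exact ⟨0, fun h => absurd h hp⟩
  choose f hf using h1
  have h2 := issued_inv le As U b e hU (F.sup f) F (by
    intro p hp
    exact ⟨f p, Finset.le_sup hp, hf p hp⟩)
  obtain ⟨B, h⟩ := inv_state le As U b e (F.sup f)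
  have hw := winv_state le As U b e hU (F.sup f)
  set st := state le As U b e (F.sup f) with hst
  obtain ⟨d, hd⟩ := h.root
  have h3 := hw.hb _ hd
  have h4 := below_le' h hU hw.hb hd
  have h5 : qq (Q0 b e) ([] : Path) = Q0 b e := rfl
  have h6 : gg (Q0 b e) ([] : Path) = 1 := rfl
  simp only [List.length_nil, Nat.cast_zero, sub_zero] at h3 h4
  rw [h5] at h3 h4
  rw [h6] at h3
  rw [totw_eq] at h2
  have h7 : (0 : ℝ) ≤ resv (Q0 b e) st.2.1 :=
    Finset.sum_nonneg fun π _ => (gw_pow_pos _).le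
  have hN0 : (0 : ℝ) ≤ (NN b e : ℝ) := by positivity
  have h8 := mul_nonneg hN0 h7
  have h9 := mul_nonneg hN0 (gw_pow_pos (Q0 b e + st.1)).le
  have h10 : (NN b e : ℝ) * (2 : ℝ)⁻¹ ^ (Q0 b e) ≤ 1 / 16 := by
    have h11 : (NN b e : ℝ) ≤ 2 ^ (2 * e + b + 2) := by
      unfold NN
      push_cast
      rw [pow_succ (2 : ℝ) (2 * e + b + 1)]
      have h12 : (1 : ℝ) ≤ 2 ^ (2 * e + b + 1) := one_le_pow₀ (by norm_num)
      linarith
    have h12 : (2 : ℝ) ^ (2 * e + b + 2) * (2 : ℝ)⁻¹ ^ (Q0 b e) = 1 / 16 := by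
      unfold Q0
      have h13 : 2 * e + b + 6 = (2 * e + b + 2) + 4 := by ring
      rw [h13, pow_add (2 : ℝ)⁻¹ (2 * e + b + 2) 4, ← mul_assoc, ← mul_pow]
      norm_num
    calc (NN b e : ℝ) * (2 : ℝ)⁻¹ ^ (Q0 b e) ≤ 2 ^ (2 * e + b + 2) * (2 : ℝ)⁻¹ ^ (Q0 b e) :=
        mul_le_mul_of_nonneg_right h11 (gw_pow_pos _).le
      _ = 1 / 16 := h12
  nlinarith [h2, h3, h4, h8, h9, h10]

end OWR.Gold
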