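import Pool.Agent.H77.OW.Defs

/-!
# Interface between the three parts of the proof

`KSys` abstracts the staged prefix-free complexity of an optimal machine; `LK S A` says that `A` is
low for K in the form of bounded request sets.
-/

namespace OWR

open MeasureTheory Encodable Filter Topology

/-- Staged prefix-free complexity: `le s x r = true` means `K_s(x) ≤ r`. -/
structure KSys where
  le : ℕ → ℕ → ℕ → Bool
  prim : Primrec (fun p : ℕ × ℕ × ℕ => le p.1 p.2.1 p.2.2)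
  mono_s : ∀ {s t x r}, s ≤ t → le s x r = true → le t x r = true
  mono_r : ∀ {s x r r'}, r ≤ r' → le s x r = true → le s x r' = true
  /-- Kraft's inequality -/
  kraft : ∀ (F : Finset ℕ) (r : ℕ → ℕ), (∀ x ∈ F, ∃ s, le s x (r x) = true) →
    ∑ x ∈ F, (2 : ℝ)⁻¹ ^ (r x) ≤ 1
  /-- universality for r.e. request sets -/
  univ : ∀ P : ℕ → ℕ → Prop, REPred (fun p : ℕ × ℕ => P p.1 p.2) →
    (∀ F : Finset (ℕ × ℕ), (∀ p ∈ F, P p.1 p.2) → ∑ p ∈ F, (2 : ℝ)⁻¹ ^ p.1 ≤ 1) →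
    ∃ C, ∀ r x, P r x → ∃ s, le s x (r + C) = true

/-- `A` is low for K, in the form: every `A`-r.e. bounded request set is dominated by `K`. -/
def LK (S : KSys) (A : ℕ → Bool) : Prop :=
  ∀ W : List Bool → ℕ → ℕ → Prop,
    REPred (fun p : List Bool × ℕ × ℕ => W p.1 p.2.1 p.2.2) →
    (∀ F : Finset (ℕ × ℕ), (∀ p ∈ F, ∃ k, W (pre A k) p.1 p.2) →
      ∑ p ∈ F, (2 : ℝ)⁻¹ ^ p.1 ≤ 1) →
    ∃ C, ∀ k r x, W (pre A k) r x → ∃ s, S.le s x (r + C) = true

end OWR
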