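import Pool.Agent.H77.OW.Basic

/-!
# Task Meas : the uniform measure of open sets given by strings   (about 100-150 lines)

`lam = Measure.infinitePi (fun _ => (PMF.uniformOfFintype Bool).toMeasure)`.
* `lam_cyl`: a cylinder is `Set.pi (range n) (fun i => {σ_i})`; use `Measure.infinitePi_pi`.
* `lam_opn_le`: `opn S = ⋃ σ ∈ S, cyl σ`, countable union, `measure_iUnion_le`, and the tsum is the supremum of the
  finite sums.
* `sum_le_lam`: finite disjoint union of cylinders.
* `kraft_strings`: from `sum_le_lam` or from Mathlib's Kraft-McMillan.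
* `card_le_lam`: strings of a fixed length are pairwise incomparable.
-/

namespace OWR

open MeasureTheory Encodable Filter Topology

theorem meas_cyl_eq (σ : List Bool) :
    cyl σ = Set.pi (↑(Finset.range σ.length) : Set ℕ) (fun i => ({ext σ i} : Set Bool)) := by
  ext X
  simp only [cyl, Set.mem_ofPred_eq, Set.mem_pi, Finset.coe_range, Set.mem_Iio,
    Set.mem_singleton_iff]
  constructor
  · intro h i hi
    have h1 : (pre X σ.length)[i]? = σ[i]? := by rw [h]
    have h2 : i < (pre X σ.length).length := by rw [pre_length]; exact hi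
    rw [List.getElem?_eq_getElem h2, List.getElem?_eq_getElem hi, Option.some.injEq] at h1
    have h3 : (pre X σ.length)[i] = X i := by simp [pre]
    rw [h3] at h1
    rw [h1]
    simp [ext, hi]
  · intro h
    apply List.ext_getElem
    · rw [pre_length]
    · intro i h1 h2
      have h3 := h i h2
      have h4 : (pre X σ.length)[i] = X i := by simp [pre]
      rw [h4, h3]
      simp [ext, h2]

theorem measurableSet_cyl (σ : List Bool) : MeasurableSet (cyl σ) := by
  rw [meas_cyl_eq]
  exact MeasurableSet.pi (Finset.countable_toSet _) fun i _ => MeasurableSet.singleton _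

instance meas_isProb : IsProbabilityMeasure lam := by
  unfold lam
  infer_instance

theorem lam_cyl (σ : List Bool) : lam (cyl σ) = ENNReal.ofReal ((2 : ℝ)⁻¹ ^ σ.length) := by
  rw [meas_cyl_eq, lam, Measure.infinitePi_pi _ (fun i _ => MeasurableSet.singleton _)]
  have h : ∀ b : Bool, (PMF.uniformOfFintype Bool).toMeasure {b} = ENNReal.ofReal ((2 : ℝ)⁻¹) := by
    intro b
    rw [PMF.toMeasure_apply_singleton _ _ (MeasurableSet.singleton _), PMF.uniformOfFintype_apply,
      ENNReal.ofReal_inv_of_pos (by norm_num)]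
    simp
  rw [Finset.prod_congr rfl fun i _ => h (ext σ i), Finset.prod_const, Finset.card_range,
    ENNReal.ofReal_pow (by norm_num)]

theorem lam_opn_le (S : List Bool → Prop) (c : ℝ)
    (h : ∀ F : Finset (List Bool), (∀ σ ∈ F, S σ) → ∑ σ ∈ F, (2 : ℝ)⁻¹ ^ σ.length ≤ c) :
    lam (opn S) ≤ ENNReal.ofReal c := by
  have h1 : opn S ⊆ ⋃ σ : {σ : List Bool // S σ}, cyl σ.1 := by
    rintro X ⟨n, hn⟩
    refine Set.mem_iUnion.2 ⟨⟨pre X n, hn⟩, ?_⟩
    show pre X (pre X n).length = pre X n
    rw [pre_length]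
  refine (measure_mono h1).trans ((measure_iUnion_le _).trans ?_)
  rw [ENNReal.tsum_eq_iSup_sum]
  refine iSup_le fun s => ?_
  simp only [lam_cyl]
  rw [← ENNReal.ofReal_sum_of_nonneg fun _ _ => by positivity]
  refine ENNReal.ofReal_le_ofReal ?_
  have h2 := h (s.map (Function.Embedding.subtype S)) (by
    intro σ hσ
    obtain ⟨τ, _, rfl⟩ := Finset.mem_map.1 hσ
    exact τ.2)
  rw [Finset.sum_map] at h2
  exact h2

theorem meas_cyl_disjoint {σ τ : List Bool} (h1 : σ <+: τ → σ = τ) (h2 : τ <+: σ → τ = σ)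
    (hne : σ ≠ τ) : Disjoint (cyl σ) (cyl τ) := by
  rw [Set.disjoint_left]
  intro X hX hX'
  have e1 : pre X σ.length = σ := hX
  have e2 : pre X τ.length = τ := hX'
  rcases le_total σ.length τ.length with h | h
  · have := pre_isPre X h
    rw [e1, e2] at this
    exact hne (h1 this)
  · have := pre_isPre X h
    rw [e1, e2] at this
    exact hne (h2 this).symm

/-- `F` is a set of pairwise incomparable strings whose cylinders lie in `T`. -/
theorem sum_le_lam (T : Set (ℕ → Bool)) (F : Finset (List Bool))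
    (hF : ∀ σ ∈ F, ∀ τ ∈ F, σ <+: τ → σ = τ) (h : ∀ σ ∈ F, cyl σ ⊆ T) :
    ENNReal.ofReal (∑ σ ∈ F, (2 : ℝ)⁻¹ ^ σ.length) ≤ lam T := by
  rw [ENNReal.ofReal_sum_of_nonneg fun _ _ => by positivity]
  have h1 : ∑ σ ∈ F, ENNReal.ofReal ((2 : ℝ)⁻¹ ^ σ.length) = lam (⋃ σ ∈ F, cyl σ) := by
    rw [measure_biUnion_finset]
    · exact Finset.sum_congr rfl fun σ _ => (lam_cyl σ).symm
    · intro σ hσ τ hτ hne
      exact meas_cyl_disjoint (hF σ hσ τ hτ) (hF τ hτ σ hσ) hne
    · exact fun σ _ => measurableSet_cyl σ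
  rw [h1]
  exact measure_mono (Set.iUnion₂_subset h)

theorem kraft_strings (F : Finset (List Bool)) (hF : ∀ σ ∈ F, ∀ τ ∈ F, σ <+: τ → σ = τ) :
    ∑ σ ∈ F, (2 : ℝ)⁻¹ ^ σ.length ≤ 1 := by
  have h1 := sum_le_lam Set.univ F hF fun _ _ => Set.subset_univ _
  rw [measure_univ] at h1
  rwa [ENNReal.ofReal_le_one] at h1

end OWR
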