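import Pool.Agent.H77.OW.Meas

/-!
# Task Part0a : staging of the complexity of a machine, and Kraft's inequality

`le s x r` says that some string `σ` with `encode σ < s`, of length at most `r`, is mapped to `x` by the
machine in at most `s` steps (`Nat.Partrec.Code.evaln`).
-/

namespace OWR

open MeasureTheory Encodable Filter Topology

theorem cplx_le_iff (M : List Bool →. ℕ) (x r : ℕ) :
    cplx M x ≤ (r : ℕ∞) ↔ ∃ σ : List Bool, x ∈ M σ ∧ σ.length ≤ r := by
  rw [← ENat.lt_add_one_iff (ENat.natCast_ne_top r), cplx, iInf_lt_iff]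
  constructor
  · rintro ⟨⟨σ, h1⟩, h2⟩
    refine ⟨σ, h1, ?_⟩
    rw [ENat.lt_add_one_iff (ENat.natCast_ne_top r)] at h2
    exact_mod_cast h2
  · rintro ⟨σ, h1, h2⟩
    refine ⟨⟨σ, h1⟩, ?_⟩
    rw [ENat.lt_add_one_iff (ENat.natCast_ne_top r)]
    exact_mod_cast h2

/-- the staged relation for a code `c` -/
private def stagedRel (c : Nat.Partrec.Code) (n : ℕ) (p : ℕ × ℕ × ℕ) : Prop :=
  ((decode n : Option (List Bool)).map List.length).getD (p.2.2 + 1) ≤ p.2.2 ∧
    Nat.Partrec.Code.evaln p.1 c n = some p.2.1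

private theorem stagedRel_iff (c : Nat.Partrec.Code) (n : ℕ) (p : ℕ × ℕ × ℕ) :
    stagedRel c n p ↔ ∃ σ : List Bool, decode n = some σ ∧ σ.length ≤ p.2.2 ∧
      Nat.Partrec.Code.evaln p.1 c n = some p.2.1 := by
  unfold stagedRel
  constructor
  · rintro ⟨h1, h2⟩
    cases h : (decode n : Option (List Bool)) with
    | none => simp [h] at h1
    | some σ => exact ⟨σ, rfl, by simpa [h] using h1, h2⟩
  · rintro ⟨σ, h1, h2, h3⟩
    exact ⟨by simpa [h1] using h2, h3⟩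

private theorem stagedRel_prim (c : Nat.Partrec.Code) : PrimrecRel (stagedRel c) := by
  have h1 : PrimrecRel fun (n : ℕ) (p : ℕ × ℕ × ℕ) =>
      ((decode n : Option (List Bool)).map List.length).getD (p.2.2 + 1) ≤ p.2.2 := by
    refine Primrec.nat_le.comp ?_ (Primrec.snd.comp (Primrec.snd.comp Primrec.snd))
    refine Primrec.option_getD.comp ?_ (Primrec.succ.comp
      (Primrec.snd.comp (Primrec.snd.comp Primrec.snd)))
    exact Primrec.option_map (Primrec.decode.comp Primrec.fst)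
      (Primrec.list_length.comp Primrec.snd)
  have h2 : PrimrecRel fun (n : ℕ) (p : ℕ × ℕ × ℕ) =>
      Nat.Partrec.Code.evaln p.1 c n = some p.2.1 := by
    refine Primrec.eq.comp ?_ (Primrec.option_some.comp (Primrec.fst.comp
      (Primrec.snd.comp Primrec.snd)))
    exact Nat.Partrec.Code.primrec_evaln.comp
      (((Primrec.fst.comp Primrec.snd).pair (Primrec.const c)).pair Primrec.fst)
  exact h1.and h2

/-- Part0a -/
theorem staged (M : List Bool →. ℕ) (hM : Partrec M) :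
    ∃ le : ℕ → ℕ → ℕ → Bool, Primrec (fun p : ℕ × ℕ × ℕ => le p.1 p.2.1 p.2.2) ∧
      (∀ {s t x r}, s ≤ t → le s x r = true → le t x r = true) ∧
      (∀ {s x r r'}, r ≤ r' → le s x r = true → le s x r' = true) ∧
      ∀ x r, (∃ s, le s x r = true) ↔ cplx M x ≤ (r : ℕ∞) := by
  classical
  obtain ⟨c, hc⟩ := Nat.Partrec.Code.exists_code.1 hM
  have hprim : PrimrecRel fun (n : ℕ) (p : ℕ × ℕ × ℕ) => ∃ x < n, stagedRel c x p :=
    ((stagedRel_prim c).exists_mem_list.comp (Primrec.list_range.comp Primrec.fst)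
      Primrec.snd).of_eq (by simp)
  have hev : ∀ (σ : List Bool) (x : ℕ), x ∈ M σ ↔ x ∈ Nat.Partrec.Code.eval c (encode σ) := by
    intro σ x
    rw [hc]
    simp
  refine ⟨fun s x r => decide (∃ n < s, stagedRel c n (s, x, r)), ?_, ?_, ?_, ?_⟩
  · exact (hprim.comp Primrec.fst Primrec.id).decide
  · intro s t x r hst h
    rw [decide_eq_true_eq] at h ⊢
    obtain ⟨n, h1, h2⟩ := h
    rw [stagedRel_iff] at h2
    obtain ⟨σ, h3, h4, h5⟩ := h2
    refine ⟨n, h1.trans_le hst, ?_⟩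
    rw [stagedRel_iff]
    exact ⟨σ, h3, h4, Nat.Partrec.Code.evaln_mono hst h5⟩
  · intro s x r r' hr h
    rw [decide_eq_true_eq] at h ⊢
    obtain ⟨n, h1, h2⟩ := h
    rw [stagedRel_iff] at h2
    obtain ⟨σ, h3, h4, h5⟩ := h2
    refine ⟨n, h1, ?_⟩
    rw [stagedRel_iff]
    exact ⟨σ, h3, h4.trans hr, h5⟩
  · intro x r
    rw [cplx_le_iff]
    constructor
    · rintro ⟨s, h⟩
      rw [decide_eq_true_eq] at h
      obtain ⟨n, h1, h2⟩ := h
      rw [stagedRel_iff] at h2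
      obtain ⟨σ, h3, h4, h5⟩ := h2
      refine ⟨σ, ?_, h4⟩
      have h6 := Nat.Partrec.Code.evaln_sound h5
      rw [hc] at h6
      simpa [h3] using h6
    · rintro ⟨σ, h1, h2⟩
      rw [hev, Nat.Partrec.Code.evaln_complete] at h1
      obtain ⟨k, hk⟩ := h1
      refine ⟨max k (encode σ + 1), ?_⟩
      rw [decide_eq_true_eq]
      refine ⟨encode σ, (Nat.lt_succ_self _).trans_le (le_max_right _ _), ?_⟩
      rw [stagedRel_iff]
      exact ⟨σ, encodek σ, h2, Nat.Partrec.Code.evaln_mono (le_max_left _ _) hk⟩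

/-- Part0a -/
theorem kraft_machine (M : List Bool →. ℕ) (hM : PFMachine M) (F : Finset ℕ) (r : ℕ → ℕ)
    (h : ∀ x ∈ F, cplx M x ≤ (r x : ℕ∞)) : ∑ x ∈ F, (2 : ℝ)⁻¹ ^ (r x) ≤ 1 := by
  classical
  have h1 : ∀ x : ℕ, ∃ σ : List Bool, x ∈ F → x ∈ M σ ∧ σ.length ≤ r x := by
    intro x
    by_cases hx : x ∈ F
    · obtain ⟨σ, hσ⟩ := (cplx_le_iff M x (r x)).1 (h x hx)
      exact ⟨σ, fun _ => hσ⟩
    · exact ⟨[], fun h => absurd h hx⟩
  choose τ hτ using h1
  have hinj : Set.InjOn τ F := by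
    intro x hx y hy hxy
    have h2 := (hτ x hx).1
    have h3 := (hτ y hy).1
    rw [hxy] at h2
    exact Part.mem_unique h2 h3
  calc ∑ x ∈ F, (2 : ℝ)⁻¹ ^ (r x) ≤ ∑ x ∈ F, (2 : ℝ)⁻¹ ^ (τ x).length := by
        refine Finset.sum_le_sum fun x hx => ?_
        exact pow_le_pow_of_le_one (by norm_num) (by norm_num) (hτ x hx).2
    _ = ∑ σ ∈ F.image τ, (2 : ℝ)⁻¹ ^ σ.length := by
        rw [Finset.sum_image hinj]
    _ ≤ 1 := by
        apply kraft_strings
        intro σ hσ ρ hρ hp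
        obtain ⟨x, hx, rfl⟩ := Finset.mem_image.1 hσ
        obtain ⟨y, hy, rfl⟩ := Finset.mem_image.1 hρ
        exact hM.pf _ _ (Part.dom_iff_mem.2 ⟨x, (hτ x hx).1⟩)
          (Part.dom_iff_mem.2 ⟨y, (hτ y hy).1⟩) hp

end OWR
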