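import Pool.Agent.H77.OW.Basic

/-!
# The price process: definition and primitive recursiveness
-/

namespace OWR.Price

open Encodable

/-- items `(k, n, σ, j)` : block, step, string, price level -/
abbrev Item := ℕ × ℕ × List Bool × ℕ
/-- accepted items with their stages, newest first -/
abbrev Hist := List (ℕ × Item)

def RR (a0 c : ℕ) : ℕ := a0 + 2 * c + 5

def DD (a0 c k : ℕ) : ℕ := k + 1 + RR a0 c

/-- the weight of an item is `2 ^ (- wex)` -/
def wex (y : Item) : ℕ := y.2.2.2 + y.2.2.1.length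

/-- the step of block `k` at stage `t` -/
def stp (B : ℕ → ℕ) (a0 c k t : ℕ) : ℕ := B t * 2 ^ DD a0 c k / 2 ^ t

/-- scaled weight of the entries accepted at stage `k` or later -/
def sumW (L : Hist) (t k : ℕ) : ℕ := (L.map fun p => if k ≤ p.1 then 2 ^ (t - wex p.2) else 0).sum

/-- scaled measure of the entries of block `k` -/
def sumY (L : Hist) (t k : ℕ) : ℕ :=
  (L.map fun p => if p.2.1 = k then 2 ^ (t - p.2.2.2.1.length) else 0).sum

/-- the slack of block `k` at stage `t`, scaled by `2 ^ t` -/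
def slk (B : ℕ → ℕ) (a0 c : ℕ) (L : Hist) (t k : ℕ) : ℕ :=
  (2 ^ RR a0 c * B t + sumW L t k + 2 ^ (t - k)) -
    (2 ^ RR a0 c * (2 ^ (t - k) * B k) + sumY L t k)

/-- the price level of block `k` at stage `t` -/
def lev (B : ℕ → ℕ) (a0 c : ℕ) (L : Hist) (t k : ℕ) : ℕ :=
  2 ^ (k + 1) * slk B a0 c L t k / 2 ^ t

variable (le : ℕ → ℕ → ℕ → Bool) (B : ℕ → ℕ) (a0 : ℕ)

/-- acceptance condition -/
def accC (c : ℕ) (L : Hist) (t : ℕ) (y : Item) : Prop :=
  y.1 ≤ t ∧ y.1 + 1 ≤ y.2.2.1.length ∧ wex y ≤ t ∧ y.2.1 = stp B a0 c y.1 t ∧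
  (∀ p ∈ L, ¬ (p.2.1 = y.1 ∧ p.2.2.2.1 = y.2.2.1)) ∧
  le t (encode (c, y)) (wex y + 2 * c) = true ∧
  y.2.2.2 ≤ lev B a0 c L t y.1

instance (c : ℕ) (L : Hist) (t : ℕ) (y : Item) : Decidable (accC le B a0 c L t y) := by
  unfold accC; infer_instance

def next (c t : ℕ) (L : Hist) : Hist :=
  (decode (α := Item) t.unpair.1).elim L
    (fun y => if accC le B a0 c L t y then (t, y) :: L else L)

/-- the history before stage `t` -/
def hist (c : ℕ) : ℕ → Hist
  | 0 => []
  | t + 1 => next le B a0 c t (hist c t)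

/-! ### primitive recursiveness -/

theorem prim_pow2 {α : Type*} [Primcodable α] {f : α → ℕ} (hf : Primrec f) :
    Primrec fun a => 2 ^ f a := by
  have h : Primrec (fun n : ℕ => 2 ^ n) := by
    have : Nat.Primrec (fun n => 2 ^ n) := by
      have h2 := Nat.Primrec.pow
      have := h2.comp ((Nat.Primrec.const 2).pair Nat.Primrec.id)
      simpa [Nat.unpaired] using this
    exact Primrec.nat_iff.2 this
  exact h.comp hf

theorem prim_option_elim {α β σ : Type*} [Primcodable α] [Primcodable β] [Primcodable σ]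
    {o : α → Option β} {f : α → σ} {g : α → β → σ} (ho : Primrec o) (hf : Primrec f)
    (hg : Primrec₂ g) : Primrec fun a => (o a).elim (f a) (g a) :=
  (Primrec.option_casesOn ho hf hg).of_eq fun a => by cases o a <;> rfl

theorem prim_list_sum : Primrec (List.sum : List ℕ → ℕ) := by
  have h : Primrec₂ (fun (_ : List ℕ) (p : ℕ × ℕ) => p.1 + p.2) :=
    Primrec.nat_add.comp (Primrec.fst.comp Primrec.snd) (Primrec.snd.comp Primrec.snd)
  exact Primrec.list_foldr (f := fun l : List ℕ => l) Primrec.id (Primrec.const 0) h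

theorem prim_wex : Primrec wex := by
  have h1 : Primrec (fun y : Item => y.2.2.2) := Primrec.snd.comp (Primrec.snd.comp Primrec.snd)
  have h2 : Primrec (fun y : Item => y.2.2.1.length) :=
    Primrec.list_length.comp (Primrec.fst.comp (Primrec.snd.comp Primrec.snd))
  exact Primrec.nat_add.comp h1 h2

theorem prim_RR (a0 : ℕ) : Primrec (RR a0) := by
  unfold RR
  exact Primrec.nat_add.comp (Primrec.nat_add.comp (Primrec.const a0)
    (Primrec.nat_mul.comp (Primrec.const 2) Primrec.id)) (Primrec.const 5)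

theorem prim_DD (a0 : ℕ) {α : Type*} [Primcodable α] {c k : α → ℕ} (hc : Primrec c)
    (hk : Primrec k) : Primrec fun a => DD a0 (c a) (k a) := by
  unfold DD
  exact Primrec.nat_add.comp (Primrec.nat_add.comp hk (Primrec.const 1)) ((prim_RR a0).comp hc)

variable {le B a0}

theorem prim_stp (hB : Primrec B) {α : Type*} [Primcodable α] {c k t : α → ℕ} (hc : Primrec c)
    (hk : Primrec k) (ht : Primrec t) : Primrec fun a => stp B a0 (c a) (k a) (t a) := by
  unfold stp
  exact Primrec.nat_div.comp (Primrec.nat_mul.comp (hB.comp ht) (prim_pow2 (prim_DD a0 hc hk)))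
    (prim_pow2 ht)

theorem prim_sumW {α : Type*} [Primcodable α] {L : α → Hist} {t k : α → ℕ} (hL : Primrec L)
    (ht : Primrec t) (hk : Primrec k) : Primrec fun a => sumW (L a) (t a) (k a) := by
  unfold sumW
  refine prim_list_sum.comp (Primrec.list_map hL ?_)
  refine Primrec.ite ?_ ?_ (Primrec.const 0)
  · exact Primrec.nat_le.comp (hk.comp Primrec.fst) (Primrec.fst.comp Primrec.snd)
  · exact prim_pow2 (Primrec.nat_sub.comp (ht.comp Primrec.fst)
      (prim_wex.comp (Primrec.snd.comp Primrec.snd)))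

theorem prim_sumY {α : Type*} [Primcodable α] {L : α → Hist} {t k : α → ℕ} (hL : Primrec L)
    (ht : Primrec t) (hk : Primrec k) : Primrec fun a => sumY (L a) (t a) (k a) := by
  unfold sumY
  refine prim_list_sum.comp (Primrec.list_map hL ?_)
  refine Primrec.ite ?_ ?_ (Primrec.const 0)
  · exact Primrec.eq.comp (Primrec.fst.comp (Primrec.snd.comp Primrec.snd)) (hk.comp Primrec.fst)
  · exact prim_pow2 (Primrec.nat_sub.comp (ht.comp Primrec.fst)
      (Primrec.list_length.comp (Primrec.fst.comp (Primrec.snd.comp (Primrec.snd.comp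
        (Primrec.snd.comp Primrec.snd))))))

theorem prim_slk (hB : Primrec B) {α : Type*} [Primcodable α] {c : α → ℕ} {L : α → Hist}
    {t k : α → ℕ} (hc : Primrec c) (hL : Primrec L) (ht : Primrec t) (hk : Primrec k) :
    Primrec fun a => slk B a0 (c a) (L a) (t a) (k a) := by
  unfold slk
  have hR : Primrec fun a => 2 ^ RR a0 (c a) := prim_pow2 ((prim_RR a0).comp hc)
  have htk : Primrec fun a => 2 ^ (t a - k a) := prim_pow2 (Primrec.nat_sub.comp ht hk)
  refine Primrec.nat_sub.comp ?_ ?_
  · exact Primrec.nat_add.comp (Primrec.nat_add.comp (Primrec.nat_mul.comp hR (hB.comp ht))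
      (prim_sumW hL ht hk)) htk
  · exact Primrec.nat_add.comp (Primrec.nat_mul.comp hR (Primrec.nat_mul.comp htk (hB.comp hk)))
      (prim_sumY hL ht hk)

theorem prim_lev (hB : Primrec B) {α : Type*} [Primcodable α] {c : α → ℕ} {L : α → Hist}
    {t k : α → ℕ} (hc : Primrec c) (hL : Primrec L) (ht : Primrec t) (hk : Primrec k) :
    Primrec fun a => lev B a0 (c a) (L a) (t a) (k a) := by
  unfold lev
  exact Primrec.nat_div.comp (Primrec.nat_mul.comp
    (prim_pow2 (Primrec.nat_add.comp hk (Primrec.const 1))) (prim_slk hB hc hL ht hk))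
    (prim_pow2 ht)

theorem prim_accC (hle : Primrec (fun p : ℕ × ℕ × ℕ => le p.1 p.2.1 p.2.2)) (hB : Primrec B)
    {α : Type*} [Primcodable α] {c : α → ℕ} {L : α → Hist} {t : α → ℕ} {y : α → Item}
    (hc : Primrec c) (hL : Primrec L) (ht : Primrec t) (hy : Primrec y) :
    PrimrecPred fun a => accC le B a0 (c a) (L a) (t a) (y a) := by
  unfold accC
  have y1 : Primrec fun a => (y a).1 := Primrec.fst.comp hy
  have y21 : Primrec fun a => (y a).2.1 := Primrec.fst.comp (Primrec.snd.comp hy)
  have y221 : Primrec fun a => (y a).2.2.1 :=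
    Primrec.fst.comp (Primrec.snd.comp (Primrec.snd.comp hy))
  have y222 : Primrec fun a => (y a).2.2.2 :=
    Primrec.snd.comp (Primrec.snd.comp (Primrec.snd.comp hy))
  have hw : Primrec fun a => wex (y a) := prim_wex.comp hy
  refine PrimrecPred.and (Primrec.nat_le.comp y1 ht) ?_
  refine PrimrecPred.and (Primrec.nat_le.comp (Primrec.nat_add.comp y1 (Primrec.const 1))
    (Primrec.list_length.comp y221)) ?_
  refine PrimrecPred.and (Primrec.nat_le.comp hw ht) ?_
  refine PrimrecPred.and (Primrec.eq.comp y21 (prim_stp hB hc y1 ht)) ?_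
  refine PrimrecPred.and ?_ ?_
  · have hR : PrimrecRel (fun (p : ℕ × Item) (v : ℕ × List Bool) =>
        ¬ (p.2.1 = v.1 ∧ p.2.2.2.1 = v.2)) := by
      refine PrimrecPred.not ?_
      refine PrimrecPred.and ?_ ?_
      · exact Primrec.eq.comp (Primrec.fst.comp (Primrec.snd.comp Primrec.fst))
          (Primrec.fst.comp Primrec.snd)
      · exact Primrec.eq.comp (Primrec.fst.comp (Primrec.snd.comp (Primrec.snd.comp
          (Primrec.snd.comp Primrec.fst)))) (Primrec.snd.comp Primrec.snd)
    exact (PrimrecRel.forall_mem_list hR).comp hL (Primrec.pair y1 y221)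
  refine PrimrecPred.and ?_ ?_
  · have : Primrec fun a => le (t a) (encode (c a, y a)) (wex (y a) + 2 * c a) :=
      hle.comp (Primrec.pair ht (Primrec.pair (Primrec.encode.comp (Primrec.pair hc hy))
        (Primrec.nat_add.comp hw (Primrec.nat_mul.comp (Primrec.const 2) hc))))
    exact Primrec.eq.comp this (Primrec.const true)
  · exact Primrec.nat_le.comp y222 (prim_lev hB hc hL ht y1)

theorem prim_hist (hle : Primrec (fun p : ℕ × ℕ × ℕ => le p.1 p.2.1 p.2.2)) (hB : Primrec B) :
    Primrec₂ (hist le B a0) := by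
  have hnext : Primrec₂ (fun (c : ℕ) (p : ℕ × Hist) => next le B a0 c p.1 p.2) := by
    unfold next
    have hd : Primrec (fun p : ℕ × (ℕ × Hist) => (decode (α := Item) p.2.1.unpair.1)) :=
      Primrec.decode.comp (Primrec.fst.comp (Primrec.unpair.comp
        (Primrec.fst.comp Primrec.snd)))
    have hg : Primrec₂ (fun (p : ℕ × (ℕ × Hist)) (y : Item) =>
        if accC le B a0 p.1 p.2.2 p.2.1 y then (p.2.1, y) :: p.2.2 else p.2.2) := by
      refine Primrec.ite (prim_accC hle hB (Primrec.fst.comp Primrec.fst)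
        (Primrec.snd.comp (Primrec.snd.comp Primrec.fst))
        (Primrec.fst.comp (Primrec.snd.comp Primrec.fst)) Primrec.snd) ?_
        (Primrec.snd.comp (Primrec.snd.comp Primrec.fst))
      exact Primrec.list_cons.comp (Primrec.pair
        (Primrec.fst.comp (Primrec.snd.comp Primrec.fst)) Primrec.snd)
        (Primrec.snd.comp (Primrec.snd.comp Primrec.fst))
    have hL : Primrec (fun p : ℕ × (ℕ × Hist) => p.2.2) := Primrec.snd.comp Primrec.snd
    exact prim_option_elim hd hL hg
  have hrec : Primrec₂ (fun (c : ℕ) (t : ℕ) =>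
      Nat.rec (motive := fun _ => Hist) [] (fun t L => next le B a0 c t L) t) :=
    Primrec.nat_rec (Primrec.const []) hnext
  refine hrec.of_eq ?_
  intro c t
  induction t with
  | zero => rfl
  | succ t ih => simp only [hist, ih]

end OWR.Price
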