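import Pool.Agent.H77.OW.PriceReal

/-!
# The price process: the total price of the true requests is at most one
-/

namespace OWR.Price

open Encodable Finset

variable (le : ℕ → ℕ → ℕ → Bool) {B : ℕ → ℕ} (a0 : ℕ)

theorem stp_spec (c k t : ℕ) :
    (stp B a0 c k t : ℝ) ≤ bet B t * 2 ^ DD a0 c k ∧
      bet B t * 2 ^ DD a0 c k < (stp B a0 c k t : ℝ) + 1 := by
  have h3 : (0 : ℝ) < 2 ^ t := by positivity
  constructor
  · have h1 : stp B a0 c k t * 2 ^ t ≤ B t * 2 ^ DD a0 c k := Nat.div_mul_le_self _ _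
    have h2 : (stp B a0 c k t : ℝ) * 2 ^ t ≤ B t * 2 ^ DD a0 c k := by exact_mod_cast h1
    unfold bet
    rw [div_mul_eq_mul_div, le_div_iff₀ h3]
    exact h2
  · have h1 : B t * 2 ^ DD a0 c k < (stp B a0 c k t + 1) * 2 ^ t := by
      have := Nat.lt_mul_div_succ (B t * 2 ^ DD a0 c k) (b := 2 ^ t) (by positivity)
      rw [mul_comm (_ + 1)]; exact this
    have h2 : (B t : ℝ) * 2 ^ DD a0 c k < ((stp B a0 c k t : ℝ) + 1) * 2 ^ t := by
      exact_mod_cast h1
    unfold bet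
    rw [div_mul_eq_mul_div, div_lt_iff₀ h3]
    exact h2

theorem stp_mono (hB : ∀ t, 2 * B t ≤ B (t + 1)) (c k : ℕ) : Monotone fun t => stp B a0 c k t := by
  refine monotone_nat_of_le_succ fun t => ?_
  unfold stp
  rw [Nat.le_div_iff_mul_le (by positivity), pow_succ]
  have h1 := Nat.div_mul_le_self (B t * 2 ^ DD a0 c k) (2 ^ t)
  have h2 := hB t
  calc B t * 2 ^ DD a0 c k / 2 ^ t * (2 ^ t * 2)
      = (B t * 2 ^ DD a0 c k / 2 ^ t * 2 ^ t) * 2 := by ring
    _ ≤ (B t * 2 ^ DD a0 c k) * 2 := by gcongr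
    _ = (2 * B t) * 2 ^ DD a0 c k := by ring
    _ ≤ B (t + 1) * 2 ^ DD a0 c k := by gcongr

/-- the potential halves over two steps -/
theorem pot_half (hB : ∀ t, 2 * B t ≤ B (t + 1)) (c : ℕ) {k t t' : ℕ} (h : k ≤ t) (h' : t ≤ t')
    (h2 : stp B a0 c k t + 2 ≤ stp B a0 c k t') :
    pot le B a0 c k t' ≤ pot le B a0 c k t / 2 +
      2 ^ (k + 1) * (ownW (hist le B a0 c t') k - ownW (hist le B a0 c t) k) := by
  refine (pot_le le a0 hB c h h').trans ?_
  gcongr
  rw [div_eq_mul_inv]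
  have hp := pot_pos le a0 c k t (B := B)
  refine mul_le_mul_of_nonneg_left ?_ hp.le
  have h3 := (stp_spec (B := B) a0 c k t).2
  have h4 := (stp_spec (B := B) a0 c k t').1
  have h5 : (stp B a0 c k t : ℝ) + 2 ≤ stp B a0 c k t' := by exact_mod_cast h2
  have h6 : (1 : ℝ) ≤ (bet B t' - bet B t) * 2 ^ DD a0 c k := by
    rw [sub_mul]; linarith
  have h7 : (2 : ℝ) ^ (k + 1) * (2 ^ RR a0 c * (bet B t' - bet B t)) =
      (bet B t' - bet B t) * 2 ^ DD a0 c k := by
    unfold DD; rw [pow_add 2 (k + 1)]; ring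
  rw [h7]
  calc (2 : ℝ) ^ (-((bet B t' - bet B t) * 2 ^ DD a0 c k)) ≤ (2 : ℝ) ^ (-1 : ℝ) := by
        apply Real.rpow_le_rpow_of_exponent_le (by norm_num)
        linarith
    _ = 2⁻¹ := by rw [Real.rpow_neg_one]

theorem chain_bound (hB : ∀ t, 2 * B t ≤ B (t + 1)) (c k : ℕ) (τ : ℕ → ℕ) (par : ℕ)
    (N : Finset ℕ) (hτ : ∀ n ∈ N, k ≤ τ n ∧ stp B a0 c k (τ n) = n)
    (hpar : ∀ n ∈ N, n % 2 = par) :
    ∀ m ∈ N, (∀ x ∈ N, x ≤ m) → ∑ n ∈ N, pot le B a0 c k (τ n) + pot le B a0 c k (τ m) ≤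
      1 / 2 + 2 * 2 ^ (k + 1) * ownW (hist le B a0 c (τ m)) k := by
  induction N using Finset.induction_on_max with
  | empty => intro m hm; simp at hm
  | insert a s has ih =>
    intro m hm hmax
    have hma : m = a := by
      rcases Finset.mem_insert.1 hm with h | h
      · exact h
      · have := hmax a (Finset.mem_insert_self _ _)
        have := has m h
        omega
    subst hma
    have hms : m ∉ s := fun h => lt_irrefl _ (has m h)
    rw [Finset.sum_insert hms]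
    have hτm := hτ m (Finset.mem_insert_self _ _)
    rcases s.eq_empty_or_nonempty with rfl | hne
    · rw [Finset.sum_empty]
      have h1 := pot_le le a0 hB c (le_refl k) hτm.1
      have h2 : pot le B a0 c k k *
          (2 : ℝ) ^ (-(2 ^ (k + 1) * (2 ^ RR a0 c * (bet B (τ m) - bet B k)))) ≤ 1 / 4 * 1 := by
        rw [pot_init]
        refine mul_le_mul_of_nonneg_left ?_ (by norm_num)
        apply Real.rpow_le_one_of_one_le_of_nonpos (by norm_num)
        have hb : bet B k ≤ bet B (τ m) := bet_mono hB hτm.1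
        have hR : (0 : ℝ) < 2 ^ RR a0 c := by positivity
        have : 0 ≤ (2 : ℝ) ^ (k + 1) * (2 ^ RR a0 c * (bet B (τ m) - bet B k)) :=
          mul_nonneg (by positivity) (mul_nonneg hR.le (sub_nonneg.2 hb))
        linarith
      have h3 := ownW_nonneg (hist le B a0 c k) k
      have h4 : (0 : ℝ) < 2 ^ (k + 1) := by positivity
      nlinarith
    · obtain ⟨m', hm', hm'max⟩ := s.exists_max_image id hne
      simp only [id] at hm'max
      have h1 := ih (fun n hn => hτ n (Finset.mem_insert_of_mem hn))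
        (fun n hn => hpar n (Finset.mem_insert_of_mem hn)) m' hm' hm'max
      have hτm' := hτ m' (Finset.mem_insert_of_mem hm')
      have hlt : m' < m := has m' hm'
      have hp1 := hpar m (Finset.mem_insert_self _ _)
      have hp2 := hpar m' (Finset.mem_insert_of_mem hm')
      have h2 : m' + 2 ≤ m := by omega
      have h3 : τ m' ≤ τ m := by
        by_contra hc
        push Not at hc
        have := stp_mono a0 hB c k hc.le
        simp only [hτm.2, hτm'.2] at this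
        omega
      have h4 := pot_half le a0 hB c hτm'.1 h3 (by rw [hτm.2, hτm'.2]; exact h2)
      nlinarith

/-- the chain bound with a uniform time bound -/
theorem chain_bound' (hB : ∀ t, 2 * B t ≤ B (t + 1)) (c k : ℕ) (τ : ℕ → ℕ) (par T : ℕ)
    (N : Finset ℕ) (hτ : ∀ n ∈ N, k ≤ τ n ∧ stp B a0 c k (τ n) = n)
    (hT : ∀ n ∈ N, τ n ≤ T) (hpar : ∀ n ∈ N, n % 2 = par) :
    ∑ n ∈ N, pot le B a0 c k (τ n) ≤
      1 / 2 + 2 * 2 ^ (k + 1) * ownW (hist le B a0 c T) k := by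
  rcases N.eq_empty_or_nonempty with rfl | hne
  · have := ownW_nonneg (hist le B a0 c T) k
    rw [Finset.sum_empty]; positivity
  · obtain ⟨m, hm, hmax⟩ := N.exists_max_image id hne
    simp only [id] at hmax
    have h1 := chain_bound le a0 hB c k τ par N hτ hpar m hm hmax
    have h2 := pot_pos le a0 c k (τ m) (B := B)
    have h3 : ownW (hist le B a0 c (τ m)) k ≤ ownW (hist le B a0 c T) k :=
      ownW_mono le a0 c k (hT m hm)
    have h4 : (0 : ℝ) < 2 ^ (k + 1) := by positivity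
    nlinarith

theorem geom_le (J : Finset ℕ) (m : ℕ) (h : ∀ j ∈ J, m ≤ j) :
    ∑ j ∈ J, (2 : ℝ)⁻¹ ^ j ≤ 2 * (2 : ℝ)⁻¹ ^ m := by
  have h1 : ∀ M, ∑ j ∈ Finset.Ico m (m + M), (2 : ℝ)⁻¹ ^ j ≤
      2 * (2 : ℝ)⁻¹ ^ m - 2 * (2 : ℝ)⁻¹ ^ (m + M) := by
    intro M
    induction M with
    | zero => simp
    | succ M ih =>
      rw [← add_assoc, Finset.sum_Ico_succ_top (by omega), pow_succ _ (m + M)]
      linarith
  obtain ⟨M, hM⟩ : ∃ M, ∀ j ∈ J, j < m + M := by
    refine ⟨J.sup id + 1, fun j hj => ?_⟩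
    have : j ≤ J.sup id := Finset.le_sup (f := id) hj
    omega
  refine (Finset.sum_le_sum_of_subset_of_nonneg (t := Finset.Ico m (m + M)) ?_ ?_).trans
    ((h1 M).trans ?_)
  · intro j hj
    exact Finset.mem_Ico.2 ⟨h j hj, hM j hj⟩
  · intro j _ _; positivity
  · have : 0 < (2 : ℝ)⁻¹ ^ (m + M) := by positivity
    linarith

/-- the total of the price levels of block `k` -/
theorem block_bound (hB : ∀ t, 2 * B t ≤ B (t + 1)) (c k T : ℕ) (J : Finset (ℕ × ℕ))
    (hJ : ∀ p ∈ J, ∃ t, k ≤ t ∧ t ≤ T ∧ stp B a0 c k t = p.1 ∧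
      lev B a0 c (hist le B a0 c t) t k = p.2) :
    ∑ p ∈ J, (2 : ℝ)⁻¹ ^ p.2 ≤ 4 + 16 * 2 ^ (k + 1) * ownW (hist le B a0 c T) k := by
  classical
  set N := J.image Prod.fst with hN
  have hmin : ∀ n ∈ N, ∃ t, k ≤ t ∧ t ≤ T ∧ stp B a0 c k t = n ∧
      ∀ p ∈ J, p.1 = n → lev B a0 c (hist le B a0 c t) t k ≤ p.2 := by
    intro n hn
    obtain ⟨p, hp, hpn⟩ := Finset.mem_image.1 hn
    have hne : (J.filter (fun p => p.1 = n)).Nonempty := ⟨p, by simp [hp, hpn]⟩
    obtain ⟨q, hq, hqm⟩ := Finset.exists_min_image _ (fun p => p.2) hne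
    rw [Finset.mem_filter] at hq
    obtain ⟨t, h1, h2, h3, h4⟩ := hJ q hq.1
    refine ⟨t, h1, h2, by rw [h3, hq.2], fun p' hp' hp'n => ?_⟩
    rw [h4]
    exact hqm p' (by simp [hp', hp'n])
  choose! τ hτ using hmin
  have hsum : ∑ p ∈ J, (2 : ℝ)⁻¹ ^ p.2 =
      ∑ n ∈ N, ∑ p ∈ J.filter (fun p => p.1 = n), (2 : ℝ)⁻¹ ^ p.2 := by
    rw [hN]
    exact (Finset.sum_fiberwise_of_maps_to (fun p hp => Finset.mem_image_of_mem _ hp) _).symm
  have hfib : ∀ n ∈ N, ∑ p ∈ J.filter (fun p => p.1 = n), (2 : ℝ)⁻¹ ^ p.2 ≤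
      4 * pot le B a0 c k (τ n) := by
    intro n hn
    obtain ⟨h1, h2, h3, h4⟩ := hτ n hn
    have e1 : ∑ p ∈ J.filter (fun p => p.1 = n), (2 : ℝ)⁻¹ ^ p.2 =
        ∑ j ∈ (J.filter (fun p => p.1 = n)).image Prod.snd, (2 : ℝ)⁻¹ ^ j := by
      rw [Finset.sum_image]
      intro p hp q hq hpq
      have hp' := (Finset.mem_filter.1 (Finset.mem_coe.1 hp)).2
      have hq' := (Finset.mem_filter.1 (Finset.mem_coe.1 hq)).2
      exact Prod.ext (hp'.trans hq'.symm) hpq
    rw [e1]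
    refine (geom_le _ (lev B a0 c (hist le B a0 c (τ n)) (τ n) k) ?_).trans ?_
    · intro j hj
      obtain ⟨p, hp, rfl⟩ := Finset.mem_image.1 hj
      obtain ⟨hp1, hp2⟩ := Finset.mem_filter.1 hp
      exact h4 p hp1 hp2
    · have hs := sl_nonneg le a0 hB c h1
      have h5 := lt_lev le B a0 c h1 hs
      have h6 : (2 : ℝ)⁻¹ ^ (lev B a0 c (hist le B a0 c (τ n)) (τ n) k) ≤
          2 * pot le B a0 c k (τ n) := by
        generalize lev B a0 c (hist le B a0 c (τ n)) (τ n) k = j at *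
        unfold pot
        have e2 : (2 : ℝ)⁻¹ ^ j = (2 : ℝ) ^ (-(j : ℝ)) := by
          rw [Real.rpow_neg (by norm_num), Real.rpow_natCast, inv_pow]
        have e3 : 2 * (2 : ℝ) ^ (-(2 ^ (k + 1) * sl le B a0 c k (τ n))) =
            (2 : ℝ) ^ (1 + -(2 ^ (k + 1) * sl le B a0 c k (τ n))) := by
          rw [Real.rpow_add (by norm_num), Real.rpow_one]
        rw [e2, e3]
        apply Real.rpow_le_rpow_of_exponent_le (by norm_num)
        linarith
      linarith
  rw [hsum]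
  refine (Finset.sum_le_sum hfib).trans ?_
  rw [← Finset.mul_sum]
  have hsplit : ∑ n ∈ N, pot le B a0 c k (τ n) =
      ∑ n ∈ N.filter (fun n => n % 2 = 0), pot le B a0 c k (τ n) +
      ∑ n ∈ N.filter (fun n => ¬ n % 2 = 0), pot le B a0 c k (τ n) :=
    (Finset.sum_filter_add_sum_filter_not _ _ _).symm
  have h1 := chain_bound' le a0 hB c k τ 0 T (N.filter (fun n => n % 2 = 0))
    (fun n hn => ⟨(hτ n (Finset.mem_filter.1 hn).1).1, (hτ n (Finset.mem_filter.1 hn).1).2.2.1⟩)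
    (fun n hn => (hτ n (Finset.mem_filter.1 hn).1).2.1) (fun n hn => (Finset.mem_filter.1 hn).2)
  have h2 := chain_bound' le a0 hB c k τ 1 T (N.filter (fun n => ¬ n % 2 = 0))
    (fun n hn => ⟨(hτ n (Finset.mem_filter.1 hn).1).1, (hτ n (Finset.mem_filter.1 hn).1).2.2.1⟩)
    (fun n hn => (hτ n (Finset.mem_filter.1 hn).1).2.1)
    (fun n hn => by have := (Finset.mem_filter.1 hn).2; omega)
  rw [hsplit]
  linarith

end OWR.Price
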