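import Pool.Agent.H77.OW.Price

/-!
# The price process: real-valued analysis
-/

namespace OWR.Price

open Encodable Finset

variable (le : ℕ → ℕ → ℕ → Bool) (B : ℕ → ℕ) (a0 : ℕ)

/-- weight of an item -/
noncomputable def wR (y : Item) : ℝ := (2 : ℝ)⁻¹ ^ wex y
/-- measure of an item -/
noncomputable def mR (y : Item) : ℝ := (2 : ℝ)⁻¹ ^ y.2.2.1.length

noncomputable def bet (t : ℕ) : ℝ := (B t : ℝ) / 2 ^ t

/-- total weight of the history -/
noncomputable def totW (L : Hist) : ℝ := (L.map fun p => wR p.2).sum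

/-- total weight of the entries of block `k` -/
noncomputable def ownW (L : Hist) (k : ℕ) : ℝ :=
  (L.map fun p => if p.2.1 = k then wR p.2 else 0).sum

/-- total measure of the entries of block `k` -/
noncomputable def totY (L : Hist) (k : ℕ) : ℝ :=
  (L.map fun p => if p.2.1 = k then mR p.2 else 0).sum

noncomputable def gam (c t : ℕ) : ℝ := 2 ^ RR a0 c * bet B t + totW (hist le B a0 c t)

noncomputable def sl (c k t : ℕ) : ℝ :=
  gam le B a0 c t - gam le B a0 c k + (2 : ℝ)⁻¹ ^ k - totY (hist le B a0 c t) k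

theorem wR_pos (y : Item) : 0 < wR y := by unfold wR; positivity
theorem mR_pos (y : Item) : 0 < mR y := by unfold mR; positivity
theorem wR_eq (y : Item) : wR y = (2 : ℝ)⁻¹ ^ y.2.2.2 * mR y := by
  unfold wR mR wex; rw [pow_add]
theorem wR_le_mR (y : Item) : wR y ≤ mR y := by
  rw [wR_eq]
  have : (2 : ℝ)⁻¹ ^ y.2.2.2 ≤ 1 := pow_le_one₀ (by norm_num) (by norm_num)
  nlinarith [mR_pos y]

/-- one step of the history -/
theorem hist_succ (c t : ℕ) : hist le B a0 c (t + 1) = hist le B a0 c t ∨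
    ∃ y, hist le B a0 c (t + 1) = (t, y) :: hist le B a0 c t ∧
      accC le B a0 c (hist le B a0 c t) t y := by
  have h : hist le B a0 c (t + 1) = next le B a0 c t (hist le B a0 c t) := rfl
  rw [h]
  unfold next
  cases hd : (decode (α := Item) t.unpair.1) with
  | none => left; rfl
  | some y =>
    simp only [Option.elim]
    split
    · right; exact ⟨y, rfl, by assumption⟩
    · left; rfl

theorem totW_nonneg (L : Hist) : 0 ≤ totW L := by
  unfold totW
  apply List.sum_nonneg
  intro x hx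
  obtain ⟨p, -, rfl⟩ := List.mem_map.1 hx
  exact (wR_pos _).le

theorem ownW_nonneg (L : Hist) (k : ℕ) : 0 ≤ ownW L k := by
  unfold ownW
  apply List.sum_nonneg
  intro x hx
  obtain ⟨p, -, rfl⟩ := List.mem_map.1 hx
  split
  · exact (wR_pos _).le
  · exact le_rfl

/-- the entries of the history -/
theorem hist_mem (c t : ℕ) : ∀ p ∈ hist le B a0 c t, p.1 < t ∧ wex p.2 ≤ p.1 ∧
    p.2.1 ≤ p.1 ∧ p.2.1 + 1 ≤ p.2.2.2.1.length ∧
    le p.1 (encode (c, p.2)) (wex p.2 + 2 * c) = true := by
  induction t with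
  | zero => intro p hp; simp [hist] at hp
  | succ t ih =>
    intro p hp
    rcases hist_succ le B a0 c t with h | ⟨y, h, hy⟩
    · rw [h] at hp
      obtain ⟨h1, h2⟩ := ih p hp
      exact ⟨by omega, h2⟩
    · rw [h] at hp
      rcases List.mem_cons.1 hp with rfl | hp
      · obtain ⟨h1, h2, h3, h4, h5, h6, h7⟩ := hy
        exact ⟨by simp, h3, h1, h2, h6⟩
      · obtain ⟨h1, h2⟩ := ih p hp
        exact ⟨by omega, h2⟩

theorem hist_filter (c : ℕ) {k t : ℕ} (h : k ≤ t) :
    (hist le B a0 c t).filter (fun p => decide (p.1 < k)) = hist le B a0 c k := by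
  induction t, h using Nat.le_induction with
  | base =>
    rw [List.filter_eq_self]
    intro p hp
    simpa using (hist_mem le B a0 c k p hp).1
  | succ t hkt ih =>
    rcases hist_succ le B a0 c t with h | ⟨y, h, hy⟩
    · rw [h, ih]
    · rw [h, List.filter_cons_of_neg (by simpa using hkt), ih]

theorem totW_split (c : ℕ) {k t : ℕ} (h : k ≤ t) :
    totW (hist le B a0 c t) = totW (hist le B a0 c k) +
      ((hist le B a0 c t).map fun p => if k ≤ p.1 then wR p.2 else 0).sum := by
  have h1 := hist_filter le B a0 c h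
  rw [← h1]
  generalize hist le B a0 c t = L
  induction L with
  | nil => simp [totW]
  | cons p L ih =>
    by_cases hp : p.1 < k
    · rw [List.filter_cons_of_pos (by simpa using hp)]
      simp only [totW, List.map_cons, List.sum_cons] at ih ⊢
      rw [if_neg (by omega), ih]; ring
    · rw [List.filter_cons_of_neg (by simpa using hp)]
      simp only [totW, List.map_cons, List.sum_cons] at ih ⊢
      rw [if_pos (by omega), ih]; ring

theorem totY_self (c k : ℕ) : totY (hist le B a0 c k) k = 0 := by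
  unfold totY
  have : ∀ p ∈ hist le B a0 c k, (if p.2.1 = k then mR p.2 else 0) = 0 := by
    intro p hp
    obtain ⟨h1, h2, h3, h4⟩ := hist_mem le B a0 c k p hp
    rw [if_neg (by omega)]
  rw [List.map_congr_left this]
  simp

theorem pow_sub_cast {t a : ℕ} (h : a ≤ t) : ((2 ^ (t - a) : ℕ) : ℝ) = 2 ^ t * (2 : ℝ)⁻¹ ^ a := by
  push_cast
  rw [inv_pow, pow_sub₀ _ (by norm_num) h]

theorem sumW_cast (c : ℕ) {k t : ℕ} :
    (sumW (hist le B a0 c t) t k : ℝ) =
      2 ^ t * ((hist le B a0 c t).map fun p => if k ≤ p.1 then wR p.2 else 0).sum := by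
  have hm := hist_mem le B a0 c t
  revert hm
  unfold sumW
  generalize hist le B a0 c t = L
  intro hm
  induction L with
  | nil => simp
  | cons p L ih =>
    simp only [List.map_cons, List.sum_cons]
    have ih' := ih fun q hq => hm q (List.mem_cons_of_mem _ hq)
    have hp := hm p List.mem_cons_self
    push_cast [ih']
    rw [mul_add]
    congr 1
    split
    · have := pow_sub_cast (t := t) (a := wex p.2) (by omega)
      push_cast at this
      rw [this]; rfl
    · simp

theorem sumY_cast (c : ℕ) {k t : ℕ} :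
    (sumY (hist le B a0 c t) t k : ℝ) = 2 ^ t * totY (hist le B a0 c t) k := by
  have hm := hist_mem le B a0 c t
  revert hm
  unfold sumY totY
  generalize hist le B a0 c t = L
  intro hm
  induction L with
  | nil => simp
  | cons p L ih =>
    simp only [List.map_cons, List.sum_cons]
    have ih' := ih fun q hq => hm q (List.mem_cons_of_mem _ hq)
    have hp := hm p List.mem_cons_self
    push_cast [ih']
    rw [mul_add]
    congr 1
    split
    · have h2 : p.2.2.2.1.length ≤ t := by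
        have := hp.2.1
        unfold wex at this
        omega
      have := pow_sub_cast (t := t) (a := p.2.2.2.1.length) h2
      push_cast at this
      rw [this]; rfl
    · simp

/-- the scaled slack is correct when the slack is nonnegative -/
theorem slk_cast (c : ℕ) {k t : ℕ} (h : k ≤ t) (hs : 0 ≤ sl le B a0 c k t) :
    (slk B a0 c (hist le B a0 c t) t k : ℝ) = 2 ^ t * sl le B a0 c k t := by
  have hX : ((2 ^ RR a0 c * B t + sumW (hist le B a0 c t) t k + 2 ^ (t - k) : ℕ) : ℝ) -
      ((2 ^ RR a0 c * (2 ^ (t - k) * B k) + sumY (hist le B a0 c t) t k : ℕ) : ℝ) =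
      2 ^ t * sl le B a0 c k t := by
    have h1 := pow_sub_cast h
    have h2 := sumW_cast le B a0 c (k := k) (t := t)
    have h3 := sumY_cast le B a0 c (k := k) (t := t)
    have h4 := totW_split le B a0 c h
    have h5 : (B t : ℝ) = 2 ^ t * bet B t := by unfold bet; field_simp
    have h6 : bet B k = B k * (2 : ℝ)⁻¹ ^ k := by unfold bet; rw [inv_pow]; rfl
    push_cast at h1 ⊢
    rw [h1, h2, h3, h5]
    unfold sl gam
    rw [h4, h6]
    ring
  unfold slk
  have hle : (2 ^ RR a0 c * (2 ^ (t - k) * B k) + sumY (hist le B a0 c t) t k) ≤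
      (2 ^ RR a0 c * B t + sumW (hist le B a0 c t) t k + 2 ^ (t - k)) := by
    have : (0 : ℝ) ≤ 2 ^ t * sl le B a0 c k t := by positivity
    rw [← hX] at this
    exact_mod_cast sub_nonneg.1 this
  rw [Nat.cast_sub hle]
  exact hX

theorem lev_le (c : ℕ) {k t : ℕ} (h : k ≤ t) (hs : 0 ≤ sl le B a0 c k t) :
    (lev B a0 c (hist le B a0 c t) t k : ℝ) ≤ 2 ^ (k + 1) * sl le B a0 c k t := by
  have h1 : lev B a0 c (hist le B a0 c t) t k * 2 ^ t ≤
      2 ^ (k + 1) * slk B a0 c (hist le B a0 c t) t k := Nat.div_mul_le_self _ _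
  have h2 : (lev B a0 c (hist le B a0 c t) t k : ℝ) * 2 ^ t ≤
      2 ^ (k + 1) * (slk B a0 c (hist le B a0 c t) t k : ℝ) := by exact_mod_cast h1
  rw [slk_cast le B a0 c h hs] at h2
  have h3 : (0 : ℝ) < 2 ^ t := by positivity
  have h4 : (2 : ℝ) ^ (k + 1) * (2 ^ t * sl le B a0 c k t) =
      (2 ^ (k + 1) * sl le B a0 c k t) * 2 ^ t := by ring
  rw [h4] at h2
  exact le_of_mul_le_mul_right h2 h3

theorem lt_lev (c : ℕ) {k t : ℕ} (h : k ≤ t) (hs : 0 ≤ sl le B a0 c k t) :
    2 ^ (k + 1) * sl le B a0 c k t < (lev B a0 c (hist le B a0 c t) t k : ℝ) + 1 := by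
  have h1 : 2 ^ (k + 1) * slk B a0 c (hist le B a0 c t) t k <
      (lev B a0 c (hist le B a0 c t) t k + 1) * 2 ^ t := by
    have := Nat.lt_mul_div_succ (2 ^ (k + 1) * slk B a0 c (hist le B a0 c t) t k)
      (b := 2 ^ t) (by positivity)
    rw [mul_comm (_ + 1)]; exact this
  have h2 : 2 ^ (k + 1) * (slk B a0 c (hist le B a0 c t) t k : ℝ) <
      ((lev B a0 c (hist le B a0 c t) t k : ℝ) + 1) * 2 ^ t := by exact_mod_cast h1
  rw [slk_cast le B a0 c h hs] at h2
  have h3 : (0 : ℝ) < 2 ^ t := by positivity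
  have h4 : (2 : ℝ) ^ (k + 1) * (2 ^ t * sl le B a0 c k t) =
      (2 ^ (k + 1) * sl le B a0 c k t) * 2 ^ t := by ring
  rw [h4] at h2
  exact lt_of_mul_lt_mul_right h2 h3.le

variable {B}

theorem bet_mono (hB : ∀ t, 2 * B t ≤ B (t + 1)) : Monotone (bet B) := by
  refine monotone_nat_of_le_succ fun t => ?_
  unfold bet
  rw [div_le_div_iff₀ (by positivity) (by positivity), pow_succ]
  have : (2 * B t : ℝ) ≤ B (t + 1) := by exact_mod_cast hB t
  have h2 : (0 : ℝ) < 2 ^ t := by positivity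
  nlinarith

/-- the slack is nonnegative -/
theorem sl_nonneg (hB : ∀ t, 2 * B t ≤ B (t + 1)) (c : ℕ) {k t : ℕ} (h : k ≤ t) :
    0 ≤ sl le B a0 c k t := by
  induction t, h using Nat.le_induction with
  | base =>
    unfold sl
    rw [totY_self]; simp
  | succ t hkt ih =>
    have hb : bet B t ≤ bet B (t + 1) := bet_mono hB (Nat.le_succ t)
    have hR : (0 : ℝ) < 2 ^ RR a0 c := by positivity
    rcases hist_succ le B a0 c t with h | ⟨y, h, hy⟩
    · have : sl le B a0 c k (t + 1) = sl le B a0 c k t + 2 ^ RR a0 c * (bet B (t + 1) - bet B t) := by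
        unfold sl gam; rw [h]; ring
      rw [this]
      have : 0 ≤ (2 : ℝ) ^ RR a0 c * (bet B (t + 1) - bet B t) :=
        mul_nonneg hR.le (sub_nonneg.2 hb)
      linarith
    · have e1 : totW (hist le B a0 c (t + 1)) = totW (hist le B a0 c t) + wR y := by
        rw [h]; simp [totW, add_comm]
      have e2 : totY (hist le B a0 c (t + 1)) k = totY (hist le B a0 c t) k +
          (if y.1 = k then mR y else 0) := by
        rw [h]; simp [totY, add_comm]
      have e3 : sl le B a0 c k (t + 1) = sl le B a0 c k t +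
          2 ^ RR a0 c * (bet B (t + 1) - bet B t) + wR y - (if y.1 = k then mR y else 0) := by
        unfold sl gam; rw [e1, e2]; ring
      have h5 : 0 ≤ (2 : ℝ) ^ RR a0 c * (bet B (t + 1) - bet B t) :=
        mul_nonneg hR.le (sub_nonneg.2 hb)
      rw [e3]
      by_cases hk : y.1 = k
      · rw [if_pos hk]
        obtain ⟨-, h2, -, -, -, -, h7⟩ := hy
        rw [hk] at h7 h2
        have h8 := lev_le le B a0 c hkt ih
        rcases Nat.eq_zero_or_pos y.2.2.2 with h0 | h0
        · have : wR y = mR y := by rw [wR_eq, h0]; simp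
          rw [this]; linarith
        · have h9 : (1 : ℝ) ≤ 2 ^ (k + 1) * sl le B a0 c k t := by
            refine le_trans ?_ h8
            exact_mod_cast le_trans h0 h7
          have h10 : mR y ≤ (2 : ℝ)⁻¹ ^ (k + 1) := by
            unfold mR
            exact pow_le_pow_of_le_one (by norm_num) (by norm_num) h2
          have h11 : (2 : ℝ)⁻¹ ^ (k + 1) ≤ sl le B a0 c k t := by
            rw [inv_pow, inv_le_iff_one_le_mul₀' (by positivity)]
            exact h9
          have := wR_pos y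
          linarith
      · rw [if_neg hk]
        have := wR_pos y
        linarith

/-- price potential -/
noncomputable def pot (le : ℕ → ℕ → ℕ → Bool) (B : ℕ → ℕ) (a0 c k t : ℕ) : ℝ :=
  (2 : ℝ) ^ (-(2 ^ (k + 1) * sl le B a0 c k t))

theorem pot_pos (c k t : ℕ) : 0 < pot le B a0 c k t := by unfold pot; positivity

theorem pot_init (c k : ℕ) : pot le B a0 c k k = 1 / 4 := by
  have : sl le B a0 c k k = (2 : ℝ)⁻¹ ^ k := by unfold sl; rw [totY_self]; ring
  unfold pot
  rw [this]
  have h2 : (2 : ℝ) ^ (k + 1) * (2 : ℝ)⁻¹ ^ k = 2 := by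
    rw [pow_succ, inv_pow]; field_simp
  rw [h2]
  have : (2 : ℝ) ^ (-2 : ℝ) = (2 : ℝ) ^ (-2 : ℤ) := by
    rw [← Real.rpow_intCast]; norm_num
  rw [this]; norm_num

theorem two_rpow_le {x : ℝ} (h0 : 0 ≤ x) (h1 : x ≤ 1) : (2 : ℝ) ^ x ≤ 1 + x := by
  have := rpow_one_add_le_one_add_mul_self (s := 1) (p := x) (by norm_num) h0 h1
  norm_num at this
  linarith

theorem pot_key {z s δ m w q : ℝ} (hz : 0 < z) (hm : 0 < m) (hw : 0 < w) (hδ : 0 ≤ δ)
    (hzm : z * m ≤ 1) (hq : (2 : ℝ) ^ (-(z * s)) ≤ q) (hwq : w = q * m) :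
    (2 : ℝ) ^ (-(z * (s + δ + w - m))) ≤
      (2 : ℝ) ^ (-(z * s)) * (2 : ℝ) ^ (-(z * δ)) + z * w := by
  have hp : 0 < (2 : ℝ) ^ (-(z * s)) := Real.rpow_pos_of_pos (by norm_num) _
  have h16 : 0 < (2 : ℝ) ^ (-(z * δ)) := Real.rpow_pos_of_pos (by norm_num) _
  have h13 : (2 : ℝ) ^ (-(z * (s + δ + w - m))) ≤
      (2 : ℝ) ^ (-(z * s)) * (2 : ℝ) ^ (-(z * δ)) * (2 : ℝ) ^ (z * m) := by
    rw [← Real.rpow_add (by norm_num), ← Real.rpow_add (by norm_num)]
    apply Real.rpow_le_rpow_of_exponent_le (by norm_num)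
    nlinarith
  have h14 : (2 : ℝ) ^ (z * m) ≤ 1 + z * m := two_rpow_le (mul_pos hz hm).le hzm
  have h15 : (2 : ℝ) ^ (-(z * δ)) ≤ 1 := by
    apply Real.rpow_le_one_of_one_le_of_nonpos (by norm_num)
    have : 0 ≤ z * δ := mul_nonneg hz.le hδ
    linarith
  generalize (2 : ℝ) ^ (-(z * s)) = P at *
  generalize (2 : ℝ) ^ (-(z * δ)) = E at *
  generalize (2 : ℝ) ^ (z * m) = F at *
  have h17 : m * P ≤ w := by rw [hwq, mul_comm]; exact mul_le_mul_of_nonneg_right hq hm.le
  have h18 : P * E * F ≤ P * E * (1 + z * m) :=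
    mul_le_mul_of_nonneg_left h14 (mul_pos hp h16).le
  have h19 : (m * P) * E ≤ w * 1 := mul_le_mul h17 h15 h16.le hw.le
  have h20 : z * ((m * P) * E) ≤ z * (w * 1) := mul_le_mul_of_nonneg_left h19 hz.le
  have h21 : P * E * (1 + z * m) = P * E + z * ((m * P) * E) := by ring
  linarith

/-- one step of the potential -/
theorem pot_step (hB : ∀ t, 2 * B t ≤ B (t + 1)) (c : ℕ) {k t : ℕ} (h : k ≤ t) :
    pot le B a0 c k (t + 1) ≤
      pot le B a0 c k t * (2 : ℝ) ^ (-(2 ^ (k + 1) * (2 ^ RR a0 c * (bet B (t + 1) - bet B t)))) +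
      2 ^ (k + 1) * (ownW (hist le B a0 c (t + 1)) k - ownW (hist le B a0 c t) k) := by
  have hb : bet B t ≤ bet B (t + 1) := bet_mono hB (Nat.le_succ t)
  have hR : (0 : ℝ) < 2 ^ RR a0 c := pow_pos (by norm_num) _
  have hs := sl_nonneg le a0 hB c h
  have h5 : 0 ≤ (2 : ℝ) ^ RR a0 c * (bet B (t + 1) - bet B t) :=
    mul_nonneg hR.le (sub_nonneg.2 hb)
  have hz : (0 : ℝ) < 2 ^ (k + 1) := pow_pos (by norm_num) _
  rcases hist_succ le B a0 c t with h | ⟨y, h, hy⟩
  · have e : sl le B a0 c k (t + 1) = sl le B a0 c k t +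
        2 ^ RR a0 c * (bet B (t + 1) - bet B t) := by
      unfold sl gam; rw [h]; ring
    rw [h, sub_self, mul_zero, add_zero]
    unfold pot
    rw [e]
    generalize (2 : ℝ) ^ RR a0 c * (bet B (t + 1) - bet B t) = δ at *
    generalize (2 : ℝ) ^ (k + 1) = z at *
    rw [← Real.rpow_add (by norm_num)]
    apply le_of_eq; congr 1; ring
  · have e1 : totW (hist le B a0 c (t + 1)) = totW (hist le B a0 c t) + wR y := by
      rw [h]; simp [totW, add_comm]
    have e2 : totY (hist le B a0 c (t + 1)) k = totY (hist le B a0 c t) k +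
        (if y.1 = k then mR y else 0) := by
      rw [h]; simp [totY, add_comm]
    have e4 : ownW (hist le B a0 c (t + 1)) k - ownW (hist le B a0 c t) k =
        (if y.1 = k then wR y else 0) := by
      rw [h]; simp [ownW]
    have e3 : sl le B a0 c k (t + 1) = sl le B a0 c k t +
        2 ^ RR a0 c * (bet B (t + 1) - bet B t) + wR y - (if y.1 = k then mR y else 0) := by
      unfold sl gam; rw [e1, e2]; ring
    rw [e4]
    have hw := wR_pos y
    have hm := mR_pos y
    by_cases hk : y.1 = k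
    · rw [if_pos hk] at e3 ⊢
      obtain ⟨-, h2, -, -, -, -, h7⟩ := hy
      rw [hk] at h7 h2
      have h8 := lev_le le B a0 c ‹k ≤ t› hs
      have h10 : mR y ≤ (2 : ℝ)⁻¹ ^ (k + 1) := by
        unfold mR
        exact pow_le_pow_of_le_one (by norm_num) (by norm_num) h2
      have h11 : 2 ^ (k + 1) * mR y ≤ 1 := by
        calc 2 ^ (k + 1) * mR y ≤ 2 ^ (k + 1) * (2 : ℝ)⁻¹ ^ (k + 1) :=
              mul_le_mul_of_nonneg_left h10 hz.le
          _ = 1 := by rw [← mul_pow]; norm_num
      have h12 : (2 : ℝ) ^ (-(2 ^ (k + 1) * sl le B a0 c k t)) ≤ (2 : ℝ)⁻¹ ^ y.2.2.2 := by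
        have : (2 : ℝ)⁻¹ ^ y.2.2.2 = (2 : ℝ) ^ (-(y.2.2.2 : ℝ)) := by
          rw [Real.rpow_neg (by norm_num), Real.rpow_natCast, inv_pow]
        rw [this]
        apply Real.rpow_le_rpow_of_exponent_le (by norm_num)
        have : (y.2.2.2 : ℝ) ≤ (lev B a0 c (hist le B a0 c t) t k : ℝ) := by exact_mod_cast h7
        linarith
      have key := pot_key hz hm hw h5 h11 h12 (wR_eq y)
      unfold pot
      rw [e3]
      exact key
    · rw [if_neg hk] at e3 ⊢
      rw [mul_zero, add_zero]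
      unfold pot
      rw [e3]
      generalize (2 : ℝ) ^ RR a0 c * (bet B (t + 1) - bet B t) = δ at *
      generalize (2 : ℝ) ^ (k + 1) = z at *
      rw [← Real.rpow_add (by norm_num)]
      apply Real.rpow_le_rpow_of_exponent_le (by norm_num)
      nlinarith

theorem ownW_mono (c k : ℕ) : Monotone fun t => ownW (hist le B a0 c t) k := by
  refine monotone_nat_of_le_succ fun t => ?_
  rcases hist_succ le B a0 c t with h | ⟨y, h, hy⟩
  · rw [h]
  · rw [h]
    have : ownW ((t, y) :: hist le B a0 c t) k =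
        (if y.1 = k then wR y else 0) + ownW (hist le B a0 c t) k := by simp [ownW]
    rw [this]
    have hw := (wR_pos y).le
    split <;> linarith

/-- the potential between two times -/
theorem pot_le (hB : ∀ t, 2 * B t ≤ B (t + 1)) (c : ℕ) {k t t' : ℕ} (h : k ≤ t) (h' : t ≤ t') :
    pot le B a0 c k t' ≤
      pot le B a0 c k t * (2 : ℝ) ^ (-(2 ^ (k + 1) * (2 ^ RR a0 c * (bet B t' - bet B t)))) +
      2 ^ (k + 1) * (ownW (hist le B a0 c t') k - ownW (hist le B a0 c t) k) := by
  induction t', h' using Nat.le_induction with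
  | base => simp
  | succ t' htt ih =>
    have h1 := pot_step le a0 hB c (le_trans h htt)
    have hb : bet B t' ≤ bet B (t' + 1) := bet_mono hB (Nat.le_succ t')
    have hR : (0 : ℝ) < 2 ^ RR a0 c := by positivity
    have h5 : 0 ≤ (2 : ℝ) ^ RR a0 c * (bet B (t' + 1) - bet B t') :=
      mul_nonneg hR.le (sub_nonneg.2 hb)
    have hE : (2 : ℝ) ^ (-(2 ^ (k + 1) * (2 ^ RR a0 c * (bet B (t' + 1) - bet B t')))) ≤ 1 := by
      apply Real.rpow_le_one_of_one_le_of_nonpos (by norm_num)
      have : 0 ≤ (2 : ℝ) ^ (k + 1) * (2 ^ RR a0 c * (bet B (t' + 1) - bet B t')) := by positivity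
      linarith
    have hE0 : 0 < (2 : ℝ) ^ (-(2 ^ (k + 1) * (2 ^ RR a0 c * (bet B (t' + 1) - bet B t')))) := by
      positivity
    have ho : 0 ≤ ownW (hist le B a0 c t') k - ownW (hist le B a0 c t) k :=
      sub_nonneg.2 (ownW_mono le a0 c k htt)
    refine h1.trans ?_
    set E := (2 : ℝ) ^ (-(2 ^ (k + 1) * (2 ^ RR a0 c * (bet B (t' + 1) - bet B t')))) with hEd
    have h2 : pot le B a0 c k t' * E ≤
        (pot le B a0 c k t *
          (2 : ℝ) ^ (-(2 ^ (k + 1) * (2 ^ RR a0 c * (bet B t' - bet B t)))) +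
        2 ^ (k + 1) * (ownW (hist le B a0 c t') k - ownW (hist le B a0 c t) k)) * E := by
      gcongr
    have h3 : pot le B a0 c k t *
          (2 : ℝ) ^ (-(2 ^ (k + 1) * (2 ^ RR a0 c * (bet B t' - bet B t)))) * E =
        pot le B a0 c k t *
          (2 : ℝ) ^ (-(2 ^ (k + 1) * (2 ^ RR a0 c * (bet B (t' + 1) - bet B t)))) := by
      rw [hEd, mul_assoc, ← Real.rpow_add (by norm_num)]
      congr 2; ring
    have h4 : 2 ^ (k + 1) * (ownW (hist le B a0 c t') k - ownW (hist le B a0 c t) k) * E ≤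
        2 ^ (k + 1) * (ownW (hist le B a0 c t') k - ownW (hist le B a0 c t) k) * 1 := by
      gcongr
    nlinarith

end OWR.Price
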