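import Pool.Agent.H77.OW.Meas

/-!
# Task Stage1 : making the left-c.e. real of an `A`-test unrelativised

Input: an `A`-test (G, β, b) where `A` satisfies `LK S A`.  Output: a primitive recursive dyadic nondecreasing bounded
sequence B t / 2^t and a descending uniformly Σ⁰₁(A) sequence H with ⋂ G ⊆ ⋂ H and
lam (H t) ≤ 2^a0 (bb - B t / 2^t).

The nodes are the strings ρ.  From ρ one computes (primitive recursively) the number `s1cnt ρ` of values of β found
with oracle ρ at stage |ρ|, the last value `s1val ρ`, and the exponent `s1r ρ` with 2^{-r ρ} comparable to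
(q (s1val ρ) - q (s1val ρ minus the last bit)) / 2^(a+1) + 2^{-(|ρ|+2)}.
-/

namespace OWR

open MeasureTheory Encodable Filter Topology

/-! ## Primitive recursiveness: general lemmas -/

theorem s1_pow : Primrec (fun n : ℕ => 2 ^ n) := by
  have h : Primrec (fun n : ℕ => Nat.rec (motive := fun _ => ℕ) 1 (fun _ x => 2 * x) n) :=
    Primrec.nat_rec₁ 1 (Primrec.nat_mul.comp₂ (Primrec₂.const 2) Primrec₂.right)
  refine h.of_eq fun n => ?_
  induction n with
  | zero => rfl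
  | succ n ih => rw [pow_succ']; exact congrArg (2 * ·) ih

theorem s1_exists_lt {β : Type*} [Primcodable β] {R : ℕ → β → Prop} (hR : PrimrecRel R) :
    PrimrecRel fun n y => ∃ x < n, R x y :=
  (hR.exists_mem_list.comp (Primrec.list_range.comp Primrec.fst) Primrec.snd).of_eq (by simp)

theorem s1_forall_lt {β : Type*} [Primcodable β] {R : ℕ → β → Prop} (hR : PrimrecRel R) :
    PrimrecRel fun n y => ∀ x < n, R x y :=
  (hR.forall_mem_list.comp (Primrec.list_range.comp Primrec.fst) Primrec.snd).of_eq (by simp)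

theorem s1_dropLast : Primrec (fun ρ : List Bool => ρ.dropLast) :=
  (Primrec.list_take.comp (Primrec.nat_sub.comp Primrec.list_length (Primrec.const 1))
    Primrec.id).of_eq fun ρ => by rw [List.dropLast_eq_take]; rfl

theorem s1_bool {α : Type*} [Primcodable α] {g : α → Bool} (hg : Primrec g) :
    PrimrecPred fun a => g a = true :=
  Primrec.eq.comp hg (Primrec.const true)

/-! ## The data computed from a string -/

section Data

open Classical

variable (f : List Bool × ℕ × (ℕ × ℕ × ℕ) → ℕ → Bool) (v0 : ℕ × ℕ × ℕ) (a : ℕ)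

/-- decoding of a pair (length, value) -/
def s1D (j : ℕ) : ℕ × (ℕ × ℕ × ℕ) := Denumerable.ofNat (ℕ × (ℕ × ℕ × ℕ)) j

/-- `j` is the code of a computation of the value at `y.2` with oracle string `y.1` -/
def s1good (j : ℕ) (y : List Bool × ℕ) : Prop :=
  (s1D j).1 ≤ y.1.length ∧ f (y.1.take (s1D j).1, y.2, (s1D j).2) y.1.length = true

/-- the value at `y.2` is found with oracle string `y.1` -/
def s1ok (y : List Bool × ℕ) : Prop := ∃ j < y.1.length + 1, s1good f j y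

/-- the number of values found -/
noncomputable def s1cnt (ρ : List Bool) : ℕ :=
  Nat.findGreatest (fun n => ∀ s < n, s1ok f (ρ, s)) ρ.length

/-- the index of the last value found -/
noncomputable def s1idx (ρ : List Bool) : ℕ := s1cnt f ρ - 1

/-- the code of the last value found -/
noncomputable def s1J (ρ : List Bool) : ℕ :=
  Nat.findGreatest (fun j => s1good f j (ρ, s1cnt f ρ - 1)) ρ.length

/-- the last value found -/
noncomputable def s1val (ρ : List Bool) : ℕ × ℕ × ℕ :=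
  if s1cnt f ρ = 0 then v0 else (s1D (s1J f ρ)).2

/-- numerator of the difference of two values -/
def s1num (v w : ℕ × ℕ × ℕ) : ℕ :=
  (v.1 * (w.2.2 + 1) + w.2.1 * (v.2.2 + 1)) - (v.2.1 * (w.2.2 + 1) + w.1 * (v.2.2 + 1))

/-- denominator of the difference of two values -/
def s1den (v w : ℕ × ℕ × ℕ) : ℕ := (v.2.2 + 1) * (w.2.2 + 1)

/-- the scaled weight of a string -/
noncomputable def s1N (ρ : List Bool) : ℕ :=
  1 + 2 ^ (ρ.length + 2) * s1num (s1val f v0 ρ) (s1val f v0 ρ.dropLast) /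
    (2 ^ (a + 1) * s1den (s1val f v0 ρ) (s1val f v0 ρ.dropLast))

/-- the logarithm of the weight -/
noncomputable def s1e (ρ : List Bool) : ℕ :=
  Nat.findGreatest (fun i => 2 ^ i ≤ s1N f v0 a ρ) (ρ.length + 2)

/-- the exponent of the weight -/
noncomputable def s1r (ρ : List Bool) : ℕ := ρ.length + 2 - s1e f v0 a ρ

variable {f v0 a}

theorem s1D_prim : Primrec s1D := Primrec.ofNat _

theorem s1good_prim (hf : Primrec₂ f) : PrimrecRel (s1good f) := by
  have h1 : Primrec (fun q : ℕ × (List Bool × ℕ) => s1D q.1) := s1D_prim.comp Primrec.fst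
  have h2 : Primrec (fun q : ℕ × (List Bool × ℕ) => q.2.1) := Primrec.fst.comp Primrec.snd
  have h3 : Primrec (fun q : ℕ × (List Bool × ℕ) => q.2.1.length) := Primrec.list_length.comp h2
  refine PrimrecPred.and (Primrec.nat_le.comp (Primrec.fst.comp h1) h3) ?_
  refine s1_bool (hf.comp ?_ h3)
  exact (Primrec.list_take.comp (Primrec.fst.comp h1) h2).pair
    ((Primrec.snd.comp Primrec.snd).pair (Primrec.snd.comp h1))

theorem s1ok_prim (hf : Primrec₂ f) : PrimrecPred (s1ok f) :=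
  (s1_exists_lt (s1good_prim hf)).comp
    (Primrec.succ.comp (Primrec.list_length.comp Primrec.fst)) Primrec.id

theorem s1cnt_prim (hf : Primrec₂ f) : Primrec (s1cnt f) := by
  refine Primrec.nat_findGreatest Primrec.list_length ?_
  have h : PrimrecRel (fun (s : ℕ) (ρ : List Bool) => s1ok f (ρ, s)) :=
    (s1ok_prim hf).comp (Primrec.snd.pair Primrec.fst)
  exact (s1_forall_lt h).comp Primrec.snd Primrec.fst

theorem s1idx_prim (hf : Primrec₂ f) : Primrec (s1idx f) :=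
  Primrec.nat_sub.comp (s1cnt_prim hf) (Primrec.const 1)

theorem s1J_prim (hf : Primrec₂ f) : Primrec (s1J f) := by
  refine Primrec.nat_findGreatest Primrec.list_length ?_
  exact (s1good_prim hf).comp Primrec.snd (Primrec.fst.pair ((s1idx_prim hf).comp Primrec.fst))

theorem s1val_prim (hf : Primrec₂ f) : Primrec (s1val f v0) :=
  Primrec.ite (Primrec.eq.comp (s1cnt_prim hf) (Primrec.const 0)) (Primrec.const v0)
    (Primrec.snd.comp (s1D_prim.comp (s1J_prim hf)))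

theorem s1num_prim : Primrec₂ s1num := by
  have v1 : Primrec (fun q : (ℕ × ℕ × ℕ) × (ℕ × ℕ × ℕ) => q.1.1) := Primrec.fst.comp Primrec.fst
  have v2 : Primrec (fun q : (ℕ × ℕ × ℕ) × (ℕ × ℕ × ℕ) => q.1.2.1) :=
    Primrec.fst.comp (Primrec.snd.comp Primrec.fst)
  have v3 : Primrec (fun q : (ℕ × ℕ × ℕ) × (ℕ × ℕ × ℕ) => q.1.2.2 + 1) :=
    Primrec.succ.comp (Primrec.snd.comp (Primrec.snd.comp Primrec.fst))
  have w1 : Primrec (fun q : (ℕ × ℕ × ℕ) × (ℕ × ℕ × ℕ) => q.2.1) := Primrec.fst.comp Primrec.snd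
  have w2 : Primrec (fun q : (ℕ × ℕ × ℕ) × (ℕ × ℕ × ℕ) => q.2.2.1) :=
    Primrec.fst.comp (Primrec.snd.comp Primrec.snd)
  have w3 : Primrec (fun q : (ℕ × ℕ × ℕ) × (ℕ × ℕ × ℕ) => q.2.2.2 + 1) :=
    Primrec.succ.comp (Primrec.snd.comp (Primrec.snd.comp Primrec.snd))
  exact Primrec.nat_sub.comp
    (Primrec.nat_add.comp (Primrec.nat_mul.comp v1 w3) (Primrec.nat_mul.comp w2 v3))
    (Primrec.nat_add.comp (Primrec.nat_mul.comp v2 w3) (Primrec.nat_mul.comp w1 v3))

theorem s1den_prim : Primrec₂ s1den := by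
  have v3 : Primrec (fun q : (ℕ × ℕ × ℕ) × (ℕ × ℕ × ℕ) => q.1.2.2 + 1) :=
    Primrec.succ.comp (Primrec.snd.comp (Primrec.snd.comp Primrec.fst))
  have w3 : Primrec (fun q : (ℕ × ℕ × ℕ) × (ℕ × ℕ × ℕ) => q.2.2.2 + 1) :=
    Primrec.succ.comp (Primrec.snd.comp (Primrec.snd.comp Primrec.snd))
  exact Primrec.nat_mul.comp v3 w3

theorem s1L_prim : Primrec (fun ρ : List Bool => ρ.length + 2) :=
  Primrec.succ.comp (Primrec.succ.comp Primrec.list_length)

theorem s1N_prim (hf : Primrec₂ f) : Primrec (s1N f v0 a) := by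
  have hv : Primrec (s1val f v0) := s1val_prim hf
  have hw : Primrec (fun ρ : List Bool => s1val f v0 ρ.dropLast) := hv.comp s1_dropLast
  have h1 := s1num_prim.comp hv hw
  have h2 := s1den_prim.comp hv hw
  exact Primrec.nat_add.comp (Primrec.const 1) (Primrec.nat_div.comp
    (Primrec.nat_mul.comp (s1_pow.comp s1L_prim) h1)
    (Primrec.nat_mul.comp (Primrec.const (2 ^ (a + 1))) h2))

theorem s1r_prim (hf : Primrec₂ f) : Primrec (s1r f v0 a) := by
  refine Primrec.nat_sub.comp s1L_prim ?_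
  refine Primrec.nat_findGreatest s1L_prim ?_
  exact Primrec.nat_le.comp (s1_pow.comp Primrec.snd) ((s1N_prim hf).comp Primrec.fst)

end Data

/-! ## The process -/

section Process

open Classical

variable (le : ℕ → ℕ → ℕ → Bool) (r : List Bool → ℕ) (C : ℕ)

/-- the string is recognised at stage `t` -/
def s1nd (t : ℕ) (ρ : List Bool) : Prop :=
  ρ.length + 2 ≤ t ∧ encode ρ < t ∧ le t (encode ρ) (r ρ + C) = true

/-- the string and all its initial segments are recognised at stage `t` -/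
def s1acc (t : ℕ) (ρ : List Bool) : Prop := ∀ i < ρ.length + 1, s1nd le r C t (ρ.take i)

/-- the contribution of the code `x` at stage `t` -/
noncomputable def s1con (t x : ℕ) : ℕ :=
  ((decode₂ (List Bool) x).map fun ρ => if s1acc le r C t ρ then 2 ^ (t - r ρ) else 0).getD 0

/-- the total weight accepted before stage `t`, multiplied by `2 ^ t` -/
noncomputable def s1B (t : ℕ) : ℕ := ((List.range t).map (s1con le r C t)).sum

/-- the number of initial segments of `τ` accepted at stage `t` -/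
noncomputable def s1n (t : ℕ) (τ : List Bool) : ℕ :=
  Nat.findGreatest (fun n => ∀ i < n, s1nd le r C t (τ.take i)) t

variable {le r C}

theorem s1nd_prim (hle : Primrec (fun p : ℕ × ℕ × ℕ => le p.1 p.2.1 p.2.2)) (hr : Primrec r) :
    PrimrecRel (s1nd le r C) := by
  refine PrimrecPred.and (Primrec.nat_le.comp (s1L_prim.comp Primrec.snd) Primrec.fst) ?_
  refine PrimrecPred.and (Primrec.nat_lt.comp (Primrec.encode.comp Primrec.snd) Primrec.fst) ?_
  refine s1_bool (hle.comp (Primrec.fst.pair ((Primrec.encode.comp Primrec.snd).pair ?_)))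
  exact Primrec.nat_add.comp (hr.comp Primrec.snd) (Primrec.const C)

theorem s1acc_prim (hle : Primrec (fun p : ℕ × ℕ × ℕ => le p.1 p.2.1 p.2.2)) (hr : Primrec r) :
    PrimrecRel (s1acc le r C) := by
  have h : PrimrecRel (fun (i : ℕ) (y : ℕ × List Bool) => s1nd le r C y.1 (y.2.take i)) :=
    (s1nd_prim hle hr).comp (Primrec.fst.comp Primrec.snd)
      (Primrec.list_take.comp Primrec.fst (Primrec.snd.comp Primrec.snd))
  exact (s1_forall_lt h).comp (Primrec.succ.comp (Primrec.list_length.comp Primrec.snd))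
    (Primrec.fst.pair Primrec.snd)

theorem s1con_prim (hle : Primrec (fun p : ℕ × ℕ × ℕ => le p.1 p.2.1 p.2.2)) (hr : Primrec r) :
    Primrec₂ (s1con le r C) := by
  refine Primrec.option_getD.comp (Primrec.option_map (Primrec.decode₂.comp Primrec.snd) ?_)
    (Primrec.const 0)
  refine Primrec.ite ?_ ?_ (Primrec.const 0)
  · exact (s1acc_prim hle hr).comp (Primrec.fst.comp Primrec.fst) Primrec.snd
  · exact s1_pow.comp (Primrec.nat_sub.comp (Primrec.fst.comp Primrec.fst)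
      (hr.comp Primrec.snd))

theorem s1B_prim (hle : Primrec (fun p : ℕ × ℕ × ℕ => le p.1 p.2.1 p.2.2)) (hr : Primrec r) :
    Primrec (s1B le r C) := by
  have h1 : Primrec (fun t : ℕ => (List.range t).map (s1con le r C t)) :=
    Primrec.list_map Primrec.list_range (s1con_prim hle hr)
  have h3 : Primrec₂ (fun (_ : List ℕ) (q : ℕ × ℕ) => q.1 + q.2) :=
    Primrec.nat_add.comp (Primrec.fst.comp Primrec.snd) (Primrec.snd.comp Primrec.snd)
  have h2 : Primrec (fun l : List ℕ => l.foldr (fun x s => x + s) 0) :=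
    Primrec.list_foldr Primrec.id (Primrec.const 0) h3
  refine (h2.comp h1).of_eq fun t => ?_
  unfold s1B
  rw [List.sum_eq_foldr]

theorem s1n_prim (hle : Primrec (fun p : ℕ × ℕ × ℕ => le p.1 p.2.1 p.2.2)) (hr : Primrec r) :
    Primrec₂ (s1n le r C) := by
  refine Primrec.nat_findGreatest Primrec.fst ?_
  have h : PrimrecRel (fun (i : ℕ) (y : ℕ × List Bool) => s1nd le r C y.1 (y.2.take i)) :=
    (s1nd_prim hle hr).comp (Primrec.fst.comp Primrec.snd)
      (Primrec.list_take.comp Primrec.fst (Primrec.snd.comp Primrec.snd))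
  exact (s1_forall_lt h).comp Primrec.snd Primrec.fst

theorem s1nd_mono (mle : ∀ s t x i, s ≤ t → le s x i = true → le t x i = true) {t t' : ℕ}
    {ρ : List Bool} (h : t ≤ t') (h1 : s1nd le r C t ρ) : s1nd le r C t' ρ :=
  ⟨h1.1.trans h, lt_of_lt_of_le h1.2.1 h, mle _ _ _ _ h h1.2.2⟩

theorem s1acc_mono (mle : ∀ s t x i, s ≤ t → le s x i = true → le t x i = true) {t t' : ℕ}
    {ρ : List Bool} (h : t ≤ t') (h1 : s1acc le r C t ρ) : s1acc le r C t' ρ :=
  fun i hi => s1nd_mono mle h (h1 i hi)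

theorem s1acc_self {t : ℕ} {ρ : List Bool} (h : s1acc le r C t ρ) : s1nd le r C t ρ := by
  have := h ρ.length (Nat.lt_succ_self _)
  rwa [List.take_length] at this

/-- the real contribution -/
noncomputable def s1w (le : ℕ → ℕ → ℕ → Bool) (r : List Bool → ℕ) (C t x : ℕ) : ℝ :=
  ((decode₂ (List Bool) x).map fun ρ => if s1acc le r C t ρ then (2 : ℝ)⁻¹ ^ (r ρ) else 0).getD 0

theorem s1w_encode (t : ℕ) (ρ : List Bool) :
    s1w le r C t (encode ρ) = if s1acc le r C t ρ then (2 : ℝ)⁻¹ ^ (r ρ) else 0 := by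
  simp [s1w, decode₂_encode]

theorem s1w_other (t x : ℕ) (h : ∀ ρ : List Bool, encode ρ ≠ x) : s1w le r C t x = 0 := by
  unfold s1w
  cases hd : decode₂ (List Bool) x with
  | none => rfl
  | some ρ => exact absurd (decode₂_eq_some.1 hd) (h ρ)

theorem s1w_nonneg (t x : ℕ) : 0 ≤ s1w le r C t x := by
  by_cases h : ∃ ρ : List Bool, encode ρ = x
  · obtain ⟨ρ, rfl⟩ := h
    rw [s1w_encode]
    split_ifs <;> positivity
  · rw [s1w_other t x fun ρ hρ => h ⟨ρ, hρ⟩]

theorem s1w_mono (mle : ∀ s t x i, s ≤ t → le s x i = true → le t x i = true) {t t' : ℕ}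
    (h : t ≤ t') (x : ℕ) : s1w le r C t x ≤ s1w le r C t' x := by
  by_cases hx : ∃ ρ : List Bool, encode ρ = x
  · obtain ⟨ρ, rfl⟩ := hx
    rw [s1w_encode, s1w_encode]
    by_cases h1 : s1acc le r C t ρ
    · rw [if_pos h1, if_pos (s1acc_mono mle h h1)]
    · rw [if_neg h1]
      split_ifs <;> positivity
  · rw [s1w_other t x fun ρ hρ => hx ⟨ρ, hρ⟩, s1w_other t' x fun ρ hρ => hx ⟨ρ, hρ⟩]

theorem s1w_large {t x : ℕ} (h : t ≤ x) : s1w le r C t x = 0 := by
  by_cases hx : ∃ ρ : List Bool, encode ρ = x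
  · obtain ⟨ρ, rfl⟩ := hx
    rw [s1w_encode, if_neg]
    intro h1
    exact absurd (s1acc_self h1).2.1 (not_lt.2 h)
  · exact s1w_other t x fun ρ hρ => hx ⟨ρ, hρ⟩

theorem s1B_sum (t : ℕ) : s1B le r C t = ∑ x ∈ Finset.range t, s1con le r C t x := by
  unfold s1B
  rw [← List.sum_toFinset _ (List.nodup_range)]
  congr 1
  ext x
  simp

/-- the weights in terms of the natural numbers -/
theorem s1B_real (hr : ∀ ρ, r ρ ≤ ρ.length + 2) (t : ℕ) :
    (s1B le r C t : ℝ) / 2 ^ t = ∑ x ∈ Finset.range t, s1w le r C t x := by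
  rw [s1B_sum, Nat.cast_sum, Finset.sum_div]
  refine Finset.sum_congr rfl fun x _ => ?_
  unfold s1con s1w
  cases hd : decode₂ (List Bool) x with
  | none => simp
  | some ρ =>
    simp only [Option.map_some, Option.getD_some]
    by_cases h : s1acc le r C t ρ
    · rw [if_pos h, if_pos h]
      have h1 : r ρ ≤ t := (hr ρ).trans (s1acc_self h).1
      push_cast
      rw [inv_pow, eq_comm, inv_eq_one_div, div_eq_div_iff (by positivity) (by positivity), one_mul,
        ← pow_add, Nat.sub_add_cancel h1]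
    · rw [if_neg h, if_neg h]
      simp

theorem s1B_step (mle : ∀ s t x i, s ≤ t → le s x i = true → le t x i = true)
    (hr : ∀ ρ, r ρ ≤ ρ.length + 2) (t : ℕ) : 2 * s1B le r C t ≤ s1B le r C (t + 1) := by
  have h1 : (s1B le r C t : ℝ) / 2 ^ t ≤ (s1B le r C (t + 1) : ℝ) / 2 ^ (t + 1) := by
    rw [s1B_real hr, s1B_real hr, Finset.sum_range_succ]
    refine (Finset.sum_le_sum fun x _ => s1w_mono mle (Nat.le_succ t) x).trans ?_
    exact le_add_of_nonneg_right (s1w_nonneg _ _)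
  rw [div_le_div_iff₀ (by positivity) (by positivity), pow_succ] at h1
  have h2 : (0 : ℝ) < 2 ^ t := by positivity
  have h3 : (2 * s1B le r C t : ℝ) * 2 ^ t ≤ (s1B le r C (t + 1) : ℝ) * 2 ^ t := by linarith
  have h4 := le_of_mul_le_mul_right h3 h2
  exact_mod_cast h4

/-- the sum of the weights over a longer range -/
theorem s1w_range {t T : ℕ} (h : t ≤ T) : ∑ x ∈ Finset.range t, s1w le r C t x =
    ∑ x ∈ Finset.range T, s1w le r C t x := by
  refine Finset.sum_subset (Finset.range_subset_range.2 h) ?_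
  intro x _ hx
  exact s1w_large (by simpa using hx)

theorem s1B_mono (mle : ∀ s t x i, s ≤ t → le s x i = true → le t x i = true)
    (hr : ∀ ρ, r ρ ≤ ρ.length + 2) : Monotone fun t => (s1B le r C t : ℝ) / 2 ^ t := by
  intro t T h
  show (s1B le r C t : ℝ) / 2 ^ t ≤ (s1B le r C T : ℝ) / 2 ^ T
  rw [s1B_real hr, s1B_real hr, s1w_range h]
  exact Finset.sum_le_sum fun x _ => s1w_mono mle h x

/-- New weight accepted between the stages `t` and `T`. -/
theorem s1B_gain (mle : ∀ s t x i, s ≤ t → le s x i = true → le t x i = true)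
    (hr : ∀ ρ, r ρ ≤ ρ.length + 2) {t T : ℕ} (h : t ≤ T) (F : Finset (List Bool))
    (h1 : ∀ ρ ∈ F, s1acc le r C T ρ) (h2 : ∀ ρ ∈ F, ¬ s1acc le r C t ρ) :
    ∑ ρ ∈ F, (2 : ℝ)⁻¹ ^ (r ρ) ≤ (s1B le r C T : ℝ) / 2 ^ T - (s1B le r C t : ℝ) / 2 ^ t := by
  rw [s1B_real hr, s1B_real hr, s1w_range h, ← Finset.sum_sub_distrib]
  have h3 : ∑ ρ ∈ F, (2 : ℝ)⁻¹ ^ (r ρ) =
      ∑ x ∈ F.image encode, (s1w le r C T x - s1w le r C t x) := by
    rw [Finset.sum_image (fun ρ _ ρ' _ h => encode_injective h)]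
    refine Finset.sum_congr rfl fun ρ hρ => ?_
    rw [s1w_encode, s1w_encode, if_pos (h1 ρ hρ), if_neg (h2 ρ hρ), sub_zero]
  rw [h3]
  refine Finset.sum_le_sum_of_subset_of_nonneg ?_ ?_
  · intro x hx
    obtain ⟨ρ, hρ, rfl⟩ := Finset.mem_image.1 hx
    exact Finset.mem_range.2 (s1acc_self (h1 ρ hρ)).2.1
  · intro x _ _
    exact sub_nonneg.2 (s1w_mono mle h x)

/-- Kraft bound. -/
theorem s1B_bdd (kraft : ∀ (F : Finset ℕ) (r : ℕ → ℕ), (∀ x ∈ F, ∃ s, le s x (r x) = true) →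
    ∑ x ∈ F, (2 : ℝ)⁻¹ ^ (r x) ≤ 1) (hr : ∀ ρ, r ρ ≤ ρ.length + 2) (t : ℕ) :
    (s1B le r C t : ℝ) / 2 ^ t ≤ 2 ^ C := by
  classical
  rw [s1B_real hr]
  set rr : ℕ → ℕ := fun x => ((decode₂ (List Bool) x).map fun ρ => r ρ + C).getD 0 with hrr
  set F : Finset ℕ := (Finset.range t).filter
    (fun x => ∃ ρ : List Bool, encode ρ = x ∧ s1acc le r C t ρ) with hF
  have hrx : ∀ ρ : List Bool, rr (encode ρ) = r ρ + C := fun ρ => by
    simp [hrr, decode₂_encode]
  have h1 : ∑ x ∈ Finset.range t, s1w le r C t x = ∑ x ∈ F, 2 ^ C * (2 : ℝ)⁻¹ ^ (rr x) := by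
    rw [hF, Finset.sum_filter]
    refine Finset.sum_congr rfl fun x _ => ?_
    by_cases hx : ∃ ρ : List Bool, encode ρ = x ∧ s1acc le r C t ρ
    · rw [if_pos hx]
      obtain ⟨ρ, rfl, hρ⟩ := hx
      rw [s1w_encode, if_pos hρ, hrx, pow_add, mul_comm ((2 : ℝ)⁻¹ ^ (r ρ)), ← mul_assoc,
        ← mul_pow, mul_inv_cancel₀ (by norm_num), one_pow, one_mul]
    · rw [if_neg hx]
      by_cases hx' : ∃ ρ : List Bool, encode ρ = x
      · obtain ⟨ρ, rfl⟩ := hx'
        rw [s1w_encode, if_neg]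
        exact fun h => hx ⟨ρ, rfl, h⟩
      · exact s1w_other t x fun ρ hρ => hx' ⟨ρ, hρ⟩
  rw [h1, ← Finset.mul_sum]
  have h2 := kraft F rr (by
    intro x hx
    obtain ⟨ρ, rfl, hρ⟩ := (Finset.mem_filter.1 hx).2
    exact ⟨t, by rw [hrx]; exact (s1acc_self hρ).2.2⟩)
  calc (2 : ℝ) ^ C * ∑ x ∈ F, (2 : ℝ)⁻¹ ^ (rr x) ≤ 2 ^ C * 1 :=
        mul_le_mul_of_nonneg_left h2 (by positivity)
    _ = 2 ^ C := mul_one _

end Process

/-! ## The weights of the initial segments of the oracle -/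

/-- the rational value of a triple -/
def s1q (v : ℕ × ℕ × ℕ) : ℚ := ((v.1 : ℚ) - (v.2.1 : ℚ)) / ((v.2.2 : ℚ) + 1)

theorem s1num_den {v w : ℕ × ℕ × ℕ} (h : s1q w ≤ s1q v) :
    (s1num v w : ℝ) = ((s1q v : ℝ) - (s1q w : ℝ)) * (s1den v w : ℝ) := by
  obtain ⟨v1, v2, v3⟩ := v
  obtain ⟨w1, w2, w3⟩ := w
  unfold s1q at h
  simp only at h
  have hv : (0 : ℚ) < (v3 : ℚ) + 1 := by positivity
  have hw : (0 : ℚ) < (w3 : ℚ) + 1 := by positivity
  rw [div_le_div_iff₀ hw hv] at h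
  have h2 : v2 * (w3 + 1) + w1 * (v3 + 1) ≤ v1 * (w3 + 1) + w2 * (v3 + 1) := by
    have : ((v2 * (w3 + 1) + w1 * (v3 + 1) : ℕ) : ℚ) ≤ ((v1 * (w3 + 1) + w2 * (v3 + 1) : ℕ) : ℚ) := by
      push_cast
      linarith
    exact_mod_cast this
  have hv' : (v3 : ℝ) + 1 ≠ 0 := by positivity
  have hw' : (w3 : ℝ) + 1 ≠ 0 := by positivity
  unfold s1num s1den s1q
  simp only
  rw [Nat.cast_sub h2]
  push_cast
  field_simp
  ring

section Weights

variable {f : List Bool × ℕ × (ℕ × ℕ × ℕ) → ℕ → Bool} {v0 : ℕ × ℕ × ℕ} {a : ℕ}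

theorem s1N_bounds {ρ : List Bool} (h : s1q (s1val f v0 ρ.dropLast) ≤ s1q (s1val f v0 ρ)) :
    (s1N f v0 a ρ : ℝ) ≤ 1 + 2 ^ (ρ.length + 2) *
      ((s1q (s1val f v0 ρ) : ℝ) - (s1q (s1val f v0 ρ.dropLast) : ℝ)) / 2 ^ (a + 1) ∧
    2 ^ (ρ.length + 2) *
      ((s1q (s1val f v0 ρ) : ℝ) - (s1q (s1val f v0 ρ.dropLast) : ℝ)) / 2 ^ (a + 1) ≤
      (s1N f v0 a ρ : ℝ) := by
  have h1 := s1num_den h
  set v := s1val f v0 ρ with hv
  set w := s1val f v0 ρ.dropLast with hw
  have hden : 0 < s1den v w := by unfold s1den; positivity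
  have hk : 0 < 2 ^ (a + 1) * s1den v w := by positivity
  have hden' : (0 : ℝ) < (s1den v w : ℝ) := by exact_mod_cast hden
  have e1 : (2 ^ (ρ.length + 2) * ((s1q v : ℝ) - (s1q w : ℝ)) / 2 ^ (a + 1) : ℝ) =
      ((2 ^ (ρ.length + 2) * s1num v w : ℕ) : ℝ) / ((2 ^ (a + 1) * s1den v w : ℕ) : ℝ) := by
    push_cast
    rw [h1]
    field_simp
  have hN : (s1N f v0 a ρ : ℝ) =
      1 + ((2 ^ (ρ.length + 2) * s1num v w / (2 ^ (a + 1) * s1den v w) : ℕ) : ℝ) := by
    unfold s1N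
    push_cast
    rfl
  rw [e1, hN]
  constructor
  · have := @Nat.cast_div_le ℝ _ _ _ (2 ^ (ρ.length + 2) * s1num v w) (2 ^ (a + 1) * s1den v w)
    linarith
  · have h3 := (Nat.lt_mul_div_succ (2 ^ (ρ.length + 2) * s1num v w) hk).le
    rw [div_le_iff₀ (by exact_mod_cast hk)]
    have h4 : ((2 ^ (ρ.length + 2) * s1num v w : ℕ) : ℝ) ≤ ((2 ^ (a + 1) * s1den v w *
      (2 ^ (ρ.length + 2) * s1num v w / (2 ^ (a + 1) * s1den v w) + 1) : ℕ) : ℝ) := by
      exact_mod_cast h3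
    refine h4.trans (le_of_eq ?_)
    push_cast
    ring

theorem s1e_le (ρ : List Bool) : s1e f v0 a ρ ≤ ρ.length + 2 := Nat.findGreatest_le _

theorem s1r_le (ρ : List Bool) : s1r f v0 a ρ ≤ ρ.length + 2 := Nat.sub_le _ _

theorem s1r_pow (ρ : List Bool) :
    (2 : ℝ)⁻¹ ^ (s1r f v0 a ρ) = 2 ^ (s1e f v0 a ρ) / 2 ^ (ρ.length + 2) := by
  unfold s1r
  rw [inv_pow, inv_eq_one_div, div_eq_div_iff (by positivity) (by positivity), one_mul, ← pow_add,
    Nat.add_sub_cancel' (s1e_le ρ)]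

theorem s1e_spec (ρ : List Bool) : 2 ^ (s1e f v0 a ρ) ≤ s1N f v0 a ρ := by
  have h0 : 2 ^ 0 ≤ s1N f v0 a ρ := by unfold s1N; simp
  exact Nat.findGreatest_spec (P := fun i => 2 ^ i ≤ s1N f v0 a ρ) (Nat.zero_le _) h0

theorem s1r_upper {ρ : List Bool} (h : s1q (s1val f v0 ρ.dropLast) ≤ s1q (s1val f v0 ρ)) :
    (2 : ℝ)⁻¹ ^ (s1r f v0 a ρ) ≤
      ((s1q (s1val f v0 ρ) : ℝ) - (s1q (s1val f v0 ρ.dropLast) : ℝ)) / 2 ^ (a + 1) +
        (2 : ℝ)⁻¹ ^ (ρ.length + 2) := by
  rw [s1r_pow]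
  have h1 : ((2 ^ (s1e f v0 a ρ) : ℕ) : ℝ) ≤ (s1N f v0 a ρ : ℝ) := by
    exact_mod_cast s1e_spec ρ
  push_cast at h1
  have h2 := (s1N_bounds (a := a) h).1
  rw [div_le_iff₀ (by positivity), add_mul, inv_pow, inv_mul_cancel₀ (by positivity)]
  refine (h1.trans h2).trans (le_of_eq ?_)
  ring

theorem s1r_lower {ρ : List Bool} (h : s1q (s1val f v0 ρ.dropLast) ≤ s1q (s1val f v0 ρ))
    (h' : (s1q (s1val f v0 ρ) : ℝ) - (s1q (s1val f v0 ρ.dropLast) : ℝ) ≤ 2 ^ a) :
    (s1q (s1val f v0 ρ) : ℝ) - (s1q (s1val f v0 ρ.dropLast) : ℝ) ≤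
      2 ^ (a + 2) * (2 : ℝ)⁻¹ ^ (s1r f v0 a ρ) := by
  rcases (s1e_le (f := f) (v0 := v0) (a := a) ρ).lt_or_eq with h1 | h1
  · rw [s1r_pow]
    have h2 : ¬ 2 ^ (s1e f v0 a ρ + 1) ≤ s1N f v0 a ρ :=
      Nat.findGreatest_is_greatest (P := fun i => 2 ^ i ≤ s1N f v0 a ρ) (Nat.lt_succ_self _) h1
    have h3 : (s1N f v0 a ρ : ℝ) ≤ ((2 ^ (s1e f v0 a ρ + 1) : ℕ) : ℝ) := by
      exact_mod_cast (not_le.1 h2).le
    push_cast at h3
    have h4 := (s1N_bounds (a := a) h).2.trans h3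
    rw [div_le_iff₀ (by positivity)] at h4
    rw [← mul_div_assoc, le_div_iff₀ (by positivity)]
    calc ((s1q (s1val f v0 ρ) : ℝ) - (s1q (s1val f v0 ρ.dropLast) : ℝ)) * 2 ^ (ρ.length + 2)
        = 2 ^ (ρ.length + 2) * ((s1q (s1val f v0 ρ) : ℝ) - (s1q (s1val f v0 ρ.dropLast) : ℝ)) := by
          ring
      _ ≤ 2 ^ (s1e f v0 a ρ + 1) * 2 ^ (a + 1) := h4
      _ = 2 ^ (a + 2) * 2 ^ (s1e f v0 a ρ) := by ring
  · have h2 : s1r f v0 a ρ = 0 := by unfold s1r; omega
    rw [h2, pow_zero, mul_one]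
    refine h'.trans ?_
    exact pow_le_pow_right₀ (by norm_num) (by omega)

end Weights

/-! ## The values found with the initial segments of the oracle -/

/-- the properties of the staging -/
structure s1hyp (f : List Bool × ℕ × (ℕ × ℕ × ℕ) → ℕ → Bool) (v0 : ℕ × ℕ × ℕ) (A : ℕ → Bool)
    (β : ℕ → ℚ) : Prop where
  mono : ∀ p s t, s ≤ t → f p s = true → f p t = true
  tot : ∀ s, ∃ k v t, f (pre A k, s, v) t = true
  val : ∀ s k v t, f (pre A k, s, v) t = true → β s = s1q v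
  zero : β 0 = s1q v0

section Oracle

open Classical

variable {f : List Bool × ℕ × (ℕ × ℕ × ℕ) → ℕ → Bool} {v0 : ℕ × ℕ × ℕ} {A : ℕ → Bool} {β : ℕ → ℚ}

theorem s1_pre_dropLast (A : ℕ → Bool) (n : ℕ) : (pre A n).dropLast = pre A (n - 1) := by
  cases n with
  | zero => rfl
  | succ n => exact pre_dropLast A n

theorem s1good_val (hH : s1hyp f v0 A β) {j n s : ℕ} (h : s1good f j (pre A n, s)) :
    β s = s1q (s1D j).2 := by
  obtain ⟨h1, h2⟩ := h
  simp only [pre_length] at h1 h2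
  rw [pre_take_of_le A h1] at h2
  exact hH.val _ _ _ _ h2

theorem s1good_mono (hH : s1hyp f v0 A β) {j n n' s : ℕ} (hn : n ≤ n')
    (h : s1good f j (pre A n, s)) : s1good f j (pre A n', s) := by
  obtain ⟨h1, h2⟩ := h
  simp only [pre_length] at h1 h2
  rw [pre_take_of_le A h1] at h2
  refine ⟨?_, ?_⟩
  · simp only [pre_length]
    omega
  · simp only [pre_length]
    rw [pre_take_of_le A (h1.trans hn)]
    exact hH.mono _ _ _ hn h2

theorem s1ok_mono (hH : s1hyp f v0 A β) {n n' s : ℕ} (hn : n ≤ n') (h : s1ok f (pre A n, s)) :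
    s1ok f (pre A n', s) := by
  obtain ⟨j, hj, hg⟩ := h
  refine ⟨j, ?_, s1good_mono hH hn hg⟩
  simp only [pre_length] at hj ⊢
  omega

theorem s1cnt_mono (hH : s1hyp f v0 A β) : Monotone fun n => s1cnt f (pre A n) := by
  intro n n' hn
  show s1cnt f (pre A n) ≤ s1cnt f (pre A n')
  unfold s1cnt
  rw [pre_length, pre_length]
  exact Nat.findGreatest_mono (fun k hk s hs => s1ok_mono hH hn (hk s hs)) hn

theorem s1idx_mono (hH : s1hyp f v0 A β) : Monotone fun n => s1idx f (pre A n) :=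
  fun _ _ hn => Nat.sub_le_sub_right (s1cnt_mono hH hn) 1

theorem s1cnt_spec {n s : ℕ} (h : s < s1cnt f (pre A n)) : s1ok f (pre A n, s) := by
  have := Nat.findGreatest_spec (P := fun n' => ∀ s < n', s1ok f (pre A n, s)) (m := 0)
    (n := (pre A n).length) (Nat.zero_le _) (fun s hs => absurd hs (Nat.not_lt_zero _))
  exact this s h

theorem s1val_spec (hH : s1hyp f v0 A β) (n : ℕ) :
    β (s1idx f (pre A n)) = s1q (s1val f v0 (pre A n)) := by
  unfold s1val s1idx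
  split_ifs with h
  · rw [h]
    exact hH.zero
  · have h1 : s1cnt f (pre A n) - 1 < s1cnt f (pre A n) := by omega
    obtain ⟨j, hj, hg⟩ := s1cnt_spec h1
    have h2 := Nat.findGreatest_spec
      (P := fun j => s1good f j (pre A n, s1cnt f (pre A n) - 1)) (m := j)
      (n := (pre A n).length) (Nat.lt_succ_iff.1 hj) hg
    exact s1good_val hH h2

theorem s1ok_ev (hH : s1hyp f v0 A β) (s : ℕ) : ∃ n, s1ok f (pre A n, s) := by
  obtain ⟨k, v, t, h⟩ := hH.tot s
  have hj : s1D (encode (k, v)) = (k, v) := by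
    unfold s1D
    exact Denumerable.ofNat_encode _
  refine ⟨max (encode (k, v)) (max k t), encode (k, v), ?_, ?_, ?_⟩
  · simp only [pre_length]
    omega
  · simp only [pre_length, hj]
    omega
  · simp only [pre_length, hj]
    rw [pre_take_of_le A (by omega)]
    exact hH.mono _ _ _ (by omega) h

theorem s1cnt_ev (hH : s1hyp f v0 A β) (m : ℕ) : ∃ n, m ≤ s1cnt f (pre A n) := by
  choose g hg using s1ok_ev hH
  refine ⟨max m (∑ s ∈ Finset.range m, g s), ?_⟩
  unfold s1cnt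
  refine Nat.le_findGreatest (by rw [pre_length]; exact le_max_left _ _) ?_
  intro s hs
  refine s1ok_mono hH ?_ (hg s)
  refine le_trans ?_ (le_max_right _ _)
  exact Finset.single_le_sum (f := g) (fun _ _ => Nat.zero_le _) (Finset.mem_range.2 hs)

theorem s1idx_tendsto (hH : s1hyp f v0 A β) :
    Tendsto (fun n => s1idx f (pre A n)) atTop atTop := by
  refine tendsto_atTop_atTop_of_monotone (s1idx_mono hH) fun m => ?_
  obtain ⟨n, hn⟩ := s1cnt_ev hH (m + 1)
  refine ⟨n, ?_⟩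
  unfold s1idx
  omega

/-- the last value found with `pre A n` -/
noncomputable def s1b (f : List Bool × ℕ × (ℕ × ℕ × ℕ) → ℕ → Bool) (A : ℕ → Bool) (β : ℕ → ℚ)
    (n : ℕ) : ℝ := (β (s1idx f (pre A n)) : ℝ)

theorem s1b_mono (hH : s1hyp f v0 A β) (hβ : Monotone β) : Monotone (s1b f A β) := by
  intro n n' hn
  unfold s1b
  exact_mod_cast hβ (s1idx_mono hH hn)

theorem s1b_tendsto (hH : s1hyp f v0 A β) {b : ℝ}
    (hb : Tendsto (fun s => (β s : ℝ)) atTop (𝓝 b)) : Tendsto (s1b f A β) atTop (𝓝 b) :=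
  hb.comp (s1idx_tendsto hH)

theorem s1b_le (hH : s1hyp f v0 A β) (hβ : Monotone β) {b : ℝ}
    (hb : Tendsto (fun s => (β s : ℝ)) atTop (𝓝 b)) (n : ℕ) : s1b f A β n ≤ b :=
  (s1b_mono hH hβ).ge_of_tendsto (s1b_tendsto hH hb) n

theorem s1b_tele {n K : ℕ} (h : n ≤ K) :
    ∑ k ∈ Finset.Ico n K, (s1b f A β k - s1b f A β (k - 1)) =
      s1b f A β (K - 1) - s1b f A β (n - 1) := by
  induction K, h using Nat.le_induction with
  | base => simp
  | succ K hK ih =>
    rw [Finset.sum_Ico_succ_top hK, ih, Nat.add_sub_cancel]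
    ring

theorem s1_half (K : ℕ) : ∑ k ∈ Finset.range K, (2 : ℝ)⁻¹ ^ (k + 2) ≤ 1 / 2 := by
  have h : ∀ K : ℕ, ∑ k ∈ Finset.range K, (2 : ℝ)⁻¹ ^ (k + 2) = 1 / 2 - (2 : ℝ)⁻¹ ^ (K + 1) := by
    intro K
    induction K with
    | zero => norm_num
    | succ K ih =>
      rw [Finset.sum_range_succ, ih]
      ring
  rw [h]
  have : (0 : ℝ) ≤ (2 : ℝ)⁻¹ ^ (K + 1) := by positivity
  linarith

theorem s1_delta (hH : s1hyp f v0 A β) (n : ℕ) :
    (s1q (s1val f v0 (pre A n)) : ℝ) - (s1q (s1val f v0 (pre A n).dropLast) : ℝ) =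
      s1b f A β n - s1b f A β (n - 1) := by
  rw [s1_pre_dropLast, ← s1val_spec hH, ← s1val_spec hH]
  rfl

theorem s1_delta_le (hH : s1hyp f v0 A β) (hβ : Monotone β) (n : ℕ) :
    s1q (s1val f v0 (pre A n).dropLast) ≤ s1q (s1val f v0 (pre A n)) := by
  rw [s1_pre_dropLast, ← s1val_spec hH, ← s1val_spec hH]
  exact hβ (s1idx_mono hH (Nat.sub_le _ _))

theorem s1_upper (hH : s1hyp f v0 A β) (hβ : Monotone β) (a n : ℕ) :
    (2 : ℝ)⁻¹ ^ (s1r f v0 a (pre A n)) ≤
      (s1b f A β n - s1b f A β (n - 1)) / 2 ^ (a + 1) + (2 : ℝ)⁻¹ ^ (n + 2) := by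
  have h := s1r_upper (a := a) (s1_delta_le hH hβ n)
  rwa [s1_delta hH, pre_length] at h

theorem s1_lower (hH : s1hyp f v0 A β) (hβ : Monotone β) {a : ℕ} {b : ℝ}
    (hb : Tendsto (fun s => (β s : ℝ)) atTop (𝓝 b)) (ha : b - (β 0 : ℝ) ≤ 2 ^ a) (n : ℕ) :
    s1b f A β n - s1b f A β (n - 1) ≤ 2 ^ (a + 2) * (2 : ℝ)⁻¹ ^ (s1r f v0 a (pre A n)) := by
  have h := s1r_lower (a := a) (s1_delta_le hH hβ n)
  rw [s1_delta hH] at h
  refine h ?_
  have h1 := s1b_le hH hβ hb n
  have h2 : (β 0 : ℝ) ≤ s1b f A β (n - 1) := by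
    unfold s1b
    exact_mod_cast hβ (Nat.zero_le _)
  linarith

/-- the total weight of all initial segments -/
theorem s1_total (hH : s1hyp f v0 A β) (hβ : Monotone β) {a : ℕ} {b : ℝ}
    (hb : Tendsto (fun s => (β s : ℝ)) atTop (𝓝 b)) (ha : b - (β 0 : ℝ) ≤ 2 ^ a) (K : ℕ) :
    ∑ k ∈ Finset.range K, (2 : ℝ)⁻¹ ^ (s1r f v0 a (pre A k)) ≤ 1 := by
  have h1 : ∑ k ∈ Finset.range K, (2 : ℝ)⁻¹ ^ (s1r f v0 a (pre A k)) ≤
      ∑ k ∈ Finset.range K,
        ((s1b f A β k - s1b f A β (k - 1)) / 2 ^ (a + 1) + (2 : ℝ)⁻¹ ^ (k + 2)) :=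
    Finset.sum_le_sum fun k _ => s1_upper hH hβ a k
  rw [Finset.sum_add_distrib, ← Finset.sum_div] at h1
  have h2 : ∑ k ∈ Finset.range K, (s1b f A β k - s1b f A β (k - 1)) ≤ 2 ^ a := by
    rw [Finset.range_eq_Ico, s1b_tele (Nat.zero_le K)]
    have h3 := s1b_le hH hβ hb (K - 1)
    have h4 : (β 0 : ℝ) ≤ s1b f A β (0 - 1) := by
      unfold s1b
      exact_mod_cast hβ (Nat.zero_le _)
    linarith
  have h3 : (∑ k ∈ Finset.range K, (s1b f A β k - s1b f A β (k - 1))) / 2 ^ (a + 1) ≤ 1 / 2 := by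
    rw [div_le_div_iff₀ (by positivity) (by norm_num), pow_succ]
    linarith
  have h4 := s1_half K
  linarith

theorem s1_pre_inj (A : ℕ → Bool) : Function.Injective (pre A) := by
  intro i j h
  have := congrArg List.length h
  simpa [pre_length] using this

/-- all requests together -/
theorem s1_requests (hH : s1hyp f v0 A β) (hβ : Monotone β) {a : ℕ} {b : ℝ}
    (hb : Tendsto (fun s => (β s : ℝ)) atTop (𝓝 b)) (ha : b - (β 0 : ℝ) ≤ 2 ^ a)
    (F : Finset (ℕ × ℕ))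
    (hF : ∀ p ∈ F, ∃ k, p.2 = encode (pre A k) ∧ p.1 = s1r f v0 a (pre A k)) :
    ∑ p ∈ F, (2 : ℝ)⁻¹ ^ p.1 ≤ 1 := by
  classical
  choose! g hg using hF
  set K : ℕ := ∑ p ∈ F, g p + 1 with hK
  have hsub : F ⊆ (Finset.range K).image
      (fun k => (s1r f v0 a (pre A k), encode (pre A k))) := by
    intro p hp
    refine Finset.mem_image.2 ⟨g p, Finset.mem_range.2 ?_, ?_⟩
    · have := Finset.single_le_sum (f := g) (fun _ _ => Nat.zero_le _) hp
      omega
    · exact Prod.ext (hg p hp).2.symm (hg p hp).1.symm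
  refine (Finset.sum_le_sum_of_subset_of_nonneg hsub fun _ _ _ => by positivity).trans ?_
  rw [Finset.sum_image]
  · exact s1_total hH hβ hb ha K
  · intro i _ j _ hij
    exact s1_pre_inj A (encode_injective (congrArg Prod.snd hij))

end Oracle

/-! ## The accepted initial segments -/

section Accepted

open Classical

variable {le : ℕ → ℕ → ℕ → Bool} {r : List Bool → ℕ} {C : ℕ} {A : ℕ → Bool}

theorem s1acc_pre {T i : ℕ} : s1acc le r C T (pre A i) ↔ ∀ j ≤ i, s1nd le r C T (pre A j) := by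
  unfold s1acc
  rw [pre_length]
  constructor
  · intro h j hj
    have := h j (Nat.lt_succ_iff.2 hj)
    rwa [pre_take_of_le A hj] at this
  · intro h j hj
    rw [pre_take_of_le A (Nat.lt_succ_iff.1 hj)]
    exact h j (Nat.lt_succ_iff.1 hj)

theorem s1n_le (t : ℕ) : s1n le r C t (pre A t) ≤ t := Nat.findGreatest_le _

theorem s1n_spec {t i : ℕ} (h : i < s1n le r C t (pre A t)) : s1nd le r C t (pre A i) := by
  have := Nat.findGreatest_spec (P := fun n => ∀ i < n, s1nd le r C t ((pre A t).take i))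
    (m := 0) (n := t) (Nat.zero_le _) (fun s hs => absurd hs (Nat.not_lt_zero _))
  have h1 := this i h
  rwa [pre_take_of_le A (h.le.trans (s1n_le t))] at h1

theorem s1n_max (t : ℕ) : ¬ s1nd le r C t (pre A (s1n le r C t (pre A t))) := by
  intro h
  rcases (s1n_le (le := le) (r := r) (C := C) (A := A) t).lt_or_eq with h1 | h1
  · refine Nat.findGreatest_is_greatest
      (P := fun n => ∀ i < n, s1nd le r C t ((pre A t).take i))
      (Nat.lt_succ_self (s1n le r C t (pre A t))) h1 ?_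
    intro i hi
    rw [pre_take_of_le A (by omega)]
    rcases (Nat.lt_succ_iff.1 hi).lt_or_eq with h2 | h2
    · exact s1n_spec h2
    · rw [h2]
      exact h
  · have := h.1
    rw [h1, pre_length] at this
    omega

theorem s1n_mono (mle : ∀ s t x i, s ≤ t → le s x i = true → le t x i = true) :
    Monotone fun t => s1n le r C t (pre A t) := by
  intro t t' h
  show s1n le r C t (pre A t) ≤ s1n le r C t' (pre A t')
  refine Nat.le_findGreatest ((s1n_le t).trans h) ?_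
  intro i hi
  have h1 : i ≤ t := hi.le.trans (s1n_le t)
  rw [pre_take_of_le A (h1.trans h)]
  exact s1nd_mono mle h (s1n_spec hi)

theorem s1n_notacc {t i : ℕ} (h : s1n le r C t (pre A t) ≤ i) : ¬ s1acc le r C t (pre A i) :=
  fun h1 => s1n_max t (s1acc_pre.1 h1 _ h)

theorem s1nd_ev (mle : ∀ s t x i, s ≤ t → le s x i = true → le t x i = true)
    (h : ∀ k, ∃ s, le s (encode (pre A k)) (r (pre A k) + C) = true) (k : ℕ) :
    ∃ T, s1nd le r C T (pre A k) := by
  obtain ⟨s, hs⟩ := h k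
  refine ⟨max s (max (k + 2) (encode (pre A k) + 1)), ?_, ?_, ?_⟩
  · rw [pre_length]
    omega
  · omega
  · exact mle _ _ _ _ (le_max_left _ _) hs

theorem s1acc_ev (mle : ∀ s t x i, s ≤ t → le s x i = true → le t x i = true)
    (h : ∀ k, ∃ s, le s (encode (pre A k)) (r (pre A k) + C) = true) (t K : ℕ) :
    ∃ T, t ≤ T ∧ ∀ i < K, s1acc le r C T (pre A i) := by
  choose g hg using s1nd_ev mle h
  refine ⟨t + ∑ k ∈ Finset.range K, g k, Nat.le_add_right _ _, ?_⟩
  intro i hi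
  rw [s1acc_pre]
  intro j hj
  refine s1nd_mono mle ?_ (hg j)
  have := Finset.single_le_sum (f := g) (fun _ _ => Nat.zero_le _)
    (Finset.mem_range.2 (lt_of_le_of_lt hj hi))
  omega

end Accepted

/-! ## The result -/

theorem stage1 (S : KSys) (A : ℕ → Bool) (hLK : LK S A) (G : ℕ → Set (ℕ → Bool)) (β : ℕ → ℚ)
    (b : ℝ) (hG : UnifSigmaIn A G) (hβ : CompRatIn A β) (ht : IsTest G β b) :
    ∃ (B : ℕ → ℕ) (a0 : ℕ) (H : ℕ → Set (ℕ → Bool)) (bb : ℝ),
      Primrec B ∧ (∀ t, 2 * B t ≤ B (t + 1)) ∧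
      Tendsto (fun t => (B t : ℝ) / 2 ^ t) atTop (𝓝 bb) ∧
      UnifSigmaIn A H ∧ Antitone H ∧
      (∀ t, lam (H t) ≤ ENNReal.ofReal (2 ^ a0 * (bb - (B t : ℝ) / 2 ^ t))) ∧
      (⋂ m, G m) ⊆ ⋂ t, H t := by
  classical
  obtain ⟨R, hRre, hR1, hR2⟩ := hβ
  obtain ⟨f, hf, mf, ef⟩ := exists_stage hRre
  obtain ⟨k0, v0, hv0⟩ := hR1 0
  have hH : s1hyp f v0 A β := by
    refine ⟨mf, ?_, ?_, hR2 0 k0 v0 hv0⟩
    · intro s
      obtain ⟨k, v, h⟩ := hR1 s
      obtain ⟨t, h'⟩ := (ef (pre A k, s, v)).1 h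
      exact ⟨k, v, t, h'⟩
    · intro s k v t h
      exact hR2 s k v ((ef (pre A k, s, v)).2 ⟨t, h⟩)
  have hβm : Monotone β := ht.mono.monotone
  obtain ⟨a, ha⟩ : ∃ a : ℕ, b - (β 0 : ℝ) ≤ 2 ^ a := by
    obtain ⟨a, ha⟩ := pow_unbounded_of_one_lt (b - (β 0 : ℝ)) (one_lt_two (α := ℝ))
    exact ⟨a, ha.le⟩
  set rr : List Bool → ℕ := s1r f v0 a with hrr
  have hrp : Primrec rr := s1r_prim hf
  have hrle : ∀ ρ, rr ρ ≤ ρ.length + 2 := fun ρ => s1r_le ρ
  -- the requests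
  obtain ⟨C, hC⟩ := hLK (fun ρ r x => x = encode ρ ∧ r = rr ρ)
    (by
      refine re_of_primrec (PrimrecPred.and ?_ ?_)
      · exact Primrec.eq.comp (Primrec.snd.comp Primrec.snd) (Primrec.encode.comp Primrec.fst)
      · exact Primrec.eq.comp (Primrec.fst.comp Primrec.snd) (hrp.comp Primrec.fst))
    (fun F hF => s1_requests hH hβm ht.lim ha F hF)
  have hC' : ∀ k, ∃ s, S.le s (encode (pre A k)) (rr (pre A k) + C) = true :=
    fun k => hC k _ _ ⟨rfl, rfl⟩
  have mle : ∀ s t x i, s ≤ t → S.le s x i = true → S.le t x i = true :=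
    fun s t x i h h' => S.mono_s h h'
  -- the process
  set B : ℕ → ℕ := s1B S.le rr C with hB
  have hBm : Monotone fun t => (B t : ℝ) / 2 ^ t := s1B_mono mle hrle
  have hBb : BddAbove (Set.range fun t => (B t : ℝ) / 2 ^ t) := by
    refine ⟨2 ^ C, ?_⟩
    rintro _ ⟨t, rfl⟩
    exact s1B_bdd S.kraft hrle t
  set bb : ℝ := ⨆ t, (B t : ℝ) / 2 ^ t with hbb
  have hBle : ∀ t, (B t : ℝ) / 2 ^ t ≤ bb := fun t => le_ciSup hBb t
  obtain ⟨C0, hC0⟩ := ht.bound
  obtain ⟨c0, hc0⟩ : ∃ c0 : ℕ, C0 ≤ 2 ^ c0 := by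
    obtain ⟨c, hc⟩ := pow_unbounded_of_one_lt C0 (one_lt_two (α := ℝ))
    exact ⟨c, hc.le⟩
  set M : ℕ → List Bool → ℕ := fun t τ => s1idx f (τ.take (s1n S.le rr C t τ - 1)) with hM
  have hMp : Primrec₂ M := by
    refine (s1idx_prim hf).comp (Primrec.list_take.comp ?_ Primrec.snd)
    exact Primrec.nat_sub.comp (s1n_prim S.prim hrp) (Primrec.const 1)
  have hMt : ∀ t, M t (pre A t) = s1idx f (pre A (s1n S.le rr C t (pre A t) - 1)) := by
    intro t
    show s1idx f ((pre A t).take (s1n S.le rr C t (pre A t) - 1)) = _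
    rw [pre_take_of_le A ((Nat.sub_le _ _).trans (s1n_le t))]
  have hMm : Monotone fun t => M t (pre A t) := by
    intro t t' h
    show M t (pre A t) ≤ M t' (pre A t')
    rw [hMt, hMt]
    exact s1idx_mono hH (Nat.sub_le_sub_right (s1n_mono mle h) 1)
  refine ⟨B, a + 2 + c0, fun t => G (M t (pre A t)), bb, s1B_prim S.prim hrp,
    s1B_step mle hrle, tendsto_atTop_ciSup hBm hBb, ?_, fun t t' h => ht.anti (hMm h), ?_, ?_⟩
  · -- uniformly Σ⁰₁(A)
    obtain ⟨W, hW, hGW⟩ := hG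
    refine ⟨fun ρ t σ => t ≤ ρ.length ∧ ∃ i, W (ρ.take i) (M t (ρ.take t)) σ, ?_, ?_⟩
    · refine re_and (re_of_primrec ?_) (re_exists ?_)
      · exact Primrec.nat_le.comp (Primrec.fst.comp Primrec.snd)
          (Primrec.list_length.comp Primrec.fst)
      · refine re_comp (f := fun q : (List Bool × ℕ × List Bool) × ℕ =>
          (q.1.1.take q.2, M q.1.2.1 (q.1.1.take q.1.2.1), q.1.2.2)) hW (Primrec.to_comp ?_)
        have h1 : Primrec (fun q : (List Bool × ℕ × List Bool) × ℕ => q.1.1) :=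
          Primrec.fst.comp Primrec.fst
        have h2 : Primrec (fun q : (List Bool × ℕ × List Bool) × ℕ => q.1.2.1) :=
          Primrec.fst.comp (Primrec.snd.comp Primrec.fst)
        have h3 : Primrec (fun q : (List Bool × ℕ × List Bool) × ℕ => q.1.2.2) :=
          Primrec.snd.comp (Primrec.snd.comp Primrec.fst)
        exact (Primrec.list_take.comp Primrec.snd h1).pair
          ((hMp.comp h2 (Primrec.list_take.comp h2 h1)).pair h3)
    · intro t
      show G (M t (pre A t)) = _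
      rw [hGW]
      congr 1
      funext σ
      refine propext ⟨?_, ?_⟩
      · rintro ⟨k, hk⟩
        refine ⟨max k t, by rw [pre_length]; exact le_max_right _ _, k, ?_⟩
        rw [pre_take_of_le A (le_max_left _ _), pre_take_of_le A (le_max_right _ _)]
        exact hk
      · rintro ⟨k, hk, i, hi⟩
        rw [pre_length] at hk
        rw [pre_take_of_le A hk, pre_take] at hi
        exact ⟨_, hi⟩
  · -- the measure bound
    intro t
    show lam (G (M t (pre A t))) ≤ _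
    refine (hC0 _).trans (ENNReal.ofReal_le_ofReal ?_)
    rw [hMt]
    set n := s1n S.le rr C t (pre A t) with hn
    show C0 * (b - s1b f A β (n - 1)) ≤ _
    have h1 : b - s1b f A β (n - 1) ≤ 2 ^ (a + 2) * (bb - (B t : ℝ) / 2 ^ t) := by
      have hlim : Tendsto (fun K => s1b f A β (K - 1) - s1b f A β (n - 1)) atTop
          (𝓝 (b - s1b f A β (n - 1))) :=
        ((s1b_tendsto hH ht.lim).comp (tendsto_sub_atTop_nat 1)).sub_const _
      refine le_of_tendsto hlim ?_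
      filter_upwards [eventually_ge_atTop n] with K hK
      rw [← s1b_tele hK]
      obtain ⟨T, hT, hacc⟩ := s1acc_ev mle hC' t K
      have h2 := s1B_gain mle hrle hT ((Finset.Ico n K).image (pre A))
        (by
          intro ρ hρ
          obtain ⟨i, hi, rfl⟩ := Finset.mem_image.1 hρ
          exact hacc i (Finset.mem_Ico.1 hi).2)
        (by
          intro ρ hρ
          obtain ⟨i, hi, rfl⟩ := Finset.mem_image.1 hρ
          exact s1n_notacc (Finset.mem_Ico.1 hi).1)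
      rw [Finset.sum_image (fun i _ j _ h => s1_pre_inj A h)] at h2
      calc ∑ k ∈ Finset.Ico n K, (s1b f A β k - s1b f A β (k - 1))
          ≤ ∑ k ∈ Finset.Ico n K, 2 ^ (a + 2) * (2 : ℝ)⁻¹ ^ (rr (pre A k)) :=
            Finset.sum_le_sum fun k _ => s1_lower hH hβm ht.lim ha k
        _ = 2 ^ (a + 2) * ∑ k ∈ Finset.Ico n K, (2 : ℝ)⁻¹ ^ (rr (pre A k)) := by
            rw [Finset.mul_sum]
        _ ≤ 2 ^ (a + 2) * (bb - (B t : ℝ) / 2 ^ t) := by
            refine mul_le_mul_of_nonneg_left ?_ (by positivity)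
            have h3 := hBle T
            linarith
    have h0 : 0 ≤ b - s1b f A β (n - 1) := sub_nonneg.2 (s1b_le hH hβm ht.lim _)
    calc C0 * (b - s1b f A β (n - 1)) ≤ 2 ^ c0 * (b - s1b f A β (n - 1)) :=
          mul_le_mul_of_nonneg_right hc0 h0
      _ ≤ 2 ^ c0 * (2 ^ (a + 2) * (bb - (B t : ℝ) / 2 ^ t)) :=
          mul_le_mul_of_nonneg_left h1 (by positivity)
      _ = 2 ^ (a + 2 + c0) * (bb - (B t : ℝ) / 2 ^ t) := by ring
  · intro X hX
    refine Set.mem_iInter.2 fun t => ?_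
    exact Set.mem_iInter.1 hX _

end OWR
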