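import Pool.Agent.H77.OW.Stage2b
import Pool.Agent.H77.OW.Stage1

/-!
# Stage 2: the unrelativised test
-/

namespace OWR.Price

open Encodable Finset MeasureTheory Filter Topology

variable {B : ℕ → ℕ} {a0 : ℕ}

theorem gam_mono (le : ℕ → ℕ → ℕ → Bool) (hB : ∀ t, 2 * B t ≤ B (t + 1)) (c : ℕ) :
    Monotone (gam le B a0 c) := by
  refine monotone_nat_of_le_succ fun t => ?_
  have hb : bet B t ≤ bet B (t + 1) := bet_mono hB (Nat.le_succ t)
  have hR : (0 : ℝ) ≤ 2 ^ RR a0 c := by positivity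
  have h5 : 0 ≤ (2 : ℝ) ^ RR a0 c * (bet B (t + 1) - bet B t) :=
    mul_nonneg hR (sub_nonneg.2 hb)
  have h6 : totW (hist le B a0 c t) ≤ totW (hist le B a0 c (t + 1)) := by
    rcases hist_succ le B a0 c t with h | ⟨y, h, hy⟩
    · rw [h]
    · rw [h]
      have := (wR_pos y).le
      simp only [totW, List.map_cons, List.sum_cons]
      linarith
  unfold gam
  nlinarith

theorem totY_nonneg (L : Hist) (k : ℕ) : 0 ≤ totY L k := by
  unfold totY
  apply List.sum_nonneg
  intro x hx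
  obtain ⟨p, -, rfl⟩ := List.mem_map.1 hx
  split
  · exact (mR_pos _).le
  · exact le_rfl

/-- finite sets of strings occurring in a history -/
theorem sum_le_totY (k : ℕ) (L : Hist) : ∀ F : Finset (List Bool),
    (∀ σ ∈ F, ∃ p ∈ L, p.2.1 = k ∧ p.2.2.2.1 = σ) →
    ∑ σ ∈ F, (2 : ℝ)⁻¹ ^ σ.length ≤ totY L k := by
  classical
  induction L with
  | nil =>
    intro F h1
    have : F = ∅ := by
      rw [Finset.eq_empty_iff_forall_notMem]
      intro σ hσ
      obtain ⟨p, hp, -⟩ := h1 σ hσ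
      simp at hp
    rw [this]; simp [totY]
  | cons q L ih =>
    intro F h1
    have e : totY (q :: L) k = (if q.2.1 = k then mR q.2 else 0) + totY L k := by simp [totY]
    rw [e]
    by_cases hq : q.2.1 = k ∧ q.2.2.2.1 ∈ F
    · rw [if_pos hq.1, ← Finset.add_sum_erase F _ hq.2]
      have h3 := ih (F.erase q.2.2.2.1) (by
        intro σ hσ
        obtain ⟨p, hp, hp2, hp3⟩ := h1 σ (Finset.mem_of_mem_erase hσ)
        rcases List.mem_cons.1 hp with rfl | hp
        · exact absurd hp3.symm (Finset.ne_of_mem_erase hσ)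
        · exact ⟨p, hp, hp2, hp3⟩)
      have h4 : mR q.2 = (2 : ℝ)⁻¹ ^ q.2.2.2.1.length := rfl
      rw [h4]
      linarith
    · have h3 := ih F (by
        intro σ hσ
        obtain ⟨p, hp, hp2, hp3⟩ := h1 σ hσ
        rcases List.mem_cons.1 hp with rfl | hp
        · exact absurd ⟨hp2, hp3 ▸ hσ⟩ hq
        · exact ⟨p, hp, hp2, hp3⟩)
      have h4 : (0 : ℝ) ≤ (if q.2.1 = k then mR q.2 else 0) := by
        split
        · exact (mR_pos _).le
        · exact le_rfl
      linarith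

/-- finite sets of accepted strings -/
theorem acc_sum (le : ℕ → ℕ → ℕ → Bool) (hB : ∀ t, 2 * B t ≤ B (t + 1)) (c k : ℕ) {g : ℝ}
    (hg : ∀ t, gam le B a0 c t ≤ g) (F : Finset (List Bool)) (hF : ∀ σ ∈ F, Acc le B a0 c k σ) :
    ∑ σ ∈ F, (2 : ℝ)⁻¹ ^ σ.length ≤ g - gam le B a0 c k + (2 : ℝ)⁻¹ ^ k := by
  classical
  have hsub : ∀ {t t'}, t ≤ t' → ∀ p ∈ hist le B a0 c t, p ∈ hist le B a0 c t' := by
    intro t t' htt
    induction t', htt using Nat.le_induction with
    | base => exact fun p hp => hp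
    | succ t' _ ih =>
      intro p hp
      rcases hist_succ le B a0 c t' with h | ⟨y, h, hy⟩
      · rw [h]; exact ih p hp
      · rw [h]; exact List.mem_cons_of_mem _ (ih p hp)
  choose! τ hτ using hF
  set T := max k (F.sup τ) with hT
  have h1 : ∀ σ ∈ F, ∃ p ∈ hist le B a0 c T, p.2.1 = k ∧ p.2.2.2.1 = σ := by
    intro σ hσ
    obtain ⟨p, hp, hp2⟩ := hτ σ hσ
    exact ⟨p, hsub (le_trans (Finset.le_sup hσ) (le_max_right _ _)) p hp, hp2⟩
  have h2 := sum_le_totY k (hist le B a0 c T) F h1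
  have h3 := sl_nonneg le a0 hB c (le_max_left k (F.sup τ))
  rw [← hT] at h3
  unfold sl at h3
  have := hg T
  linarith

/-- numerator of `gam` over `2 ^ t` -/
def gamN (le : ℕ → ℕ → ℕ → Bool) (B : ℕ → ℕ) (a0 c t : ℕ) : ℕ :=
  2 ^ RR a0 c * B t + sumW (hist le B a0 c t) t 0

theorem gamN_cast (le : ℕ → ℕ → ℕ → Bool) (B : ℕ → ℕ) (a0 c t : ℕ) :
    (gamN le B a0 c t : ℝ) = 2 ^ t * gam le B a0 c t := by
  unfold gamN gam
  push_cast
  rw [sumW_cast]
  have h5 : (B t : ℝ) = 2 ^ t * bet B t := by unfold bet; field_simp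
  have h6 : ((hist le B a0 c t).map fun p => if 0 ≤ p.1 then wR p.2 else 0).sum =
      totW (hist le B a0 c t) := by simp [totW]
  rw [h5, h6]
  ring

theorem prim_gamN (S : KSys) (hB : Primrec B) (c : ℕ) : Primrec (gamN S.le B a0 c) := by
  unfold gamN
  have hL : Primrec fun t => hist S.le B a0 c t :=
    (prim_hist S.prim hB).comp (Primrec.const c) Primrec.id
  exact Primrec.nat_add.comp (Primrec.nat_mul.comp (Primrec.const _) hB)
    (prim_sumW hL Primrec.id (Primrec.const 0))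

end OWR.Price

namespace OWR

open Price Encodable Finset MeasureTheory Filter Topology

theorem stage2 (S : KSys) (A : ℕ → Bool) (hLK : LK S A) (B : ℕ → ℕ) (a0 : ℕ)
    (H : ℕ → Set (ℕ → Bool)) (bb : ℝ) (hB : Primrec B) (hB2 : ∀ t, 2 * B t ≤ B (t + 1))
    (hlim : Tendsto (fun t => (B t : ℝ) / 2 ^ t) atTop (𝓝 bb)) (hH : UnifSigmaIn A H)
    (hm : ∀ t, lam (H t) ≤ ENNReal.ofReal (2 ^ a0 * (bb - (B t : ℝ) / 2 ^ t))) :
    ∃ (G : ℕ → Set (ℕ → Bool)) (β : ℕ → ℚ) (b : ℝ), UnifSigma G ∧ CompRat β ∧ IsTest G β b ∧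
      (⋂ t, H t) ⊆ ⋂ m, G m := by
  obtain ⟨W, hW, hWH⟩ := hH
  obtain ⟨f, hf, mf, ef⟩ := exists_stage hW
  set w : ℕ → List Bool → ℕ → List Bool → Bool := fun l ρ r σ => f (ρ, r, σ) l with hwdef
  have hw : Primrec (fun p : ℕ × List Bool × ℕ × List Bool => w p.1 p.2.1 p.2.2.1 p.2.2.2) :=
    hf.comp Primrec.snd Primrec.fst
  have mw : ∀ {s t ρ r σ}, s ≤ t → w s ρ r σ = true → w t ρ r σ = true :=
    fun hst h => mf _ _ _ hst h
  obtain ⟨c, hc⟩ := exists_c (w := w) (a0 := a0) S A hLK hB hB2 hw (fun h => mw h)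
  have hbm : Monotone (bet B) := bet_mono hB2
  have hble : ∀ t, bet B t ≤ bb := fun t => hbm.ge_of_tendsto hlim t
  -- the limit of gam
  have hgm : Monotone (gam S.le B a0 c) := gam_mono S.le hB2 c
  have hgb : ∀ t, gam S.le B a0 c t ≤ 2 ^ RR a0 c * bb + 4 ^ c := by
    intro t
    unfold gam
    have h1 := totW_le S B a0 c t
    have h2 : (0 : ℝ) < 2 ^ RR a0 c := by positivity
    have h3 := hble t
    nlinarith
  obtain ⟨g, hg⟩ : ∃ g, Tendsto (gam S.le B a0 c) atTop (𝓝 g) :=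
    ⟨_, tendsto_atTop_ciSup hgm ⟨_, by rintro x ⟨t, rfl⟩; exact hgb t⟩⟩
  have hgle : ∀ t, gam S.le B a0 c t ≤ g := fun t => hgm.ge_of_tendsto hg t
  -- the test
  let V : ℕ → List Bool → Prop := fun m τ => ∀ k ∈ List.range (m + 1), ∃ t,
    ∃ p ∈ hist S.le B a0 c t, p.2.1 = k ∧ p.2.2.2.1 = τ.take p.2.2.2.1.length
  have hVacc : ∀ m, opn (V m) ⊆ opn (Acc S.le B a0 c m) := by
    rintro m X ⟨n, hn⟩
    obtain ⟨t, p, hp, h1, h2⟩ := hn m (List.mem_range.2 (Nat.lt_succ_self m))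
    refine ⟨p.2.2.2.1.length, t, p, hp, h1, ?_⟩
    rw [pre_take] at h2
    have h3 : p.2.2.2.1.length = min p.2.2.2.1.length n := by
      have := congrArg List.length h2
      rwa [pre_length] at this
    rw [← h3] at h2
    exact h2
  refine ⟨fun m => opn (V m), fun m => ((gamN S.le B a0 c m : ℚ) - ((1 : ℕ) : ℚ)) /
    (((2 ^ m - 1 : ℕ) : ℚ) + 1), g, ?_, ?_, ?_, ?_⟩
  · -- uniformly Σ⁰₁
    refine ⟨V, ?_, fun m => rfl⟩
    refine re_forall_mem (p := fun (q : ℕ × List Bool) (k : ℕ) => ∃ t,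
      ∃ p ∈ hist S.le B a0 c t, p.2.1 = k ∧ p.2.2.2.1 = q.2.take p.2.2.2.1.length)
      (l := fun q => List.range (q.1 + 1)) ?_ ?_
    · refine re_of_prim (R := fun (q : (ℕ × List Bool) × ℕ) (t : ℕ) =>
        ∃ p ∈ hist S.le B a0 c t, p.2.1 = q.2 ∧
          p.2.2.2.1 = q.1.2.take p.2.2.2.1.length) ?_
      have hR : PrimrecRel (fun (p : ℕ × Item) (q : (ℕ × List Bool) × ℕ) => p.2.1 = q.2 ∧
          p.2.2.2.1 = q.1.2.take p.2.2.2.1.length) := by
        have hs : Primrec (fun a : (ℕ × Item) × ((ℕ × List Bool) × ℕ) => a.1.2.2.2.1) :=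
          Primrec.fst.comp (Primrec.snd.comp (Primrec.snd.comp (Primrec.snd.comp Primrec.fst)))
        refine PrimrecPred.and (Primrec.eq.comp (Primrec.fst.comp (Primrec.snd.comp Primrec.fst))
          (Primrec.snd.comp Primrec.snd)) (Primrec.eq.comp hs ?_)
        exact Primrec.list_take.comp (Primrec.list_length.comp hs)
          (Primrec.snd.comp (Primrec.fst.comp Primrec.snd))
      exact (PrimrecRel.exists_mem_list hR).comp
        ((prim_hist S.prim hB).comp (Primrec.const c) Primrec.snd) Primrec.fst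
    · exact Primrec.list_range.comp (Primrec.nat_add.comp Primrec.fst (Primrec.const 1))
  · -- computable
    refine ⟨gamN S.le B a0 c, fun _ => 1, fun m => 2 ^ m - 1, (prim_gamN S hB c).to_comp,
      (Primrec.const 1).to_comp, ?_, fun s => rfl⟩
    exact (Primrec.nat_sub.comp (prim_pow2 Primrec.id) (Primrec.const 1)).to_comp
  · -- the test conditions
    have hβ : ∀ m, ((((gamN S.le B a0 c m : ℚ) - ((1 : ℕ) : ℚ)) /
        (((2 ^ m - 1 : ℕ) : ℚ) + 1) : ℚ) : ℝ) = gam S.le B a0 c m - (2 : ℝ)⁻¹ ^ m := by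
      intro m
      have h1 : (((2 ^ m - 1 : ℕ) : ℚ) + 1) = 2 ^ m := by
        have : 1 ≤ 2 ^ m := Nat.one_le_two_pow
        push_cast [Nat.cast_sub this]; ring
      rw [h1]
      push_cast
      rw [gamN_cast, inv_pow]
      field_simp
    constructor
    · -- antitone
      intro m m' hmm
      rintro X ⟨n, hn⟩
      refine ⟨n, fun k hk => hn k ?_⟩
      rw [List.mem_range] at hk ⊢
      omega
    · refine strictMono_nat_of_lt_succ fun m => ?_
      have h1 := hgm (Nat.le_succ m)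
      have h2 : (2 : ℝ)⁻¹ ^ (m + 1) < (2 : ℝ)⁻¹ ^ m := by
        apply pow_lt_pow_right_of_lt_one₀ (by norm_num) (by norm_num) (Nat.lt_succ_self m)
      have h3 := hβ m
      have h4 := hβ (m + 1)
      have : ((((gamN S.le B a0 c m : ℚ) - ((1 : ℕ) : ℚ)) /
        (((2 ^ m - 1 : ℕ) : ℚ) + 1) : ℚ) : ℝ) < ((((gamN S.le B a0 c (m + 1) : ℚ) -
          ((1 : ℕ) : ℚ)) / (((2 ^ (m + 1) - 1 : ℕ) : ℚ) + 1) : ℚ) : ℝ) := by
        rw [h3, h4]; simp only [Nat.succ_eq_add_one] at h1; linarith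
      exact_mod_cast this
    · have h1 : Tendsto (fun m : ℕ => (2 : ℝ)⁻¹ ^ m) atTop (𝓝 0) :=
        tendsto_pow_atTop_nhds_zero_of_lt_one (by norm_num) (by norm_num)
      have h2 := hg.sub h1
      rw [sub_zero] at h2
      exact h2.congr fun m => (hβ m).symm
    · refine ⟨1, fun m => ?_⟩
      rw [hβ m, one_mul]
      refine (measure_mono (hVacc m)).trans ?_
      refine lam_opn_le _ _ fun F hF => ?_
      have := acc_sum S.le hB2 c m hgle F hF
      linarith
  · -- coverage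
    intro X hX
    rw [Set.mem_iInter] at hX ⊢
    intro m
    have hk : ∀ k, ∃ l, Acc S.le B a0 c k (pre X l) := by
      intro k
      -- the final step
      have hsm : Monotone fun t => stp B a0 c k t := stp_mono a0 hB2 c k
      have hbd : ∃ M, ∀ t, stp B a0 c k t ≤ M := by
        obtain ⟨M, hM⟩ := exists_nat_ge (bb * 2 ^ DD a0 c k)
        refine ⟨M, fun t => ?_⟩
        have h1 := (stp_spec (B := B) a0 c k t).1
        have h2 : bet B t * 2 ^ DD a0 c k ≤ bb * 2 ^ DD a0 c k := by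
          have := hble t
          gcongr
        exact_mod_cast h1.trans (h2.trans hM)
      obtain ⟨n, t0, hn0⟩ : ∃ n t0, ∀ t, t0 ≤ t → stp B a0 c k t = n := by
        obtain ⟨M, hM⟩ := hbd
        have hex : ∃ d, ∃ t, M - stp B a0 c k t = d := ⟨_, 0, rfl⟩
        classical
        obtain ⟨t0, ht0⟩ := Nat.find_spec hex
        refine ⟨stp B a0 c k t0, t0, fun t ht => ?_⟩
        have h1 := Nat.find_min' hex ⟨t, rfl⟩
        have h2 := hsm ht
        have h3 := hM t
        have h4 := hM t0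
        simp only at h2
        omega
      have hexr : ∃ r, k ≤ r ∧ stp B a0 c k r = n :=
        ⟨max k t0, le_max_left _ _, hn0 _ (le_max_right _ _)⟩
      classical
      set r := Nat.find hexr with hr
      obtain ⟨hr1, hr2⟩ : k ≤ r ∧ stp B a0 c k r = n := Nat.find_spec hexr
      have hfst : Price.fst B a0 c k n r := by
        refine ⟨hr1, hr2, ?_⟩
        rcases Nat.eq_or_lt_of_le hr1 with h | h
        · left; exact h.symm
        · right
          intro he
          exact Nat.find_min hexr (show r - 1 < r by omega) ⟨by omega, he⟩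
      have hn : ∀ t, r ≤ t → stp B a0 c k t = n := by
        intro t ht
        have h1 := hsm ht
        have h2 := hsm (le_max_left t t0)
        have h3 := hn0 (max t t0) (le_max_right _ _)
        simp only at h1 h2
        omega
      -- measure of H r
      have hmr : lam (H r) ≤ ENNReal.ofReal ((2 : ℝ)⁻¹ ^ (k + 2 * c + 6)) := by
        refine (hm r).trans (ENNReal.ofReal_le_ofReal ?_)
        have h1 : bb ≤ ((n : ℝ) + 1) * (2 : ℝ)⁻¹ ^ DD a0 c k := by
          refine le_of_tendsto hlim ?_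
          filter_upwards [eventually_ge_atTop r] with t ht
          have h2 := (stp_spec (B := B) a0 c k t).2
          rw [hn t ht] at h2
          have h3 : (0 : ℝ) < 2 ^ DD a0 c k := by positivity
          rw [inv_pow, ← div_eq_mul_inv, le_div_iff₀ h3]
          exact h2.le
        have h2 : (n : ℝ) * (2 : ℝ)⁻¹ ^ DD a0 c k ≤ bet B r := by
          have h2 := (stp_spec (B := B) a0 c k r).1
          rw [hr2] at h2
          have h3 : (0 : ℝ) < 2 ^ DD a0 c k := by positivity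
          rw [inv_pow, ← div_eq_mul_inv, div_le_iff₀ h3]
          exact h2
        have h3 : bb - (B r : ℝ) / 2 ^ r ≤ (2 : ℝ)⁻¹ ^ DD a0 c k := by
          have : bet B r = (B r : ℝ) / 2 ^ r := rfl
          rw [← this]; nlinarith
        have h4 : DD a0 c k = a0 + (k + 2 * c + 6) := by unfold DD RR; ring
        rw [h4, pow_add] at h3
        calc 2 ^ a0 * (bb - (B r : ℝ) / 2 ^ r)
            ≤ 2 ^ a0 * ((2 : ℝ)⁻¹ ^ a0 * (2 : ℝ)⁻¹ ^ (k + 2 * c + 6)) := by gcongr
          _ = (2 : ℝ)⁻¹ ^ (k + 2 * c + 6) := by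
            rw [← mul_assoc, ← mul_pow]; norm_num
      obtain ⟨l, hl⟩ := cell_cover (w := w) (fun h => mw h) (W := W)
        (fun ρ r σ => ef (ρ, r, σ)) A (max (k + 1) r) (k + 2 * c + 6) r (hWH r) hmr (hX r)
      exact ⟨l, accepted (w := w) S A X hc hfst hn hl⟩
    choose l hl using hk
    refine ⟨(Finset.range (m + 1)).sup l, fun k hk => ?_⟩
    obtain ⟨t, p, hp, h1, h2⟩ := hl k
    refine ⟨t, p, hp, h1, ?_⟩
    rw [h2, pre_length, pre_take_of_le]
    exact Finset.le_sup (f := l) (Finset.mem_range.2 (List.mem_range.1 hk))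

/-- Part I: low for K implies low for Oberwolfach randomness. -/
theorem low_of_lk (S : KSys) (A : ℕ → Bool) (hLK : LK S A) : LowForOW A := by
  intro Z hZ G β b hG hβ ht hmem
  obtain ⟨B, a0, H, bb, h1, h2, h3, h4, -, h5, h6⟩ := stage1 S A hLK G β b hG hβ ht
  obtain ⟨G', β', b', g1, g2, g3, g4⟩ := stage2 S A hLK B a0 H bb h1 h2 h3 h4 h5
  exact hZ G' β' b' g1 g2 g3 (g4 (h6 hmem))

end OWR
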