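import Pool.Agent.H77.OW.PriceBound
import Pool.Agent.H77.OW.Cells

/-!
# Stage 2: the request set of the price process and its total weight
-/

namespace OWR.Price

open Encodable Finset

variable {le : ℕ → ℕ → ℕ → Bool} {B : ℕ → ℕ} {a0 : ℕ}

/-- `r` is the first stage `≥ k` in step `n` -/
def fst (B : ℕ → ℕ) (a0 c k n r : ℕ) : Prop :=
  k ≤ r ∧ stp B a0 c k r = n ∧ (r = k ∨ stp B a0 c k (r - 1) ≠ n)

theorem fst_unique (hB : ∀ t, 2 * B t ≤ B (t + 1)) {c k n r r' : ℕ} (h : fst B a0 c k n r)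
    (h' : fst B a0 c k n r') : r = r' := by
  have key : ∀ {r r'}, fst B a0 c k n r → fst B a0 c k n r' → ¬ r < r' := by
    intro r r' h h' hlt
    obtain ⟨h1, h2, h3⟩ := h
    obtain ⟨h1', h2', h3'⟩ := h'
    rcases h3' with h3' | h3'
    · omega
    · apply h3'
      have m1 := stp_mono a0 hB c k (show r ≤ r' - 1 by omega)
      have m2 := stp_mono a0 hB c k (show r' - 1 ≤ r' by omega)
      simp only at m1 m2
      omega
  rcases lt_trichotomy r r' with hl | hl | hl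
  · exact absurd hl (key h h')
  · exact hl
  · exact absurd hl (key h' h)

/-- the item `y` is issued by process `c` with oracle string `ρ` -/
def issued (le : ℕ → ℕ → ℕ → Bool) (B : ℕ → ℕ) (a0 : ℕ)
    (w : ℕ → List Bool → ℕ → List Bool → Bool) (c : ℕ) (ρ : List Bool) (y : Item) : Prop :=
  (∃ r, fst B a0 c y.1 y.2.1 r ∧
    cell w (max (y.1 + 1) r) (y.1 + 2 * c + 6) ρ r y.2.2.1) ∧
  ∃ t, y.1 ≤ t ∧ y.2.2.1.length ≤ t ∧ stp B a0 c y.1 t = y.2.1 ∧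
    lev B a0 c (hist le B a0 c t) t y.1 = y.2.2.2

/-- total weight of the history is at most `4 ^ c` -/
theorem totW_le (S : KSys) (B : ℕ → ℕ) (a0 c t : ℕ) : totW (hist S.le B a0 c t) ≤ 4 ^ c := by
  classical
  have hnd : ∀ t, ((hist S.le B a0 c t).map Prod.snd).Nodup := by
    intro t
    induction t with
    | zero => simp [hist]
    | succ t ih =>
      rcases hist_succ S.le B a0 c t with h | ⟨y, h, hy⟩
      · rw [h]; exact ih
      · rw [h, List.map_cons, List.nodup_cons]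
        refine ⟨fun hmem => ?_, ih⟩
        obtain ⟨p, hp, hpy⟩ := List.mem_map.1 hmem
        have h5 := hy.2.2.2.2.1 p hp
        rw [hpy] at h5
        exact h5 ⟨rfl, rfl⟩
  have hsum : totW (hist S.le B a0 c t) =
      ∑ y ∈ ((hist S.le B a0 c t).map Prod.snd).toFinset, wR y := by
    rw [List.sum_toFinset _ (hnd t)]
    unfold totW
    rw [List.map_map]; rfl
  rw [hsum]
  set Y := ((hist S.le B a0 c t).map Prod.snd).toFinset with hY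
  have hK := S.kraft (Y.image fun y => encode (c, y))
    (fun x => ((decode (α := ℕ × Item) x).elim 0 fun q => wex q.2 + 2 * c)) (by
      intro x hx
      obtain ⟨y, hy, rfl⟩ := Finset.mem_image.1 hx
      rw [hY, List.mem_toFinset] at hy
      obtain ⟨p, hp, rfl⟩ := List.mem_map.1 hy
      refine ⟨p.1, ?_⟩
      have := (hist_mem S.le B a0 c t p hp).2.2.2.2
      simpa using this)
  rw [Finset.sum_image (fun y _ y' _ h => by simpa using h)] at hK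
  have h2 : ∀ y ∈ Y, (2 : ℝ)⁻¹ ^ ((decode (α := ℕ × Item) (encode (c, y))).elim 0
      fun q => wex q.2 + 2 * c) = wR y * (4 : ℝ)⁻¹ ^ c := by
    intro y _
    rw [encodek]
    simp only [Option.elim]
    unfold wR
    rw [pow_add, pow_mul]
    norm_num
  rw [Finset.sum_congr rfl h2, ← Finset.sum_mul, inv_pow, ← div_eq_mul_inv,
    div_le_one (by positivity)] at hK
  exact hK

theorem sum_own_le (L : Hist) (K : Finset ℕ) : ∑ k ∈ K, ownW L k ≤ totW L := by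
  induction L with
  | nil => simp [ownW, totW]
  | cons p L ih =>
    have e1 : ∀ k, ownW (p :: L) k = (if p.2.1 = k then wR p.2 else 0) + ownW L k := by
      intro k; simp [ownW]
    have e2 : totW (p :: L) = wR p.2 + totW L := by simp [totW]
    simp only [e1, e2, Finset.sum_add_distrib]
    have : ∑ k ∈ K, (if p.2.1 = k then wR p.2 else 0) ≤ wR p.2 := by
      rw [Finset.sum_ite_eq]
      have := (wR_pos p.2).le
      split <;> linarith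
    linarith

variable {w : ℕ → List Bool → ℕ → List Bool → Bool}

/-- per block -/
theorem issued_block (hB : ∀ t, 2 * B t ≤ B (t + 1))
    (mw : ∀ {s t ρ r σ}, s ≤ t → w s ρ r σ = true → w t ρ r σ = true)
    (A : ℕ → Bool) (c k : ℕ) (Y : Finset Item) (T : ℕ)
    (hY : ∀ y ∈ Y, y.1 = k ∧ (∃ r, fst B a0 c y.1 y.2.1 r ∧
      cell w (max (y.1 + 1) r) (y.1 + 2 * c + 6) (pre A y.2.2.1.length) r y.2.2.1) ∧
      ∃ t, y.1 ≤ t ∧ t ≤ T ∧ stp B a0 c y.1 t = y.2.1 ∧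
        lev B a0 c (hist le B a0 c t) t y.1 = y.2.2.2) :
    ∑ y ∈ Y, wR y ≤ (2 : ℝ)⁻¹ ^ (k + 2 * c + 6) *
      (4 + 16 * 2 ^ (k + 1) * ownW (hist le B a0 c T) k) := by
  classical
  set J := Y.image (fun y => (y.2.1, y.2.2.2)) with hJ
  have h1 : ∑ y ∈ Y, wR y =
      ∑ p ∈ J, ∑ y ∈ Y.filter (fun y => (y.2.1, y.2.2.2) = p), wR y :=
    (Finset.sum_fiberwise_of_maps_to (fun y hy => Finset.mem_image_of_mem _ hy) _).symm
  have h2 : ∀ p ∈ J, ∑ y ∈ Y.filter (fun y => (y.2.1, y.2.2.2) = p), wR y ≤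
      (2 : ℝ)⁻¹ ^ p.2 * (2 : ℝ)⁻¹ ^ (k + 2 * c + 6) := by
    intro p hp
    obtain ⟨y0, hy0, hp0⟩ := Finset.mem_image.1 hp
    obtain ⟨hk0, ⟨r, hr, -⟩, -⟩ := hY y0 hy0
    have hin : ∀ y ∈ Y.filter (fun y => (y.2.1, y.2.2.2) = p), ∀ y' ∈ Y.filter
        (fun y => (y.2.1, y.2.2.2) = p), y.2.2.1 = y'.2.2.1 → y = y' := by
      intro y hy y' hy' he
      obtain ⟨a1, a2⟩ := Finset.mem_filter.1 hy
      obtain ⟨b1, b2⟩ := Finset.mem_filter.1 hy'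
      have c1 := (hY y a1).1
      have c2 := (hY y' b1).1
      have c3 := a2.trans b2.symm
      rw [Prod.mk.injEq] at c3
      obtain ⟨u1, u2, u3, u4⟩ := y
      obtain ⟨v1, v2, v3, v4⟩ := y'
      simp only at *
      rw [c1, c2, c3.1, c3.2, he]
    have e1 : ∑ y ∈ Y.filter (fun y => (y.2.1, y.2.2.2) = p), wR y =
        (2 : ℝ)⁻¹ ^ p.2 * ∑ σ ∈ (Y.filter (fun y => (y.2.1, y.2.2.2) = p)).image
          (fun y => y.2.2.1), (2 : ℝ)⁻¹ ^ σ.length := by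
      rw [Finset.sum_image (fun y hy y' hy' he => hin y hy y' hy' he), Finset.mul_sum]
      apply Finset.sum_congr rfl
      intro y hy
      have := (Finset.mem_filter.1 hy).2
      rw [wR_eq, ← this]
      rfl
    rw [e1]
    refine mul_le_mul_of_nonneg_left ?_ (by positivity)
    refine cell_sum (w := w) (fun h => mw h) A (max (k + 1) r) (k + 2 * c + 6) r _ ?_
    intro σ hσ
    obtain ⟨y, hy, rfl⟩ := Finset.mem_image.1 hσ
    obtain ⟨hy1, hy2⟩ := Finset.mem_filter.1 hy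
    obtain ⟨hk, ⟨r', hr', hc⟩, -⟩ := hY y hy1
    have hrr : r' = r := by
      have c3 := hy2.trans hp0.symm
      rw [Prod.mk.injEq] at c3
      rw [hk, c3.1] at hr'
      rw [hk0] at hr
      exact fst_unique hB hr' hr
    rw [hrr, hk] at hc
    exact hc
  rw [h1]
  refine (Finset.sum_le_sum h2).trans ?_
  rw [← Finset.sum_mul, mul_comm]
  refine mul_le_mul_of_nonneg_left ?_ (by positivity)
  refine block_bound le a0 hB c k T J ?_
  intro p hp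
  obtain ⟨y, hy, rfl⟩ := Finset.mem_image.1 hp
  obtain ⟨hk, -, t, ht1, ht2, ht3, ht4⟩ := hY y hy
  rw [hk] at ht1 ht3 ht4
  exact ⟨t, ht1, ht2, ht3, ht4⟩

theorem geom_sum_le_one (C : Finset ℕ) : ∑ c ∈ C, (2 : ℝ)⁻¹ ^ (c + 1) ≤ 1 := by
  have := geom_le C 0 (fun _ _ => Nat.zero_le _)
  have h2 : ∑ c ∈ C, (2 : ℝ)⁻¹ ^ (c + 1) = 2⁻¹ * ∑ c ∈ C, (2 : ℝ)⁻¹ ^ c := by
    rw [Finset.mul_sum]; apply Finset.sum_congr rfl; intro c _; rw [pow_succ]; ring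
  rw [h2]
  simp only [pow_zero, mul_one] at this
  linarith

/-- the total weight issued by one process is at most one -/
theorem issued_sum_le (S : KSys) (hB : ∀ t, 2 * B t ≤ B (t + 1))
    (mw : ∀ {s t ρ r σ}, s ≤ t → w s ρ r σ = true → w t ρ r σ = true)
    (A : ℕ → Bool) (c : ℕ) (Y : Finset Item)
    (hY : ∀ y ∈ Y, ∃ l, issued S.le B a0 w c (pre A l) y) : ∑ y ∈ Y, wR y ≤ 1 := by
  classical
  have hY' : ∀ y ∈ Y, (∃ r, fst B a0 c y.1 y.2.1 r ∧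
      cell w (max (y.1 + 1) r) (y.1 + 2 * c + 6) (pre A y.2.2.1.length) r y.2.2.1) ∧
      ∃ t, y.1 ≤ t ∧ stp B a0 c y.1 t = y.2.1 ∧
        lev B a0 c (hist S.le B a0 c t) t y.1 = y.2.2.2 := by
    intro y hy
    obtain ⟨l, ⟨r, hr, hc⟩, t, ht1, ht2, ht3, ht4⟩ := hY y hy
    refine ⟨⟨r, hr, ?_⟩, t, ht1, ht3, ht4⟩
    have : l = y.2.2.1.length := by
      have := hc.1
      rwa [pre_length] at this
    rw [← this]; exact hc
  obtain ⟨T, hT⟩ : ∃ T, ∀ y ∈ Y, ∃ t, y.1 ≤ t ∧ t ≤ T ∧ stp B a0 c y.1 t = y.2.1 ∧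
        lev B a0 c (hist S.le B a0 c t) t y.1 = y.2.2.2 := by
    have h : ∀ y ∈ Y, ∃ t, y.1 ≤ t ∧ stp B a0 c y.1 t = y.2.1 ∧
        lev B a0 c (hist S.le B a0 c t) t y.1 = y.2.2.2 := fun y hy => (hY' y hy).2
    choose! τ hτ using h
    refine ⟨Y.sup τ, fun y hy => ⟨τ y, (hτ y hy).1, Finset.le_sup hy, (hτ y hy).2⟩⟩
  set K := Y.image Prod.fst with hK
  have h1 : ∑ y ∈ Y, wR y = ∑ k ∈ K, ∑ y ∈ Y.filter (fun y => y.1 = k), wR y :=
    (Finset.sum_fiberwise_of_maps_to (fun y hy => Finset.mem_image_of_mem _ hy) _).symm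
  have h2 : ∀ k ∈ K, ∑ y ∈ Y.filter (fun y => y.1 = k), wR y ≤
      (2 : ℝ)⁻¹ ^ (2 * c + 3) * (2 : ℝ)⁻¹ ^ (k + 1) +
        2⁻¹ * (4 : ℝ)⁻¹ ^ c * ownW (hist S.le B a0 c T) k := by
    intro k _
    have := issued_block (le := S.le) (a0 := a0) (w := w) hB (fun h => mw h) A c k (Y.filter (fun y => y.1 = k)) T (by
      intro y hy
      obtain ⟨hy1, hy2⟩ := Finset.mem_filter.1 hy
      exact ⟨hy2, (hY' y hy1).1, hT y hy1⟩)
    refine this.trans (le_of_eq ?_)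
    have e1 : (2 : ℝ)⁻¹ ^ (k + 2 * c + 6) = (2 : ℝ)⁻¹ ^ k * (2 : ℝ)⁻¹ ^ (2 * c) * (2 : ℝ)⁻¹ ^ 6 := by
      rw [← pow_add, ← pow_add]
    have e2 : (2 : ℝ)⁻¹ ^ (2 * c) = (4 : ℝ)⁻¹ ^ c := by rw [pow_mul]; norm_num
    have e3 : (2 : ℝ)⁻¹ ^ k * 2 ^ k = 1 := by rw [← mul_pow]; norm_num
    rw [e1, pow_add _ (2 * c) 3, e2, pow_succ (2 : ℝ) k, pow_succ (2 : ℝ)⁻¹ k]
    calc (2 : ℝ)⁻¹ ^ k * (4 : ℝ)⁻¹ ^ c * (2 : ℝ)⁻¹ ^ 6 *
          (4 + 16 * (2 ^ k * 2) * ownW (hist S.le B a0 c T) k)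
        = (4 : ℝ)⁻¹ ^ c * (2 : ℝ)⁻¹ ^ 6 * 4 * (2 : ℝ)⁻¹ ^ k +
          ((2 : ℝ)⁻¹ ^ k * 2 ^ k) * (4 : ℝ)⁻¹ ^ c * (2 : ℝ)⁻¹ ^ 6 * 32 *
            ownW (hist S.le B a0 c T) k := by ring
      _ = _ := by rw [e3]; ring
  rw [h1]
  refine (Finset.sum_le_sum h2).trans ?_
  rw [Finset.sum_add_distrib, ← Finset.mul_sum, ← Finset.mul_sum]
  have h3 := geom_sum_le_one K
  have h4 := (sum_own_le (hist S.le B a0 c T) K).trans (totW_le S B a0 c T)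
  have h5 : (2 : ℝ)⁻¹ ^ (2 * c + 3) ≤ 2⁻¹ := by
    calc (2 : ℝ)⁻¹ ^ (2 * c + 3) ≤ (2 : ℝ)⁻¹ ^ 1 :=
          pow_le_pow_of_le_one (by norm_num) (by norm_num) (by omega)
      _ = 2⁻¹ := pow_one _
  have h6 : 2⁻¹ * (4 : ℝ)⁻¹ ^ c * ∑ k ∈ K, ownW (hist S.le B a0 c T) k ≤ 2⁻¹ := by
    calc 2⁻¹ * (4 : ℝ)⁻¹ ^ c * ∑ k ∈ K, ownW (hist S.le B a0 c T) k
        ≤ 2⁻¹ * (4 : ℝ)⁻¹ ^ c * 4 ^ c := by gcongr
      _ = 2⁻¹ := by rw [mul_assoc, ← mul_pow]; norm_num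
  have h7 : (2 : ℝ)⁻¹ ^ (2 * c + 3) * ∑ k ∈ K, (2 : ℝ)⁻¹ ^ (k + 1) ≤ 2⁻¹ * 1 := by
    have : 0 ≤ ∑ k ∈ K, (2 : ℝ)⁻¹ ^ (k + 1) := Finset.sum_nonneg fun _ _ => by positivity
    gcongr
  linarith

end OWR.Price
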