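import Pool.Agent.H77.OW.Stage2a

/-!
# Stage 2: the request set is r.e. and bounded; consequence of `LK`
-/

namespace OWR.Price

open Encodable Finset

variable {B : ℕ → ℕ} {a0 : ℕ} {w : ℕ → List Bool → ℕ → List Bool → Bool}

theorem prim_fst (hB : Primrec B) {α : Type*} [Primcodable α] {c k n r : α → ℕ} (hc : Primrec c)
    (hk : Primrec k) (hn : Primrec n) (hr : Primrec r) :
    PrimrecPred fun a => fst B a0 (c a) (k a) (n a) (r a) := by
  unfold fst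
  refine PrimrecPred.and (Primrec.nat_le.comp hk hr) ?_
  refine PrimrecPred.and (Primrec.eq.comp (prim_stp hB hc hk hr) hn) ?_
  refine PrimrecPred.or (Primrec.eq.comp hr hk) ?_
  exact PrimrecPred.not (Primrec.eq.comp (prim_stp hB hc hk
    (Primrec.nat_sub.comp hr (Primrec.const 1))) hn)

/-- the request set: `(ρ, q, x)` -/
def reqs (le : ℕ → ℕ → ℕ → Bool) (B : ℕ → ℕ) (a0 : ℕ)
    (w : ℕ → List Bool → ℕ → List Bool → Bool) (ρ : List Bool) (q x : ℕ) : Prop :=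
  ∃ c y, issued le B a0 w c ρ y ∧ x = encode (c, y) ∧ q = c + 1 + wex y

theorem reqs_re (S : KSys) (hB : Primrec B)
    (hw : Primrec (fun p : ℕ × List Bool × ℕ × List Bool => w p.1 p.2.1 p.2.2.1 p.2.2.2)) :
    REPred (fun p : List Bool × ℕ × ℕ => reqs S.le B a0 w p.1 p.2.1 p.2.2) := by
  have hR : PrimrecRel (fun (p : List Bool × ℕ × ℕ) (v : (ℕ × Item) × ℕ × ℕ) =>
      (fst B a0 v.1.1 v.1.2.1 v.1.2.2.1 v.2.1 ∧
        cell w (max (v.1.2.1 + 1) v.2.1) (v.1.2.1 + 2 * v.1.1 + 6) p.1 v.2.1 v.1.2.2.2.1) ∧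
      (v.1.2.1 ≤ v.2.2 ∧ v.1.2.2.2.1.length ≤ v.2.2 ∧
        stp B a0 v.1.1 v.1.2.1 v.2.2 = v.1.2.2.1 ∧
        lev B a0 v.1.1 (hist S.le B a0 v.1.1 v.2.2) v.2.2 v.1.2.1 = v.1.2.2.2.2) ∧
      p.2.2 = encode v.1 ∧ p.2.1 = v.1.1 + 1 + wex v.1.2) := by
    have P : ∀ {β : Type} [Primcodable β] {f : ((ℕ × Item) × ℕ × ℕ) → β}, Primrec f →
        Primrec (fun a : (List Bool × ℕ × ℕ) × ((ℕ × Item) × ℕ × ℕ) => f a.2) :=
      fun hf => hf.comp Primrec.snd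
    have v11 : Primrec (fun v : (ℕ × Item) × ℕ × ℕ => v.1.1) := Primrec.fst.comp Primrec.fst
    have v12 : Primrec (fun v : (ℕ × Item) × ℕ × ℕ => v.1.2) := Primrec.snd.comp Primrec.fst
    have vk : Primrec (fun v : (ℕ × Item) × ℕ × ℕ => v.1.2.1) := Primrec.fst.comp v12
    have vn : Primrec (fun v : (ℕ × Item) × ℕ × ℕ => v.1.2.2.1) :=
      Primrec.fst.comp (Primrec.snd.comp v12)
    have vs : Primrec (fun v : (ℕ × Item) × ℕ × ℕ => v.1.2.2.2.1) :=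
      Primrec.fst.comp (Primrec.snd.comp (Primrec.snd.comp v12))
    have vj : Primrec (fun v : (ℕ × Item) × ℕ × ℕ => v.1.2.2.2.2) :=
      Primrec.snd.comp (Primrec.snd.comp (Primrec.snd.comp v12))
    have vr : Primrec (fun v : (ℕ × Item) × ℕ × ℕ => v.2.1) := Primrec.fst.comp Primrec.snd
    have vt : Primrec (fun v : (ℕ × Item) × ℕ × ℕ => v.2.2) := Primrec.snd.comp Primrec.snd
    have hp1 : Primrec (fun a : (List Bool × ℕ × ℕ) × ((ℕ × Item) × ℕ × ℕ) => a.1.1) :=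
      Primrec.fst.comp Primrec.fst
    have hp21 : Primrec (fun a : (List Bool × ℕ × ℕ) × ((ℕ × Item) × ℕ × ℕ) => a.1.2.1) :=
      Primrec.fst.comp (Primrec.snd.comp Primrec.fst)
    have hp22 : Primrec (fun a : (List Bool × ℕ × ℕ) × ((ℕ × Item) × ℕ × ℕ) => a.1.2.2) :=
      Primrec.snd.comp (Primrec.snd.comp Primrec.fst)
    refine PrimrecPred.and (PrimrecPred.and ?_ ?_) (PrimrecPred.and ?_ (PrimrecPred.and ?_ ?_))
    · exact prim_fst hB (P v11) (P vk) (P vn) (P vr)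
    · have hl0 : Primrec (fun v : (ℕ × Item) × ℕ × ℕ => max (v.1.2.1 + 1) v.2.1) :=
        Primrec.nat_max.comp (Primrec.nat_add.comp vk (Primrec.const 1)) vr
      have hD : Primrec (fun v : (ℕ × Item) × ℕ × ℕ => v.1.2.1 + 2 * v.1.1 + 6) :=
        Primrec.nat_add.comp (Primrec.nat_add.comp vk
          (Primrec.nat_mul.comp (Primrec.const 2) v11)) (Primrec.const 6)
      exact (cell_prim hw).comp (Primrec.pair (Primrec.pair (P hl0) (P hD))
        (Primrec.pair hp1 (Primrec.pair (P vr) (P vs))))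
    · refine PrimrecPred.and (Primrec.nat_le.comp (P vk) (P vt)) ?_
      refine PrimrecPred.and (Primrec.nat_le.comp (Primrec.list_length.comp (P vs)) (P vt)) ?_
      refine PrimrecPred.and (Primrec.eq.comp (prim_stp hB (P v11) (P vk) (P vt)) (P vn)) ?_
      exact Primrec.eq.comp (prim_lev hB (P v11)
        ((prim_hist S.prim hB).comp (P v11) (P vt)) (P vt) (P vk)) (P vj)
    · exact Primrec.eq.comp hp22 (Primrec.encode.comp (P (Primrec.fst)))
    · exact Primrec.eq.comp hp21 (Primrec.nat_add.comp (Primrec.nat_add.comp (P v11)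
        (Primrec.const 1)) (prim_wex.comp (P v12)))
  refine (re_of_prim hR).of_eq ?_
  intro p
  constructor
  · rintro ⟨⟨⟨c, y⟩, r, t⟩, ⟨h1, h2⟩, ⟨h3, h4, h5, h6⟩, h7, h8⟩
    exact ⟨c, y, ⟨⟨r, h1, h2⟩, t, h3, h4, h5, h6⟩, h7, h8⟩
  · rintro ⟨c, y, ⟨⟨r, h1, h2⟩, t, h3, h4, h5, h6⟩, h7, h8⟩
    exact ⟨⟨⟨c, y⟩, r, t⟩, ⟨h1, h2⟩, ⟨h3, h4, h5, h6⟩, h7, h8⟩

theorem reqs_sum (S : KSys) (hB : ∀ t, 2 * B t ≤ B (t + 1))
    (mw : ∀ {s t ρ r σ}, s ≤ t → w s ρ r σ = true → w t ρ r σ = true)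
    (A : ℕ → Bool) (F : Finset (ℕ × ℕ))
    (hF : ∀ p ∈ F, ∃ k, reqs S.le B a0 w (pre A k) p.1 p.2) :
    ∑ p ∈ F, (2 : ℝ)⁻¹ ^ p.1 ≤ 1 := by
  classical
  have h : ∀ p ∈ F, ∃ z : ℕ × Item, (∃ l, issued S.le B a0 w z.1 (pre A l) z.2) ∧
      p.2 = encode z ∧ p.1 = z.1 + 1 + wex z.2 := by
    intro p hp
    obtain ⟨k, c, y, h1, h2, h3⟩ := hF p hp
    exact ⟨(c, y), ⟨k, h1⟩, h2, h3⟩
  choose! z hz using h
  have hinj : ∀ p ∈ F, ∀ p' ∈ F, z p = z p' → p = p' := by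
    intro p hp p' hp' he
    obtain ⟨-, h2, h3⟩ := hz p hp
    obtain ⟨-, h2', h3'⟩ := hz p' hp'
    exact Prod.ext (by rw [h3, h3', he]) (by rw [h2, h2', he])
  set Z := F.image z with hZ
  have e1 : ∑ p ∈ F, (2 : ℝ)⁻¹ ^ p.1 = ∑ v ∈ Z, (2 : ℝ)⁻¹ ^ (v.1 + 1 + wex v.2) := by
    rw [hZ, Finset.sum_image hinj]
    apply Finset.sum_congr rfl
    intro p hp
    rw [← (hz p hp).2.2]
  set K := Z.image Prod.fst with hK
  have e2 : ∑ v ∈ Z, (2 : ℝ)⁻¹ ^ (v.1 + 1 + wex v.2) =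
      ∑ c ∈ K, ∑ v ∈ Z.filter (fun v => v.1 = c), (2 : ℝ)⁻¹ ^ (v.1 + 1 + wex v.2) :=
    (Finset.sum_fiberwise_of_maps_to (fun y hy => Finset.mem_image_of_mem _ hy) _).symm
  have e3 : ∀ c ∈ K, ∑ v ∈ Z.filter (fun v => v.1 = c), (2 : ℝ)⁻¹ ^ (v.1 + 1 + wex v.2) ≤
      (2 : ℝ)⁻¹ ^ (c + 1) := by
    intro c _
    have e4 : ∑ v ∈ Z.filter (fun v => v.1 = c), (2 : ℝ)⁻¹ ^ (v.1 + 1 + wex v.2) =
        (2 : ℝ)⁻¹ ^ (c + 1) * ∑ y ∈ (Z.filter (fun v => v.1 = c)).image Prod.snd, wR y := by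
      rw [Finset.sum_image, Finset.mul_sum]
      · apply Finset.sum_congr rfl
        intro v hv
        have := (Finset.mem_filter.1 hv).2
        unfold wR
        rw [pow_add, this]
      · intro v hv v' hv' he
        have h1 := (Finset.mem_filter.1 (Finset.mem_coe.1 hv)).2
        have h2 := (Finset.mem_filter.1 (Finset.mem_coe.1 hv')).2
        exact Prod.ext (h1.trans h2.symm) he
    rw [e4]
    have h5 : ∑ y ∈ (Z.filter (fun v => v.1 = c)).image Prod.snd, wR y ≤ 1 := by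
      refine issued_sum_le (w := w) (a0 := a0) S hB (fun h => mw h) A c _ ?_
      intro y hy
      obtain ⟨v, hv, rfl⟩ := Finset.mem_image.1 hy
      obtain ⟨hv1, hv2⟩ := Finset.mem_filter.1 hv
      obtain ⟨p, hp, rfl⟩ := Finset.mem_image.1 hv1
      obtain ⟨l, hl⟩ := (hz p hp).1
      rw [hv2] at hl
      exact ⟨l, hl⟩
    have h6 : (0 : ℝ) ≤ (2 : ℝ)⁻¹ ^ (c + 1) := by positivity
    nlinarith
  rw [e1, e2]
  exact (Finset.sum_le_sum e3).trans (geom_sum_le_one K)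

/-- some string `σ` is accepted in block `k` -/
def Acc (le : ℕ → ℕ → ℕ → Bool) (B : ℕ → ℕ) (a0 c k : ℕ) (σ : List Bool) : Prop :=
  ∃ t, ∃ p ∈ hist le B a0 c t, p.2.1 = k ∧ p.2.2.2.1 = σ

/-- the choice of the parameter `c` -/
theorem exists_c (S : KSys) (A : ℕ → Bool) (hLK : LK S A) (hB : Primrec B)
    (hB2 : ∀ t, 2 * B t ≤ B (t + 1))
    (hw : Primrec (fun p : ℕ × List Bool × ℕ × List Bool => w p.1 p.2.1 p.2.2.1 p.2.2.2))
    (mw : ∀ {s t ρ r σ}, s ≤ t → w s ρ r σ = true → w t ρ r σ = true) :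
    ∃ c, ∀ l y, issued S.le B a0 w c (pre A l) y →
      ∃ s, S.le s (encode (c, y)) (wex y + 2 * c) = true := by
  obtain ⟨C, hC⟩ := hLK (reqs S.le B a0 w) (reqs_re S hB hw)
    (fun F hF => reqs_sum (w := w) (a0 := a0) S hB2 (fun h => mw h) A F hF)
  refine ⟨C + 1, fun l y hy => ?_⟩
  obtain ⟨s, hs⟩ := hC l (C + 1 + 1 + wex y) (encode (C + 1, y)) ⟨C + 1, y, hy, rfl, rfl⟩
  refine ⟨s, ?_⟩
  have : C + 1 + 1 + wex y + C = wex y + 2 * (C + 1) := by ring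
  rw [← this]; exact hs

/-- every true cell gets accepted -/
theorem accepted (S : KSys) {c k n r : ℕ} (A X : ℕ → Bool)
    (hc : ∀ l y, issued S.le B a0 w c (pre A l) y →
      ∃ s, S.le s (encode (c, y)) (wex y + 2 * c) = true)
    (hr : fst B a0 c k n r) (hn : ∀ t, r ≤ t → stp B a0 c k t = n) {l : ℕ}
    (hcell : cell w (max (k + 1) r) (k + 2 * c + 6) (pre A l) r (pre X l)) :
    Acc S.le B a0 c k (pre X l) := by
  have hl : max (k + 1) r ≤ l := by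
    have := hcell.2.1
    rwa [pre_length] at this
  have hk1 : k + 1 ≤ l := le_trans (le_max_left _ _) hl
  have hrl : r ≤ l := le_trans (le_max_right _ _) hl
  -- the minimal level
  obtain ⟨t1, ht1, hmin⟩ : ∃ t1, l ≤ t1 ∧ ∀ t, l ≤ t →
      lev B a0 c (hist S.le B a0 c t1) t1 k ≤ lev B a0 c (hist S.le B a0 c t) t k := by
    have hex : ∃ j, ∃ t, l ≤ t ∧ lev B a0 c (hist S.le B a0 c t) t k = j := ⟨_, l, le_rfl, rfl⟩
    classical
    obtain ⟨t1, h1, h2⟩ := Nat.find_spec hex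
    refine ⟨t1, h1, fun t ht => ?_⟩
    rw [h2]
    exact Nat.find_min' hex ⟨t, ht, rfl⟩
  set j := lev B a0 c (hist S.le B a0 c t1) t1 k with hj
  have hiss : issued S.le B a0 w c (pre A l) (k, n, pre X l, j) := by
    refine ⟨⟨r, hr, hcell⟩, t1, by simp only; omega, by simp only [pre_length]; exact ht1,
      hn t1 (by omega), rfl⟩
  obtain ⟨s0, hs0⟩ := hc l _ hiss
  set y : Item := (k, n, pre X l, j) with hy
  set t := Nat.pair (encode y) (s0 + l + wex y) with ht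
  have htge : s0 + l + wex y ≤ t := Nat.right_le_pair _ _
  have hdec : decode (α := Item) t.unpair.1 = some y := by
    rw [ht, Nat.unpair_pair]; exact encodek y
  by_cases hacc : accC S.le B a0 c (hist S.le B a0 c t) t y
  · refine ⟨t + 1, (t, y), ?_, rfl, rfl⟩
    show (t, y) ∈ next S.le B a0 c t (hist S.le B a0 c t)
    unfold next
    rw [hdec]
    simp only [Option.elim, if_pos hacc]
    exact List.mem_cons_self
  · have hwex : wex y = j + l := by simp [hy, wex, pre_length]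
    have hex : ∃ p ∈ hist S.le B a0 c t, p.2.1 = k ∧ p.2.2.2.1 = pre X l := by
      by_contra hno
      apply hacc
      refine ⟨by simp only [hy]; omega, by simp only [hy, pre_length]; exact hk1, by omega,
        (hn t (by omega)).symm, ?_, S.mono_s (by omega) hs0, hmin t (by omega)⟩
      intro p hp hpp
      exact hno ⟨p, hp, hpp⟩
    obtain ⟨p, hp, h1, h2⟩ := hex
    exact ⟨t, p, hp, h1, h2⟩

end OWR.Price
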